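import Pool.Agent.Lib.MP_d5e6ed_al.B.Defs

/-!
# Basic lemmas on `gen`, `LFin`, `MinAss`
-/

set_option autoImplicit false

namespace Pool.Agent.D5

universe u

section gen

variable {G R M : Type*} [Group G] [CommRing R] [AddCommGroup M] [Module R M]
  [DistribMulAction G M]

theorem gen_mono_left {H K : Subgroup G} (h : H ≤ K) (T : Set M) : gen R H T ≤ gen R K T :=
  Submodule.span_mono fun _ ⟨k, hk, x, hx, e⟩ => ⟨k, h hk, x, hx, e⟩

theorem gen_mono_right (H : Subgroup G) {T T' : Set M} (h : T ⊆ T') : gen R H T ≤ gen R H T' :=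
  Submodule.span_mono fun _ ⟨k, hk, x, hx, e⟩ => ⟨k, hk, x, h hx, e⟩

theorem subset_gen (H : Subgroup G) (T : Set M) : T ⊆ (gen R H T : Set M) :=
  fun x hx => Submodule.subset_span ⟨1, H.one_mem, x, hx, (one_smul _ _).symm⟩

theorem smul_mem_gen {H : Subgroup G} {T : Set M} {h : G} (hh : h ∈ H) {x : M} (hx : x ∈ T) :
    h • x ∈ gen R H T := Submodule.subset_span ⟨h, hh, x, hx, rfl⟩

theorem mem_gen_singleton (H : Subgroup G) (x : M) : x ∈ gen R H {x} :=
  subset_gen H {x} (Set.mem_singleton x)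

/-- a subgroup acting `R`-linearly preserves the submodules it generates -/
theorem inv_gen {H : Subgroup G} (hlin : ∀ g ∈ H, ∀ (r : R) (x : M), g • (r • x) = r • (g • x))
    (T : Set M) : Inv R H (gen R H T) := by
  intro h hh x hx
  induction hx using Submodule.span_induction with
  | mem y hy =>
    obtain ⟨k, hk, z, hz, rfl⟩ := hy
    rw [smul_smul]
    exact smul_mem_gen (H.mul_mem hh hk) hz
  | zero => rw [smul_zero]; exact Submodule.zero_mem _
  | add y z _ _ hy hz => rw [smul_add]; exact Submodule.add_mem _ hy hz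
  | smul r y _ hy => rw [hlin h hh]; exact Submodule.smul_mem _ _ hy

theorem gen_le {H : Subgroup G} {T : Set M} {N : Submodule R M} (hN : Inv R H N)
    (hT : T ⊆ (N : Set M)) : gen R H T ≤ N := by
  refine Submodule.span_le.2 ?_
  rintro y ⟨h, hh, x, hx, rfl⟩
  exact hN h hh x (hT hx)

theorem gen_map {C : Subgroup G} (Y : Subgroup C) (T : Set M) :
    gen R (Y.map C.subtype) T = gen R Y T := by
  refine le_antisymm (Submodule.span_mono ?_) (Submodule.span_mono ?_)
  · rintro y ⟨h, hh, x, hx, rfl⟩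
    obtain ⟨k, hk, rfl⟩ := Subgroup.mem_map.1 hh
    exact ⟨k, hk, x, hx, rfl⟩
  · rintro y ⟨h, hh, x, hx, rfl⟩
    exact ⟨h, Subgroup.mem_map.2 ⟨h, hh, rfl⟩, x, hx, rfl⟩

theorem gen_top {C : Subgroup G} (T : Set M) :
    gen R (⊤ : Subgroup C) T = gen R C T := by
  rw [← gen_map]
  refine le_antisymm (gen_mono_left (by rw [← MonoidHom.range_eq_map, Subgroup.range_subtype]) T)
    (gen_mono_left (by rw [← MonoidHom.range_eq_map, Subgroup.range_subtype]) T)

theorem gen_subgroupOf {C X : Subgroup G} (hX : X ≤ C) (T : Set M) :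
    gen R (X.subgroupOf C) T = gen R X T := by
  rw [← gen_map, Subgroup.subgroupOf_map_subtype, inf_eq_left.2 hX]

end gen

section minass

variable {G R M : Type*} [Group G] [CommRing R] [AddCommGroup M] [Module R M]
  [DistribMulAction G M] [MulSemiringAction G R]

/-- the ideal `g p` -/
def tr (g : G) (p : Ideal R) : Ideal R := p.comap (MulSemiringAction.toRingHom G R g⁻¹)

theorem mem_tr {g : G} {p : Ideal R} {r : R} : r ∈ tr g p ↔ g⁻¹ • r ∈ p := Iff.rfl

theorem smul_mem_tr {g : G} {p : Ideal R} {r : R} : g • r ∈ tr g p ↔ r ∈ p := by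
  rw [mem_tr, inv_smul_smul]

theorem tr_one (p : Ideal R) : tr (1 : G) p = p := by
  ext r
  rw [mem_tr, inv_one, one_smul]

theorem tr_mul (g h : G) (p : Ideal R) : tr (g * h) p = tr g (tr h p) := by
  ext r
  rw [mem_tr, mem_tr, mem_tr, mul_inv_rev, mul_smul]

theorem tr_mono {g : G} {p q : Ideal R} (h : p ≤ q) : tr g p ≤ tr g q := fun _ hr => h hr

theorem tr_le_iff {g : G} {p q : Ideal R} : tr g p ≤ tr g q ↔ p ≤ q := by
  refine ⟨fun h => ?_, tr_mono⟩
  have := tr_mono (g := g⁻¹) h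
  rwa [← tr_mul, ← tr_mul, inv_mul_cancel, tr_one, tr_one] at this

theorem tr_isPrime {g : G} {p : Ideal R} (hp : p.IsPrime) : (tr g p).IsPrime :=
  Ideal.IsPrime.comap _

theorem smul_eq_zero_iff_tr (comp : ∀ (g : G) (r : R) (m : M), g • (r • m) = (g • r) • (g • m))
    (g : G) (r : R) (x : M) : r • (g • x) = 0 ↔ (g⁻¹ • r) • x = 0 := by
  have h : g • ((g⁻¹ • r) • x) = r • (g • x) := by rw [comp, smul_inv_smul]
  rw [← h]
  exact smul_eq_zero_iff_eq g

theorem mem_associatedPrimes_iff [IsNoetherianRing R] {p : Ideal R} :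
    p ∈ associatedPrimes R M ↔ p.IsPrime ∧ ∃ x : M, ∀ r : R, r ∈ p ↔ r • x = 0 := by
  rw [AssociatedPrimes.mem_iff, isAssociatedPrime_iff]
  refine and_congr_right fun _ => exists_congr fun x => ?_
  constructor
  · rintro rfl r
    rw [Submodule.mem_colon_singleton, Submodule.mem_bot]
  · intro h
    ext r
    rw [h, Submodule.mem_colon_singleton, Submodule.mem_bot]

theorem tr_mem_associatedPrimes [IsNoetherianRing R]
    (comp : ∀ (g : G) (r : R) (m : M), g • (r • m) = (g • r) • (g • m)) (g : G) {p : Ideal R}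
    (hp : p ∈ associatedPrimes R M) : tr g p ∈ associatedPrimes R M := by
  rw [mem_associatedPrimes_iff] at hp ⊢
  obtain ⟨hp, x, hx⟩ := hp
  refine ⟨tr_isPrime hp, g • x, fun r => ?_⟩
  rw [smul_eq_zero_iff_tr comp, mem_tr, hx]

theorem tr_mem_minAss [IsNoetherianRing R]
    (comp : ∀ (g : G) (r : R) (m : M), g • (r • m) = (g • r) • (g • m)) (g : G) {p : Ideal R}
    (hp : p ∈ MinAss R M) : tr g p ∈ MinAss R M := by
  refine ⟨tr_mem_associatedPrimes comp g hp.1, fun q hq hle => ?_⟩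
  have h1 : tr g⁻¹ q ≤ p := by
    have := tr_mono (g := g⁻¹) hle
    rwa [← tr_mul, inv_mul_cancel, tr_one] at this
  have h2 := hp.2 (tr_mem_associatedPrimes comp g⁻¹ hq) h1
  have h3 := tr_mono (g := g) h2
  rwa [← tr_mul, mul_inv_cancel, tr_one] at h3

end minass

end Pool.Agent.D5
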