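import Pool.Agent.Lib.MP_d5e6ed_al.B.HL

/-!
# CHOICE : a torsion free abelian normal subgroup of maximal Hirsch length (helper19)
-/

set_option autoImplicit false

namespace Pool.Agent.D5

open Subgroup HLaux

theorem exists_max_abelian {G : Type*} [Group G] (hG : PC G) [Infinite G] :
    ∃ A : Subgroup G, A.Normal ∧ A ≠ ⊥ ∧ (∀ x ∈ A, ∀ y ∈ A, x * y = y * x) ∧
      (∀ a ∈ A, IsOfFinOrder a → a = 1) ∧
      ∀ X : Subgroup G, X.Normal → (∀ x ∈ X, ∀ y ∈ X, x * y = y * x) → hl X ≤ hl A := by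
  let S : Set (Subgroup G) := {X | X.Normal ∧ ∀ x ∈ X, ∀ y ∈ X, x * y = y * x}
  have hbot : (⊥ : Subgroup G) ∈ S := by
    refine ⟨inferInstance, ?_⟩
    intro x hx y hy
    rw [Subgroup.mem_bot] at hx hy
    rw [hx, hy]
  obtain ⟨m, hm⟩ := ENat.ne_top_iff_exists.1 (hl_ne_top hG)
  have hfin : ((fun X : Subgroup G => hl X) '' S).Finite := by
    refine Set.Finite.subset ((Set.finite_Iic m).image (fun n : ℕ => (n : ℕ∞))) ?_
    rintro _ ⟨X, -, rfl⟩
    have h1 := hl_subgroup_le X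
    obtain ⟨k, hk⟩ := ENat.ne_top_iff_exists.1 (ne_top_of_le_ne_top (hl_ne_top hG) h1)
    refine ⟨k, ?_, hk⟩
    rw [← hk, ← hm] at h1
    exact_mod_cast h1
  obtain ⟨_, ⟨X, hX, rfl⟩, hmax⟩ := Set.exists_max_image _ id hfin ⟨_, ⊥, hbot, rfl⟩
  obtain ⟨A, hAX, hAn, hAf, hAt⟩ := hG.exists_tf X hX.1 hX.2
  have hlA : hl A = hl X := hl_relIndex hAX hAf
  have hmax' : ∀ Y : Subgroup G, Y.Normal → (∀ x ∈ Y, ∀ y ∈ Y, x * y = y * x) →
      hl Y ≤ hl A := by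
    intro Y h1 h2
    rw [hlA]
    exact hmax _ ⟨Y, ⟨h1, h2⟩, rfl⟩
  refine ⟨A, hAn, ?_, fun x hx y hy => hX.2 x (hAX hx) y (hAX hy), hAt, hmax'⟩
  rintro rfl
  obtain ⟨C, hC1, hC2, hC3⟩ := hG.exists_char
  have h1 : (1 : ℕ∞) ≤ hl C := by
    have h2 : HChain C 1 := by
      refine ⟨fun i => if i = 0 then ⊥ else ⊤, ?_⟩
      intro i hi
      have hi0 : i = 0 := by omega
      subst hi0
      change (⊥ : Subgroup C) ≤ ⊤ ∧ (⊥ : Subgroup C).relIndex ⊤ = 0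
      rw [relIndex_bot_left]
      refine ⟨bot_le, ?_⟩
      have : Infinite (⊤ : Subgroup C) :=
        Infinite.of_injective _ (Subgroup.topEquiv (G := C)).symm.injective
      exact Nat.card_eq_zero_of_infinite
    have h3 := le_hl.2 h2
    rw [Nat.cast_one] at h3
    exact h3
  have h4 := h1.trans (hmax' C inferInstance hC3)
  rw [← Nat.cast_one, le_hl] at h4
  obtain ⟨c, hc⟩ := h4
  have h5 := (hc 0 (by norm_num)).2
  have h6 : c 0 = c (0 + 1) := Subsingleton.elim _ _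
  rw [h6, relIndex_self] at h5
  exact one_ne_zero h5

end Pool.Agent.D5
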