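import Pool.Agent.Lib.MP_d5e6ed_al.B.Basic

/-!
# A commutator acting as a scalar on a finite rank module (module DET, helper17)
-/

set_option autoImplicit false

namespace Pool.Agent.D5

namespace DetAux

open scoped TensorProduct

theorem det_abs {S U : Type*} [CommRing S] [IsDomain S] [AddCommGroup U] [Module S U]
    (f g : U ≃ₗ[S] U) (c : S) (h : ∀ u, f (g (f.symm (g.symm u))) = c • u) (T : Finset U)
    (hT : ∀ u : U, ∃ s : S, s ≠ 0 ∧ s • u ∈ Submodule.span S (T : Set U)) (v : U)
    (hv : ∀ s : S, s ≠ 0 → s • v ≠ 0) : ∃ n : ℕ, 0 < n ∧ c ^ n = 1 := by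
  classical
  let K := FractionRing S
  have hone : ∀ s : S, s ≠ 0 → algebraMap S K s ≠ 0 := fun s hs =>
    (map_ne_zero_iff _ (IsFractionRing.injective S K)).2 hs
  have hfin : Module.Finite K (K ⊗[S] U) := by
    refine ⟨⟨T.image (fun t => (1 : K) ⊗ₜ[S] t), ?_⟩⟩
    rw [eq_top_iff]
    rintro x -
    induction x using TensorProduct.induction_on with
    | zero => exact Submodule.zero_mem _
    | add x y hx hy => exact Submodule.add_mem _ hx hy
    | tmul k u =>
      obtain ⟨s, hs, hsu⟩ := hT u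
      have h1 : ∀ w ∈ Submodule.span S (T : Set U), (1 : K) ⊗ₜ[S] w ∈ Submodule.span K
          ((T.image (fun t => (1 : K) ⊗ₜ[S] t) : Finset (K ⊗[S] U)) : Set (K ⊗[S] U)) := by
        intro w hw
        induction hw using Submodule.span_induction with
        | mem t ht => exact Submodule.subset_span (by simpa using ⟨t, ht, rfl⟩)
        | zero => rw [TensorProduct.tmul_zero]; exact Submodule.zero_mem _
        | add x y _ _ hx hy => rw [TensorProduct.tmul_add]; exact Submodule.add_mem _ hx hy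
        | smul a x _ hx =>
          have e : (1 : K) ⊗ₜ[S] (a • x) = (algebraMap S K a) • ((1 : K) ⊗ₜ[S] x) := by
            rw [TensorProduct.tmul_smul, algebraMap_smul]
          rw [e]; exact Submodule.smul_mem _ _ hx
      have h2 : k ⊗ₜ[S] u = (k * (algebraMap S K s)⁻¹) • ((1 : K) ⊗ₜ[S] (s • u)) := by
        rw [TensorProduct.tmul_smul, TensorProduct.smul_tmul', TensorProduct.smul_tmul', smul_eq_mul,
          Algebra.smul_def, mul_one, mul_assoc, inv_mul_cancel₀ (hone s hs), mul_one]
      rw [h2]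
      exact Submodule.smul_mem _ _ (h1 _ hsu)
  have hloc : IsLocalizedModule (nonZeroDivisors S) (TensorProduct.mk S K U 1) :=
    (isLocalizedModule_iff_isBaseChange (nonZeroDivisors S) K _).2 (TensorProduct.isBaseChange S U K)
  have hnt : Nontrivial (K ⊗[S] U) := by
    refine ⟨⟨(1 : K) ⊗ₜ[S] v, 0, fun h0 => ?_⟩⟩
    obtain ⟨s, hs⟩ := (IsLocalizedModule.eq_zero_iff (nonZeroDivisors S)
      (TensorProduct.mk S K U 1)).1 h0
    exact hv (s : S) (nonZeroDivisors.ne_zero s.2) hs
  have hcomp : (f : U →ₗ[S] U).baseChange K ∘ₗ (g : U →ₗ[S] U).baseChange K ∘ₗ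
      (f.symm : U →ₗ[S] U).baseChange K ∘ₗ (g.symm : U →ₗ[S] U).baseChange K
        = (algebraMap S K c) • LinearMap.id := by
    rw [← LinearMap.baseChange_comp, ← LinearMap.baseChange_comp, ← LinearMap.baseChange_comp]
    have e : (f : U →ₗ[S] U) ∘ₗ (g : U →ₗ[S] U) ∘ₗ (f.symm : U →ₗ[S] U) ∘ₗ (g.symm : U →ₗ[S] U)
        = c • LinearMap.id := LinearMap.ext h
    rw [e]
    ext u
    simp
  have hff : (f : U →ₗ[S] U).baseChange K ∘ₗ (f.symm : U →ₗ[S] U).baseChange K
      = LinearMap.id := by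
    rw [← LinearMap.baseChange_comp]
    have e : (f : U →ₗ[S] U) ∘ₗ (f.symm : U →ₗ[S] U) = LinearMap.id :=
      LinearMap.ext fun u => f.apply_symm_apply u
    rw [e, LinearMap.baseChange_id]
  have hgg : (g : U →ₗ[S] U).baseChange K ∘ₗ (g.symm : U →ₗ[S] U).baseChange K
      = LinearMap.id := by
    rw [← LinearMap.baseChange_comp]
    have e : (g : U →ₗ[S] U) ∘ₗ (g.symm : U →ₗ[S] U) = LinearMap.id :=
      LinearMap.ext fun u => g.apply_symm_apply u
    rw [e, LinearMap.baseChange_id]
  have hd := congrArg LinearMap.det hcomp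
  have hd1 := congrArg LinearMap.det hff
  have hd2 := congrArg LinearMap.det hgg
  rw [LinearMap.det_comp, LinearMap.det_id] at hd1 hd2
  rw [LinearMap.det_comp, LinearMap.det_comp, LinearMap.det_comp, LinearMap.det_smul,
    LinearMap.det_id, mul_one] at hd
  have hd3 : (algebraMap S K c) ^ Module.finrank K (K ⊗[S] U) = 1 := by
    rw [← hd]
    calc _ = (LinearMap.det ((f : U →ₗ[S] U).baseChange K) *
          LinearMap.det ((f.symm : U →ₗ[S] U).baseChange K)) *
          (LinearMap.det ((g : U →ₗ[S] U).baseChange K) *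
          LinearMap.det ((g.symm : U →ₗ[S] U).baseChange K)) := by ring
      _ = 1 := by rw [hd1, hd2, mul_one]
  refine ⟨Module.finrank K (K ⊗[S] U), Module.finrank_pos, ?_⟩
  apply IsFractionRing.injective S K
  rw [map_pow, hd3, map_one]

end DetAux

theorem det_comm {G R M : Type*} [Group G] [CommRing R] [IsNoetherianRing R] [AddCommGroup M]
    [Module R M] [DistribMulAction G M] [SMulCommClass G R M] (p : Ideal R) [p.IsPrime] (X : Subgroup G)
    {x y : G} (hx : x ∈ X) (hy : y ∈ X) (c : R)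
    (hc : ∀ v : M, (x * y * x⁻¹ * y⁻¹) • v = c • v) (v : M) (hv : ∀ r ∈ p, r • v = 0)
    (hv' : ∀ r, r ∉ p → r • v ≠ 0) (hfin : LFin p (gen R X {v})) :
    ∃ n : ℕ, 0 < n ∧ c ^ n - 1 ∈ p := by
  classical
  have hlin : ∀ g ∈ X, ∀ (r : R) (m : M), g • (r • m) = r • (g • m) :=
    fun g _ r m => smul_comm g r m
  have hinv : Inv R X (gen R X {v}) := inv_gen hlin {v}
  have hkill : ∀ r ∈ p, ∀ u ∈ gen R X {v}, r • u = 0 := by
    intro r hr u hu
    induction hu using Submodule.span_induction with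
    | mem u hu =>
      obtain ⟨h, -, w, hw, rfl⟩ := hu
      rw [Set.mem_singleton_iff.1 hw, ← smul_comm h r v, hv r hr, smul_zero]
    | zero => rw [smul_zero]
    | add a b _ _ ha hb => rw [smul_add, ha, hb, add_zero]
    | smul s a _ ha => rw [smul_comm, ha, smul_zero]
  -- finitely many elements inside the module
  obtain ⟨T, hT⟩ := hfin
  have hnoeth : IsNoetherian R (Submodule.span R (T : Set M)) :=
    isNoetherian_span_of_finite R T.finite_toSet
  have hfg : ((Submodule.span R (T : Set M)).comap (gen R X {v}).subtype).FG := by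
    apply Submodule.fg_of_fg_map_injective (gen R X {v}).subtype (Submodule.injective_subtype _)
    apply isNoetherian_submodule.1 hnoeth
    exact Submodule.map_comap_le _ _
  obtain ⟨T', hT'⟩ := hfg
  have htors : Module.IsTorsionBySet R (gen R X {v}) p := by
    intro u r
    exact Subtype.ext (hkill r.1 r.2 u.1 u.2)
  letI : Module (R ⧸ p) (gen R X {v}) := htors.module
  haveI : IsDomain (R ⧸ p) := Ideal.Quotient.isDomain p
  let e : ∀ h ∈ X, (gen R X {v}) ≃ₗ[R ⧸ p] (gen R X {v}) := fun h hh =>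
    { toFun := fun u => ⟨h • (u : M), hinv h hh u.1 u.2⟩
      invFun := fun u => ⟨h⁻¹ • (u : M), hinv h⁻¹ (X.inv_mem hh) u.1 u.2⟩
      left_inv := fun u => Subtype.ext (inv_smul_smul h (u : M))
      right_inv := fun u => Subtype.ext (smul_inv_smul h (u : M))
      map_add' := fun u w => Subtype.ext (smul_add h (u : M) (w : M))
      map_smul' := by
        intro s u
        obtain ⟨r, rfl⟩ := Ideal.Quotient.mk_surjective s
        exact Subtype.ext (smul_comm h r (u : M)) }
  have h1 : ∀ u, e x hx (e y hy ((e x hx).symm ((e y hy).symm u)))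
      = (Ideal.Quotient.mk p c) • u := by
    intro u
    apply Subtype.ext
    change x • (y • (x⁻¹ • (y⁻¹ • (u : M)))) = c • (u : M)
    rw [← hc, smul_smul, smul_smul, smul_smul]
  have h2 : ∀ u : gen R X {v}, ∃ s : R ⧸ p, s ≠ 0 ∧
      s • u ∈ Submodule.span (R ⧸ p) (T' : Set (gen R X {v})) := by
    intro u
    obtain ⟨s, hs, hsu⟩ := hT u.1 u.2
    refine ⟨Ideal.Quotient.mk p s, fun h0 => hs (Ideal.Quotient.eq_zero_iff_mem.1 h0), ?_⟩
    have h3 : s • u ∈ Submodule.span R (T' : Set (gen R X {v})) := by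
      rw [hT']
      exact hsu
    have h4 : ∀ w ∈ Submodule.span R (T' : Set (gen R X {v})),
        w ∈ Submodule.span (R ⧸ p) (T' : Set (gen R X {v})) := by
      intro w hw
      induction hw using Submodule.span_induction with
      | mem t ht => exact Submodule.subset_span ht
      | zero => exact Submodule.zero_mem _
      | add a b _ _ ha hb => exact Submodule.add_mem _ ha hb
      | smul r a _ ha => exact Submodule.smul_mem _ (Ideal.Quotient.mk p r) ha
    exact h4 _ h3
  have h5 : ∀ s : R ⧸ p, s ≠ 0 → s • (⟨v, mem_gen_singleton X v⟩ : gen R X {v}) ≠ 0 := by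
    intro s hs h0
    obtain ⟨r, rfl⟩ := Ideal.Quotient.mk_surjective s
    refine hv' r (fun hr => hs (Ideal.Quotient.eq_zero_iff_mem.2 hr)) ?_
    exact congrArg Subtype.val h0
  obtain ⟨n, hn, hcn⟩ := DetAux.det_abs (e x hx) (e y hy) (Ideal.Quotient.mk p c) h1 T' h2 _ h5
  refine ⟨n, hn, ?_⟩
  rw [← Ideal.Quotient.eq_zero_iff_mem, map_sub, map_pow, hcn, map_one, sub_self]

end Pool.Agent.D5
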