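import Pool.Agent.Lib.MP_d5e6ed_al.B.PCB

/-!
# HL : the Hirsch length as a supremum of lengths of chains (helper19)
-/

set_option autoImplicit false

namespace Pool.Agent.D5

open Subgroup

namespace HLaux

theorem HChain.anti {G : Type*} [Group G] {m n : ℕ} (h : m ≤ n) (hc : HChain G n) :
    HChain G m := by
  obtain ⟨c, hc⟩ := hc
  exact ⟨c, fun i hi => hc i (lt_of_lt_of_le hi h)⟩

theorem HChain.zero (G : Type*) [Group G] : HChain G 0 :=
  ⟨fun _ => ⊥, fun i hi => absurd hi (Nat.not_lt_zero i)⟩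

theorem le_hl {G : Type*} [Group G] {n : ℕ} : (n : ℕ∞) ≤ hl G ↔ HChain G n := by
  constructor
  · intro h
    by_contra hcon
    have hn : n ≠ 0 := by
      rintro rfl
      exact hcon (HChain.zero G)
    obtain ⟨k, rfl⟩ := Nat.exists_eq_succ_of_ne_zero hn
    have h1 : hl G ≤ (k : ℕ∞) := by
      refine iSup₂_le fun m hm => ?_
      have : m ≤ k := by
        by_contra hmk
        exact hcon (HChain.anti (by omega) hm)
      exact_mod_cast this
    have h2 := h.trans h1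
    have h3 : k.succ ≤ k := by exact_mod_cast h2
    omega
  · intro h
    exact le_iSup₂ (f := fun (n : ℕ) (_ : HChain G n) => (n : ℕ∞)) n h

theorem ne_top_iff {G : Type*} [Group G] : hl G ≠ ⊤ ↔ ∃ n, ¬ HChain G n := by
  constructor
  · intro h
    obtain ⟨m, hm⟩ := ENat.ne_top_iff_exists.1 h
    refine ⟨m + 1, fun hc => ?_⟩
    have h1 := le_hl.2 hc
    rw [← hm] at h1
    have h2 : m + 1 ≤ m := by exact_mod_cast h1
    omega
  · rintro ⟨n, hn⟩ h
    apply hn
    rw [← le_hl, h]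
    exact le_top

/-- chains inside a subgroup -/
theorem HChain.of_le {G : Type*} [Group G] {K : Subgroup G} {n : ℕ} (c : ℕ → Subgroup G)
    (hK : ∀ i, c i ≤ K) (hc : ∀ i < n, c i ≤ c (i + 1) ∧ (c i).relIndex (c (i + 1)) = 0) :
    HChain K n := by
  refine ⟨fun i => (c i).subgroupOf K, fun i hi => ⟨?_, ?_⟩⟩
  · exact Subgroup.comap_mono (hc i hi).1
  · rw [Subgroup.relIndex_subgroupOf (hK (i + 1))]
    exact (hc i hi).2

theorem HChain.exists_le {G : Type*} [Group G] {K : Subgroup G} {n : ℕ} (h : HChain K n) :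
    ∃ c : ℕ → Subgroup G, (∀ i, c i ≤ K) ∧
      ∀ i < n, c i ≤ c (i + 1) ∧ (c i).relIndex (c (i + 1)) = 0 := by
  obtain ⟨c, hc⟩ := h
  refine ⟨fun i => (c i).map K.subtype, fun i => Subgroup.map_subtype_le _, fun i hi => ⟨?_, ?_⟩⟩
  · exact Subgroup.map_mono (hc i hi).1
  · rw [Subgroup.relIndex_map_map_of_injective _ _ K.subtype_injective]
    exact (hc i hi).2

/-- finite relative index by finite coverings -/
theorem relIndex_ne_zero_iff {G : Type*} [Group G] {X Y : Subgroup G} :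
    X.relIndex Y ≠ 0 ↔ ∃ F : Set G, F.Finite ∧ F ⊆ Y ∧ ∀ y ∈ Y, ∃ f ∈ F, f⁻¹ * y ∈ X := by
  constructor
  · intro h
    have hfin : Finite (Y ⧸ X.subgroupOf Y) := Subgroup.index_ne_zero_iff_finite.1 h
    refine ⟨Set.range fun q : Y ⧸ X.subgroupOf Y => ((Quotient.out q : Y) : G),
      Set.finite_range _, ?_, ?_⟩
    · rintro _ ⟨q, rfl⟩
      exact (Quotient.out q).2
    · intro y hy
      refine ⟨_, ⟨QuotientGroup.mk ⟨y, hy⟩, rfl⟩, ?_⟩
      have h1 : QuotientGroup.mk (s := X.subgroupOf Y)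
          (Quotient.out (QuotientGroup.mk (s := X.subgroupOf Y) (⟨y, hy⟩ : Y))) =
          QuotientGroup.mk (s := X.subgroupOf Y) ⟨y, hy⟩ := QuotientGroup.out_eq' _
      rw [QuotientGroup.eq] at h1
      exact h1
  · rintro ⟨F, hF, -, h⟩
    have : Finite F := hF
    have hfin : Finite (Y ⧸ X.subgroupOf Y) := by
      choose f hf1 hf2 using fun q : Y ⧸ X.subgroupOf Y => h (Quotient.out q : Y)
        (Quotient.out q).2
      refine Finite.of_injective (fun q => (⟨f q, hf1 q⟩ : F)) ?_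
      intro q q' hqq
      have h1 : f q = f q' := congrArg Subtype.val hqq
      rw [← QuotientGroup.out_eq' q, ← QuotientGroup.out_eq' q', QuotientGroup.eq]
      change ((Quotient.out q : Y) : G)⁻¹ * ((Quotient.out q' : Y) : G) ∈ X
      have h2 := X.mul_mem (X.inv_mem (hf2 q)) (hf2 q')
      rw [h1] at h2
      have h3 : ((f q')⁻¹ * ((Quotient.out q : Y) : G))⁻¹ * ((f q')⁻¹ * ((Quotient.out q' : Y) : G)) =
          ((Quotient.out q : Y) : G)⁻¹ * ((Quotient.out q' : Y) : G) := by group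
      rw [← h3]
      exact h2
    exact Subgroup.index_ne_zero_iff_finite.2 hfin

/-- dichotomy for the steps of a chain -/
theorem relIndex_dichotomy {G : Type*} [Group G] {X Y B : Subgroup G} (hXY : X ≤ Y)
    (hn : ∀ x ∈ X, ∀ b ∈ B, x * b * x⁻¹ ∈ B)
    (h1 : (X ⊓ B).relIndex (Y ⊓ B) ≠ 0) (h2 : (X ⊔ B).relIndex Y ≠ 0) : X.relIndex Y ≠ 0 := by
  rw [relIndex_ne_zero_iff] at h1 h2 ⊢
  obtain ⟨F1, hF1, hF1', h1⟩ := h1
  obtain ⟨F2, hF2, hF2', h2⟩ := h2
  have hXB : ∀ z ∈ X ⊔ B, ∃ b ∈ B, ∃ x ∈ X, z = b * x := by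
    intro z hz
    rw [← SetLike.mem_coe, Subgroup.sup_eq_closure] at hz
    induction hz using Subgroup.closure_induction with
    | mem z hz =>
      rcases hz with hz | hz
      · exact ⟨1, B.one_mem, z, hz, (one_mul z).symm⟩
      · exact ⟨z, hz, 1, X.one_mem, (mul_one z).symm⟩
    | one => exact ⟨1, B.one_mem, 1, X.one_mem, (one_mul 1).symm⟩
    | mul z w _ _ hz hw =>
      obtain ⟨b, hb, x, hx, rfl⟩ := hz
      obtain ⟨b', hb', x', hx', rfl⟩ := hw
      exact ⟨b * (x * b' * x⁻¹), B.mul_mem hb (hn x hx b' hb'), x * x', X.mul_mem hx hx',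
        by group⟩
    | inv z _ hz =>
      obtain ⟨b, hb, x, hx, rfl⟩ := hz
      refine ⟨x⁻¹ * b⁻¹ * x⁻¹⁻¹, hn _ (X.inv_mem hx) _ (B.inv_mem hb), x⁻¹, X.inv_mem hx,
        by group⟩
  refine ⟨Set.image2 (fun a b => a * b) F2 F1, Set.Finite.image2 _ hF2 hF1, ?_, ?_⟩
  · rintro _ ⟨a, ha, b, hb, rfl⟩
    exact Y.mul_mem (hF2' ha) (hF1' hb).1
  · intro y hy
    obtain ⟨f, hf, hfy⟩ := h2 y hy
    obtain ⟨b, hb, x, hx, hbx⟩ := hXB _ hfy
    have hbY : b ∈ Y ⊓ B := by
      refine ⟨?_, hb⟩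
      have : b = f⁻¹ * y * x⁻¹ := by rw [hbx]; group
      rw [this]
      exact Y.mul_mem (Y.mul_mem (Y.inv_mem (hF2' hf)) hy) (Y.inv_mem (hXY hx))
    obtain ⟨f1, hf1, hf1b⟩ := h1 b hbY
    refine ⟨f * f1, ⟨f, hf, f1, hf1, rfl⟩, ?_⟩
    have : (f * f1)⁻¹ * y = (f1⁻¹ * b) * x := by
      have h3 : y = f * (b * x) := by rw [← hbx]; group
      rw [h3]
      group
    rw [this]
    exact X.mul_mem hf1b.1 hx

/-- adding one element which normalises the subgroup -/
theorem ne_top_step {G : Type*} [Group G] (B : Subgroup G) (t : G)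
    (h1 : ∀ b ∈ B, t * b * t⁻¹ ∈ B) (h2 : ∀ b ∈ B, t⁻¹ * b * t ∈ B) (hB : hl B ≠ ⊤) :
    hl (B ⊔ zpowers t : Subgroup G) ≠ ⊤ := by
  rw [ne_top_iff] at hB ⊢
  obtain ⟨n, hn⟩ := hB
  refine ⟨2 * n + 1, fun hc0 => ?_⟩
  set K := B ⊔ zpowers t with hK
  obtain ⟨c, hcK, hc⟩ := HChain.exists_le hc0
  -- `B` is normal in `K`
  have hnorm : K ≤ normalizer (B : Set G) := by
    refine sup_le le_normalizer ?_
    rw [zpowers_le, mem_normalizer_iff]
    intro b
    refine ⟨fun hb => h1 b hb, fun hb => ?_⟩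
    have := h2 _ hb
    have h3 : t⁻¹ * (t * b * t⁻¹) * t = b := by group
    rwa [h3] at this
  have hnorm' : ∀ x ∈ K, ∀ b ∈ B, x * b * x⁻¹ ∈ B := fun x hx b hb =>
    (mem_normalizer_iff.1 (hnorm hx) b).1 hb
  -- elements of `K`
  have hform : ∀ z ∈ K, ∃ (m : ℤ), ∃ b ∈ B, z = t ^ m * b := by
    intro z hz
    rw [hK, ← SetLike.mem_coe, Subgroup.sup_eq_closure] at hz
    induction hz using Subgroup.closure_induction with
    | mem z hz =>
      rcases hz with hz | hz
      · exact ⟨0, z, hz, by simp⟩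
      · obtain ⟨m, hm⟩ := mem_zpowers_iff.1 hz
        exact ⟨m, 1, B.one_mem, by rw [mul_one, hm]⟩
    | one => exact ⟨0, 1, B.one_mem, by simp⟩
    | mul z w _ _ hz hw =>
      obtain ⟨m, b, hb, rfl⟩ := hz
      obtain ⟨m', b', hb', rfl⟩ := hw
      refine ⟨m + m', (t ^ m')⁻¹ * b * (t ^ m')⁻¹⁻¹ * b', ?_, ?_⟩
      · refine B.mul_mem (hnorm' _ ?_ _ hb) hb'
        exact K.inv_mem (K.zpow_mem (mem_sup_right (mem_zpowers t)) m')
      · rw [zpow_add]
        group
    | inv z _ hz =>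
      obtain ⟨m, b, hb, rfl⟩ := hz
      refine ⟨-m, t ^ m * b⁻¹ * (t ^ m)⁻¹, ?_, ?_⟩
      · exact hnorm' _ (K.zpow_mem (mem_sup_right (mem_zpowers t)) m) _ (B.inv_mem hb)
      · rw [zpow_neg]
        group
  -- at most one step is infinite modulo `B`
  have hmono : ∀ i j, i ≤ j → j ≤ 2 * n + 1 → c i ≤ c j := by
    intro i j hij
    induction j, hij using Nat.le_induction with
    | base => exact fun _ => le_rfl
    | succ j _ ih => exact fun hj => (ih (by omega)).trans (hc j (by omega)).1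
  have hone : ∀ i j, i < j → j < 2 * n + 1 → (c i ⊔ B).relIndex (c (i + 1)) = 0 →
      (c j ⊔ B).relIndex (c (j + 1)) ≠ 0 := by
    intro i j hij hj hi
    have h3 : ¬ c (i + 1) ≤ B := by
      intro h4
      have h5 : c (i + 1) ≤ c i ⊔ B := h4.trans le_sup_right
      rw [← relIndex_eq_one] at h5
      omega
    obtain ⟨y, hy, hyB⟩ := SetLike.not_le_iff_exists.1 h3
    obtain ⟨k, b, hb, hyk⟩ := hform y (hcK _ hy)
    have hk0 : k ≠ 0 := by
      rintro rfl
      apply hyB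
      rw [hyk, zpow_zero, one_mul]
      exact hb
    have hyj : y ∈ c j := hmono (i + 1) j hij hj.le hy
    have htk : t ^ k ∈ c j ⊔ B := by
      have : t ^ k = y * b⁻¹ := by rw [hyk]; group
      rw [this]
      exact mul_mem (mem_sup_left hyj) (inv_mem (mem_sup_right hb))
    rw [relIndex_ne_zero_iff]
    have hc' : ∃ F : Set G, F.Finite ∧ ∀ z ∈ K, ∃ f ∈ F, f⁻¹ * z ∈ c j ⊔ B := by
      refine ⟨(fun r : ℤ => t ^ r) '' (Set.Icc 0 |k|), (Set.finite_Icc _ _).image _, ?_⟩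
      intro z hz
      obtain ⟨m, b', hb', rfl⟩ := hform z hz
      refine ⟨t ^ (m % k), ⟨m % k, ⟨Int.emod_nonneg m hk0, (Int.emod_lt_abs m hk0).le⟩, rfl⟩, ?_⟩
      have h5 : (t ^ (m % k))⁻¹ * (t ^ m * b') = (t ^ k) ^ (m / k) * b' := by
        have h6 : t ^ m = t ^ (m % k) * (t ^ k) ^ (m / k) := by
          rw [← zpow_mul, ← zpow_add, Int.emod_add_mul_ediv]
        rw [h6]
        group
      rw [h5]
      exact mul_mem (zpow_mem htk _) (mem_sup_right hb')
    have h7 : (c j ⊔ B).relIndex K ≠ 0 := by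
      rw [relIndex_ne_zero_iff]
      obtain ⟨F, hF, hF'⟩ := hc'
      classical
      refine ⟨F ∩ K, hF.inter_of_left _, Set.inter_subset_right, ?_⟩
      intro z hz
      obtain ⟨f, hf, hfz⟩ := hF' z hz
      refine ⟨f, ⟨hf, ?_⟩, hfz⟩
      have h8 : f⁻¹ * z ∈ K := (sup_le (hcK j) le_sup_left : c j ⊔ B ≤ K) hfz
      have h9 : f = z * (f⁻¹ * z)⁻¹ := by group
      rw [SetLike.mem_coe, h9]
      exact K.mul_mem hz (K.inv_mem h8)
    have h10 : (c j ⊔ B).relIndex (c (j + 1)) ≠ 0 := by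
      have h11 := relIndex_le_of_le_right (hcK (j + 1)) h7
      have h12 : (c j ⊔ B).relIndex (c (j + 1)) ≠ 0 := by
        intro h0
        exact h7 (relIndex_eq_zero_of_le_right (hcK (j + 1)) h0)
      exact h12
    exact relIndex_ne_zero_iff.1 h10
  -- good steps
  have hgood : ∀ i < 2 * n + 1, (c i ⊔ B).relIndex (c (i + 1)) ≠ 0 →
      (c i ⊓ B).relIndex (c (i + 1) ⊓ B) = 0 := by
    intro i hi h3
    by_contra h4
    exact relIndex_dichotomy (hc i hi).1 (fun x hx b hb => hnorm' x (hcK i hx) b hb) h4 h3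
      (hc i hi).2
  by_cases hex : ∃ i ≤ n, (c i ⊔ B).relIndex (c (i + 1)) = 0
  · obtain ⟨i, hi, hi'⟩ := hex
    apply hn
    refine HChain.of_le (fun k => c (n + 1 + k) ⊓ B) (fun k => inf_le_right) ?_
    intro k hk
    refine ⟨inf_le_inf_right _ ?_, ?_⟩
    · exact (hc (n + 1 + k) (by omega)).1
    · exact hgood (n + 1 + k) (by omega) (hone i (n + 1 + k) (by omega) (by omega) hi')
  · push Not at hex
    apply hn
    refine HChain.of_le (fun k => c k ⊓ B) (fun k => inf_le_right) ?_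
    intro k hk
    refine ⟨inf_le_inf_right _ (hc k (by omega)).1, ?_⟩
    exact hgood k (by omega) (hex k hk.le)

end HLaux

open HLaux

theorem hl_le_of_injective {G H : Type*} [Group G] [Group H] (f : G →* H)
    (hf : Function.Injective f) : hl G ≤ hl H := by
  refine iSup₂_le fun n hn => ?_
  rw [le_hl]
  obtain ⟨c, hc⟩ := hn
  refine ⟨fun i => (c i).map f, fun i hi => ⟨Subgroup.map_mono (hc i hi).1, ?_⟩⟩
  rw [Subgroup.relIndex_map_map_of_injective _ _ hf]
  exact (hc i hi).2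

theorem hl_mono {G : Type*} [Group G] {H K : Subgroup G} (h : H ≤ K) : hl H ≤ hl K :=
  hl_le_of_injective (Subgroup.inclusion h) (Subgroup.inclusion_injective h)

theorem hl_subgroup_le {G : Type*} [Group G] (H : Subgroup G) : hl H ≤ hl G :=
  hl_le_of_injective H.subtype H.subtype_injective

theorem hl_relIndex {G : Type*} [Group G] {H K : Subgroup G} (h : H ≤ K)
    (hf : H.relIndex K ≠ 0) : hl H = hl K := by
  refine le_antisymm (hl_mono h) (iSup₂_le fun n hn => ?_)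
  rw [le_hl]
  obtain ⟨c, hcK, hc⟩ := HChain.exists_le hn
  refine HChain.of_le (fun i => c i ⊓ H) (fun i => inf_le_right) fun i hi => ?_
  refine ⟨inf_le_inf_right _ (hc i hi).1, ?_⟩
  by_contra hcon
  have h1 : (c (i + 1) ⊓ H).relIndex (c (i + 1)) ≠ 0 := by
    rw [inf_relIndex_left]
    intro h0
    exact hf (relIndex_eq_zero_of_le_right (hcK (i + 1)) h0)
  have h2 := relIndex_ne_zero_trans hcon h1
  exact h2 (relIndex_eq_zero_of_le_left inf_le_left (hc i hi).2)

theorem hl_ne_top {G : Type*} [Group G] (hG : PC G) : hl G ≠ ⊤ := by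
  have key : ∀ B : Subgroup G, Tower (⊥ : Subgroup G) B → hl B ≠ ⊤ := by
    intro B hB
    induction hB with
    | base =>
      rw [ne_top_iff]
      refine ⟨1, ?_⟩
      rintro ⟨c, hc⟩
      have h1 := (hc 0 (by norm_num)).2
      have h2 : c 0 = c (0 + 1) := Subsingleton.elim _ _
      rw [h2, relIndex_self] at h1
      exact one_ne_zero h1
    | step B t _ h1 h2 ih => exact ne_top_step B t h1 h2 ih
  have h1 := key ⊤ (hG.tower ⊥)
  intro h2
  apply h1
  rw [eq_top_iff, ← h2]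
  exact hl_le_of_injective (Subgroup.topEquiv (G := G)).symm.toMonoidHom
    (Subgroup.topEquiv (G := G)).symm.injective

theorem hl_lt {G : Type*} [Group G] (hG : PC G) {H K : Subgroup G} (h : H ≤ K)
    (hf : H.relIndex K = 0) : hl H < hl K := by
  obtain ⟨m, hm⟩ := ENat.ne_top_iff_exists.1
    (ne_top_of_le_ne_top (hl_ne_top hG) (hl_subgroup_le H))
  have h1 : HChain H m := le_hl.1 hm.le
  obtain ⟨c, hcH, hc⟩ := HChain.exists_le h1
  have h2 : HChain K (m + 1) := by
    refine HChain.of_le (fun i => if i ≤ m then c i else K) ?_ ?_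
    · intro i
      split_ifs
      · exact (hcH i).trans h
      · exact le_rfl
    · intro i hi
      rw [if_pos (by omega)]
      by_cases him : i < m
      · rw [if_pos (by omega)]
        exact hc i him
      · rw [if_neg (by omega)]
        exact ⟨(hcH i).trans h, relIndex_eq_zero_of_le_left (hcH i) hf⟩
  have h3 := le_hl.2 h2
  rw [← hm]
  refine lt_of_lt_of_le ?_ h3
  exact_mod_cast Nat.lt_succ_self m

theorem hl_quot_lt {G : Type*} [Group G] (hG : PC G) (N : Subgroup G) [N.Normal]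
    (h : Infinite N) : hl (G ⧸ N) < hl G := by
  have key : ∀ n, HChain (G ⧸ N) n → HChain G (n + 1) := by
    rintro n ⟨c, hc⟩
    refine ⟨fun i => if i = 0 then ⊥ else (c (i - 1)).comap (QuotientGroup.mk' N), ?_⟩
    intro i hi
    dsimp only
    rw [if_neg (Nat.succ_ne_zero i), Nat.add_sub_cancel]
    by_cases hi0 : i = 0
    · rw [if_pos hi0]
      refine ⟨bot_le, ?_⟩
      rw [relIndex_bot_left]
      have h1 : N ≤ (c i).comap (QuotientGroup.mk' N) := by
        intro x hx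
        rw [mem_comap]
        have : QuotientGroup.mk' N x = 1 := (QuotientGroup.eq_one_iff x).2 hx
        rw [this]
        exact one_mem _
      have h2 : Infinite ((c i).comap (QuotientGroup.mk' N)) :=
        Infinite.of_injective _ (Subgroup.inclusion_injective h1)
      exact Nat.card_eq_zero_of_infinite
    · rw [if_neg hi0]
      obtain ⟨j, rfl⟩ := Nat.exists_eq_succ_of_ne_zero hi0
      rw [Nat.succ_sub_one]
      refine ⟨comap_mono (hc j (by omega)).1, ?_⟩
      rw [relIndex_comap, Subgroup.map_comap_eq_self_of_surjective (QuotientGroup.mk'_surjective N)]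
      exact (hc j (by omega)).2
  obtain ⟨m, hm⟩ := ENat.ne_top_iff_exists.1 (hl_ne_top hG)
  have h1 : hl (G ⧸ N) ≠ ⊤ := by
    rw [ne_top_iff]
    refine ⟨m, fun hc => ?_⟩
    have h2 := le_hl.2 (key m hc)
    rw [← hm] at h2
    have h3 : m + 1 ≤ m := by exact_mod_cast h2
    omega
  obtain ⟨k, hk⟩ := ENat.ne_top_iff_exists.1 h1
  have h2 := le_hl.2 (key k (le_hl.1 hk.le))
  rw [← hk]
  refine lt_of_lt_of_le ?_ h2
  exact_mod_cast Nat.lt_succ_self k

theorem exists_min_comm {G : Type*} [Group G] (hG : PC G) (F : Set (Subgroup G))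
    (h0 : F.Nonempty) (hinf : ∀ A ∈ F, ∀ B ∈ F, A ⊓ B ∈ F) :
    ∃ W ∈ F, ∀ B ∈ F, B.relIndex W ≠ 0 := by
  obtain ⟨A, hA⟩ := h0
  obtain ⟨x, ⟨W, hW, rfl⟩, hmin⟩ := WellFounded.has_min (wellFounded_lt (α := ℕ∞))
    ((fun W : Subgroup G => hl W) '' F) ⟨_, A, hA, rfl⟩
  refine ⟨W, hW, fun B hB h => ?_⟩
  have h1 : (B ⊓ W).relIndex W = 0 := by rw [inf_relIndex_right]; exact h
  exact hmin _ ⟨B ⊓ W, hinf B hB W hW, rfl⟩ (hl_lt hG inf_le_right h1)

end Pool.Agent.D5
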