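import Pool.Agent.Lib.MP_d5e6ed_al.B.Basic

/-!
# Locally finite actions
-/

set_option autoImplicit false

namespace Pool.Agent.D5

open Subgroup
open scoped Pointwise

section lfl

variable {G R M : Type*} [Group G] [CommRing R] [IsNoetherianRing R] [AddCommGroup M]
  [Module R M] [DistribMulAction G M]

theorem LFin.mono {p : Ideal R} {N N' : Submodule R M} (h : N ≤ N') (hf : LFin p N') :
    LFin p N := by
  obtain ⟨T, hT⟩ := hf
  exact ⟨T, fun x hx => hT x (h hx)⟩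

theorem LFin.sup {p : Ideal R} [p.IsPrime] {N N' : Submodule R M} (h : LFin p N)
    (hf : LFin p N') : LFin p (N ⊔ N') := by
  classical
  obtain ⟨T, hT⟩ := h
  obtain ⟨T', hT'⟩ := hf
  refine ⟨T ∪ T', fun x hx => ?_⟩
  obtain ⟨y, hy, z, hz, rfl⟩ := Submodule.mem_sup.1 hx
  obtain ⟨s, hs, h1⟩ := hT y hy
  obtain ⟨s', hs', h2⟩ := hT' z hz
  refine ⟨s * s', fun h => (Ideal.IsPrime.mem_or_mem inferInstance h).elim hs hs', ?_⟩
  rw [smul_add, Finset.coe_union, Submodule.span_union]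
  refine Submodule.add_mem_sup ?_ ?_
  · rw [mul_comm, mul_smul]
    exact Submodule.smul_mem _ _ h1
  · rw [mul_smul]
    exact Submodule.smul_mem _ _ h2

theorem LFin.of_smul {p : Ideal R} [p.IsPrime] {N N' : Submodule R M} {s : R} (hs : s ∉ p)
    (h : ∀ x ∈ N', s • x ∈ N) (hf : LFin p N) : LFin p N' := by
  obtain ⟨T, hT⟩ := hf
  refine ⟨T, fun x hx => ?_⟩
  obtain ⟨r, hr, h1⟩ := hT _ (h x hx)
  refine ⟨r * s, fun h => (Ideal.IsPrime.mem_or_mem inferInstance h).elim hr hs, ?_⟩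
  rwa [mul_smul]

namespace LFLaux

/-- the finite set can be chosen inside the submodule -/
theorem exists_subset {p : Ideal R} {N : Submodule R M} (h : LFin p N) :
    ∃ T : Finset M, (T : Set M) ⊆ N ∧ ∀ x ∈ N, ∃ s : R, s ∉ p ∧
      s • x ∈ Submodule.span R (T : Set M) := by
  obtain ⟨T, hT⟩ := h
  have h1 : IsNoetherian R (Submodule.span R (T : Set M)) :=
    isNoetherian_span_of_finite R T.finite_toSet
  have h2 : (N ⊓ Submodule.span R (T : Set M)).FG :=
    Submodule.FG.of_le (Submodule.fg_span T.finite_toSet) inf_le_right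
  obtain ⟨T', hT'⟩ := h2
  refine ⟨T', ?_, fun x hx => ?_⟩
  · intro x hx
    have : x ∈ N ⊓ Submodule.span R (T : Set M) := by
      rw [← hT']
      exact Submodule.subset_span hx
    exact this.1
  · obtain ⟨s, hs, h3⟩ := hT x hx
    refine ⟨s, hs, ?_⟩
    rw [hT']
    exact ⟨N.smul_mem _ hx, h3⟩

/-- finite suprema -/
theorem finset_sup {p : Ideal R} [p.IsPrime] {ι : Type*} (s : Finset ι) (f : ι → Submodule R M)
    (h : ∀ i ∈ s, LFin p (f i)) : LFin p (s.sup f) := by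
  classical
  induction s using Finset.induction_on with
  | empty =>
    rw [Finset.sup_empty]
    refine ⟨∅, fun x hx => ?_⟩
    by_cases h1 : (1 : R) ∈ p
    · exact absurd ((Ideal.eq_top_iff_one p).2 h1) (Ideal.IsPrime.ne_top inferInstance)
    · refine ⟨1, h1, ?_⟩
      rw [(Submodule.mem_bot R).1 hx, smul_zero]
      exact Submodule.zero_mem _
  | insert i s hi IH =>
    rw [Finset.sup_insert]
    exact LFin.sup (h i (Finset.mem_insert_self _ _))
      (IH fun j hj => h j (Finset.mem_insert_of_mem hj))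

end LFLaux

open LFLaux

theorem LF.sup {p : Ideal R} [p.IsPrime] {C : Subgroup G}
    (hlin : ∀ g ∈ C, ∀ (r : R) (x : M), g • (r • x) = r • (g • x)) {N : Submodule R M}
    (hN : Inv R C N) {Y₁ Y₂ : Subgroup G} (h1 : NormIn C Y₁) (h2 : NormIn C Y₂)
    (hf1 : LF p Y₁ N) (hf2 : LF p Y₂ N) : LF p (Y₁ ⊔ Y₂) N := by
  classical
  intro x hx
  have hlin2 : ∀ g ∈ Y₂, ∀ (r : R) (x : M), g • (r • x) = r • (g • x) :=
    fun g hg => hlin g (h2.1 hg)
  have hU : gen R Y₁ {x} ≤ N := gen_le (fun h hh => hN h (h1.1 hh)) (by simpa using hx)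
  obtain ⟨T', hT'U, hT'⟩ := exists_subset (hf1 x hx)
  -- the finite rank submodule
  set V : Submodule R M := gen R Y₂ (T' : Set M) with hV
  have hVle : V ≤ T'.sup fun t => gen R Y₂ {t} := by
    refine Submodule.span_le.2 ?_
    rintro _ ⟨g, hg, t, ht, rfl⟩
    have h3 : gen R Y₂ {t} ≤ T'.sup fun t => gen R Y₂ {t} :=
      Finset.le_sup (f := fun t => gen R Y₂ {t}) ht
    exact h3 (smul_mem_gen hg (Set.mem_singleton _))
  have hVf : LFin p V :=
    LFin.mono hVle (finset_sup T' _ fun t ht => hf2 t (hU (hT'U ht)))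
  have hVinv : Inv R Y₂ V := inv_gen hlin2 _
  have hspan : Submodule.span R (T' : Set M) ≤ V := Submodule.span_le.2 (subset_gen _ _)
  -- every element is almost in `V`
  have key : ∀ z ∈ gen R (Y₁ ⊔ Y₂) {x}, ∃ s : R, s ∉ p ∧ s • z ∈ V := by
    intro z hz
    induction hz using Submodule.span_induction with
    | mem z hz =>
      obtain ⟨g, hg, w, hw, rfl⟩ := hz
      rw [Set.mem_singleton_iff] at hw
      subst hw
      have h3 : Y₁ ≤ normalizer (Y₂ : Set G) := by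
        intro y hy
        rw [Subgroup.mem_normalizer_iff]
        intro b
        refine ⟨fun hb => h2.2 y (h1.1 hy) b hb, fun hb => ?_⟩
        have h4 := h2.2 y⁻¹ (C.inv_mem (h1.1 hy)) _ hb
        have h5 : y⁻¹ * (y * b * y⁻¹) * y⁻¹⁻¹ = b := by group
        rwa [h5] at h4
      have h4 : (g : G) ∈ ((Y₂ : Set G) * (Y₁ : Set G)) := by
        rw [← Subgroup.coe_mul_of_right_le_normalizer_left _ _ h3, sup_comm]
        exact hg
      obtain ⟨b, hb, a, ha, rfl⟩ := h4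
      obtain ⟨s, hs, h5⟩ := hT' (a • w) (smul_mem_gen ha (Set.mem_singleton _))
      refine ⟨s, hs, ?_⟩
      change s • (b * a) • w ∈ V
      rw [mul_smul, ← hlin2 b hb]
      exact hVinv b hb _ (hspan h5)
    | zero =>
      exact ⟨1, fun h => (Ideal.IsPrime.ne_top inferInstance) ((Ideal.eq_top_iff_one p).2 h),
        by rw [smul_zero]; exact V.zero_mem⟩
    | add y z _ _ hy hz =>
      obtain ⟨s, hs, h3⟩ := hy
      obtain ⟨s', hs', h4⟩ := hz
      refine ⟨s * s', fun h => (Ideal.IsPrime.mem_or_mem inferInstance h).elim hs hs', ?_⟩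
      rw [smul_add]
      refine V.add_mem ?_ ?_
      · rw [mul_comm, mul_smul]
        exact V.smul_mem _ h3
      · rw [mul_smul]
        exact V.smul_mem _ h4
    | smul r y _ hy =>
      obtain ⟨s, hs, h3⟩ := hy
      refine ⟨s, hs, ?_⟩
      rw [smul_comm]
      exact V.smul_mem _ h3
  obtain ⟨T, hT⟩ := hVf
  refine ⟨T, fun z hz => ?_⟩
  obtain ⟨s, hs, h3⟩ := key z hz
  obtain ⟨s', hs', h4⟩ := hT _ h3
  refine ⟨s' * s, fun h => (Ideal.IsPrime.mem_or_mem inferInstance h).elim hs' hs, ?_⟩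
  rwa [mul_smul]

theorem LFLaux.mem_sup {ι : Type*} (s : Finset ι) (f : ι → Submodule R M) {i : ι} (hi : i ∈ s)
    {x : M} (hx : x ∈ f i) : x ∈ s.sup f :=
  (Finset.le_sup hi : f i ≤ s.sup f) hx

theorem LFLaux.map {p : Ideal R} {N : Submodule R M} (h : LFin p N) (l : M →ₗ[R] M) :
    LFin p (N.map l) := by
  classical
  obtain ⟨T, hT⟩ := h
  refine ⟨T.image l, ?_⟩
  rintro _ ⟨z, hz, rfl⟩
  obtain ⟨s, hs, h2⟩ := hT z hz
  refine ⟨s, hs, ?_⟩
  rw [← map_smul, Finset.coe_image, Submodule.span_image]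
  exact ⟨_, h2, rfl⟩

theorem LF.relIndex {p : Ideal R} [p.IsPrime] {C : Subgroup G}
    (hlin : ∀ g ∈ C, ∀ (r : R) (x : M), g • (r • x) = r • (g • x)) {N : Submodule R M}
    (hN : Inv R C N) {Y' Y : Subgroup G} (hle : Y' ≤ Y) (hY : Y ≤ C) (hfi : Y'.relIndex Y ≠ 0)
    (hf : LF p Y' N) : LF p Y N := by
  classical
  intro x hx
  have hfi' : (Y'.subgroupOf Y).FiniteIndex := ⟨hfi⟩
  have hfin : Finite (Y ⧸ Y'.subgroupOf Y) := inferInstance
  have := Fintype.ofFinite (Y ⧸ Y'.subgroupOf Y)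
  -- representatives
  obtain ⟨rep, hrep⟩ : ∃ rep : Y ⧸ Y'.subgroupOf Y → Y, ∀ h : Y,
      (rep (QuotientGroup.mk h))⁻¹ * h ∈ Y'.subgroupOf Y :=
    ⟨Quotient.out, fun h => QuotientGroup.eq.1 (QuotientGroup.out_eq' _)⟩
  -- the linear maps
  obtain ⟨l, hl⟩ : ∃ l : Y → M →ₗ[R] M, ∀ y z, l y z = (y : G) • z :=
    ⟨fun y => { toFun := fun z => (y : G) • z
                map_add' := smul_add (y : G)
                map_smul' := fun r z => hlin y (hY y.2) r z }, fun _ _ => rfl⟩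
  refine LFin.mono ?_ (finset_sup Finset.univ
    (fun q : Y ⧸ Y'.subgroupOf Y => (gen R Y' {x}).map (l (rep q)))
    fun q _ => LFLaux.map (hf x hx) _)
  refine Submodule.span_le.2 ?_
  rintro _ ⟨h, hh, z, hz, rfl⟩
  rw [Set.mem_singleton_iff] at hz
  subst hz
  have h4 : (((rep (QuotientGroup.mk ⟨h, hh⟩))⁻¹ * ⟨h, hh⟩ : Y) : G) • z ∈ gen R Y' {z} :=
    smul_mem_gen (Subgroup.mem_subgroupOf.1 (hrep ⟨h, hh⟩)) (Set.mem_singleton _)
  have h5 : h • z ∈ (gen R Y' {z}).map (l (rep (QuotientGroup.mk ⟨h, hh⟩))) := by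
    refine ⟨_, h4, ?_⟩
    rw [hl, smul_smul, Subgroup.coe_mul, Subgroup.coe_inv, mul_inv_cancel_left]
  exact LFLaux.mem_sup _ _ (Finset.mem_univ _) h5

theorem LF.exists_largest (hG : PC G) {p : Ideal R} [p.IsPrime] {C : Subgroup G}
    (hlin : ∀ g ∈ C, ∀ (r : R) (x : M), g • (r • x) = r • (g • x)) {N : Submodule R M}
    (hN : Inv R C N) :
    ∃ Λ : Subgroup G, NormIn C Λ ∧ LF p Λ N ∧ ∀ Y, NormIn C Y → LF p Y N → Y ≤ Λ := by
  classical
  set F : Set (Subgroup G) := {Y | NormIn C Y ∧ LF p Y N} with hF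
  have hbot : (⊥ : Subgroup G) ∈ F := by
    refine ⟨⟨bot_le, fun c _ y hy => ?_⟩, fun x _ => ⟨{x}, fun y hy => ⟨1, ?_, ?_⟩⟩⟩
    · rw [Subgroup.mem_bot.1 hy, mul_one, mul_inv_cancel]
      exact Subgroup.one_mem _
    · exact fun h => (Ideal.IsPrime.ne_top inferInstance) ((Ideal.eq_top_iff_one p).2 h)
    · rw [one_smul, Finset.coe_singleton]
      refine (Submodule.span_mono ?_ : gen R ⊥ {x} ≤ _) hy
      rintro _ ⟨h, hh, z, hz, rfl⟩
      rw [Subgroup.mem_bot.1 hh, one_smul]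
      exact hz
  have hsup : ∀ Y₁ ∈ F, ∀ Y₂ ∈ F, Y₁ ⊔ Y₂ ∈ F := by
    rintro Y₁ ⟨h1, h1'⟩ Y₂ ⟨h2, h2'⟩
    refine ⟨⟨sup_le h1.1 h2.1, fun c hc y hy => ?_⟩, LF.sup hlin hN h1 h2 h1' h2'⟩
    have h3 : Y₁ ⊔ Y₂ ≤ (Y₁ ⊔ Y₂).comap (MulAut.conj c).toMonoidHom := by
      refine sup_le (fun z hz => ?_) fun z hz => ?_
      · exact Subgroup.mem_sup_left (h1.2 c hc z hz)
      · exact Subgroup.mem_sup_right (h2.2 c hc z hz)
    exact h3 hy
  have hdir : DirectedOn (· ≤ ·) F := fun Y₁ h1 Y₂ h2 =>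
    ⟨Y₁ ⊔ Y₂, hsup Y₁ h1 Y₂ h2, le_sup_left, le_sup_right⟩
  obtain ⟨S, hS⟩ := hG.fg (sSup F)
  have h1 : ∀ S' : Finset G, (S' : Set G) ⊆ (sSup F : Subgroup G) → ∃ Y ∈ F, (S' : Set G) ⊆ Y := by
    intro S'
    induction S' using Finset.induction_on with
    | empty => exact fun _ => ⟨⊥, hbot, by simp⟩
    | insert a S' _ IH =>
      intro h
      obtain ⟨Y, hY, hY'⟩ := IH fun x hx => h (Finset.mem_insert_of_mem hx)
      obtain ⟨Z, hZ, haZ⟩ := (Subgroup.mem_sSup_of_directedOn ⟨⊥, hbot⟩ hdir).1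
        (h (Finset.mem_insert_self _ _))
      refine ⟨Y ⊔ Z, hsup Y hY Z hZ, ?_⟩
      rw [Finset.coe_insert, Set.insert_subset_iff]
      exact ⟨Subgroup.mem_sup_right haZ, fun x hx => Subgroup.mem_sup_left (hY' hx)⟩
  obtain ⟨Y, hY, hSY⟩ := h1 S (by rw [← hS]; exact subset_closure)
  have h2 : sSup F ≤ Y := by
    rw [← hS, closure_le]
    exact hSY
  exact ⟨Y, hY.1, hY.2, fun Z hZ hZ' => (le_sSup (show Z ∈ F from ⟨hZ, hZ'⟩)).trans h2⟩

theorem LFin.conj [MulSemiringAction G R]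
    (comp : ∀ (g : G) (r : R) (m : M), g • (r • m) = (g • r) • (g • m)) {p p' : Ideal R} {g : G}
    (hpp : ∀ r, r ∈ p ↔ g • r ∈ p') {Y : Subgroup G} {x : M} (h : LFin p (gen R Y {x})) :
    LFin p' (gen R (Y.map (MulAut.conj g).toMonoidHom) {g • x}) := by
  classical
  obtain ⟨T, hT⟩ := h
  have hsurj : ∀ z ∈ gen R (Y.map (MulAut.conj g).toMonoidHom) {g • x},
      ∃ y ∈ gen R Y {x}, z = g • y := by
    intro z hz
    induction hz using Submodule.span_induction with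
    | mem z hz =>
      obtain ⟨h, ⟨k, hk, rfl⟩, w, hw, rfl⟩ := hz
      rw [Set.mem_singleton_iff] at hw
      subst hw
      refine ⟨k • x, smul_mem_gen hk (Set.mem_singleton _), ?_⟩
      simp only [MulEquiv.coe_toMonoidHom, MulAut.conj_apply]
      rw [smul_smul, smul_smul]
      congr 1
      group
    | zero => exact ⟨0, Submodule.zero_mem _, (smul_zero g).symm⟩
    | add y z _ _ hy hz =>
      obtain ⟨a, ha, rfl⟩ := hy
      obtain ⟨b, hb, rfl⟩ := hz
      exact ⟨a + b, Submodule.add_mem _ ha hb, (smul_add g a b).symm⟩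
    | smul r y _ hy =>
      obtain ⟨a, ha, rfl⟩ := hy
      refine ⟨(g⁻¹ • r) • a, Submodule.smul_mem _ _ ha, ?_⟩
      rw [comp, smul_inv_smul]
  refine ⟨T.image fun t => g • t, fun z hz => ?_⟩
  obtain ⟨y, hy, rfl⟩ := hsurj z hz
  obtain ⟨s, hs, h1⟩ := hT y hy
  refine ⟨g • s, fun h => hs ((hpp s).2 h), ?_⟩
  rw [← comp]
  have h2 : ∀ w ∈ Submodule.span R (T : Set M), g • w ∈
      Submodule.span R ((T.image fun t => g • t : Finset M) : Set M) := by
    intro w hw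
    induction hw using Submodule.span_induction with
    | mem w hw =>
      refine Submodule.subset_span ?_
      rw [Finset.coe_image]
      exact ⟨w, hw, rfl⟩
    | zero => rw [smul_zero]; exact Submodule.zero_mem _
    | add y z _ _ hy hz => rw [smul_add]; exact Submodule.add_mem _ hy hz
    | smul r y _ hy => rw [comp]; exact Submodule.smul_mem _ _ hy
  exact h2 _ h1

end lfl

end Pool.Agent.D5
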