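import Pool.Agent.Lib.MP_d5e6ed_al.B.Defs
import Pool.Agent.Lib.MP_d5e6ed_al.Noeth

/-!
# Polycyclic groups
-/

set_option autoImplicit false

namespace Pool.Agent.D5

open Subgroup PolycyclicCent
open scoped commutatorElement

theorem PC.subgroup {G : Type*} [Group G] (hG : PC G) (H : Subgroup G) : PC H := by
  have := hG.sol
  refine ⟨inferInstance, fun K => ?_⟩
  have h1 := hG.fg (K.map H.subtype)
  have e := K.equivMapOfInjective H.subtype H.subtype_injective
  rw [← Group.fg_iff_subgroup_fg] at h1 ⊢
  exact Group.fg_of_surjective (f := e.symm.toMonoidHom) e.symm.surjective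

theorem PC.of_surjective {G H : Type*} [Group G] [Group H] (f : G →* H)
    (hf : Function.Surjective f) (hG : PC G) : PC H := by
  have := hG.sol
  refine ⟨Group.isSolvable_of_surjective hf, fun K => ?_⟩
  have h1 := map_fg f (hG.fg (K.comap f))
  rwa [Subgroup.map_comap_eq_self_of_surjective hf] at h1

theorem PC.quot {G : Type*} [Group G] (hG : PC G) (N : Subgroup G) [N.Normal] : PC (G ⧸ N) :=
  hG.of_surjective (QuotientGroup.mk' N) (QuotientGroup.mk'_surjective N)

theorem PC.of_equiv {G H : Type*} [Group G] [Group H] (e : G ≃* H) (hG : PC G) : PC H :=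
  hG.of_surjective e.toMonoidHom e.surjective

theorem PC.ext {G : Type*} [Group G] (N : Subgroup G) [N.Normal] (hN : PC N) (hQ : PC (G ⧸ N)) :
    PC G := by
  have h1 := hN.sol
  have h2 := hQ.sol
  refine ⟨Group.isSolvable_of_ker_le_range N.subtype (QuotientGroup.mk' N) ?_, fun H => ?_⟩
  · rw [QuotientGroup.ker_mk', Subgroup.range_subtype]
  · refine fg_of_map_of_inf_ker (QuotientGroup.mk' N) H ?_ (hQ.fg _)
    rw [QuotientGroup.ker_mk']
    have h3 := map_fg N.subtype (hN.fg (H.subgroupOf N))
    rwa [Subgroup.subgroupOf_map_subtype] at h3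

/-- in a torsion group, the commutator subgroup of a f.g. subgroup has finite index in it -/
theorem relIndex_commutator {G : Type*} [Group G] (ht : ∀ g : G, IsOfFinOrder g)
    (H : Subgroup G) (hH : H.FG) : (⁅H, H⁆ : Subgroup G).relIndex H ≠ 0 := by
  have h1 : (⁅H, H⁆ : Subgroup G).subgroupOf H = commutator H := by
    have h2 : (commutator H).map H.subtype = ⁅H, H⁆ := Subgroup.map_subtype_commutator H
    rw [← h2, Subgroup.subgroupOf, Subgroup.comap_map_eq_self_of_injective H.subtype_injective]
  rw [Subgroup.relIndex, h1]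
  have hfg : Group.FG H := (Group.fg_iff_subgroup_fg H).2 hH
  have h3 : Group.FG (Abelianization H) :=
    Group.fg_of_surjective (f := Abelianization.of) (QuotientGroup.mk'_surjective _)
  have h4 : ∀ x : Abelianization H, IsOfFinOrder x := by
    intro x
    obtain ⟨y, rfl⟩ := QuotientGroup.mk'_surjective _ x
    refine MonoidHom.isOfFinOrder _ ?_
    have h5 := ht y
    rw [isOfFinOrder_iff_pow_eq_one] at h5 ⊢
    obtain ⟨n, hn, h6⟩ := h5
    exact ⟨n, hn, Subtype.ext h6⟩
  have h5 : Finite (Abelianization H) :=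
    CommGroup.finite_of_fg_isMulTorsion (Abelianization H) h4
  have h6 : Finite (H ⧸ commutator H) := h5
  exact Subgroup.index_ne_zero_of_finite (H := commutator H)

/-- a torsion polycyclic group is finite -/
theorem PC.finite_of_torsion {G : Type*} [Group G] (hG : PC G) (h : ∀ g : G, IsOfFinOrder g) :
    Finite G := by
  have key : ∀ n, (derivedSeries G n).relIndex ⊤ ≠ 0 := by
    intro n
    induction n with
    | zero => simp
    | succ n IH =>
      rw [derivedSeries_succ]
      exact Subgroup.relIndex_ne_zero_trans (relIndex_commutator h _ (hG.fg _)) IH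
  obtain ⟨n, hn⟩ := (Group.isSolvable_def G).1 hG.sol
  have h1 := key n
  rw [hn, Subgroup.relIndex_top_right, Subgroup.index_bot] at h1
  exact Nat.finite_of_card_ne_zero h1

/-- a polycyclic group with a finite exponent relative to a normal subgroup -/
theorem PC.relIndex_of_pow {G : Type*} [Group G] (hG : PC G) {Z C : Subgroup G} (hZC : Z ≤ C)
    (hZ : ∀ c ∈ C, ∀ z ∈ Z, c * z * c⁻¹ ∈ Z) {n : ℕ} (hn : 0 < n) (hpow : ∀ c ∈ C, c ^ n ∈ Z) :
    Z.relIndex C ≠ 0 := by
  have hnorm : (Z.subgroupOf C).Normal := ⟨fun z hz c => hZ _ c.2 _ hz⟩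
  have hfin : Finite (C ⧸ Z.subgroupOf C) := by
    refine ((hG.subgroup C).quot (Z.subgroupOf C)).finite_of_torsion ?_
    intro x
    obtain ⟨c, rfl⟩ := QuotientGroup.mk_surjective x
    rw [isOfFinOrder_iff_pow_eq_one]
    refine ⟨n, hn, ?_⟩
    rw [← QuotientGroup.mk_pow, QuotientGroup.eq_one_iff]
    exact hpow c c.2
  exact Subgroup.index_ne_zero_of_finite (H := Z.subgroupOf C)

/-- an infinite polycyclic group has an infinite abelian characteristic subgroup -/
theorem PC.exists_char {G : Type*} [Group G] (hG : PC G) [Infinite G] :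
    ∃ A : Subgroup G, A.Characteristic ∧ Infinite A ∧ ∀ x ∈ A, ∀ y ∈ A, x * y = y * x := by
  classical
  -- the last infinite term
  have hex : ∃ n, Finite (derivedSeries G n) := by
    obtain ⟨n, hn⟩ := (Group.isSolvable_def G).1 hG.sol
    refine ⟨n, ?_⟩
    rw [hn]
    infer_instance
  obtain ⟨k, hk⟩ : ∃ k, Nat.find hex = k + 1 := by
    rcases h0 : Nat.find hex with _ | k
    · have h1 := Nat.find_spec hex
      rw [h0, derivedSeries_zero] at h1
      have h2 : Finite G := Finite.of_equiv _ Subgroup.topEquiv.toEquiv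
      exact (not_finite G).elim
    · exact ⟨k, rfl⟩
  set E : Subgroup G := derivedSeries G k with hE
  have hEi : Infinite E := by
    rw [← not_finite_iff_infinite]
    exact Nat.find_min hex (by omega)
  have hE'f : Finite (⁅E, E⁆ : Subgroup G) := by
    have h1 := Nat.find_spec hex
    rw [hk, derivedSeries_succ] at h1
    exact h1
  set D : Subgroup G := ⁅E, E⁆ with hD
  have hDc : D.Characteristic := by
    have : D = derivedSeries G (k + 1) := (derivedSeries_succ G k).symm
    rw [this]
    infer_instance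
  have hEc : E.Characteristic := derivedSeries_characteristic G k
  set C : Subgroup G := centralizer (D : Set G) ⊓ E with hC
  have hCc : C.Characteristic := inferInstance
  -- `C` has finite index in `E`
  have hCE : C.relIndex E ≠ 0 := by
    rw [hC, Subgroup.inf_relIndex_right]
    have h1 : (MulAut.conjNormal : G →* MulAut D).ker ≤ centralizer (D : Set G) := by
      intro g hg
      rw [Subgroup.mem_centralizer_iff]
      intro d hd
      have h2 : (MulAut.conjNormal g : MulAut D) ⟨d, hd⟩ = ⟨d, hd⟩ := by
        rw [MonoidHom.mem_ker.1 hg]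
        rfl
      have h3 := congrArg Subtype.val h2
      rw [MulAut.conjNormal_apply] at h3
      have h4 : g * d * g⁻¹ = d := h3
      calc d * g = g * d * g⁻¹ * g := by rw [h4]
        _ = g * d := by group
    have h2 : (MulAut.conjNormal : G →* MulAut D).ker.index ≠ 0 := by
      rw [Subgroup.index_ker]
      exact Nat.card_pos.ne'
    intro h3
    refine h2 ?_
    have h4 := Subgroup.relIndex_eq_zero_of_le_left h1 h3
    rw [← Subgroup.relIndex_top_right]
    exact Subgroup.relIndex_eq_zero_of_le_right le_top h4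
  set Z : Subgroup G := C ⊓ centralizer (C : Set G) with hZ
  have hZc : Z.Characteristic := inferInstance
  have hn : 0 < Nat.card D := Nat.card_pos
  have hZC : Z.relIndex C ≠ 0 := by
    refine hG.relIndex_of_pow (n := Nat.card D) inf_le_left ?_ hn ?_
    · intro c _ z hz
      exact (inferInstance : Z.Normal).conj_mem z hz c
    · intro x hx
      refine ⟨C.pow_mem hx _, ?_⟩
      change x ^ Nat.card D ∈ centralizer (C : Set G)
      rw [Subgroup.mem_centralizer_iff]
      intro y hy
      -- the commutator
      set z : G := x * y * x⁻¹ * y⁻¹ with hz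
      have hzD : z ∈ D := Subgroup.commutator_mem_commutator hx.2 hy.2
      have hxz : x * z = z * x := (Subgroup.mem_centralizer_iff.1 hx.1 z hzD).symm
      have h1 : ∀ m : ℕ, x ^ m * y * (x ^ m)⁻¹ = z ^ m * y := by
        intro m
        induction m with
        | zero => simp
        | succ m IH =>
          have h2 : x * z ^ m = z ^ m * x := by
            have : Commute x (z ^ m) := Commute.pow_right hxz m
            exact this
          calc x ^ (m + 1) * y * (x ^ (m + 1))⁻¹ = x * (x ^ m * y * (x ^ m)⁻¹) * x⁻¹ := by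
                rw [pow_succ']
                group
            _ = x * z ^ m * (y * x⁻¹) := by rw [IH]; group
            _ = z ^ m * (x * y * x⁻¹ * y⁻¹) * y := by rw [h2]; group
            _ = z ^ (m + 1) * y := by rw [← hz, pow_succ]
      have h2 : z ^ Nat.card D = 1 := by
        have h3 : (⟨z, hzD⟩ : D) ^ Nat.card D = 1 := pow_card_eq_one'
        exact congrArg Subtype.val h3
      have h3 := h1 (Nat.card D)
      rw [h2, one_mul, mul_inv_eq_iff_eq_mul] at h3
      exact h3.symm
  refine ⟨Z, hZc, ?_, ?_⟩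
  · rw [← not_finite_iff_infinite]
    intro hfin
    have h1 : (⊥ : Subgroup G).relIndex Z ≠ 0 := by
      rw [Subgroup.relIndex_bot_left]
      exact Nat.card_pos.ne'
    have h2 := Subgroup.relIndex_ne_zero_trans h1 (Subgroup.relIndex_ne_zero_trans hZC hCE)
    rw [Subgroup.relIndex_bot_left] at h2
    have := Nat.finite_of_card_ne_zero h2
    exact not_finite E
  · intro x hx y hy
    exact Subgroup.mem_centralizer_iff.1 hy.2 x hx.1

/-- an abelian normal subgroup has a torsion free normal subgroup of finite index -/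
theorem PC.exists_tf {G : Type*} [Group G] (hG : PC G) (X : Subgroup G) (hX : X.Normal)
    (hab : ∀ x ∈ X, ∀ y ∈ X, x * y = y * x) :
    ∃ A ≤ X, A.Normal ∧ A.relIndex X ≠ 0 ∧ ∀ a ∈ A, IsOfFinOrder a → a = 1 := by
  classical
  -- the torsion subgroup
  let T : Subgroup G :=
    { carrier := {x | x ∈ X ∧ IsOfFinOrder x}
      one_mem' := ⟨X.one_mem, IsOfFinOrder.one⟩
      mul_mem' := fun {a b} ha hb => ⟨X.mul_mem ha.1 hb.1,
        (show Commute a b from hab a ha.1 b hb.1).isOfFinOrder_mul ha.2 hb.2⟩
      inv_mem' := fun {a} ha => ⟨X.inv_mem ha.1, ha.2.inv⟩ }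
  have hTf : Finite T := by
    refine (hG.subgroup T).finite_of_torsion fun t => ?_
    have h1 := t.2.2
    rw [isOfFinOrder_iff_pow_eq_one] at h1 ⊢
    obtain ⟨n, hn, h2⟩ := h1
    exact ⟨n, hn, Subtype.ext h2⟩
  have hn : 0 < Nat.card T := Nat.card_pos
  let A : Subgroup G :=
    { carrier := {x | ∃ y ∈ X, y ^ Nat.card T = x}
      one_mem' := ⟨1, X.one_mem, one_pow _⟩
      mul_mem' := by
        rintro _ _ ⟨a, ha, rfl⟩ ⟨b, hb, rfl⟩
        exact ⟨a * b, X.mul_mem ha hb, (show Commute a b from hab a ha b hb).mul_pow _⟩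
      inv_mem' := by
        rintro _ ⟨a, ha, rfl⟩
        exact ⟨a⁻¹, X.inv_mem ha, inv_pow _ _⟩ }
  have hAX : A ≤ X := by
    rintro _ ⟨a, ha, rfl⟩
    exact X.pow_mem ha _
  have hAn : A.Normal := by
    refine ⟨?_⟩
    rintro _ ⟨a, ha, rfl⟩ g
    refine ⟨g * a * g⁻¹, hX.conj_mem a ha g, ?_⟩
    rw [conj_pow]
  refine ⟨A, hAX, hAn, ?_, ?_⟩
  · exact hG.relIndex_of_pow hAX (fun c _ z hz => hAn.conj_mem z hz c) hn
      fun c hc => ⟨c, hc, rfl⟩
  · rintro _ ⟨a, ha, rfl⟩ h
    have haT : a ∈ T := ⟨ha, (isOfFinOrder_pow.1 h).resolve_right hn.ne'⟩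
    have h1 : (⟨a, haT⟩ : T) ^ Nat.card T = 1 := pow_card_eq_one'
    exact congrArg Subtype.val h1

/-- one step of a tower: adding an element which normalises the subgroup -/
inductive Tower {G : Type*} [Group G] (A : Subgroup G) : Subgroup G → Prop
  | base : Tower A A
  | step (B : Subgroup G) (t : G) : Tower A B → (∀ b ∈ B, t * b * t⁻¹ ∈ B) →
      (∀ b ∈ B, t⁻¹ * b * t ∈ B) → Tower A (B ⊔ zpowers t)

theorem PC.tower {G : Type*} [Group G] (hG : PC G) (N : Subgroup G) [N.Normal] :
    Tower N ⊤ := by
  classical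
  -- adding finitely many elements
  have key : ∀ D E : Subgroup G, D ≤ E → ⁅E, E⁆ ≤ D → Tower N D → ∀ T : Finset G,
      (T : Set G) ⊆ E → Tower N (D ⊔ closure (T : Set G)) := by
    intro D E hDE hED hD T
    induction T using Finset.induction_on with
    | empty =>
      intro _
      rw [Finset.coe_empty, Subgroup.closure_empty, sup_bot_eq]
      exact hD
    | insert t T _ IH =>
      intro hT
      have hTE : (T : Set G) ⊆ E := fun x hx => hT (Finset.mem_insert_of_mem hx)
      have htE : t ∈ E := hT (Finset.mem_insert_self _ _)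
      have h1 := IH hTE
      set B : Subgroup G := D ⊔ closure (T : Set G) with hB
      have hBE : B ≤ E := sup_le hDE ((closure_le _).2 hTE)
      have hconj : ∀ s ∈ E, ∀ b ∈ B, s * b * s⁻¹ ∈ B := by
        intro s hs b hb
        have h2 : s * b * s⁻¹ * b⁻¹ ∈ B :=
          Subgroup.mem_sup_left (hED (Subgroup.commutator_mem_commutator hs (hBE hb)))
        have h3 : s * b * s⁻¹ = s * b * s⁻¹ * b⁻¹ * b := by group
        rw [h3]
        exact B.mul_mem h2 hb
      have h2 : D ⊔ closure ((insert t T : Finset G) : Set G) = B ⊔ zpowers t := by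
        rw [hB, Finset.coe_insert, Set.insert_eq, Subgroup.closure_union, zpowers_eq_closure, sup_assoc,
          sup_comm (closure (T : Set G))]
      rw [h2]
      refine Tower.step B t h1 (hconj t htE) fun b hb => ?_
      have := hconj t⁻¹ (E.inv_mem htE) b hb
      rwa [inv_inv] at this
  have h2 : ∀ m k : ℕ, Tower N ((derivedSeries (G ⧸ N) (k + m)).comap (QuotientGroup.mk' N)) →
      Tower N ((derivedSeries (G ⧸ N) k).comap (QuotientGroup.mk' N)) := by
    intro m
    induction m with
    | zero => exact fun k h => h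
    | succ m IH =>
      intro k h
      have h3 := IH (k + 1) (by rwa [show k + 1 + m = k + (m + 1) by ring])
      set D : Subgroup G := (derivedSeries (G ⧸ N) (k + 1)).comap (QuotientGroup.mk' N) with hD
      set E : Subgroup G := (derivedSeries (G ⧸ N) k).comap (QuotientGroup.mk' N) with hE
      have hDE : D ≤ E := Subgroup.comap_mono (derivedSeries_antitone _ (Nat.le_succ k))
      have hED : ⁅E, E⁆ ≤ D := by
        rw [Subgroup.commutator_le]
        intro x hx y hy
        rw [hD, Subgroup.mem_comap, map_commutatorElement, derivedSeries_succ]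
        exact Subgroup.commutator_mem_commutator hx hy
      obtain ⟨T, hT⟩ := hG.fg E
      have h4 := key D E hDE hED h3 T (by rw [← hT]; exact subset_closure)
      rwa [hT, sup_eq_right.2 hDE] at h4
  obtain ⟨n, hn⟩ := (Group.isSolvable_def _).1 (hG.quot N).sol
  have h3 := h2 n 0 (by
    rw [zero_add, hn, MonoidHom.comap_bot, QuotientGroup.ker_mk']
    exact Tower.base)
  rwa [derivedSeries_zero, Subgroup.comap_top] at h3

end Pool.Agent.D5
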