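import Pool.Agent.Lib.MP_d5e6ed_al.B.Basic
import Pool.Agent.Lib.MP_d5e6ed_al.B.PCB

/-!
# P. Hall's basis theorem, in the form of a statement on invariant submodules
-/

set_option autoImplicit false

namespace Pool.Agent.D5

open Subgroup
open scoped Pointwise

namespace HallAux

variable {G S L : Type*} [Group G] [CommRing S] [AddCommGroup L]
    [Module S L] [DistribMulAction G L] [SMulCommClass G S L]

/-- the action as a linear map -/
def lm (S L : Type*) {G : Type*} [Group G] [CommRing S] [AddCommGroup L]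
    [Module S L] [DistribMulAction G L] [SMulCommClass G S L] (g : G) : L →ₗ[S] L where
  toFun x := g • x
  map_add' := smul_add g
  map_smul' r x := smul_comm g r x

theorem lm_apply (g : G) (x : L) : lm S L g x = g • x := rfl

/-- ascending chain condition for the invariant submodules of the f.g. modules -/
def Good (S L : Type*) {G : Type*} [Group G] [CommRing S] [AddCommGroup L]
    [Module S L] [DistribMulAction G L] (B : Subgroup G) : Prop :=
  ∀ (T : Finset L) (f : ℕ →o Submodule S L), (∀ n, f n ≤ gen S B (T : Set L)) →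
    (∀ n, Inv S B (f n)) → ∃ n, ∀ m, n ≤ m → f m = f n

theorem good_bot [IsNoetherianRing S] : Good S L (⊥ : Subgroup G) := by
  intro T f hf _
  have h1 : gen S (⊥ : Subgroup G) (T : Set L) = Submodule.span S (T : Set L) := by
    refine le_antisymm (Submodule.span_mono ?_) (Submodule.span_mono ?_)
    · rintro y ⟨h, hh, x, hx, rfl⟩
      rw [Subgroup.mem_bot.1 hh, one_smul]
      exact hx
    · intro x hx
      exact ⟨1, Subgroup.one_mem _, x, hx, (one_smul _ _).symm⟩
  set M0 : Submodule S L := gen S (⊥ : Subgroup G) (T : Set L) with hM0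
  have hN : IsNoetherian S M0 := by
    rw [h1]
    exact isNoetherian_span_of_finite S T.finite_toSet
  let g : ℕ →o Submodule S M0 :=
    ⟨fun n => (f n).comap M0.subtype, fun a b hab => Submodule.comap_mono (f.mono hab)⟩
  obtain ⟨n, hn⟩ := monotone_stabilizes_iff_noetherian.2 hN g
  refine ⟨n, fun m hm => ?_⟩
  have h2 := hn m hm
  have h3 : (f n).comap M0.subtype = (f m).comap M0.subtype := h2
  have h4 := congrArg (Submodule.map M0.subtype) h3
  rw [Submodule.map_comap_subtype, Submodule.map_comap_subtype, inf_eq_right.2 (hf n),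
    inf_eq_right.2 (hf m)] at h4
  exact h4.symm

section step

variable (t : G) (A0 : Submodule S L)

/-- the submodules `A0 + t A0 + ... + t ^ (n-1) A0` -/
def Nn (t : G) (A0 : Submodule S L) : ℕ → Submodule S L
  | 0 => ⊥
  | n + 1 => Nn t A0 n ⊔ A0.map (lm S L (t ^ n))

theorem Nn_succ (n : ℕ) : Nn t A0 (n + 1) = Nn t A0 n ⊔ A0.map (lm S L (t ^ n)) := rfl

theorem Nn_mono : Monotone (Nn t A0) := monotone_nat_of_le_succ fun _ => le_sup_left

theorem pow_smul_mem_Nn {m : L} (hm : m ∈ A0) (n : ℕ) : t ^ n • m ∈ Nn t A0 (n + 1) :=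
  Submodule.mem_sup_right ⟨m, hm, rfl⟩

theorem smul_Nn (n : ℕ) : ∀ x ∈ Nn t A0 n, t • x ∈ Nn t A0 (n + 1) := by
  induction n with
  | zero =>
    intro x hx
    have : x = 0 := (Submodule.mem_bot S).1 hx
    rw [this, smul_zero]
    exact Submodule.zero_mem _
  | succ n IH =>
    intro x hx
    rw [Nn_succ, Submodule.mem_sup] at hx
    obtain ⟨y, hy, z, ⟨m, hm, hz⟩, rfl⟩ := hx
    rw [smul_add]
    refine Submodule.add_mem _ (Submodule.mem_sup_left (IH y hy)) ?_
    rw [← hz, lm_apply, smul_smul, ← pow_succ']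
    exact pow_smul_mem_Nn t A0 hm (n + 1)

/-- the leading coefficients -/
def Lead (n : ℕ) (U : Submodule S L) : Submodule S L :=
  A0 ⊓ (U ⊔ Nn t A0 n).comap (lm S L (t ^ n))

theorem mem_Lead {n : ℕ} {U : Submodule S L} {m : L} :
    m ∈ Lead t A0 n U ↔ m ∈ A0 ∧ t ^ n • m ∈ U ⊔ Nn t A0 n := Iff.rfl

theorem Lead_mono_right (n : ℕ) {U V : Submodule S L} (h : U ≤ V) :
    Lead t A0 n U ≤ Lead t A0 n V :=
  inf_le_inf_left _ (Submodule.comap_mono (sup_le_sup_right h _))

theorem Lead_mono_left {U : Submodule S L} (hU : ∀ x ∈ U, t • x ∈ U) {n m : ℕ} (h : n ≤ m) :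
    Lead t A0 n U ≤ Lead t A0 m U := by
  induction h with
  | refl => exact le_rfl
  | step _ IH =>
    refine IH.trans ?_
    intro x hx
    rw [mem_Lead] at hx ⊢
    refine ⟨hx.1, ?_⟩
    obtain ⟨u, hu, w, hw, h1⟩ := Submodule.mem_sup.1 hx.2
    rw [Nat.succ_eq_add_one, pow_succ', mul_smul, ← h1, smul_add]
    exact Submodule.add_mem_sup (hU u hu) (smul_Nn t A0 _ w hw)

theorem mem_of_Lead {U V : Submodule S L} (hUV : U ≤ V)
    (h : ∀ n, Lead t A0 n V ≤ Lead t A0 n U) (n : ℕ) : ∀ v ∈ V, v ∈ Nn t A0 n → v ∈ U := by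
  induction n with
  | zero =>
    intro v _ hv
    have : v = 0 := (Submodule.mem_bot S).1 hv
    rw [this]
    exact U.zero_mem
  | succ n IH =>
    intro v hv hvn
    rw [Nn_succ, Submodule.mem_sup] at hvn
    obtain ⟨w, hw, z, ⟨m, hm, rfl⟩, rfl⟩ := hvn
    rw [lm_apply] at hv ⊢
    have h1 : m ∈ Lead t A0 n V := by
      refine ⟨hm, ?_⟩
      change t ^ n • m ∈ V ⊔ Nn t A0 n
      have h2 : t ^ n • m = (w + t ^ n • m) + (-w) := by abel
      rw [h2]
      exact Submodule.add_mem_sup hv (Submodule.neg_mem _ hw)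
    obtain ⟨u, hu, w', hw', h3⟩ := Submodule.mem_sup.1 (h n h1).2
    rw [lm_apply] at h3
    have h4 : w + t ^ n • m - u = w + w' := by
      rw [← h3]
      abel
    have h5 : w + t ^ n • m - u ∈ U :=
      IH _ (Submodule.sub_mem _ hv (hUV hu)) (by rw [h4]; exact Submodule.add_mem _ hw hw')
    have h6 := U.add_mem h5 hu
    rwa [sub_add_cancel] at h6

variable {t A0}

theorem conj_pow_mem {B : Subgroup G} (h1 : ∀ b ∈ B, t * b * t⁻¹ ∈ B) (n : ℕ) :
    ∀ b ∈ B, t ^ n * b * (t ^ n)⁻¹ ∈ B := by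
  induction n with
  | zero => intro b hb; simpa using hb
  | succ n IH =>
    intro b hb
    have h2 := h1 _ (IH b hb)
    have h3 : t * (t ^ n * b * (t ^ n)⁻¹) * t⁻¹ = t ^ (n + 1) * b * (t ^ (n + 1))⁻¹ := by
      rw [pow_succ']
      group
    rwa [h3] at h2

theorem inv_Nn {B : Subgroup G} (h2 : ∀ b ∈ B, t⁻¹ * b * t ∈ B) (hA0 : Inv S B A0) (n : ℕ) :
    Inv S B (Nn t A0 n) := by
  have h3 : ∀ n : ℕ, ∀ b ∈ B, (t ^ n)⁻¹ * b * t ^ n ∈ B := by
    intro n b hb
    have := conj_pow_mem (t := t⁻¹) (fun b hb => by rw [inv_inv]; exact h2 b hb) n b hb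
    rwa [inv_pow, inv_inv] at this
  induction n with
  | zero =>
    intro b _ x hx
    have : x = 0 := (Submodule.mem_bot S).1 hx
    rw [this, smul_zero]
    exact Submodule.zero_mem _
  | succ n IH =>
    intro b hb x hx
    rw [Nn_succ, Submodule.mem_sup] at hx
    obtain ⟨w, hw, z, ⟨m, hm, rfl⟩, rfl⟩ := hx
    rw [smul_add]
    refine Submodule.add_mem_sup (IH b hb w hw) ?_
    refine ⟨((t ^ n)⁻¹ * b * t ^ n) • m, hA0 _ (h3 n b hb) m hm, ?_⟩
    rw [lm_apply, lm_apply, smul_smul, smul_smul]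
    congr 1
    group

theorem inv_Lead {B : Subgroup G} (h1 : ∀ b ∈ B, t * b * t⁻¹ ∈ B)
    (h2 : ∀ b ∈ B, t⁻¹ * b * t ∈ B) (hA0 : Inv S B A0) {U : Submodule S L} (hU : Inv S B U)
    (n : ℕ) : Inv S B (Lead t A0 n U) := by
  intro b hb x hx
  rw [mem_Lead] at hx ⊢
  refine ⟨hA0 b hb x hx.1, ?_⟩
  have h3 : t ^ n • b • x = (t ^ n * b * (t ^ n)⁻¹) • (t ^ n • x) := by
    rw [smul_smul, smul_smul]
    congr 1
    group
  rw [h3]
  obtain ⟨u, hu, w, hw, h4⟩ := Submodule.mem_sup.1 hx.2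
  rw [← h4, smul_add]
  have h5 := conj_pow_mem h1 n b hb
  exact Submodule.add_mem_sup (hU _ h5 u hu) (inv_Nn h2 hA0 n _ h5 w hw)

/-- elements of `B⟨t⟩` -/
theorem exists_of_mem_sup {B : Subgroup G} (h1 : ∀ b ∈ B, t * b * t⁻¹ ∈ B)
    (h2 : ∀ b ∈ B, t⁻¹ * b * t ∈ B) {g : G} (hg : g ∈ B ⊔ zpowers t) :
    ∃ (k : ℤ) (b : G), b ∈ B ∧ g = t ^ k * b := by
  have h3 : t ∈ normalizer (B : Set G) := by
    rw [Subgroup.mem_normalizer_iff]
    intro b
    refine ⟨h1 b, fun h => ?_⟩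
    have := h2 _ h
    have h4 : t⁻¹ * (t * b * t⁻¹) * t = b := by group
    rwa [h4] at this
  have h4 : zpowers t ≤ normalizer (B : Set G) := by rwa [Subgroup.zpowers_le]
  rw [sup_comm] at hg
  have h5 : (g : G) ∈ ((zpowers t : Set G) * (B : Set G)) := by
    rw [← Subgroup.coe_mul_of_left_le_normalizer_right _ _ h4]
    exact hg
  obtain ⟨s, ⟨k, rfl⟩, b, hb, rfl⟩ := h5
  exact ⟨k, b, hb, rfl⟩

/-- every element is moved into the positive part by a large power of `t` -/
theorem exists_pow_smul_mem {B : Subgroup G} (h1 : ∀ b ∈ B, t * b * t⁻¹ ∈ B)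
    (h2 : ∀ b ∈ B, t⁻¹ * b * t ∈ B) (T : Set L) {x : L} (hx : x ∈ gen S (B ⊔ zpowers t) T) :
    ∃ j : ℕ, ∀ k, j ≤ k → ∃ n, t ^ k • x ∈ Nn t (gen S B T) n := by
  induction hx using Submodule.span_induction with
  | mem y hy =>
    obtain ⟨g, hg, z, hz, rfl⟩ := hy
    obtain ⟨i, b, hb, rfl⟩ := exists_of_mem_sup h1 h2 hg
    refine ⟨i.natAbs, fun k hk => ?_⟩
    obtain ⟨m, hm⟩ : ∃ m : ℕ, (k : ℤ) + i = m := ⟨((k : ℤ) + i).toNat, by omega⟩
    refine ⟨m + 1, ?_⟩
    have h3 : t ^ k • (t ^ i * b) • z = t ^ m • (b • z) := by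
      rw [smul_smul, smul_smul, ← zpow_natCast t k, ← zpow_natCast t m, ← hm, zpow_add, mul_assoc]
    rw [h3]
    exact pow_smul_mem_Nn t _ (smul_mem_gen hb hz) m
  | zero => exact ⟨0, fun k _ => ⟨0, by rw [smul_zero]; exact Submodule.zero_mem _⟩⟩
  | add y z _ _ hy hz =>
    obtain ⟨j, hj⟩ := hy
    obtain ⟨j', hj'⟩ := hz
    refine ⟨max j j', fun k hk => ?_⟩
    obtain ⟨n, hn⟩ := hj k ((le_max_left _ _).trans hk)
    obtain ⟨n', hn'⟩ := hj' k ((le_max_right _ _).trans hk)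
    refine ⟨max n n', ?_⟩
    rw [smul_add]
    exact Submodule.add_mem _ (Nn_mono t _ (le_max_left _ _) hn)
      (Nn_mono t _ (le_max_right _ _) hn')
  | smul r y _ hy =>
    obtain ⟨j, hj⟩ := hy
    refine ⟨j, fun k hk => ?_⟩
    obtain ⟨n, hn⟩ := hj k hk
    refine ⟨n, ?_⟩
    rw [smul_comm]
    exact Submodule.smul_mem _ _ hn

theorem good_step {B : Subgroup G} (h1 : ∀ b ∈ B, t * b * t⁻¹ ∈ B)
    (h2 : ∀ b ∈ B, t⁻¹ * b * t ∈ B) (hB : Good S L B) : Good S L (B ⊔ zpowers t) := by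
  classical
  intro T f hf hinv
  set A0 : Submodule S L := gen S B (T : Set L) with hA0
  have hA0inv : Inv S B A0 := inv_gen (fun g _ r x => smul_comm g r x) _
  have htK : t ∈ B ⊔ zpowers t := Subgroup.mem_sup_right (Subgroup.mem_zpowers t)
  have hft : ∀ k, ∀ x ∈ f k, t • x ∈ f k := fun k x hx => hinv k t htK x hx
  have hfB : ∀ k, Inv S B (f k) := fun k b hb x hx => hinv k b (Subgroup.mem_sup_left hb) x hx
  -- the diagonal
  have hmono : ∀ {n n' k k' : ℕ}, n ≤ n' → k ≤ k' →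
      Lead t A0 n (f k) ≤ Lead t A0 n' (f k') := by
    intro n n' k k' hn hk
    exact (Lead_mono_left t A0 (hft k) hn).trans (Lead_mono_right t A0 n' (f.mono hk))
  obtain ⟨j, hj⟩ := hB T ⟨fun j => Lead t A0 j (f j), fun a b hab => hmono hab hab⟩
    (fun n => inf_le_left) (fun n => inv_Lead h1 h2 hA0inv (hfB n) n)
  have hj' : ∀ m, j ≤ m → Lead t A0 m (f m) = Lead t A0 j (f j) := hj
  -- the rows
  have hrow : ∀ n : ℕ, ∃ k₀, ∀ k, k₀ ≤ k → Lead t A0 n (f k) = Lead t A0 n (f k₀) := by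
    intro n
    exact hB T ⟨fun k => Lead t A0 n (f k), fun a b hab => hmono le_rfl hab⟩
      (fun k => inf_le_left) (fun k => inv_Lead h1 h2 hA0inv (hfB k) n)
  choose κ hκ using hrow
  set K : ℕ := max j ((Finset.range j).sup κ) with hK
  refine ⟨K, fun m hm => le_antisymm ?_ (f.mono hm)⟩
  have hlead : ∀ n, Lead t A0 n (f m) ≤ Lead t A0 n (f K) := by
    intro n
    rcases lt_or_ge n j with hnj | hnj
    · have h3 : κ n ≤ K := (Finset.le_sup (Finset.mem_range.2 hnj)).trans (le_max_right _ _)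
      rw [hκ n K h3, hκ n m (h3.trans hm)]
    · have hjK : j ≤ K := le_max_left _ _
      calc Lead t A0 n (f m) ≤ Lead t A0 (max n m) (f (max n m)) :=
            hmono (le_max_left _ _) (le_max_right _ _)
        _ = Lead t A0 j (f j) := hj' _ (hnj.trans (le_max_left _ _))
        _ ≤ Lead t A0 n (f K) := hmono hnj hjK
  intro x hx
  obtain ⟨i, hi⟩ := exists_pow_smul_mem (S := S) h1 h2 (T : Set L) (hf m hx)
  obtain ⟨n, hn⟩ := hi i le_rfl
  have htx : t ^ i • x ∈ f m := hinv m _ (Subgroup.pow_mem _ htK i) x hx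
  have h3 := mem_of_Lead t A0 (f.mono hm) hlead n _ htx hn
  have h4 := hinv K (t ^ i)⁻¹ (Subgroup.inv_mem _ (Subgroup.pow_mem _ htK i)) _ h3
  rwa [inv_smul_smul] at h4

theorem good_of_tower [IsNoetherianRing S] {B : Subgroup G} (h : Tower ⊥ B) : Good S L B := by
  induction h with
  | base => exact good_bot
  | step B t _ h1 h2 IH => exact good_step h1 h2 IH

end step

end HallAux

open HallAux

theorem hall_acc {G S L : Type*} [Group G] [CommRing S] [IsNoetherianRing S] [AddCommGroup L]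
    [Module S L] [DistribMulAction G L] [SMulCommClass G S L] (hG : PC G) (H : Subgroup G)
    (T : Finset L) (f : ℕ →o Submodule S L) (hN : ∀ n, f n ≤ gen S H (T : Set L))
    (hinv : ∀ n, Inv S H (f n)) : ∃ n, ∀ m, n ≤ m → f m = f n := by
  have h1 : Good S L (⊤ : Subgroup H) := good_of_tower ((hG.subgroup H).tower ⊥)
  refine h1 T f (fun n => ?_) fun n => ?_
  · rw [gen_top]
    exact hN n
  · intro h _ x hx
    exact hinv n h h.2 x hx

theorem hall {G S L : Type*} [Group G] [CommRing S] [IsNoetherianRing S] [AddCommGroup L]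
    [Module S L] [DistribMulAction G L] [SMulCommClass G S L] (hG : PC G) (H : Subgroup G)
    (T : Finset L) (N : Submodule S L) (hN : N ≤ gen S H (T : Set L)) (hinv : Inv S H N) :
    ∃ T' : Finset L, N = gen S H (T' : Set L) := by
  classical
  by_contra hcon
  push Not at hcon
  -- every finite subset of `N` can be enlarged
  have hle : ∀ T' : {T' : Finset L // (T' : Set L) ⊆ N}, gen S H (T'.1 : Set L) ≤ N :=
    fun T' => gen_le hinv T'.2
  have hex : ∀ T' : {T' : Finset L // (T' : Set L) ⊆ N}, ∃ x ∈ N, x ∉ gen S H (T'.1 : Set L) := by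
    intro T'
    by_contra h
    push Not at h
    exact hcon T'.1 (le_antisymm h (hle T'))
  choose x hxN hx using hex
  let next : {T' : Finset L // (T' : Set L) ⊆ N} → {T' : Finset L // (T' : Set L) ⊆ N} :=
    fun T' => ⟨insert (x T') T'.1, by
      rw [Finset.coe_insert, Set.insert_subset_iff]
      exact ⟨hxN T', T'.2⟩⟩
  let seq : ℕ → {T' : Finset L // (T' : Set L) ⊆ N} := fun n => next^[n] ⟨∅, by simp⟩
  have hseq : ∀ n, seq (n + 1) = next (seq n) := fun n => Function.iterate_succ_apply' next n _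
  have hmono : Monotone fun n => gen S H ((seq n).1 : Set L) := by
    refine monotone_nat_of_le_succ fun n => ?_
    rw [hseq]
    refine gen_mono_right H ?_
    rw [Finset.coe_insert]
    exact Set.subset_insert _ _
  obtain ⟨n, hn⟩ := hall_acc hG H T ⟨fun n => gen S H ((seq n).1 : Set L), hmono⟩
    (fun n => (hle (seq n)).trans hN) (fun n => inv_gen (fun g _ r x => smul_comm g r x) _)
  have h1 : gen S H ((seq (n + 1)).1 : Set L) = gen S H ((seq n).1 : Set L) :=
    hn (n + 1) (Nat.le_succ n)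
  refine hx (seq n) ?_
  rw [← h1, hseq]
  refine subset_gen H _ ?_
  rw [Finset.coe_insert]
  exact Set.mem_insert _ _

end Pool.Agent.D5
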