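import Pool.Agent.Lib.MP_d5e6ed_al.B.Basic
import Pool.Agent.Lib.MP_d5e6ed_al.B.HallPC

/-!
# Torsion free finitely generated submodules

(helper37, module NICE of helper50's project MP_d5e6ed_al)
-/

set_option autoImplicit false
set_option linter.unusedSectionVars false
set_option linter.unusedVariables false

namespace Pool.Agent.D5

universe u

open Subgroup

namespace NICEaux

theorem nice_main {G R M : Type*} [Group G] [CommRing R] [IsNoetherianRing R] [AddCommGroup M]
    [Module R M] [DistribMulAction G M] [SMulCommClass G R M] (hG : PC G) (p : Ideal R)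
    [hp : p.IsPrime] (T₀ : Finset M) (hT₀ : ∀ r ∈ p, ∀ x ∈ T₀, r • x = 0) :
    ∃ (T : Finset M) (s : R), s ∉ p ∧ Tf p (gen R (⊤ : Subgroup G) (T : Set M)) ∧
      ∀ x ∈ gen R (⊤ : Subgroup G) (T₀ : Set M), s • x ∈ gen R (⊤ : Subgroup G) (T : Set M) := by
  classical
  set N := gen R (⊤ : Subgroup G) (T₀ : Set M) with hN
  have hlin : ∀ g ∈ (⊤ : Subgroup G), ∀ (r : R) (x : M), g • (r • x) = r • (g • x) :=
    fun g _ r x => smul_comm g r x
  have hNinv : Inv R (⊤ : Subgroup G) N := inv_gen hlin _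
  have hpN : ∀ r ∈ p, ∀ x ∈ N, r • x = 0 := by
    intro r hr x hx
    rw [hN] at hx
    induction hx using Submodule.span_induction with
    | mem y hy =>
      obtain ⟨g, _, z, hz, rfl⟩ := hy
      rw [← smul_comm g r z, hT₀ r hr z hz, smul_zero]
    | zero => exact smul_zero r
    | add a b _ _ ha hb => rw [smul_add, ha, hb, add_zero]
    | smul c a _ ha => rw [smul_comm, ha, smul_zero]
  let τ : Submodule R M :=
    { carrier := {y | y ∈ N ∧ ∃ s : R, s ∉ p ∧ s • y = 0}
      add_mem' := by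
        rintro a b ⟨ha, s, hs, hsa⟩ ⟨hb, s', hs', hsb⟩
        refine ⟨N.add_mem ha hb, s * s', fun h => ?_, ?_⟩
        · rcases hp.mem_or_mem h with h | h
          · exact hs h
          · exact hs' h
        · rw [smul_add, mul_comm, mul_smul, hsa, smul_zero, zero_add, mul_comm, mul_smul, hsb,
            smul_zero]
      zero_mem' := ⟨N.zero_mem, 1, fun h => hp.ne_top ((Ideal.eq_top_iff_one p).2 h),
        smul_zero _⟩
      smul_mem' := by
        rintro c a ⟨ha, s, hs, hsa⟩
        refine ⟨N.smul_mem c ha, s, hs, ?_⟩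
        rw [smul_comm, hsa, smul_zero] }
  have hτN : τ ≤ N := fun y hy => hy.1
  have hτinv : Inv R (⊤ : Subgroup G) τ := by
    rintro g hg y ⟨hy, s, hs, hsy⟩
    refine ⟨hNinv g hg y hy, s, hs, ?_⟩
    rw [← smul_comm g s y, hsy, smul_zero]
  obtain ⟨T', hT'⟩ := hall hG ⊤ T₀ τ hτN hτinv
  have hT'τ : ∀ t ∈ T', ∃ s : R, s ∉ p ∧ s • t = 0 := by
    intro t ht
    have : t ∈ τ := by rw [hT']; exact subset_gen _ _ ht
    exact this.2
  have hch : ∀ t : M, ∃ s : R, s ∉ p ∧ (t ∈ T' → s • t = 0) := by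
    intro t
    by_cases ht : t ∈ T'
    · obtain ⟨s, hs, h⟩ := hT'τ t ht
      exact ⟨s, hs, fun _ => h⟩
    · exact ⟨1, fun h => hp.ne_top ((Ideal.eq_top_iff_one p).2 h), fun h => absurd h ht⟩
  choose σ hσ hσ' using hch
  let s : R := ∏ t ∈ T', σ t
  have hs : s ∉ p := by
    intro h
    obtain ⟨t, _, ht⟩ := (Ideal.IsPrime.prod_mem_iff (hp := hp)).1 h
    exact hσ t ht
  have hsτ : ∀ y ∈ τ, s • y = 0 := by
    intro y hy
    rw [hT'] at hy
    induction hy using Submodule.span_induction with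
    | mem y hy =>
      obtain ⟨g, _, z, hz, rfl⟩ := hy
      obtain ⟨c, hc⟩ := Finset.dvd_prod_of_mem σ (show z ∈ T' from hz)
      have hsz : s • z = 0 := by
        change (∏ t ∈ T', σ t) • z = 0
        rw [hc, mul_comm, mul_smul, hσ' z hz, smul_zero]
      rw [← smul_comm g s z, hsz, smul_zero]
    | zero => exact smul_zero s
    | add a b _ _ ha hb => rw [smul_add, ha, hb, add_zero]
    | smul c a _ ha => rw [smul_comm, ha, smul_zero]
  have hmem : ∀ y ∈ gen R (⊤ : Subgroup G) ((T₀.image (s • ·) : Finset M) : Set M),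
      ∃ n ∈ N, y = s • n := by
    intro y hy
    induction hy using Submodule.span_induction with
    | mem y hy =>
      obtain ⟨g, _, z, hz, rfl⟩ := hy
      rw [Finset.coe_image] at hz
      obtain ⟨t, ht, rfl⟩ := hz
      exact ⟨g • t, smul_mem_gen (mem_top g) ht, smul_comm g s t⟩
    | zero => exact ⟨0, N.zero_mem, (smul_zero s).symm⟩
    | add a b _ _ ha hb =>
      obtain ⟨n, hn, rfl⟩ := ha
      obtain ⟨m, hm, rfl⟩ := hb
      exact ⟨n + m, N.add_mem hn hm, (smul_add s n m).symm⟩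
    | smul c a _ ha =>
      obtain ⟨n, hn, rfl⟩ := ha
      exact ⟨c • n, N.smul_mem c hn, smul_comm c s n⟩
  refine ⟨T₀.image (s • ·), s, hs, ⟨?_, ?_⟩, ?_⟩
  · intro r hr y hy
    obtain ⟨n, hn, rfl⟩ := hmem y hy
    rw [smul_comm, hpN r hr n hn, smul_zero]
  · intro r hr y hy h0
    obtain ⟨n, hn, rfl⟩ := hmem y hy
    refine hsτ n ⟨hn, r * s, fun h => ?_, by rwa [mul_smul]⟩
    rcases hp.mem_or_mem h with h | h
    · exact hr h
    · exact hs h
  · intro x hx
    rw [hN] at hx
    induction hx using Submodule.span_induction with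
    | mem y hy =>
      obtain ⟨g, hg, z, hz, rfl⟩ := hy
      rw [← smul_comm g s z]
      refine smul_mem_gen hg ?_
      rw [Finset.coe_image]
      exact ⟨z, hz, rfl⟩
    | zero => rw [smul_zero]; exact Submodule.zero_mem _
    | add a b _ _ ha hb => rw [smul_add]; exact Submodule.add_mem _ ha hb
    | smul c a _ ha => rw [smul_comm]; exact Submodule.smul_mem _ c ha

end NICEaux

section setup

variable {P M : Type u} [Group P] [AddCommGroup M] [DistribMulAction P M] {A : Subgroup P}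
  {R : Type u} [CommRing R] [Module R M] [MulSemiringAction P R]

theorem lin_of_cent (S : Setup (M := M) A R) {g : P} (hg : g ∈ centralizer (A : Set P)) :
    (∀ r : R, g • r = r) ∧ ∀ (r : R) (x : M), g • (r • x) = r • (g • x) := by
  have h1 : ∀ r : R, g • r = r := by
    intro r
    have hr : r ∈ Algebra.adjoin ℤ (Set.range S.α) := by rw [S.gen]; trivial
    induction hr using Algebra.adjoin_induction with
    | mem x hx =>
      obtain ⟨a, rfl⟩ := hx
      have hga : g * (a : P) * g⁻¹ = a := by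
        rw [← mem_centralizer_iff.1 hg a a.2, mul_inv_cancel_right]
      have hmem : g * (a : P) * g⁻¹ ∈ A := by rw [hga]; exact a.2
      rw [S.conj g a hmem]
      congr 1
      exact Subtype.ext hga
    | algebraMap n =>
      rw [eq_intCast]
      exact map_intCast (MulSemiringAction.toRingHom P R g) n
    | add x y _ _ hx hy => rw [smul_add, hx, hy]
    | mul x y _ _ hx hy => rw [smul_mul', hx, hy]
  exact ⟨h1, fun r x => by rw [S.comp, h1]⟩

theorem nice_aux [Algebra.FiniteType ℤ R] (S : Setup (M := M) A R) (hP : PC P)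
    (p : Ideal R) [p.IsPrime] (T₀ : Finset M) (hT₀ : ∀ r ∈ p, ∀ x ∈ T₀, r • x = 0) :
    ∃ (T : Finset M) (s : R), s ∉ p ∧ Tf p (gen R (centralizer (A : Set P)) (T : Set M)) ∧
      ∀ x ∈ gen R (centralizer (A : Set P)) (T₀ : Set M),
        s • x ∈ gen R (centralizer (A : Set P)) (T : Set M) := by
  have hnoeth : IsNoetherianRing R := Algebra.FiniteType.isNoetherianRing ℤ R
  have hcomm : SMulCommClass (centralizer (A : Set P)) R M :=
    ⟨fun g r x => (lin_of_cent S g.2).2 r x⟩
  obtain ⟨T, s, hs, h1, h2⟩ := NICEaux.nice_main (hP.subgroup (centralizer (A : Set P))) p T₀ hT₀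
  rw [gen_top] at h1
  rw [gen_top, gen_top] at h2
  exact ⟨T, s, hs, h1, h2⟩

theorem exists_nice [Algebra.FiniteType ℤ R] (S : Setup (M := M) A R) (hP : PC P)
    (p : Ideal R) [p.IsPrime] {x : M} (hx : ∀ r ∈ p, r • x = 0) (hx' : ∀ r, r ∉ p → r • x ≠ 0) :
    ∃ T : Finset M, Tf p (gen R (centralizer (A : Set P)) (T : Set M)) ∧
      ∃ s : R, s ∉ p ∧ s • x ∈ gen R (centralizer (A : Set P)) (T : Set M) := by
  obtain ⟨T, s, hs, h1, h2⟩ := nice_aux S hP p {x} (fun r hr y hy => by
    rw [Finset.mem_singleton.1 hy]; exact hx r hr)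
  exact ⟨T, h1, s, hs, h2 x (subset_gen _ _ (by rw [Finset.coe_singleton]; rfl))⟩

theorem nice_sup [Algebra.FiniteType ℤ R] (S : Setup (M := M) A R) (hP : PC P)
    (p : Ideal R) [p.IsPrime] (T₁ T₂ : Finset M)
    (h1 : ∀ r ∈ p, ∀ x ∈ T₁, r • x = 0) (h2 : ∀ r ∈ p, ∀ x ∈ T₂, r • x = 0) :
    ∃ T : Finset M, Tf p (gen R (centralizer (A : Set P)) (T : Set M)) ∧
      ∃ s : R, s ∉ p ∧ ∀ x ∈ gen R (centralizer (A : Set P)) (T₁ : Set M) ⊔
        gen R (centralizer (A : Set P)) (T₂ : Set M),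
        s • x ∈ gen R (centralizer (A : Set P)) (T : Set M) := by
  classical
  obtain ⟨T, s, hs, h3, h4⟩ := nice_aux S hP p (T₁ ∪ T₂) (fun r hr y hy => by
    rcases Finset.mem_union.1 hy with h | h
    · exact h1 r hr y h
    · exact h2 r hr y h)
  refine ⟨T, h3, s, hs, fun x hx => h4 x ?_⟩
  rw [Finset.coe_union]
  have h5 : gen R (centralizer (A : Set P)) (T₁ : Set M) ⊔
      gen R (centralizer (A : Set P)) (T₂ : Set M) ≤
      gen R (centralizer (A : Set P)) ((T₁ : Set M) ∪ (T₂ : Set M)) :=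
    sup_le (gen_mono_right _ Set.subset_union_left) (gen_mono_right _ Set.subset_union_right)
  exact h5 hx

end setup

end Pool.Agent.D5
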