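import Pool.Agent.Lib.MP_d5e6ed_al.B.HL
import Pool.Agent.Lib.MP_d5e6ed_al.B.Basic

/-!
# PR1 : finitely many minimal associated primes detect `A` (helper19)
-/

set_option autoImplicit false

namespace Pool.Agent.D5

universe u

open Subgroup

namespace PR1aux

section prime

variable {R M : Type*} [CommRing R] [IsNoetherianRing R] [AddCommGroup M] [Module R M]

/-- every associated prime contains a minimal one -/
theorem exists_minAss_le {p : Ideal R} (hp : p ∈ associatedPrimes R M) :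
    ∃ q ∈ MinAss R M, q ≤ p := by
  obtain ⟨x, ⟨q, ⟨hq, hqp⟩, rfl⟩, hmin⟩ := WellFounded.has_min (wellFounded_lt (α := ℕ∞))
    ((fun q : Ideal R => q.height) '' {q | q ∈ associatedPrimes R M ∧ q ≤ p})
    ⟨_, p, ⟨hp, le_rfl⟩, rfl⟩
  refine ⟨q, ⟨hq, fun q' hq' hle => ?_⟩, hqp⟩
  have h1 : q'.IsPrime := (mem_associatedPrimes_iff.1 hq').1
  have h2 : q.IsPrime := (mem_associatedPrimes_iff.1 hq).1
  by_contra hcon
  have h3 : q' < q := lt_of_le_not_ge hle hcon
  exact hmin _ ⟨q', ⟨hq', hle.trans hqp⟩, rfl⟩ (Ideal.height_strict_mono_of_isPrime h3)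

/-- minimal primes over an annihilator contain minimal associated primes -/
theorem exists_minAss_le_of_minimalPrimes {m : M} {q : Ideal R}
    (hq : q ∈ ((⊥ : Submodule R M).colon {m}).minimalPrimes) :
    ∃ q' ∈ MinAss R M, q' ≤ q := by
  obtain ⟨x, hx⟩ := Submodule.exists_eq_colon_of_mem_minimalPrimes hq
  apply exists_minAss_le
  rw [mem_associatedPrimes_iff]
  refine ⟨hq.1.1, x, fun r => ?_⟩
  rw [hx, Submodule.mem_colon_singleton, Submodule.mem_bot]

end prime

section main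

variable {P M : Type u} [Group P] [AddCommGroup M] [DistribMulAction P M] {A : Subgroup P}
  {R : Type u} [CommRing R] [Module R M] [MulSemiringAction P R]

/-- the homomorphism `A → R ⧸ p` -/
def qa (S : Setup (M := M) A R) (p : Ideal R) : A →* R ⧸ p :=
  ((Ideal.Quotient.mk p : R →+* R ⧸ p) : R →* R ⧸ p).comp S.α

theorem qa_pow_eq_one_iff (S : Setup (M := M) A R) (p : Ideal R) (a : A) (n : ℕ) :
    qa S p a ^ n = 1 ↔ S.α a ^ n - 1 ∈ p := by
  rw [← Ideal.Quotient.eq_zero_iff_mem, map_sub, map_pow, map_one, sub_eq_zero]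
  rfl

theorem mem_ker_qa (S : Setup (M := M) A R) (p : Ideal R) (a : A) :
    a ∈ (qa S p).ker ↔ S.α a - 1 ∈ p := by
  rw [MonoidHom.mem_ker, ← pow_one (qa S p a), qa_pow_eq_one_iff, pow_one]

/-- the elements which are torsion modulo every minimal associated prime -/
def Bst (S : Setup (M := M) A R) : Subgroup A where
  carrier := {a | ∀ q ∈ MinAss R M, ∃ k : ℕ, 0 < k ∧ qa S q a ^ k = 1}
  one_mem' := fun q _ => ⟨1, one_pos, by rw [map_one, one_pow]⟩
  mul_mem' := by
    intro a b ha hb q hq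
    obtain ⟨k, hk, hk'⟩ := ha q hq
    obtain ⟨l, hl, hl'⟩ := hb q hq
    refine ⟨k * l, Nat.mul_pos hk hl, ?_⟩
    rw [map_mul, mul_pow, pow_mul, hk', one_pow, one_mul, mul_comm k l, pow_mul, hl', one_pow]
  inv_mem' := by
    intro a ha q hq
    obtain ⟨k, hk, hk'⟩ := ha q hq
    refine ⟨k, hk, ?_⟩
    have h1 : qa S q a⁻¹ ^ k * qa S q a ^ k = 1 := by
      rw [← mul_pow, ← map_mul, inv_mul_cancel, map_one, one_pow]
    rw [hk', mul_one] at h1
    exact h1

theorem mem_Bst {S : Setup (M := M) A R} {a : A} :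
    a ∈ Bst S ↔ ∀ q ∈ MinAss R M, ∃ k : ℕ, 0 < k ∧ S.α a ^ k - 1 ∈ q := by
  refine forall₂_congr fun q _ => exists_congr fun k => and_congr_right fun _ => ?_
  exact qa_pow_eq_one_iff S q a k

theorem conj_Bst [IsNoetherianRing R] (S : Setup (M := M) A R) [A.Normal] (g : P) {a : A}
    (ha : a ∈ Bst S) (h : g * (a : P) * g⁻¹ ∈ A) : (⟨g * (a : P) * g⁻¹, h⟩ : A) ∈ Bst S := by
  rw [mem_Bst] at ha ⊢
  intro q hq
  obtain ⟨k, hk, hk'⟩ := ha (tr g⁻¹ q) (tr_mem_minAss S.comp g⁻¹ hq)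
  refine ⟨k, hk, ?_⟩
  rw [mem_tr, inv_inv, smul_sub, smul_one, smul_pow', S.conj g a h] at hk'
  exact hk'

/-- the ideals `b_n` -/
def bb (S : Setup (M := M) A R) (n : ℕ) : Ideal R :=
  Ideal.span {r | ∃ a ∈ Bst S, r = S.α a ^ n.factorial - 1}

theorem pow_sub_one_mem {I : Ideal R} {x : R} {k l : ℕ} (h : x ^ k - 1 ∈ I) (hkl : k ∣ l) :
    x ^ l - 1 ∈ I := by
  obtain ⟨m, rfl⟩ := hkl
  have h1 : x ^ k - 1 ∣ x ^ (k * m) - 1 := by
    have := sub_dvd_pow_sub_pow (x ^ k) 1 m
    rwa [one_pow, ← pow_mul] at this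
  exact Ideal.mem_of_dvd I h1 h

theorem bb_anti (S : Setup (M := M) A R) {m n : ℕ} (h : m ≤ n) : bb S n ≤ bb S m := by
  refine Ideal.span_le.2 ?_
  rintro r ⟨a, ha, rfl⟩
  exact pow_sub_one_mem (Ideal.subset_span ⟨a, ha, rfl⟩) (Nat.factorial_dvd_factorial h)

theorem bb_pow_anti (S : Setup (M := M) A R) {m n : ℕ} (h : m ≤ n) :
    bb S n ^ n ≤ bb S m ^ m :=
  (Ideal.pow_right_mono (bb_anti S h) n).trans (Ideal.pow_le_pow_right h)

theorem smul_mem_bb_pow [IsNoetherianRing R] (S : Setup (M := M) A R) [A.Normal] (g : P) (n k : ℕ)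
    {r : R} (hr : r ∈ bb S n ^ k) : g • r ∈ bb S n ^ k := by
  have h1 : (bb S n).map (MulSemiringAction.toRingHom P R g) ≤ bb S n := by
    rw [Ideal.map_le_iff_le_comap]
    refine Ideal.span_le.2 ?_
    rintro r ⟨a, ha, rfl⟩
    have hn : g * (a : P) * g⁻¹ ∈ A := Subgroup.Normal.conj_mem inferInstance _ a.2 g
    refine Ideal.subset_span ⟨⟨g * (a : P) * g⁻¹, hn⟩, conj_Bst S g ha hn, ?_⟩
    rw [← S.conj g a hn, MulSemiringAction.toRingHom_apply, smul_sub, smul_one, smul_pow']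
  have h2 : (bb S n ^ k).map (MulSemiringAction.toRingHom P R g) ≤ bb S n ^ k := by
    rw [Ideal.map_pow]
    exact Ideal.pow_right_mono h1 k
  exact h2 (Ideal.mem_map_of_mem (MulSemiringAction.toRingHom P R g) hr)

/-- each element is killed by some `b_n ^ n` -/
theorem exists_kill [IsNoetherianRing R] (S : Setup (M := M) A R) (hP : PC P) (m : M) :
    ∃ N, ∀ n, N ≤ n → ∀ r ∈ bb S n ^ n, r • m = 0 := by
  classical
  set I : Ideal R := (⊥ : Submodule R M).colon {m} with hI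
  have hfin := Ideal.finite_minimalPrimes_of_isNoetherianRing R I
  -- generators of `Bst`
  obtain ⟨T, hT⟩ := (hP.subgroup A).fg (Bst S)
  -- one exponent for all generators and primes
  have hk : ∀ (a : A) (q : Ideal R), ∃ k : ℕ, a ∈ Bst S → q ∈ I.minimalPrimes →
      0 < k ∧ S.α a ^ k - 1 ∈ q := by
    intro a q
    by_cases ha : a ∈ Bst S
    · by_cases hq : q ∈ I.minimalPrimes
      · obtain ⟨q', hq', hle⟩ := exists_minAss_le_of_minimalPrimes hq
        obtain ⟨k, hk, hk'⟩ := mem_Bst.1 ha q' hq'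
        exact ⟨k, fun _ _ => ⟨hk, hle hk'⟩⟩
      · exact ⟨0, fun _ h => absurd h hq⟩
    · exact ⟨0, fun h => absurd h ha⟩
  choose k hk using hk
  set n0 : ℕ := T.sup fun a => hfin.toFinset.sup fun q => k a q with hn0
  have hle : ∀ a ∈ T, ∀ q ∈ I.minimalPrimes, k a q ≤ n0 := by
    intro a ha q hq
    exact (Finset.le_sup (f := fun q => k a q) (hfin.mem_toFinset.2 hq)).trans
      (Finset.le_sup (f := fun a => hfin.toFinset.sup fun q => k a q) ha)
  have hall : ∀ q ∈ I.minimalPrimes, ∀ a ∈ Bst S, S.α a ^ n0.factorial - 1 ∈ q := by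
    intro q hq a ha
    rw [← qa_pow_eq_one_iff]
    rw [← hT] at ha
    induction ha using Subgroup.closure_induction with
    | mem a ha =>
      rw [qa_pow_eq_one_iff]
      have haB : a ∈ Bst S := by
        rw [← hT]
        exact Subgroup.subset_closure ha
      obtain ⟨h1, h2⟩ := hk a q haB hq
      exact pow_sub_one_mem h2 (Nat.dvd_factorial h1 (hle a ha q hq))
    | one => rw [map_one, one_pow]
    | mul x y _ _ hx hy => rw [map_mul, mul_pow, hx, hy, one_mul]
    | inv x _ hx =>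
      have h1 : qa S q x⁻¹ ^ n0.factorial * qa S q x ^ n0.factorial = 1 := by
        rw [← mul_pow, ← map_mul, inv_mul_cancel, map_one, one_pow]
      rw [hx, mul_one] at h1
      exact h1
  have hrad : bb S n0 ≤ I.radical := by
    rw [← Ideal.sInf_minimalPrimes]
    refine le_sInf fun q hq => Ideal.span_le.2 ?_
    rintro r ⟨a, ha, rfl⟩
    exact hall q hq a ha
  obtain ⟨j, hj⟩ := Ideal.exists_pow_le_of_le_radical_of_fg hrad
    (IsNoetherian.noetherian _)
  refine ⟨max n0 j, fun n hn r hr => ?_⟩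
  have h1 : bb S n ^ n ≤ I :=
    ((Ideal.pow_right_mono (bb_anti S ((le_max_left _ _).trans hn)) n).trans
      (Ideal.pow_le_pow_right ((le_max_right _ _).trans hn))).trans hj
  have h2 := h1 hr
  rw [hI, Submodule.mem_colon_singleton, Submodule.mem_bot] at h2
  exact h2

/-- `Bst` is trivial -/
theorem Bst_eq_bot [IsNoetherianRing R] (S : Setup (M := M) A R) (hP : PC P)
    (hM : FGAct P M) (hH : HC P M) [A.Normal] (hab : ∀ x ∈ A, ∀ y ∈ A, x * y = y * x)
    (htf : ∀ a ∈ A, IsOfFinOrder a → a = 1) : Bst S = ⊥ := by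
  classical
  obtain ⟨T, hT⟩ := hM
  choose N hN using exists_kill S hP
  set n : ℕ := T.sup N with hn
  have hkill : ∀ m : M, ∀ r ∈ bb S n ^ n, r • m = 0 := by
    let MN : AddSubgroup M :=
      { carrier := {m | ∀ r ∈ bb S n ^ n, r • m = 0}
        add_mem' := fun {a b} ha hb r hr => by rw [smul_add, ha r hr, hb r hr, add_zero]
        zero_mem' := fun r _ => smul_zero r
        neg_mem' := fun {a} ha r hr => by rw [smul_neg, ha r hr, neg_zero] }
    have htop : MN = ⊤ := by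
      refine hT MN ?_ ?_
      · intro g x hx r hr
        have h1 : r • (g • x) = g • ((g⁻¹ • r) • x) := by rw [S.comp, smul_inv_smul]
        rw [h1, hx _ (smul_mem_bb_pow S g⁻¹ n n hr), smul_zero]
      · intro t ht r hr
        exact hN t n (Finset.le_sup ht) r hr
    intro m
    have : m ∈ MN := by rw [htop]; exact AddSubgroup.mem_top m
    exact this
  -- the subgroup of powers
  let K : Subgroup P :=
    { carrier := {x | ∃ a : A, a ∈ Bst S ∧ (a : P) ^ n.factorial = x}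
      one_mem' := ⟨1, (Bst S).one_mem, by rw [OneMemClass.coe_one, one_pow]⟩
      mul_mem' := by
        rintro _ _ ⟨a, ha, rfl⟩ ⟨b, hb, rfl⟩
        refine ⟨a * b, (Bst S).mul_mem ha hb, ?_⟩
        have : Commute (a : P) (b : P) := hab _ a.2 _ b.2
        rw [Subgroup.coe_mul, this.mul_pow]
      inv_mem' := by
        rintro _ ⟨a, ha, rfl⟩
        exact ⟨a⁻¹, (Bst S).inv_mem ha, by rw [Subgroup.coe_inv, inv_pow]⟩ }
  have hKmem : ∀ x, x ∈ K ↔ ∃ a : A, a ∈ Bst S ∧ (a : P) ^ n.factorial = x := fun x => Iff.rfl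
  have hKfin : Finite K := by
    refine hH ⊤ K inferInstance le_top ?_ ⟨n, ?_⟩
    · rintro h - _ ⟨a, ha, rfl⟩
      have hn : h * (a : P) * h⁻¹ ∈ A := Subgroup.Normal.conj_mem inferInstance _ a.2 h
      refine ⟨⟨h * (a : P) * h⁻¹, hn⟩, conj_Bst S h ha hn, ?_⟩
      exact conj_pow
    · intro l hl hlen m
      have key : ∀ l : List P, (∀ k ∈ l, k ∈ K) → ∃ r ∈ bb S n ^ l.length,
          l.foldr (fun k x => k • x - x) m = r • m := by
        intro l
        induction l with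
        | nil =>
          intro _
          refine ⟨1, ?_, by rw [one_smul]; rfl⟩
          rw [List.length_nil, pow_zero, Ideal.one_eq_top]
          exact Submodule.mem_top
        | cons k l ih =>
          intro h
          obtain ⟨r, hr, hr'⟩ := ih (fun k' hk' => h k' (List.mem_cons_of_mem _ hk'))
          obtain ⟨a, ha, hak⟩ := h k List.mem_cons_self
          refine ⟨(S.α a ^ n.factorial - 1) * r, ?_, ?_⟩
          · rw [List.length_cons, pow_succ']
            exact Ideal.mul_mem_mul (Ideal.subset_span ⟨a, ha, rfl⟩) hr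
          · rw [List.foldr_cons, hr', mul_smul, sub_smul, one_smul, ← map_pow, S.act,
              Subgroup.coe_pow, hak]
      obtain ⟨r, hr, hr'⟩ := key l hl
      rw [hr', hlen] at *
      exact hkill m r hr
  rw [eq_bot_iff]
  intro a ha
  rw [Subgroup.mem_bot]
  have h1 : (a : P) ^ n.factorial ∈ K := ⟨a, ha, rfl⟩
  have h2 : IsOfFinOrder ((a : P) ^ n.factorial) := by
    have h3 : IsOfFinOrder (⟨_, h1⟩ : K) := isOfFinOrder_of_finite _
    exact MonoidHom.isOfFinOrder K.subtype h3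
  have h4 : IsOfFinOrder (a : P) := by
    rw [isOfFinOrder_iff_pow_eq_one] at h2 ⊢
    obtain ⟨k, hk, hk'⟩ := h2
    exact ⟨n.factorial * k, Nat.mul_pos n.factorial_pos hk, by rw [pow_mul, hk']⟩
  exact Subtype.ext (htf a a.2 h4)

end main

end PR1aux

open PR1aux in
theorem primes_faithful {P M : Type u} [Group P] [AddCommGroup M] [DistribMulAction P M]
    {A : Subgroup P} {R : Type u} [CommRing R] [Module R M] [MulSemiringAction P R]
    [Algebra.FiniteType ℤ R] (S : Setup (M := M) A R) (hP : PC P)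
    (hM : FGAct P M) (hH : HC P M) [A.Normal] (hab : ∀ x ∈ A, ∀ y ∈ A, x * y = y * x)
    (htf : ∀ a ∈ A, IsOfFinOrder a → a = 1) :
    ∃ F : Finset (Ideal R), (F : Set (Ideal R)) ⊆ MinAss R M ∧
      ∀ a : A, (∀ p ∈ F, S.α a - 1 ∈ p) → a = 1 := by
  classical
  have hnoeth : IsNoetherianRing R := Algebra.FiniteType.isNoetherianRing ℤ R
  obtain ⟨W, ⟨F, hF, rfl⟩, hW⟩ := exists_min_comm (hP.subgroup A)
    {W | ∃ F : Finset (Ideal R), (F : Set (Ideal R)) ⊆ MinAss R M ∧ W = ⨅ p ∈ F, (qa S p).ker}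
    ⟨_, ∅, by simp, rfl⟩ (by
      rintro _ ⟨F, hF, rfl⟩ _ ⟨F', hF', rfl⟩
      refine ⟨F ∪ F', ?_, ?_⟩
      · rw [Finset.coe_union]
        exact Set.union_subset hF hF'
      · rw [Finset.iInf_union])
  refine ⟨F, hF, fun a ha => ?_⟩
  have h1 : (⨅ p ∈ F, (qa S p).ker) ≤ Bst S := by
    intro b hb
    rw [mem_Bst]
    intro q hq
    have h2 := hW ((qa S q).ker) ⟨{q}, by simpa using hq, by simp⟩
    obtain ⟨k, hk, -, hk'⟩ := exists_pow_mem_of_relIndex_ne_zero h2 hb
    refine ⟨k, hk, ?_⟩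
    have h3 := (mem_ker_qa S q (b ^ k)).1 hk'.1
    rwa [map_pow] at h3
  have h2 : a ∈ (⨅ p ∈ F, (qa S p).ker) := by
    rw [Subgroup.mem_iInf]
    intro p
    rw [Subgroup.mem_iInf]
    intro hp
    exact (mem_ker_qa S p a).2 (ha p hp)
  have h3 := h1 h2
  rw [Bst_eq_bot S hP hM hH hab htf, Subgroup.mem_bot] at h3
  exact h3

end Pool.Agent.D5
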