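import Pool.Agent.Lib.MP_d5e6ed_al.B.Lin
import Pool.Agent.Lib.MP_d5e6ed_al.B.Det
import Pool.Agent.Lib.MP_d5e6ed_al.B.Primes
import Pool.Agent.Lib.MP_d5e6ed_al.B.Nice
import Pool.Agent.Lib.MP_d5e6ed_al.B.LFL
import Pool.Agent.Lib.MP_d5e6ed_al.B.HL
import Pool.Agent.Lib.MP_d5e6ed_al.B.Basic

/-!
# The linear part, for all minimal associated primes at once
-/

set_option autoImplicit false

namespace Pool.Agent.D5

universe u

open Subgroup

namespace Comb

section

variable {P M : Type u} [Group P] [AddCommGroup M] [DistribMulAction P M] {A : Subgroup P}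
  {R : Type u} [CommRing R] [Module R M] [MulSemiringAction P R]

/-- the pair `(p, T)` is nice -/
def Nice (A : Subgroup P) (i : Ideal R × Finset M) : Prop :=
  i.1 ∈ MinAss R M ∧ Tf i.1 (gen R (centralizer (A : Set P)) (i.2 : Set M))

/-- good subgroups -/
def Good (R M : Type u) [AddCommGroup M] [DistribMulAction P M] [CommRing R] [Module R M]
    (A : Subgroup P) (Y : Subgroup P) : Prop :=
  NormIn (centralizer (A : Set P)) Y ∧
    ∀ p ∈ MinAss R M, ∀ x : M, (∀ r ∈ p, r • x = 0) → LFin p (gen R Y {x})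

theorem normIn_self (C : Subgroup P) : NormIn C C :=
  ⟨le_rfl, fun c hc y hy => C.mul_mem (C.mul_mem hc hy) (C.inv_mem hc)⟩

theorem normIn_inf {C X Y : Subgroup P} (hX : NormIn C X) (hY : NormIn C Y) :
    NormIn C (X ⊓ Y) :=
  ⟨inf_le_left.trans hX.1, fun c hc y hy => ⟨hX.2 c hc y hy.1, hY.2 c hc y hy.2⟩⟩

theorem LF.mono_left {p : Ideal R} [IsNoetherianRing R] {Y Y' : Subgroup P} {N : Submodule R M}
    (h : Y ≤ Y') (hf : LF p Y' N) : LF p Y N :=
  fun x hx => LFin.mono (gen_mono_left h _) (hf x hx)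

/-- the intersections of the family of largest subgroups -/
theorem exists_good [Algebra.FiniteType ℤ R] [IsNoetherianRing R] (S : Setup (M := M) A R)
    (hP : PC P) [A.Normal] :
    ∃ (W : Subgroup P) (l : Finset (Ideal R × Finset M)), (∀ i ∈ l, Nice A i) ∧
      Good R M A W ∧ (∀ Y : Subgroup P, NormIn (centralizer (A : Set P)) Y →
        (∀ i ∈ l, LF i.1 Y (gen R (centralizer (A : Set P)) (i.2 : Set M))) → Y ≤ W) := by
  classical
  set C : Subgroup P := centralizer (A : Set P) with hC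
  have hlin : ∀ g ∈ C, ∀ (r : R) (x : M), g • (r • x) = r • (g • x) :=
    fun g hg => (lin_of_cent S hg).2
  have hΛ : ∀ i : Ideal R × Finset M, ∃ Λ : Subgroup P, NormIn C Λ ∧ (Nice A i →
      LF i.1 Λ (gen R C (i.2 : Set M)) ∧
      ∀ Y, NormIn C Y → LF i.1 Y (gen R C (i.2 : Set M)) → Y ≤ Λ) := by
    intro i
    by_cases hi : Nice A i
    · have : i.1.IsPrime := hi.1.prop.isPrime
      obtain ⟨Λ, h1, h2, h3⟩ := LF.exists_largest hP (p := i.1) hlin
        (inv_gen hlin (i.2 : Set M))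
      exact ⟨Λ, h1, fun _ => ⟨h2, h3⟩⟩
    · exact ⟨C, normIn_self C, fun h => absurd h hi⟩
  choose Λ hΛ1 hΛ2 using hΛ
  -- the family
  obtain ⟨W, ⟨l, hl, rfl⟩, hmin⟩ := exists_min_comm hP
    {X : Subgroup P | ∃ l : Finset (Ideal R × Finset M), (∀ i ∈ l, Nice A i) ∧
      X = C ⊓ l.inf Λ} ⟨C, ∅, by simp, by simp⟩ (by
      rintro X ⟨l, hl, rfl⟩ Y ⟨l', hl', rfl⟩
      refine ⟨l ∪ l', ?_, ?_⟩
      · intro i hi
        rcases Finset.mem_union.1 hi with h | h
        · exact hl i h
        · exact hl' i h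
      · rw [Finset.inf_union, inf_inf_inf_comm, inf_idem])
  have hnorm : ∀ l : Finset (Ideal R × Finset M), NormIn C (C ⊓ l.inf Λ) := by
    intro l
    induction l using Finset.induction_on with
    | empty => rw [Finset.inf_empty, inf_top_eq]; exact normIn_self C
    | insert i l hi IH =>
      rw [Finset.inf_insert, inf_left_comm]
      exact normIn_inf (hΛ1 i) IH
  set W : Subgroup P := C ⊓ l.inf Λ with hW
  have hWn : NormIn C W := hnorm l
  have hWC : W ≤ C := inf_le_left
  -- `W` acts locally finitely on all the nice pairs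
  have hLF : ∀ i : Ideal R × Finset M, Nice A i → LF i.1 W (gen R C (i.2 : Set M)) := by
    intro i hi
    have : i.1.IsPrime := hi.1.prop.isPrime
    have h1 : (C ⊓ (insert i l).inf Λ).relIndex W ≠ 0 := by
      refine hmin _ ⟨insert i l, ?_, rfl⟩
      intro j hj
      rcases Finset.mem_insert.1 hj with h | h
      · rw [h]; exact hi
      · exact hl j h
    have h2 : C ⊓ (insert i l).inf Λ = Λ i ⊓ W := by
      rw [Finset.inf_insert, inf_left_comm]
    rw [h2] at h1
    exact LF.relIndex hlin (inv_gen hlin _) inf_le_right hWC h1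
      (LF.mono_left inf_le_left (hΛ2 i hi).1)
  refine ⟨W, l, hl, ⟨hWn, ?_⟩, ?_⟩
  · intro p hp x hx
    have : p.IsPrime := hp.prop.isPrime
    obtain ⟨T, hT, s, hs, hsT⟩ := nice_sup S hP p {x} ∅
      (by simpa using hx) (by simp)
    have hsx : s • x ∈ gen R C (T : Set M) := by
      refine hsT x (Submodule.mem_sup_left ?_)
      rw [Finset.coe_singleton]
      exact mem_gen_singleton _ _
    have h1 : LFin p (gen R W {s • x}) := hLF (p, T) ⟨hp, hT⟩ _ hsx
    refine LFin.of_smul hs ?_ h1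
    intro y hy
    -- `s • y ∈ gen R W {s • x}`
    induction hy using Submodule.span_induction with
    | mem y hy =>
      obtain ⟨w, hw, z, hz, rfl⟩ := hy
      rw [Set.mem_singleton_iff] at hz
      subst hz
      rw [← hlin w (hWC hw)]
      exact smul_mem_gen hw (Set.mem_singleton _)
    | zero => rw [smul_zero]; exact Submodule.zero_mem _
    | add y z _ _ hy hz => rw [smul_add]; exact Submodule.add_mem _ hy hz
    | smul r y _ hy => rw [smul_comm]; exact Submodule.smul_mem _ _ hy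
  · intro Y hY hYl
    refine le_inf hY.1 ?_
    refine Finset.le_inf ?_
    intro i hi
    exact (hΛ2 i (hl i hi)).2 Y hY (hYl i hi)

/-- a good subgroup which is largest among the good subgroups is normal -/
theorem normal_of_good [IsNoetherianRing R] (S : Setup (M := M) A R) [A.Normal] {W : Subgroup P}
    (hW : Good R M A W) (hmax : ∀ Y, Good R M A Y → Y ≤ W) : W.Normal := by
  refine ⟨fun w hw g => ?_⟩
  have h1 : Good R M A (W.map (MulAut.conj g).toMonoidHom) := by
    refine ⟨⟨?_, ?_⟩, ?_⟩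
    · rintro _ ⟨y, hy, rfl⟩
      exact (normal_centralizer (H := A)).conj_mem y (hW.1.1 hy) g
    · rintro c hc _ ⟨y, hy, rfl⟩
      refine ⟨(g⁻¹ * c * g) * y * (g⁻¹ * c * g)⁻¹, ?_, ?_⟩
      · refine hW.1.2 _ ?_ y hy
        have := (normal_centralizer (H := A)).conj_mem c hc g⁻¹
        rwa [inv_inv] at this
      · simp only [MulEquiv.coe_toMonoidHom, MulAut.conj_apply]
        group
    · intro p hp x hx
      have h2 := hW.2 (tr g⁻¹ p) (tr_mem_minAss S.comp g⁻¹ hp) (g⁻¹ • x) (by
        intro r hr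
        rw [smul_eq_zero_iff_tr S.comp]
        exact hx _ hr)
      have h3 := LFin.conj S.comp (p := tr g⁻¹ p) (p' := p) (g := g) (by
        intro r
        rw [mem_tr, inv_inv]) h2
      rwa [smul_inv_smul] at h3
  exact hmax _ h1 (Subgroup.mem_map.2 ⟨w, hw, rfl⟩)

/-- the abelian normal subgroup `A` is good -/
theorem good_self [IsNoetherianRing R] (S : Setup (M := M) A R) [A.Normal]
    (hab : ∀ x ∈ A, ∀ y ∈ A, x * y = y * x) : Good R M A A := by
  classical
  refine ⟨⟨?_, ?_⟩, ?_⟩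
  · intro a ha
    rw [Subgroup.mem_centralizer_iff]
    exact fun b hb => (hab a ha b hb).symm
  · intro c _ y hy
    exact (inferInstance : A.Normal).conj_mem y hy c
  · intro p hp x hx
    refine ⟨{x}, fun y hy => ⟨1, (Ideal.ne_top_iff_one p).1 hp.prop.isPrime.ne_top, ?_⟩⟩
    rw [one_smul, Finset.coe_singleton]
    induction hy using Submodule.span_induction with
    | mem y hy =>
      obtain ⟨a, ha, z, hz, rfl⟩ := hy
      rw [Set.mem_singleton_iff] at hz
      subst hz
      have := S.act ⟨a, ha⟩ z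
      rw [← this]
      exact Submodule.smul_mem _ _ (Submodule.mem_span_singleton_self z)
    | zero => exact Submodule.zero_mem _
    | add y z _ _ hy hz => exact Submodule.add_mem _ hy hz
    | smul r y _ hy => exact Submodule.smul_mem _ _ hy

/-- `A` has finite index in the largest good subgroup -/
theorem relIndex_good [IsNoetherianRing R] (S : Setup (M := M) A R)
    (hP : PC P) [A.Normal] (hab : ∀ x ∈ A, ∀ y ∈ A, x * y = y * x)
    (htf : ∀ a ∈ A, IsOfFinOrder a → a = 1)
    (hmax : ∀ X : Subgroup P, X.Normal → (∀ x ∈ X, ∀ y ∈ X, x * y = y * x) → hl X ≤ hl A)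
    (F : Finset (Ideal R)) (hF : (F : Set (Ideal R)) ⊆ MinAss R M)
    (hfaith : ∀ a : A, (∀ p ∈ F, S.α a - 1 ∈ p) → a = 1)
    {W : Subgroup P} (hW : Good R M A W) (hWn : W.Normal) (hAW : A ≤ W) :
    A.relIndex W ≠ 0 := by
  classical
  intro h0
  set C : Subgroup P := centralizer (A : Set P) with hC
  have hWC : W ≤ C := hW.1.1
  -- the quotient `W / A`
  have hn : (A.subgroupOf W).Normal := inferInstance
  have hPC : PC (W ⧸ A.subgroupOf W) := (hP.subgroup W).quot _
  have hinf : Infinite (W ⧸ A.subgroupOf W) := by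
    rw [← not_finite_iff_infinite]
    intro hfin
    exact Nat.card_pos.ne' h0
  obtain ⟨X₀, hX₀c, hX₀i, hX₀a⟩ := hPC.exists_char
  set X : Subgroup P := (X₀.comap (QuotientGroup.mk' (A.subgroupOf W))).map W.subtype with hX
  have hXW : X ≤ W := by
    rintro _ ⟨w, _, rfl⟩
    exact w.2
  have hmemX : ∀ w : W, (w : P) ∈ X ↔ (QuotientGroup.mk w : W ⧸ A.subgroupOf W) ∈ X₀ := by
    intro w
    constructor
    · rintro ⟨w', hw', h⟩
      have : w' = w := Subtype.ext h
      rw [← this]
      exact hw'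
    · intro h
      exact ⟨w, h, rfl⟩
  have hAX : A ≤ X := by
    intro a ha
    have h1 := (hmemX ⟨a, hAW ha⟩).2 (by
      have : (QuotientGroup.mk (⟨a, hAW ha⟩ : W) : W ⧸ A.subgroupOf W) = 1 := by
        rw [QuotientGroup.eq_one_iff]
        exact ha
      rw [this]
      exact X₀.one_mem)
    exact h1
  have hXn : X.Normal := by
    refine ⟨fun x hx g => ?_⟩
    -- the automorphism of `W / A` induced by `g`
    let φ : W ≃* W := MulAut.conjNormal g
    have hφ : (A.subgroupOf W).map φ.toMonoidHom = A.subgroupOf W := by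
      ext w
      constructor
      · rintro ⟨v, hv, rfl⟩
        exact (inferInstance : A.Normal).conj_mem _ hv g
      · intro hw
        refine ⟨φ.symm w, ?_, φ.apply_symm_apply w⟩
        have h2 : ((φ.symm w : W) : P) = g⁻¹ * w * g := by
          exact MulAut.conjNormal_symm_apply g w
        change ((φ.symm w : W) : P) ∈ A
        rw [h2]
        have := (inferInstance : A.Normal).conj_mem _ hw g⁻¹
        rwa [inv_inv] at this
    let ψ : (W ⧸ A.subgroupOf W) ≃* (W ⧸ A.subgroupOf W) :=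
      QuotientGroup.congr (A.subgroupOf W) (A.subgroupOf W) φ hφ
    have h3 := (hmemX ⟨x, hXW hx⟩).1 hx
    have h4 : ψ (QuotientGroup.mk (⟨x, hXW hx⟩ : W)) ∈ X₀ := by
      have := hX₀c.fixed ψ
      rw [← this] at h3
      exact h3
    have h5 : ψ (QuotientGroup.mk (⟨x, hXW hx⟩ : W)) =
        QuotientGroup.mk (φ ⟨x, hXW hx⟩) := rfl
    rw [h5] at h4
    exact (hmemX _).2 h4
  -- commutators
  have hcomm : ∀ x ∈ X, ∀ y ∈ X, x * y * x⁻¹ * y⁻¹ ∈ A := by
    intro x hx y hy
    have h1 := hX₀a _ ((hmemX ⟨x, hXW hx⟩).1 hx) _ ((hmemX ⟨y, hXW hy⟩).1 hy)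
    rw [← QuotientGroup.mk_mul, ← QuotientGroup.mk_mul, QuotientGroup.eq,
      Subgroup.mem_subgroupOf] at h1
    have h2 : ((((⟨x, hXW hx⟩ : W) * ⟨y, hXW hy⟩)⁻¹ * (⟨y, hXW hy⟩ * ⟨x, hXW hx⟩) : W) : P)
        = (x * y)⁻¹ * (y * x) := rfl
    rw [h2] at h1
    have h3 := (inferInstance : A.Normal).conj_mem _ (A.inv_mem h1) (x * y)
    have h4 : x * y * ((x * y)⁻¹ * (y * x))⁻¹ * (x * y)⁻¹ = x * y * x⁻¹ * y⁻¹ := by group
    rwa [h4] at h3
  have hXab : ∀ x ∈ X, ∀ y ∈ X, x * y = y * x := by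
    intro x hx y hy
    set z : P := x * y * x⁻¹ * y⁻¹ with hz
    have hzA : z ∈ A := hcomm x hx y hy
    have : SMulCommClass C R M := ⟨fun g r m => (lin_of_cent S g.2).2 r m⟩
    have h1 : ∀ p : Ideal R, ∃ n : ℕ, 0 < n ∧ (p ∈ F → S.α ⟨z, hzA⟩ ^ n - 1 ∈ p) := by
      intro p
      by_cases hp : p ∈ F
      · have hpM := hF hp
        have : p.IsPrime := hpM.prop.isPrime
        obtain ⟨_, v, hv⟩ := mem_associatedPrimes_iff.1 hpM.prop
        have hvfin : LFin p (gen R (X.subgroupOf C) {v}) := by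
          rw [gen_subgroupOf (hXW.trans hWC)]
          exact LFin.mono (gen_mono_left hXW _)
            (hW.2 p hpM v fun r hr => (hv r).1 hr)
        obtain ⟨n, hn, hn'⟩ := det_comm (G := C) p (X.subgroupOf C) (x := ⟨x, hWC (hXW hx)⟩)
          (y := ⟨y, hWC (hXW hy)⟩) hx hy (S.α ⟨z, hzA⟩) (fun w => (S.act ⟨z, hzA⟩ w).symm) v
          (fun r hr => (hv r).1 hr) (fun r hr h => hr ((hv r).2 h)) hvfin
        exact ⟨n, hn, fun _ => hn'⟩
      · exact ⟨1, one_pos, fun h => absurd h hp⟩
    choose n hn hn' using h1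
    have h2 : (⟨z, hzA⟩ : A) ^ (∏ p ∈ F, n p) = 1 := by
      refine hfaith _ fun p hp => ?_
      rw [map_pow]
      obtain ⟨k, hk⟩ := Finset.dvd_prod_of_mem n hp
      rw [hk, pow_mul]
      exact p.mem_of_dvd (by simpa using sub_dvd_pow_sub_pow (S.α ⟨z, hzA⟩ ^ n p) 1 k)
        (hn' p hp)
    have h3 : z = 1 := by
      refine htf z hzA ?_
      rw [isOfFinOrder_iff_pow_eq_one]
      refine ⟨∏ p ∈ F, n p, Finset.prod_pos fun p _ => hn p, ?_⟩
      exact congrArg Subtype.val h2
    rw [hz, mul_inv_eq_one, mul_inv_eq_iff_eq_mul] at h3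
    exact h3
  -- contradiction
  have h6 := hmax X hXn hXab
  have h7 : A.relIndex X = 0 := by
    by_contra hne
    -- `X₀` is finite
    have h8 : (A.subgroupOf W).relIndex (X₀.comap (QuotientGroup.mk' (A.subgroupOf W))) ≠ 0 := by
      have h9 : (A.subgroupOf W).map W.subtype = A := by
        rw [Subgroup.subgroupOf_map_subtype, inf_eq_left.2 hAW]
      rw [← Subgroup.relIndex_map_map_of_injective _ _ W.subtype_injective, h9]
      exact hne
    have h10 : (⊥ : Subgroup (W ⧸ A.subgroupOf W)).relIndex X₀ ≠ 0 := by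
      have h11 := Subgroup.relIndex_comap (H := (⊥ : Subgroup (W ⧸ A.subgroupOf W)))
        (QuotientGroup.mk' (A.subgroupOf W)) (X₀.comap (QuotientGroup.mk' (A.subgroupOf W)))
      rw [Subgroup.map_comap_eq_self_of_surjective (QuotientGroup.mk'_surjective _),
        MonoidHom.comap_bot, QuotientGroup.ker_mk'] at h11
      rw [← h11]
      exact h8
    rw [Subgroup.relIndex_bot_left] at h10
    have := Nat.finite_of_card_ne_zero h10
    exact not_finite X₀
  exact absurd h6 (not_le.2 (hl_lt hP hAX h7))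

end

end Comb

section

variable {P M : Type u} [Group P] [AddCommGroup M] [DistribMulAction P M] {A : Subgroup P}
  {R : Type u} [CommRing R] [Module R M] [MulSemiringAction P R]

open Comb

theorem comb [Algebra.FiniteType ℤ R] (S : Setup (M := M) A R) (hP : PC P) {n : ℕ∞}
    (hn : hl P ≤ n) (ih : ThmA.{u} n) (hM : FGAct P M) (hH : HC P M) [A.Normal]
    (hab : ∀ x ∈ A, ∀ y ∈ A, x * y = y * x) (htf : ∀ a ∈ A, IsOfFinOrder a → a = 1)
    (hA0 : A ≠ ⊥)
    (hmax : ∀ X : Subgroup P, X.Normal → (∀ x ∈ X, ∀ y ∈ X, x * y = y * x) → hl X ≤ hl A) :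
    ∃ (F : Finset (Ideal R)) (y : Ideal R → M) (N : Ideal R → Submodule R M),
      (F : Set (Ideal R)) ⊆ MinAss R M ∧ (∀ a : A, (∀ p ∈ F, S.α a - 1 ∈ p) → a = 1) ∧
      (∀ p ∈ F, Tf p (N p) ∧ Inv R (centralizer (A : Set P)) (N p) ∧ y p ∈ N p ∧ y p ≠ 0) ∧
      {g : P | g ∈ centralizer (A : Set P) ∧ ∀ p ∈ F, g • y p = y p}.Finite := by
  classical
  have : IsNoetherianRing R := Algebra.FiniteType.isNoetherianRing ℤ R
  set C : Subgroup P := centralizer (A : Set P) with hC
  have hlin : ∀ g ∈ C, ∀ (r : R) (x : M), g • (r • x) = r • (g • x) :=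
    fun g hg => (lin_of_cent S hg).2
  obtain ⟨F₀, hF₀, hfaith⟩ := primes_faithful S hP hM hH hab htf
  obtain ⟨W, l, hl, hWg, hWmax⟩ := exists_good S hP
  have hmaxW : ∀ Y, Good R M A Y → Y ≤ W := by
    intro Y hY
    refine hWmax Y hY.1 fun i hi x hx => hY.2 i.1 (hl i hi).1 x fun r hr => ?_
    exact (hl i hi).2.1 r hr x hx
  have hWn : W.Normal := normal_of_good S hWg hmaxW
  have hAW : A ≤ W := hmaxW A (good_self S hab)
  have hAC : A ≤ C := hAW.trans hWg.1.1
  have hAi : Infinite A := by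
    by_contra hfin
    rw [not_infinite_iff_finite] at hfin
    refine hA0 ((Subgroup.eq_bot_iff_forall A).2 fun a ha => htf a ha ?_)
    have h1 : IsOfFinOrder (⟨a, ha⟩ : A) := isOfFinOrder_of_finite _
    rw [isOfFinOrder_iff_pow_eq_one] at h1 ⊢
    obtain ⟨n, hn, h2⟩ := h1
    exact ⟨n, hn, congrArg Subtype.val h2⟩
  -- the finite set of primes
  set F : Finset (Ideal R) := F₀ ∪ l.image Prod.fst with hF
  have hFM : ∀ p ∈ F, p ∈ MinAss R M := by
    intro p hp
    rcases Finset.mem_union.1 hp with h | h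
    · exact hF₀ h
    · obtain ⟨i, hi, rfl⟩ := Finset.mem_image.1 h
      exact (hl i hi).1
  have hfaithF : ∀ a : A, (∀ p ∈ F, S.α a - 1 ∈ p) → a = 1 :=
    fun a ha => hfaith a fun p hp => ha p (Finset.mem_union_left _ hp)
  -- for each `p`
  have hone : ∀ p : Ideal R, ∃ (N : Submodule R M) (y : M) (Y : Subgroup P), p ∈ F →
      (Tf p N ∧ Inv R C N ∧ y ∈ N ∧ y ≠ 0) ∧ NormIn C Y ∧
      Y.relIndex (C ⊓ MulAction.stabilizer P y) ≠ 0 ∧
      ∀ i ∈ l, i.1 = p → LF i.1 Y (gen R C (i.2 : Set M)) := by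
    intro p
    by_cases hp : p ∈ F
    swap
    · exact ⟨⊥, 0, ⊥, fun h => absurd h hp⟩
    have hpM := hFM p hp
    have : p.IsPrime := hpM.prop.isPrime
    obtain ⟨_, v, hv⟩ := mem_associatedPrimes_iff.1 hpM.prop
    set T₂ : Finset M := (l.filter fun i => i.1 = p).biUnion Prod.snd with hT₂
    obtain ⟨T, hT, s, hs, hsT⟩ := nice_sup S hP p {v} T₂ (by
        intro r hr x hx
        rw [Finset.mem_singleton] at hx
        rw [hx]
        exact (hv r).1 hr) (by
        intro r hr x hx
        obtain ⟨i, hi, hx'⟩ := Finset.mem_biUnion.1 hx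
        obtain ⟨hi', hip⟩ := Finset.mem_filter.1 hi
        exact (hl i hi').2.1 r (hip ▸ hr) x (subset_gen C _ hx'))
    set N : Submodule R M := gen R C (T : Set M) with hN
    have hNinv : Inv R C N := inv_gen hlin _
    have hsv : s • v ∈ N := by
      refine hsT v (Submodule.mem_sup_left ?_)
      rw [Finset.coe_singleton]
      exact mem_gen_singleton _ _
    have hsv0 : s • v ≠ 0 := fun h => hs ((hv s).2 h)
    have hN0 : N ≠ ⊥ := fun h => hsv0 ((Submodule.mem_bot R).1 (h ▸ hsv))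
    -- the linear theorem
    have : SMulCommClass C R M := ⟨fun g r m => (lin_of_cent S g.2).2 r m⟩
    have hAi' : Infinite (A.subgroupOf C) :=
      (Subgroup.subgroupOfEquivOfLe hAC).toEquiv.infinite_iff.2 hAi
    obtain ⟨y, hyN, hy0, Y, hYn, hYf, hYi⟩ := lin (G := C) (R := R) (M := M) (hP.subgroup C)
      ((hl_subgroup_le C).trans hn) ih (A.subgroupOf C) hAi'
      (fun c => if h : (c : P) ∈ A then S.α ⟨c, h⟩ else 0) (by
        intro a ha x
        have ha' : (a : P) ∈ A := ha
        rw [dif_pos ha', S.act]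
        rfl) p N T (by rw [hN, gen_top]) hT hN0
    refine ⟨N, y, Y.map C.subtype, fun _ => ⟨⟨hT, hNinv, hyN, hy0⟩, ⟨?_, ?_⟩, ?_, ?_⟩⟩
    · rintro _ ⟨c, _, rfl⟩
      exact c.2
    · rintro c hc _ ⟨y', hy', rfl⟩
      exact ⟨⟨c, hc⟩ * y' * ⟨c, hc⟩⁻¹, hYn.conj_mem y' hy' _, rfl⟩
    · have h1 : C ⊓ MulAction.stabilizer P y =
          (MulAction.stabilizer C y).map C.subtype := by
        ext g
        constructor
        · rintro ⟨hg1, hg2⟩
          exact ⟨⟨g, hg1⟩, hg2, rfl⟩
        · rintro ⟨c, hc, rfl⟩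
          exact ⟨c.2, hc⟩
      rw [h1, Subgroup.relIndex_map_map_of_injective _ _ C.subtype_injective]
      exact hYi
    · rintro i hi rfl x hx
      have hsx : s • x ∈ N := by
        refine hsT x (Submodule.mem_sup_right ?_)
        refine gen_mono_right C ?_ hx
        rw [Finset.coe_subset]
        exact Finset.subset_biUnion_of_mem Prod.snd (Finset.mem_filter.2 ⟨hi, rfl⟩)
      have h1 : LFin i.1 (gen R (Y.map C.subtype) {s • x}) := by
        rw [gen_map]
        exact hYf _ hsx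
      refine LFin.of_smul hs ?_ h1
      intro z hz
      induction hz using Submodule.span_induction with
      | mem z hz =>
        obtain ⟨w, hw, t, ht, rfl⟩ := hz
        rw [Set.mem_singleton_iff] at ht
        subst ht
        have hwC : w ∈ C := by
          obtain ⟨c, _, rfl⟩ := hw
          exact c.2
        rw [← hlin w hwC]
        exact smul_mem_gen hw (Set.mem_singleton _)
      | zero => rw [smul_zero]; exact Submodule.zero_mem _
      | add y z _ _ hy hz => rw [smul_add]; exact Submodule.add_mem _ hy hz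
      | smul r y _ hy => rw [smul_comm]; exact Submodule.smul_mem _ _ hy
  choose N y Y hNy using hone
  refine ⟨F, y, N, fun p hp => hFM p hp, hfaithF, fun p hp => (hNy p hp).1, ?_⟩
  -- the common stabilizer
  set Q : Subgroup P := C ⊓ F.inf (fun p => MulAction.stabilizer P (y p)) with hQ
  have hQmem : ∀ g : P, g ∈ Q ↔ g ∈ C ∧ ∀ p ∈ F, g • y p = y p := by
    intro g
    rw [hQ, Subgroup.mem_inf, Finset.inf_eq_iInf]
    simp only [Subgroup.mem_iInf]
    rfl
  have hYQ : ∀ p ∈ F, (Y p).relIndex Q ≠ 0 := by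
    intro p hp
    refine mt (Subgroup.relIndex_eq_zero_of_le_right ?_) (hNy p hp).2.2.1
    exact inf_le_inf_left _ (Finset.inf_le hp)
  have hYF : ∀ F' : Finset (Ideal R), F' ⊆ F → (C ⊓ F'.inf Y).relIndex Q ≠ 0 := by
    intro F'
    induction F' using Finset.induction_on with
    | empty =>
      intro _
      rw [Finset.inf_empty, inf_top_eq, Subgroup.relIndex_eq_one.2 (inf_le_left : Q ≤ C)]
      exact one_ne_zero
    | insert p F' hp IH =>
      intro hsub
      rw [Finset.inf_insert, inf_left_comm]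
      exact Subgroup.relIndex_inf_ne_zero (hYQ p (hsub (Finset.mem_insert_self _ _)))
        (IH fun q hq => hsub (Finset.mem_insert_of_mem hq))
  have hNorm : ∀ F' : Finset (Ideal R), F' ⊆ F → NormIn C (C ⊓ F'.inf Y) := by
    intro F'
    induction F' using Finset.induction_on with
    | empty => intro _; rw [Finset.inf_empty, inf_top_eq]; exact normIn_self C
    | insert p F' hp IH =>
      intro hsub
      rw [Finset.inf_insert, inf_left_comm]
      exact normIn_inf (hNy p (hsub (Finset.mem_insert_self _ _))).2.1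
        (IH fun q hq => hsub (Finset.mem_insert_of_mem hq))
  have hle : C ⊓ F.inf Y ≤ W := by
    refine hWmax _ (hNorm F (Finset.Subset.refl _)) fun i hi => ?_
    have hiF : i.1 ∈ F := Finset.mem_union_right _ (Finset.mem_image_of_mem _ hi)
    exact LF.mono_left (inf_le_right.trans (Finset.inf_le hiF)) ((hNy _ hiF).2.2.2 i hi rfl)
  have hWQ : W.relIndex Q ≠ 0 := fun h =>
    hYF F (Finset.Subset.refl _) (Subgroup.relIndex_eq_zero_of_le_left hle h)
  have hAQ : A.relIndex Q ≠ 0 :=
    Subgroup.relIndex_ne_zero_trans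
      (relIndex_good S hP hab htf hmax F₀ hF₀ hfaith hWg hWn hAW) hWQ
  have hbot : A ⊓ Q = ⊥ := by
    rw [Subgroup.eq_bot_iff_forall]
    rintro a ⟨haA, haQ⟩
    have h1 := hfaithF ⟨a, haA⟩ (by
      intro p hp
      by_contra hne
      have hfix := ((hQmem a).1 haQ).2 p hp
      obtain ⟨⟨_, hTf⟩, _, hyN, hy0⟩ := (hNy p hp).1
      refine hy0 (hTf _ hne (y p) hyN ?_)
      rw [sub_smul, one_smul, S.act, sub_eq_zero]
      exact hfix)
    exact congrArg Subtype.val h1
  have hfin : Finite Q := by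
    rw [← Subgroup.inf_relIndex_right, hbot, Subgroup.relIndex_bot_left] at hAQ
    exact Nat.finite_of_card_ne_zero hAQ
  have hset : {g : P | g ∈ C ∧ ∀ p ∈ F, g • y p = y p} = (Q : Set P) := by
    ext g
    exact (hQmem g).symm
  rw [hset]
  exact Set.toFinite _

end

end Pool.Agent.D5
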