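import Mathlib

/-!
# A covering lemma (MP_d5e6ed_al, module COV)

A group acting on a finitely generated abelian group `A` and covered by finitely many sets
`{g | g • e i ∈ U i}` with isolated subgroups `U i`: one of them contains a subgroup of
finite index.
-/

set_option autoImplicit false

namespace Pool.Agent.D5

open Pointwise

namespace Cov

/-- isolated (pure) subgroups -/
def Iso {E : Type*} [AddCommGroup E] (M : AddSubgroup E) : Prop :=
  ∀ n : ℕ, 0 < n → ∀ x, n • x ∈ M → x ∈ M

/-- irreducible isolated subgroups, relative to the orbit of `e` -/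
def Irr (D : Type*) {E : Type*} [Group D] [AddCommGroup E] [DistribMulAction D E] (e : E)
    (M : AddSubgroup E) : Prop :=
  Iso M ∧ ∀ K : Set (AddSubgroup E), K.Finite → (∀ L ∈ K, Iso L) →
    (∀ g : D, g • e ∈ M → ∃ L ∈ K, g • e ∈ L) → ∃ L ∈ K, M ≤ L

theorem finrank_lt {E : Type*} [AddCommGroup E] [Module.Finite ℤ E] {M K : AddSubgroup E}
    (hK : Iso K) (h : ¬ M ≤ K) :
    Module.finrank ℤ (M ⊓ K : AddSubgroup E) < Module.finrank ℤ M := by
  let M' : Submodule ℤ E := AddSubgroup.toIntSubmodule M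
  let K' : Submodule ℤ E := AddSubgroup.toIntSubmodule K
  let N : Submodule ℤ M' := K'.comap M'.subtype
  have hfin : Module.Finite ℤ M' := inferInstance
  have e1 : Module.finrank ℤ N = Module.finrank ℤ (M ⊓ K : AddSubgroup E) := by
    refine LinearEquiv.finrank_eq (LinearEquiv.ofBijective
      ({ toFun := fun x => ⟨x.1.1, x.1.2, x.2⟩
         map_add' := fun x y => rfl
         map_smul' := fun c x => Subtype.ext (by simp) } :
        N →ₗ[ℤ] (M ⊓ K : AddSubgroup E)) ⟨?_, ?_⟩)
    · intro x y hxy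
      have h0 := congrArg (fun z : (M ⊓ K : AddSubgroup E) => (z : E)) hxy
      exact Subtype.ext (Subtype.ext h0)
    · intro y
      exact ⟨⟨⟨y.1, y.2.1⟩, y.2.2⟩, rfl⟩
  have e2 : Module.finrank ℤ (M' ⧸ N) + Module.finrank ℤ N = Module.finrank ℤ M' :=
    Submodule.finrank_quotient_add_finrank N
  have hnt : Nontrivial (M' ⧸ N) := by
    rw [Submodule.Quotient.nontrivial_iff]
    intro htop
    apply h
    intro x hx
    have : (⟨x, hx⟩ : M') ∈ N := by rw [htop]; trivial
    exact this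
  have htf : Module.IsTorsionFree ℤ (M' ⧸ N) := by
    refine Module.IsTorsionFree.of_smul_eq_zero fun c x hcx => ?_
    obtain ⟨x, rfl⟩ := Submodule.Quotient.mk_surjective _ x
    rw [← Submodule.Quotient.mk_smul, Submodule.Quotient.mk_eq_zero] at hcx
    by_cases hc : c = 0
    · exact Or.inl hc
    · right
      rw [Submodule.Quotient.mk_eq_zero]
      have h1 : c • (x : E) ∈ K := hcx
      show (x : E) ∈ K
      apply hK c.natAbs (Int.natAbs_pos.2 hc)
      rw [← natCast_zsmul]
      rcases Int.natAbs_eq c with h2 | h2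
      · rw [← h2]; exact h1
      · have h3 : ((c.natAbs : ℤ)) = -c := by omega
        rw [h3, neg_smul]
        exact neg_mem h1
  have hpos : 0 < Module.finrank ℤ (M' ⧸ N) := Module.finrank_pos
  have e3 : Module.finrank ℤ M' = Module.finrank ℤ M := rfl
  omega

theorem exists_cover {D E : Type*} [Group D] [AddCommGroup E] [Module.Finite ℤ E]
    [DistribMulAction D E] (e : E) (d : ℕ) : ∀ M : AddSubgroup E, Iso M →
    Module.finrank ℤ M = d →
    ∃ N : Set (AddSubgroup E), N.Finite ∧ (∀ L ∈ N, Irr D e L) ∧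
      ∀ g : D, g • e ∈ M → ∃ L ∈ N, g • e ∈ L := by
  induction d using Nat.strong_induction_on with
  | _ d ih =>
    intro M hM hd
    by_cases hI : Irr D e M
    · exact ⟨{M}, Set.finite_singleton _, by simpa using hI, fun g hg => ⟨M, rfl, hg⟩⟩
    · simp only [Irr, not_and, not_forall, not_exists] at hI
      obtain ⟨K, hKf, hKi, hcov, hK⟩ := hI hM
      have key : ∀ L ∈ K, ∃ N : Set (AddSubgroup E), N.Finite ∧ (∀ L' ∈ N, Irr D e L') ∧
          ∀ g : D, g • e ∈ M ⊓ L → ∃ L' ∈ N, g • e ∈ L' := by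
        intro L hL
        refine ih _ ?_ (M ⊓ L) ?_ rfl
        · rw [← hd]
          exact finrank_lt (hKi L hL) (hK L hL)
        · intro n hn x hx
          exact ⟨hM n hn x hx.1, hKi L hL n hn x hx.2⟩
      choose! F hF1 hF2 hF3 using key
      refine ⟨⋃ L ∈ K, F L, hKf.biUnion fun L hL => hF1 L hL, ?_, ?_⟩
      · intro L' hL'
        simp only [Set.mem_iUnion] at hL'
        obtain ⟨L, hL, hL'⟩ := hL'
        exact hF2 L hL L' hL'
      · intro g hg
        obtain ⟨L, hL, hgL⟩ := hcov g hg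
        obtain ⟨L', hL', h'⟩ := hF3 L hL g ⟨hg, hgL⟩
        exact ⟨L', Set.mem_biUnion hL hL', h'⟩

theorem iso_smul {D E : Type*} [Group D] [AddCommGroup E] [DistribMulAction D E]
    (g : D) {M : AddSubgroup E} (hM : Iso M) : Iso (g • M) := by
  intro n hn x hx
  rw [AddSubgroup.mem_pointwise_smul_iff_inv_smul_mem] at hx ⊢
  apply hM n hn
  rwa [← smul_comm g⁻¹ n x]

theorem irr_smul {D E : Type*} [Group D] [AddCommGroup E] [DistribMulAction D E] {e : E}
    {M : AddSubgroup E} (h : Irr D e M) (g : D) : Irr D e (g • M) := by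
  refine ⟨iso_smul g h.1, fun K hKf hKi hcov => ?_⟩
  obtain ⟨L, hL, hML⟩ := h.2 ((fun L => g⁻¹ • L) '' K) (hKf.image _)
    (by rintro _ ⟨L, hL, rfl⟩; exact iso_smul _ (hKi L hL))
    (by
      intro g' hg'
      obtain ⟨L, hL, h'⟩ := hcov (g * g') (by
        rw [mul_smul]; exact AddSubgroup.smul_mem_pointwise_smul_iff.2 hg')
      refine ⟨_, ⟨L, hL, rfl⟩, ?_⟩
      show g' • e ∈ g⁻¹ • L
      rw [AddSubgroup.mem_pointwise_smul_iff_inv_smul_mem, inv_inv, ← mul_smul]
      exact h')
  obtain ⟨L', hL', rfl⟩ := hL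
  refine ⟨L', hL', ?_⟩
  have := AddSubgroup.pointwise_smul_le_pointwise_smul_iff (a := g) |>.2 hML
  simpa using this

end Cov

open Cov in
theorem cov {D A : Type*} [Group D] [AddCommGroup A] [Module.Finite ℤ A] [DistribMulAction D A]
    {ι : Type*} [Finite ι] (e : ι → A) (U : ι → AddSubgroup A)
    (hU : ∀ i, ∀ n : ℕ, 0 < n → ∀ a, n • a ∈ U i → a ∈ U i) (h : ∀ g : D, ∃ i, g • e i ∈ U i) :
    ∃ i, ∃ D' : Subgroup D, D'.FiniteIndex ∧ ∀ g ∈ D', g • e i ∈ U i := by
  have : Module.Finite ℤ (ι → A) := Module.Finite.pi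
  obtain ⟨N, hNf, hNi, hcov⟩ := exists_cover (D := D) e _ (⊤ : AddSubgroup (ι → A))
    (fun n hn x hx => trivial) rfl
  obtain ⟨N1, hN1, h1⟩ := hcov 1 trivial
  obtain ⟨M, hN1M, hM⟩ := hNf.exists_le_maximal hN1
  have he : e ∈ M := hN1M (by simpa using h1)
  have hMi : Irr D e M := hNi M hM.1
  -- every irreducible subgroup above a translate of `M` is below it
  have hmax : ∀ M' : AddSubgroup (ι → A), Irr D e M' → M ≤ M' → M' ≤ M := by
    intro M' hM' hle
    obtain ⟨L, hL, hML⟩ := hM'.2 N hNf (fun L hL => (hNi L hL).1)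
      (fun g _ => hcov g trivial)
    exact hML.trans (hM.2 hL (hle.trans hML))
  have horb : MulAction.orbit D M ⊆ N := by
    rintro _ ⟨g, rfl⟩
    show g • M ∈ N
    obtain ⟨L, hL, hML⟩ := (irr_smul hMi g).2 N hNf (fun L hL => (hNi L hL).1)
      (fun g _ => hcov g trivial)
    have h2 : M ≤ g⁻¹ • L := by
      have := AddSubgroup.pointwise_smul_le_pointwise_smul_iff (a := g⁻¹) |>.2 hML
      simpa using this
    have h3 := hmax _ (irr_smul (hNi L hL) g⁻¹) h2
    have h4 : g • M = L := by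
      apply le_antisymm hML
      have := AddSubgroup.pointwise_smul_le_pointwise_smul_iff (a := g) |>.2 h3
      simpa using this
    rw [h4]; exact hL
  have hidx : (MulAction.stabilizer D M).FiniteIndex := by
    refine ⟨?_⟩
    rw [MulAction.index_stabilizer]
    have hf : (MulAction.orbit D M).Finite := hNf.subset horb
    exact (Set.ncard_pos hf).2 ⟨M, MulAction.mem_orbit_self M⟩ |>.ne'
  obtain ⟨L, ⟨i, rfl⟩, hML⟩ := hMi.2
    (Set.range fun i : ι => (U i).comap (Pi.evalAddMonoidHom (fun _ : ι => A) i))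
    (Set.finite_range _)
    (by
      rintro _ ⟨i, rfl⟩ n hn x hx
      exact hU i n hn (x i) hx)
    (by
      intro g _
      obtain ⟨i, hi⟩ := h g
      exact ⟨_, ⟨i, rfl⟩, hi⟩)
  refine ⟨i, MulAction.stabilizer D M, hidx, fun g hg => ?_⟩
  have hg' : g • M = M := hg
  have : g • e ∈ M := by
    rw [← hg']
    exact AddSubgroup.smul_mem_pointwise_smul_iff.2 he
  exact hML this

end Pool.Agent.D5
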