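import Mathlib

/-!
# Nilpotent-by-polycyclic groups with finitely generated centralizers : definitions

(helper50, problem MP_d5e6ed_al)
-/

set_option autoImplicit false

namespace Pool.Agent.D5

universe u

/-- polycyclic groups: soluble with all subgroups finitely generated -/
structure PC (G : Type*) [Group G] : Prop where
  sol : Group.IsSolvable G
  fg : ∀ H : Subgroup G, H.FG

/-- there is a chain of `n + 1` subgroups with infinite successive indices -/
def HChain (G : Type*) [Group G] (n : ℕ) : Prop :=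
  ∃ c : ℕ → Subgroup G, ∀ i < n, c i ≤ c (i + 1) ∧ (c i).relIndex (c (i + 1)) = 0

/-- the supremum of the lengths of such chains (the Hirsch length, for polycyclic groups) -/
noncomputable def hl (G : Type*) [Group G] : ℕ∞ := ⨆ (n : ℕ) (_ : HChain G n), (n : ℕ∞)

/-- `Y` is a subgroup of `C` normalised by `C` -/
def NormIn {G : Type*} [Group G] (C Y : Subgroup G) : Prop :=
  Y ≤ C ∧ ∀ c ∈ C, ∀ y ∈ Y, c * y * c⁻¹ ∈ Y

section act

variable (G M : Type*) [Group G] [AddCommGroup M] [DistribMulAction G M]

/-- `M` is finitely generated as a `G`-module -/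
def FGAct : Prop :=
  ∃ T : Finset M, ∀ N : AddSubgroup M, (∀ g : G, ∀ x ∈ N, g • x ∈ N) → (T : Set M) ⊆ N → N = ⊤

variable {G}

/-- `K` acts nilpotently on `M` -/
def NilAct (K : Subgroup G) : Prop :=
  ∃ n : ℕ, ∀ l : List G, (∀ k ∈ l, k ∈ K) → l.length = n →
    ∀ m : M, l.foldr (fun k x => k • x - x) m = 0

variable (G)

/-- no infinite subgroup which is normal in a subgroup of finite index acts nilpotently -/
def HC : Prop :=
  ∀ H K : Subgroup G, H.FiniteIndex → K ≤ H → (∀ h ∈ H, ∀ k ∈ K, h * k * h⁻¹ ∈ K) →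
    NilAct M K → Finite K

end act

/-- Theorem A for the groups with `hl < n` -/
def ThmA (n : ℕ∞) : Prop :=
  ∀ (P M : Type u) [Group P] [AddCommGroup M] [DistribMulAction P M],
    PC P → hl P < n → FGAct P M → HC P M → ∃ m : M, Finite (MulAction.stabilizer P m)

section lin

variable {G : Type*} (R : Type*) {M : Type*} [Group G] [CommRing R] [AddCommGroup M]
  [Module R M] [DistribMulAction G M]

/-- `N` is `H`-invariant -/
def Inv (H : Subgroup G) (N : Submodule R M) : Prop := ∀ h ∈ H, ∀ x ∈ N, h • x ∈ N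

/-- the `R[H]`-submodule generated by `T` (if `H` acts `R`-linearly) -/
def gen (H : Subgroup G) (T : Set M) : Submodule R M :=
  Submodule.span R {y | ∃ h ∈ H, ∃ x ∈ T, y = h • x}

variable {R}

/-- `N` has finite rank modulo the prime `p` -/
def LFin (p : Ideal R) (N : Submodule R M) : Prop :=
  ∃ T : Finset M, ∀ x ∈ N, ∃ s : R, s ∉ p ∧ s • x ∈ Submodule.span R (T : Set M)

/-- `N` is a torsion free `R ⧸ p`-module -/
def Tf (p : Ideal R) (N : Submodule R M) : Prop :=
  (∀ r ∈ p, ∀ x ∈ N, r • x = 0) ∧ ∀ r : R, r ∉ p → ∀ x ∈ N, r • x = 0 → x = 0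

/-- `Y` acts locally with finite rank on `N` (modulo the prime `p`) -/
def LF (p : Ideal R) (Y : Subgroup G) (N : Submodule R M) : Prop :=
  ∀ x ∈ N, LFin p (gen R Y {x})

variable (R M) in
/-- the minimal associated primes -/
def MinAss : Set (Ideal R) := {p | Minimal (· ∈ associatedPrimes R M) p}

end lin

/-- `R` is a commutative ring generated by (the image of) the abelian normal subgroup `A` of `P`,
acting on the `P`-module `M`, with the compatible action of `P`. -/
structure Setup {P M : Type u} [Group P] [AddCommGroup M] [DistribMulAction P M]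
    (A : Subgroup P) (R : Type u) [CommRing R] [Module R M] [MulSemiringAction P R] where
  α : A →* R
  comp : ∀ (g : P) (r : R) (m : M), g • (r • m) = (g • r) • (g • m)
  act : ∀ (a : A) (m : M), α a • m = (a : P) • m
  conj : ∀ (g : P) (a : A) (h : g * (a : P) * g⁻¹ ∈ A), g • α a = α ⟨g * (a : P) * g⁻¹, h⟩
  gen : Algebra.adjoin ℤ (Set.range α) = ⊤

end Pool.Agent.D5
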