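import Pool.Agent.Lib.MP_d5e6ed_al.B.PCB

/-!
# Polycyclic quotients of finitely generated groups: the kernel is finitely normally generated
-/

set_option autoImplicit false

namespace Pool.Agent.D5

open Subgroup

namespace FPaux

theorem conj_zpow {G : Type*} [Group G] (B : Subgroup G) (t : G)
    (h1 : ∀ b ∈ B, t * b * t⁻¹ ∈ B) (h2 : ∀ b ∈ B, t⁻¹ * b * t ∈ B) (k : ℤ) :
    ∀ b ∈ B, t ^ k * b * (t ^ k)⁻¹ ∈ B := by
  induction k using Int.induction_on with
  | zero => intro b hb; simpa using hb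
  | succ n ih =>
    intro b hb
    have := h1 _ (ih b hb)
    rw [zpow_add_one, show t ^ (n : ℤ) * t = t * t ^ (n : ℤ) from by
      rw [← zpow_add_one, ← zpow_one_add, add_comm]]
    simpa [mul_assoc] using this
  | pred n ih =>
    intro b hb
    have := h2 _ (ih b hb)
    rw [show t ^ (-(n : ℤ) - 1) = t⁻¹ * t ^ (-(n : ℤ)) from by
      rw [← zpow_neg_one, ← zpow_add]; congr 1; ring]
    simpa [mul_assoc] using this

/-- elements of `B ⟨t⟩` -/
theorem mem_sup_zpowers {G : Type*} [Group G] (B : Subgroup G) (t : G)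
    (h1 : ∀ b ∈ B, t * b * t⁻¹ ∈ B) (h2 : ∀ b ∈ B, t⁻¹ * b * t ∈ B) {x : G}
    (hx : x ∈ B ⊔ zpowers t) : ∃ b ∈ B, ∃ k : ℤ, x = b * t ^ k := by
  let D : Subgroup G :=
    { carrier := {x | ∃ b ∈ B, ∃ k : ℤ, x = b * t ^ k}
      one_mem' := ⟨1, B.one_mem, 0, by simp⟩
      mul_mem' := by
        rintro _ _ ⟨b, hb, k, rfl⟩ ⟨c, hc, l, rfl⟩
        refine ⟨b * (t ^ k * c * (t ^ k)⁻¹), B.mul_mem hb (conj_zpow B t h1 h2 k c hc), k + l, ?_⟩
        rw [zpow_add]; group
      inv_mem' := by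
        rintro _ ⟨b, hb, k, rfl⟩
        refine ⟨t ^ (-k) * b⁻¹ * (t ^ (-k))⁻¹, conj_zpow B t h1 h2 (-k) _ (B.inv_mem hb), -k, ?_⟩
        group }
  have hD : B ⊔ zpowers t ≤ D := by
    refine sup_le (fun b hb => ⟨b, hb, 0, by simp⟩) ?_
    rw [zpowers_le]
    exact ⟨1, B.one_mem, 1, by simp⟩
  exact hD hx

theorem mem_sup_norm {G : Type*} [Group G] (H L : Subgroup G)
    (h : ∀ g ∈ H, ∀ l ∈ L, g * l * g⁻¹ ∈ L) {x : G} (hx : x ∈ H ⊔ L) :
    ∃ g ∈ H, ∃ l ∈ L, x = g * l := by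
  let D : Subgroup G :=
    { carrier := {x | ∃ g ∈ H, ∃ l ∈ L, x = g * l}
      one_mem' := ⟨1, H.one_mem, 1, L.one_mem, by simp⟩
      mul_mem' := by
        rintro _ _ ⟨g, hg, l, hl, rfl⟩ ⟨g', hg', l', hl', rfl⟩
        refine ⟨g * g', H.mul_mem hg hg', (g'⁻¹ * l * g'⁻¹⁻¹) * l',
          L.mul_mem (h _ (H.inv_mem hg') _ hl) hl', ?_⟩
        group
      inv_mem' := by
        rintro _ ⟨g, hg, l, hl, rfl⟩
        refine ⟨g⁻¹, H.inv_mem hg, g * l⁻¹ * g⁻¹, h _ hg _ (L.inv_mem hl), ?_⟩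
        group }
  have hD : H ⊔ L ≤ D :=
    sup_le (fun b hb => ⟨b, hb, 1, L.one_mem, by simp⟩) (fun b hb => ⟨1, H.one_mem, b, hb, by simp⟩)
  exact hD hx

theorem key {G P : Type*} [Group G] [Group P] (f : G →* P) (hP : ∀ H : Subgroup P, H.FG)
    (K : Subgroup P) (hK : Tower (⊥ : Subgroup P) K) :
    ∀ H : Subgroup G, H.FG → H.map f = K →
      ∃ X : Set G, X.Finite ∧ (∀ x ∈ X, x ∈ H ∧ f x = 1) ∧
        ∀ L : Subgroup G, (∀ h ∈ H, ∀ l ∈ L, h * l * h⁻¹ ∈ L) → X ⊆ L →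
          ∀ z ∈ H, f z = 1 → z ∈ L := by
  induction hK with
  | base =>
    intro H hH hmap
    obtain ⟨S, hS⟩ := hH
    have h1 : ∀ z ∈ H, f z = 1 := fun z hz => by
      have : f z ∈ H.map f := mem_map_of_mem f hz
      rwa [hmap, mem_bot] at this
    refine ⟨S, S.finite_toSet, fun x hx => ?_, fun L _ hL z hz _ => ?_⟩
    · have : x ∈ H := hS ▸ subset_closure hx
      exact ⟨this, h1 x this⟩
    · rw [← hS] at hz
      exact (closure_le L).2 hL hz
  | step B t _ h1 h2 ih =>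
    intro H hH hmap
    have hlift : ∀ p ∈ B ⊔ zpowers t, ∃ g ∈ H, f g = p := fun p hp => by
      rw [← hmap] at hp
      obtain ⟨g, hg, rfl⟩ := hp
      exact ⟨g, hg, rfl⟩
    have hBK : B ≤ B ⊔ zpowers t := le_sup_left
    obtain ⟨s, hsH, hst⟩ := hlift t (mem_sup_right (mem_zpowers t))
    obtain ⟨T, hT⟩ := hP B
    have hTB : ∀ p ∈ T, p ∈ B := fun p hp => hT ▸ subset_closure hp
    classical
    choose! φ hφ using hlift
    set Y : Finset G := T.image φ with hY
    set H' : Subgroup G := closure (Y : Set G) with hH'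
    have hYH : ∀ y ∈ Y, y ∈ H := by
      intro y hy
      obtain ⟨p, hp, rfl⟩ := Finset.mem_image.1 hy
      exact (hφ p (hBK (hTB p hp))).1
    have hH'H : H' ≤ H := (closure_le H).2 fun y hy => hYH y hy
    have hH'map : H'.map f = B := by
      rw [hH', MonoidHom.map_closure, ← hT, hY, Finset.coe_image, ← Set.image_comp]
      congr 1
      ext p
      constructor
      · rintro ⟨q, hq, rfl⟩
        simp only [Function.comp]
        rw [(hφ q (hBK (hTB q hq))).2]
        exact hq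
      · intro hp
        exact ⟨p, hp, (hφ p (hBK (hTB p hp))).2⟩
    have hw : ∀ p ∈ B, ∃ w ∈ H', f w = p := fun p hp => by
      rw [← hH'map] at hp
      obtain ⟨g, hg, rfl⟩ := hp
      exact ⟨g, hg, rfl⟩
    have hfH' : ∀ w ∈ H', f w ∈ B := fun w hw' => hH'map ▸ mem_map_of_mem f hw'
    choose! ψ hψ using hw
    obtain ⟨X₁, hX₁fin, hX₁, hX₁L⟩ := ih H' ⟨Y, rfl⟩ hH'map
    obtain ⟨S, hS⟩ := hH
    have hSH : ∀ g ∈ S, g ∈ H := fun g hg => hS ▸ subset_closure hg
    -- words for the generators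
    have hgen : ∀ g ∈ S, ∃ w ∈ H', ∃ k : ℤ, f g = f w * t ^ k := by
      intro g hg
      have h3 : f g ∈ B ⊔ zpowers t := hmap ▸ mem_map_of_mem f (hSH g hg)
      obtain ⟨b, hb, k, hk⟩ := mem_sup_zpowers B t h1 h2 h3
      exact ⟨ψ b, (hψ b hb).1, k, by rw [(hψ b hb).2, hk]⟩
    choose! u hu kk hkk using hgen
    -- the exponents `k` with `t ^ k ∈ B`
    obtain ⟨n, hn⟩ := Int.subgroup_cyclic
      ({ carrier := {k : ℤ | t ^ k ∈ B}
         zero_mem' := by simp [B.one_mem]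
         add_mem' := by
           intro a b ha hb
           simp only [Set.mem_ofPred_eq] at ha hb ⊢
           rw [zpow_add]; exact B.mul_mem ha hb
         neg_mem' := by
           intro a ha
           simp only [Set.mem_ofPred_eq] at ha ⊢
           rw [zpow_neg]; exact B.inv_mem ha } : AddSubgroup ℤ)
    have hn' : ∀ k : ℤ, t ^ k ∈ B ↔ ∃ m : ℤ, k = m * n := by
      intro k
      have h4 : t ^ k ∈ B ↔ k ∈ AddSubgroup.closure {n} := by
        rw [← hn]; rfl
      rw [h4, AddSubgroup.mem_closure_singleton]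
      constructor
      · rintro ⟨m, hm⟩; exact ⟨m, by rw [← hm, smul_eq_mul]⟩
      · rintro ⟨m, hm⟩; exact ⟨m, by rw [hm, smul_eq_mul]⟩
    have htn : t ^ n ∈ B := (hn' n).2 ⟨1, by ring⟩
    set X₀ : Set G := ((fun g => g⁻¹ * (u g * s ^ kk g)) '' (S : Set G)) ∪
      ((fun y => (s * y * s⁻¹)⁻¹ * ψ (t * f y * t⁻¹)) '' (Y : Set G)) ∪
      ((fun y => (s⁻¹ * y * s)⁻¹ * ψ (t⁻¹ * f y * t)) '' (Y : Set G)) ∪
      {(s ^ n)⁻¹ * ψ (t ^ n)} with hX₀
    have hYB : ∀ y ∈ Y, f y ∈ B := fun y hy => hfH' y (subset_closure hy)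
    refine ⟨X₀ ∪ X₁, ?_, ?_, ?_⟩
    · refine Set.Finite.union ?_ hX₁fin
      exact (((S.finite_toSet.image _).union (Y.finite_toSet.image _)).union
        (Y.finite_toSet.image _)).union (Set.finite_singleton _)
    · rintro x (hx | hx)
      · rcases hx with ((⟨g, hg, rfl⟩ | ⟨y, hy, rfl⟩) | ⟨y, hy, rfl⟩) | hx
        · refine ⟨H.mul_mem (H.inv_mem (hSH g hg)) (H.mul_mem (hH'H (hu g hg))
            (H.zpow_mem hsH _)), ?_⟩
          simp only [map_mul, map_inv, map_zpow, hst]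
          rw [hkk g hg]; group
        · have h5 := hψ _ (h1 _ (hYB y hy))
          refine ⟨H.mul_mem (H.inv_mem (H.mul_mem (H.mul_mem hsH (hYH y hy)) (H.inv_mem hsH)))
            (hH'H h5.1), ?_⟩
          simp only [map_mul, map_inv, hst]
          rw [h5.2]; group
        · have h5 := hψ _ (h2 _ (hYB y hy))
          refine ⟨H.mul_mem (H.inv_mem (H.mul_mem (H.mul_mem (H.inv_mem hsH) (hYH y hy)) hsH))
            (hH'H h5.1), ?_⟩
          simp only [map_mul, map_inv, hst]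
          rw [h5.2]; group
        · rw [Set.mem_singleton_iff] at hx
          subst hx
          have h5 := hψ _ htn
          refine ⟨H.mul_mem (H.inv_mem (H.zpow_mem hsH _)) (hH'H h5.1), ?_⟩
          simp only [map_mul, map_inv, map_zpow, hst]
          rw [h5.2]; group
      · exact ⟨hH'H (hX₁ x hx).1, (hX₁ x hx).2⟩
    · intro L hL hXL z hz hfz
      -- replace `L` by its intersection with the kernel and `H`
      set M : Subgroup G := L ⊓ f.ker ⊓ H with hM
      have hMn : ∀ h ∈ H, ∀ l ∈ M, h * l * h⁻¹ ∈ M := by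
        rintro h hh l ⟨⟨hl1, hl2⟩, hl3⟩
        refine ⟨⟨hL h hh l hl1, ?_⟩, H.mul_mem (H.mul_mem hh hl3) (H.inv_mem hh)⟩
        have : f l = 1 := hl2
        show f (h * l * h⁻¹) = 1
        simp [this]
      have hXall : ∀ x ∈ X₀ ∪ X₁, x ∈ H ∧ f x = 1 := by
        rintro x (hx | hx)
        · rcases hx with ((⟨g, hg, rfl⟩ | ⟨y, hy, rfl⟩) | ⟨y, hy, rfl⟩) | hx
          · refine ⟨H.mul_mem (H.inv_mem (hSH g hg)) (H.mul_mem (hH'H (hu g hg))
              (H.zpow_mem hsH _)), ?_⟩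
            simp only [map_mul, map_inv, map_zpow, hst]
            rw [hkk g hg]; group
          · have h5 := hψ _ (h1 _ (hYB y hy))
            refine ⟨H.mul_mem (H.inv_mem (H.mul_mem (H.mul_mem hsH (hYH y hy)) (H.inv_mem hsH)))
              (hH'H h5.1), ?_⟩
            simp only [map_mul, map_inv, hst]
            rw [h5.2]; group
          · have h5 := hψ _ (h2 _ (hYB y hy))
            refine ⟨H.mul_mem (H.inv_mem (H.mul_mem (H.mul_mem (H.inv_mem hsH) (hYH y hy)) hsH))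
              (hH'H h5.1), ?_⟩
            simp only [map_mul, map_inv, hst]
            rw [h5.2]; group
          · rw [Set.mem_singleton_iff] at hx
            subst hx
            have h5 := hψ _ htn
            refine ⟨H.mul_mem (H.inv_mem (H.zpow_mem hsH _)) (hH'H h5.1), ?_⟩
            simp only [map_mul, map_inv, map_zpow, hst]
            rw [h5.2]; group
        · exact ⟨hH'H (hX₁ x hx).1, (hX₁ x hx).2⟩
      have hXM : ∀ x ∈ X₀ ∪ X₁, x ∈ M := fun x hx =>
        ⟨⟨hXL hx, (hXall x hx).2⟩, (hXall x hx).1⟩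
      set U : Subgroup G := H' ⊔ M with hU
      have hMU : M ≤ U := le_sup_right
      have hH'U : H' ≤ U := le_sup_left
      -- `s` normalises `U`
      have hs1 : U ≤ U.comap (MulAut.conj s).toMonoidHom := by
        refine sup_le ((closure_le _).2 fun y hy => ?_) fun l hl => ?_
        · show s * y * s⁻¹ ∈ U
          have h5 : (s * y * s⁻¹)⁻¹ * ψ (t * f y * t⁻¹) ∈ U :=
            hMU (hXM _ (Or.inl (Or.inl (Or.inl (Or.inr ⟨y, hy, rfl⟩)))))
          have h6 : ψ (t * f y * t⁻¹) ∈ U := hH'U (hψ _ (h1 _ (hYB y hy))).1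
          have h7 := U.mul_mem h6 (U.inv_mem h5)
          simpa [mul_assoc] using h7
        · exact hMU (hMn s hsH l hl)
      have hs2 : U ≤ U.comap (MulAut.conj s⁻¹).toMonoidHom := by
        refine sup_le ((closure_le _).2 fun y hy => ?_) fun l hl => ?_
        · show s⁻¹ * y * s⁻¹⁻¹ ∈ U
          have h5 : (s⁻¹ * y * s)⁻¹ * ψ (t⁻¹ * f y * t) ∈ U :=
            hMU (hXM _ (Or.inl (Or.inl (Or.inr ⟨y, hy, rfl⟩))))
          have h6 : ψ (t⁻¹ * f y * t) ∈ U := hH'U (hψ _ (h2 _ (hYB y hy))).1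
          have h7 := U.mul_mem h6 (U.inv_mem h5)
          simpa [mul_assoc] using h7
        · exact hMU (hMn s⁻¹ (H.inv_mem hsH) l hl)
      have hU1 : ∀ b ∈ U, s * b * s⁻¹ ∈ U := fun b hb => hs1 hb
      have hU2 : ∀ b ∈ U, s⁻¹ * b * s ∈ U := fun b hb => by
        have h8 : s⁻¹ * b * s⁻¹⁻¹ ∈ U := hs2 hb
        rwa [inv_inv] at h8
      -- `H` is generated by `U` and `s`
      have hHD : H ≤ U ⊔ zpowers s := by
        rw [← hS]
        refine (closure_le _).2 fun g hg => ?_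
        have h5 : g⁻¹ * (u g * s ^ kk g) ∈ U :=
          hMU (hXM _ (Or.inl (Or.inl (Or.inl (Or.inl ⟨g, hg, rfl⟩)))))
        have h6 : u g * s ^ kk g ∈ U ⊔ zpowers s :=
          mul_mem (mem_sup_left (hH'U (hu g hg))) (mem_sup_right (zpow_mem (mem_zpowers s) _))
        have h7 := mul_mem h6 (inv_mem (mem_sup_left (T := zpowers s) h5))
        have h8 : u g * s ^ kk g * (g⁻¹ * (u g * s ^ kk g))⁻¹ = g := by group
        rw [h8] at h7
        exact h7
      have hsn : s ^ n ∈ U := by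
        have h5 : (s ^ n)⁻¹ * ψ (t ^ n) ∈ U := hMU (hXM _ (Or.inl (Or.inr rfl)))
        have h6 : ψ (t ^ n) ∈ U := hH'U (hψ _ htn).1
        have h7 := U.mul_mem h6 (U.inv_mem h5)
        have h8 : ψ (t ^ n) * ((s ^ n)⁻¹ * ψ (t ^ n))⁻¹ = s ^ n := by group
        rwa [h8] at h7
      have hfU : ∀ x ∈ U, f x ∈ B := by
        intro x hx
        obtain ⟨h', hh', l, hl, rfl⟩ := mem_sup_norm H' M
          (fun g hg l hl => hMn g (hH'H hg) l hl) hx
        have h9 : f l = 1 := hl.1.2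
        rw [map_mul, h9, mul_one]
        exact hfH' _ hh'
      obtain ⟨x, hx, k, hzk⟩ := mem_sup_zpowers U s hU1 hU2 (hHD hz)
      have htk : t ^ k ∈ B := by
        have h10 : f x * t ^ k = 1 := by rw [← hfz, hzk, map_mul, map_zpow, hst]
        have h11 : t ^ k = (f x)⁻¹ := eq_inv_of_mul_eq_one_right h10
        rw [h11]
        exact B.inv_mem (hfU x hx)
      obtain ⟨m, hm⟩ := (hn' k).1 htk
      have hzU : z ∈ U := by
        rw [hzk, hm, mul_comm m n, zpow_mul]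
        exact U.mul_mem hx (U.zpow_mem hsn m)
      obtain ⟨h', hh', l, hl, rfl⟩ := mem_sup_norm H' M
        (fun g hg l hl => hMn g (hH'H hg) l hl) hzU
      have h9 : f l = 1 := hl.1.2
      have h12 : f h' = 1 := by rw [map_mul, h9, mul_one] at hfz; exact hfz
      have h13 : h' ∈ M := hX₁L M (fun g hg l hl => hMn g (hH'H hg) l hl)
        (fun x hx => hXM x (Or.inr hx)) h' hh' h12
      exact L.mul_mem h13.1.1 hl.1.1

end FPaux

theorem fp {G : Type*} [Group G] (hG : Group.FG G) (N : Subgroup G) [N.Normal]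
    (hP : PC (G ⧸ N)) :
    ∃ X : Set G, X.Finite ∧ X ⊆ N ∧ ∀ L : Subgroup G, L.Normal → X ⊆ L → N ≤ L := by
  have h1 : (⊤ : Subgroup G).FG := (Group.fg_def).1 hG
  have h2 : (⊤ : Subgroup G).map (QuotientGroup.mk' N) = ⊤ := by
    rw [← MonoidHom.range_eq_map]
    exact MonoidHom.range_eq_top.2 (QuotientGroup.mk'_surjective N)
  obtain ⟨X, hX, hXN, hXL⟩ := FPaux.key (QuotientGroup.mk' N) hP.fg ⊤ (hP.tower ⊥) ⊤ h1 h2
  refine ⟨X, hX, fun x hx => ?_, fun L hL hXsub z hz => ?_⟩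
  · have := (hXN x hx).2
    rwa [QuotientGroup.mk'_apply, QuotientGroup.eq_one_iff] at this
  · refine hXL L (fun h _ l hl => hL.conj_mem l hl h) hXsub z (mem_top z) ?_
    rwa [QuotientGroup.mk'_apply, QuotientGroup.eq_one_iff]

end Pool.Agent.D5
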