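import Pool.Agent.Lib.MP_d5e6ed_al.Main

/-!
# P. Hall's nilpotency criterion (module NIL, helper17)
-/

set_option autoImplicit false

namespace Pool.Agent.D5

open Subgroup
open scoped commutatorElement

namespace HallNilAux

variable {Γ : Type*} [Group Γ]

/-- iterated commutators with the whole group -/
def D (k : ℕ) (X : Subgroup Γ) : Subgroup Γ := (fun Y : Subgroup Γ => ⁅Y, (⊤ : Subgroup Γ)⁆)^[k] X

theorem D_zero (X : Subgroup Γ) : D 0 X = X := rfl

theorem D_succ (k : ℕ) (X : Subgroup Γ) : D (k + 1) X = D k ⁅X, (⊤ : Subgroup Γ)⁆ := rfl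

theorem D_succ' (k : ℕ) (X : Subgroup Γ) : D (k + 1) X = ⁅D k X, (⊤ : Subgroup Γ)⁆ :=
  Function.iterate_succ_apply' _ k X

theorem D_mono (k : ℕ) {X Y : Subgroup Γ} (h : X ≤ Y) : D k X ≤ D k Y := by
  induction k with
  | zero => exact h
  | succ k ih => rw [D_succ', D_succ']; exact commutator_mono ih le_rfl

theorem D_add (k l : ℕ) (X : Subgroup Γ) : D (k + l) X = D k (D l X) :=
  Function.iterate_add_apply _ k l X

instance D_normal (k : ℕ) (X : Subgroup Γ) [X.Normal] : (D k X).Normal := by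
  induction k with
  | zero => rwa [D_zero]
  | succ k ih => rw [D_succ']; infer_instance

theorem D_le (k : ℕ) (X : Subgroup Γ) [X.Normal] : D k X ≤ X := by
  induction k with
  | zero => exact le_rfl
  | succ k ih => rw [D_succ']; exact le_trans (commutator_le_left _ _) ih

theorem sup_comm_top_le (X Y : Subgroup Γ) [X.Normal] [Y.Normal] :
    ⁅X ⊔ Y, (⊤ : Subgroup Γ)⁆ ≤ ⁅X, (⊤ : Subgroup Γ)⁆ ⊔ ⁅Y, (⊤ : Subgroup Γ)⁆ := by
  rw [commutator_le]
  intro z hz g hg
  obtain ⟨x, hx, y, hy, rfl⟩ := Subgroup.mem_sup_of_normal_right.1 hz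
  have e : ⁅x * y, g⁆ = (x * ⁅y, g⁆ * x⁻¹) * ⁅x, g⁆ := by
    simp only [commutatorElement_def]; group
  rw [e]
  refine mul_mem (mem_sup_right ?_) (mem_sup_left (commutator_mem_commutator hx hg))
  exact Subgroup.Normal.conj_mem inferInstance _ (commutator_mem_commutator hy hg) _

theorem D_sup_le (k : ℕ) (X Y : Subgroup Γ) [X.Normal] [Y.Normal] :
    D k (X ⊔ Y) ≤ D k X ⊔ D k Y := by
  induction k with
  | zero => exact le_rfl
  | succ k ih =>
    rw [D_succ', D_succ', D_succ']
    exact le_trans (commutator_mono ih le_rfl) (sup_comm_top_le _ _)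

/-- three subgroups lemma modulo a normal subgroup -/
theorem three (A B C W : Subgroup Γ) [A.Normal] [B.Normal] [C.Normal] [W.Normal]
    (h1 : ⁅⁅B, C⁆, A⁆ ≤ W) (h2 : ⁅⁅C, A⁆, B⁆ ≤ W) : ⁅⁅A, B⁆, C⁆ ≤ W := by
  have key : ∀ X : Subgroup Γ, X ≤ W ↔ X.map (QuotientGroup.mk' W) = ⊥ := by
    intro X
    rw [Subgroup.map_eq_bot_iff, QuotientGroup.ker_mk']
  rw [key] at h1 h2 ⊢
  rw [map_commutator, map_commutator] at h1 h2 ⊢
  exact commutator_commutator_eq_bot_of_rotate h1 h2

theorem comm_comm_top (A B : Subgroup Γ) [A.Normal] [B.Normal] :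
    ⁅⁅A, B⁆, (⊤ : Subgroup Γ)⁆ ≤ ⁅⁅A, (⊤ : Subgroup Γ)⁆, B⁆ ⊔ ⁅A, ⁅B, (⊤ : Subgroup Γ)⁆⁆ := by
  refine three A B ⊤ _ ?_ ?_
  · rw [commutator_comm ⁅B, (⊤ : Subgroup Γ)⁆ A]; exact le_sup_right
  · rw [commutator_comm (⊤ : Subgroup Γ) A]; exact le_sup_left

theorem D_comm (n : ℕ) : ∀ (a b : ℕ), a + b = n → ∀ (A B : Subgroup Γ), A.Normal → B.Normal →
    D n ⁅A, B⁆ ≤ ⁅D a A, B⁆ ⊔ ⁅A, D b B⁆ := by
  induction n with
  | zero =>
    intro a b hab A B hA hB
    obtain ⟨rfl, rfl⟩ : a = 0 ∧ b = 0 := by omega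
    exact le_sup_left
  | succ n ih =>
    intro a b hab A B hA hB
    rcases a with _ | a
    · exact le_trans (D_le _ _) (le_trans le_rfl le_sup_left)
    rcases b with _ | b
    · exact le_trans (D_le _ _) (le_trans le_rfl le_sup_right)
    rw [D_succ]
    refine le_trans (D_mono n (comm_comm_top A B)) (le_trans (D_sup_le n _ _) (sup_le ?_ ?_))
    · refine le_trans (ih a (b + 1) (by omega) ⁅A, (⊤ : Subgroup Γ)⁆ B inferInstance hB) ?_
      exact sup_le_sup le_rfl (commutator_mono (commutator_le_left _ _) le_rfl)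
    · refine le_trans (ih (a + 1) b (by omega) A ⁅B, (⊤ : Subgroup Γ)⁆ hA inferInstance) ?_
      exact sup_le_sup (commutator_mono le_rfl (commutator_le_left _ _)) le_rfl

instance lcs_normal' (N : Subgroup Γ) [N.Normal] (i : ℕ) : (N.lowerCentralSeries i).Normal := by
  induction i with
  | zero => simpa using (inferInstance : N.Normal)
  | succ n ih => rw [Subgroup.lowerCentralSeries_succ]; infer_instance

theorem lcs_comm_one (N : Subgroup Γ) [N.Normal] (i : ℕ) :
    ⁅N.lowerCentralSeries i, ⁅N, N⁆⁆ ≤ N.lowerCentralSeries (i + 2) := by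
  rw [commutator_comm]
  refine three N N (N.lowerCentralSeries i) _ ?_ ?_
  · rw [commutator_comm N (N.lowerCentralSeries i)]
    exact le_rfl
  · exact le_rfl

/-- the abstract form of P. Hall's theorem -/
theorem abstractHall (N : Subgroup Γ) [N.Normal] {c : ℕ} (hN : N.lowerCentralSeries c = ⊥)
    (hab : ⁅(⊤ : Subgroup Γ), ⊤⁆ ≤ N) {n : ℕ} (hn : D n N ≤ ⁅N, N⁆) :
    ∃ m, D m (⊤ : Subgroup Γ) = ⊥ := by
  have step : ∀ i, ∃ m, D m (N.lowerCentralSeries i) ≤ N.lowerCentralSeries (i + 1) := by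
    intro i
    induction i with
    | zero => exact ⟨n, hn⟩
    | succ i ih =>
      obtain ⟨m, hm⟩ := ih
      refine ⟨m + n, ?_⟩
      refine le_trans (D_comm (m + n) m n rfl (N.lowerCentralSeries i) N inferInstance
        inferInstance) (sup_le ?_ ?_)
      · exact commutator_mono hm le_rfl
      · exact le_trans (commutator_mono le_rfl hn) (lcs_comm_one N i)
  have all : ∀ i, ∃ m, D m (⊤ : Subgroup Γ) ≤ N.lowerCentralSeries i := by
    intro i
    induction i with
    | zero => exact ⟨1, by rw [D_succ, D_zero]; exact hab⟩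
    | succ i ih =>
      obtain ⟨m, hm⟩ := ih
      obtain ⟨m', hm'⟩ := step i
      exact ⟨m' + m, by rw [D_add]; exact le_trans (D_mono m' hm) hm'⟩
  obtain ⟨m, hm⟩ := all c
  exact ⟨m, by rw [hN] at hm; exact le_bot_iff.1 hm⟩

theorem lcs_eq_D (k : ℕ) : (⊤ : Subgroup Γ).lowerCentralSeries k = D k ⊤ := by
  induction k with
  | zero => rfl
  | succ k ih => rw [Subgroup.lowerCentralSeries_succ, D_succ', ih]

end HallNilAux

open HallNilAux PolycyclicCent in
theorem hall_nilp {G : Type*} [Group G] (N L : Subgroup G) [N.Normal]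
    (hN : Group.IsNilpotent N) (hNL : N ≤ L) (hab : ⁅L, L⁆ ≤ N)
    (hact : ∃ n : ℕ, ∀ l : List G, (∀ k ∈ l, k ∈ L) → l.length = n →
      ∀ m : Additive (Abelianization N),
        l.foldr (fun k x => PolycyclicCent.act N k x - x) m = 0) :
    Group.IsNilpotent L := by
  obtain ⟨n, hact⟩ := hact
  obtain ⟨c, hc⟩ := (isNilpotent_iff_lowerCentralSeries N).1 hN
  have hmapN : (N.subgroupOf L).map L.subtype = N := by
    rw [subgroupOf_map_subtype, inf_eq_left.2 hNL]
  have hinj : Function.Injective (Subgroup.map L.subtype) :=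
    Subgroup.map_injective L.subtype_injective
  have hc' : (N.subgroupOf L).lowerCentralSeries c = ⊥ := by
    apply hinj
    rw [map_lowerCentralSeries, hmapN, hc, Subgroup.map_bot]
  have hab' : ⁅(⊤ : Subgroup L), ⊤⁆ ≤ N.subgroupOf L := by
    rw [← Subgroup.map_subtype_le_map_subtype, hmapN, map_commutator, ← MonoidHom.range_eq_map,
      range_subtype]
    exact hab
  -- additive subgroups of the abelianization
  let A : ℕ → AddSubgroup (Additive (Abelianization N)) := fun k => AddSubgroup.closure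
    {z | ∃ l : List G, (∀ g ∈ l, g ∈ L) ∧ l.length = k ∧ ∃ m : Additive (Abelianization N),
      z = l.foldr (fun g x => PolycyclicCent.act N g x - x) m}
  have hA : ∀ k, ∀ z ∈ A k, ∀ g ∈ L, act N g z - z ∈ A (k + 1) := by
    intro k z hz g hg
    induction hz using AddSubgroup.closure_induction with
    | mem z hz =>
      obtain ⟨l, hl, hlen, m, rfl⟩ := hz
      refine AddSubgroup.subset_closure ⟨g :: l, ?_, by simp [hlen], m, rfl⟩
      intro h hh
      rcases List.mem_cons.1 hh with rfl | hh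
      · exact hg
      · exact hl h hh
    | zero => rw [map_zero, sub_zero]; exact zero_mem _
    | add x y _ _ hx hy =>
      have e : act N g (x + y) - (x + y) = (act N g x - x) + (act N g y - y) := by
        rw [map_add]; abel
      rw [e]; exact add_mem hx hy
    | neg x _ hx =>
      have e : act N g (-x) - (-x) = -(act N g x - x) := by
        rw [map_neg]; abel
      rw [e]; exact neg_mem hx
  have hD : ∀ k, ∀ x ∈ D k (N.subgroupOf L), ∃ h : ((x : L) : G) ∈ N,
      cls N ⟨(x : G), h⟩ ∈ A k := by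
    intro k
    induction k with
    | zero =>
      intro x hx
      refine ⟨hx, AddSubgroup.subset_closure ⟨[], ?_, rfl, _, rfl⟩⟩
      intro g hg
      exact absurd hg (List.not_mem_nil)
    | succ k ih =>
      let W : Subgroup L :=
        { carrier := {x | ∃ h : ((x : L) : G) ∈ N, cls N ⟨(x : G), h⟩ ∈ A (k + 1)}
          one_mem' := ⟨N.one_mem, by
            have : cls N ⟨((1 : L) : G), N.one_mem⟩ = 0 := cls_one N
            rw [this]; exact zero_mem _⟩
          mul_mem' := by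
            rintro x y ⟨hx, hx'⟩ ⟨hy, hy'⟩
            refine ⟨N.mul_mem hx hy, ?_⟩
            have : cls N ⟨((x * y : L) : G), N.mul_mem hx hy⟩
              = cls N ⟨(x : G), hx⟩ + cls N ⟨(y : G), hy⟩ := cls_mul N ⟨(x : G), hx⟩ ⟨(y : G), hy⟩
            rw [this]; exact add_mem hx' hy'
          inv_mem' := by
            rintro x ⟨hx, hx'⟩
            refine ⟨N.inv_mem hx, ?_⟩
            have : cls N ⟨((x⁻¹ : L) : G), N.inv_mem hx⟩ = - cls N ⟨(x : G), hx⟩ :=
              cls_inv N ⟨(x : G), hx⟩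
            rw [this]; exact neg_mem hx' }
      have hle : D (k + 1) (N.subgroupOf L) ≤ W := by
        rw [D_succ', commutator_le]
        intro x hx g _
        obtain ⟨hxN, hxA⟩ := ih x hx
        have h1 : ((g : G) * (x : G)⁻¹ * (g : G)⁻¹) ∈ N :=
          Subgroup.Normal.conj_mem inferInstance _ (N.inv_mem hxN) _
        have h2 : ((⁅x, g⁆ : L) : G) = (x : G) * ((g : G) * (x : G)⁻¹ * (g : G)⁻¹) := by
          simp only [commutatorElement_def, Subgroup.coe_mul, Subgroup.coe_inv, mul_assoc]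
        have h3 : ((⁅x, g⁆ : L) : G) ∈ N := by rw [h2]; exact N.mul_mem hxN h1
        refine ⟨h3, ?_⟩
        have h4 : cls N ⟨((⁅x, g⁆ : L) : G), h3⟩
            = -(act N (g : G) (cls N ⟨(x : G), hxN⟩) - cls N ⟨(x : G), hxN⟩) := by
          have e1 : (⟨((⁅x, g⁆ : L) : G), h3⟩ : N)
              = ⟨(x : G), hxN⟩ * (MulAut.conjNormal (g : G) (⟨(x : G), hxN⟩ : N))⁻¹ := by
            ext
            simp only [h2, Subgroup.coe_mul, Subgroup.coe_inv, MulAut.conjNormal_apply]
            group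
          rw [e1, cls_mul, cls_inv, ← act_cls]
          abel
        rw [h4]
        exact neg_mem (hA k _ hxA _ g.2)
      exact fun x hx => hle hx
  have hn : D n (N.subgroupOf L) ≤ ⁅N.subgroupOf L, N.subgroupOf L⁆ := by
    have hbot : A n = ⊥ := by
      refine le_bot_iff.1 ((AddSubgroup.closure_le _).2 ?_)
      rintro z ⟨l, hl, hlen, m, rfl⟩
      exact hact l hl hlen m
    rw [← Subgroup.map_subtype_le_map_subtype, map_commutator, hmapN]
    rintro _ ⟨x, hx, rfl⟩
    obtain ⟨hxN, hxA⟩ := hD n x hx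
    rw [hbot, AddSubgroup.mem_bot] at hxA
    have h5 := cls_eq N 1 ⟨(x : G), hxN⟩ (by rw [hxA, cls_one])
    simpa using h5
  obtain ⟨m, hm⟩ := abstractHall (N.subgroupOf L) hc' hab' hn
  rw [Subgroup.nilpotent_iff_lowerCentralSeries]
  exact ⟨m, by rw [lcs_eq_D]; exact hm⟩

end Pool.Agent.D5
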