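import Pool.Agent.Lib.MP_d5e6ed_al.B.Defs

/-!
# Nullstellensatz over the integers (helper37)
-/

set_option autoImplicit false

namespace Pool.Agent.D5

namespace NSaux

theorem isJacobsonRing_int : IsJacobsonRing ℤ := by
  rw [isJacobsonRing_iff_prime_eq]
  intro P hP
  by_cases h : P = ⊥
  · subst h
    refine le_antisymm ?_ Ideal.le_jacobson
    intro x hx
    rw [Ideal.mem_jacobson_bot] at hx
    have h1 := hx x
    rw [Int.isUnit_iff] at h1
    rw [Ideal.mem_bot]
    by_contra hne
    have h2 : 0 < x * x := mul_self_pos.2 hne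
    omega
  · have : P.IsMaximal := hP.isMaximal h
    exact Ideal.jacobson_eq_self_of_isMaximal

theorem finite_field (K : Type*) [Field K] [alg : Algebra ℤ K]
    [hft : Algebra.FiniteType ℤ K] : Finite K := by
  have := isJacobsonRing_int
  have halg : alg = Ring.toIntAlgebra K := Subsingleton.elim _ _
  subst halg
  have hfin : Module.Finite ℤ K := finite_of_finite_type_of_isJacobsonRing ℤ K
  have hint : Algebra.IsIntegral ℤ K := inferInstance
  have hninj : ¬ Function.Injective (algebraMap ℤ K) := by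
    intro hinj
    exact Int.not_isField (isField_of_isIntegral_of_isField hinj (Field.toIsField K))
  rw [injective_iff_map_eq_zero] at hninj
  push Not at hninj
  obtain ⟨n, hn, hn0⟩ := hninj
  have htor : IsAddTorsion K := by
    intro x
    rw [isOfFinAddOrder_iff_zsmul_eq_zero]
    refine ⟨n, hn0, ?_⟩
    rw [zsmul_eq_mul]
    rw [eq_intCast] at hn
    rw [hn, zero_mul]
  have hfg : AddGroup.FG K := Module.Finite.iff_addGroup_fg.1 hfin
  exact AddCommGroup.finite_of_fg_isAddTorsion K htor

end NSaux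

theorem ns_finite {S : Type*} [CommRing S] [Algebra.FiniteType ℤ S] (q : Ideal S)
    [q.IsMaximal] : Finite (S ⧸ q) := by
  let _ : Field (S ⧸ q) := Ideal.Quotient.field q
  have : Algebra.FiniteType ℤ (S ⧸ q) :=
    Algebra.FiniteType.of_surjective (Ideal.Quotient.mkₐ ℤ q) (Ideal.Quotient.mkₐ_surjective ℤ q)
  exact NSaux.finite_field (S ⧸ q)

theorem ns_exists {S : Type*} [CommRing S] [IsDomain S] [Algebra.FiniteType ℤ S] {f : S}
    (hf : f ≠ 0) : ∃ q : Ideal S, q.IsMaximal ∧ f ∉ q := by
  have := NSaux.isJacobsonRing_int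
  have : IsJacobsonRing S := isJacobsonRing_of_finiteType (A := ℤ)
  have h1 : (⊥ : Ideal S).jacobson = ⊥ :=
    (isJacobsonRing_iff_prime_eq.1 this) ⊥ Ideal.isPrime_bot
  by_contra h
  push Not at h
  refine hf ?_
  rw [← Ideal.mem_bot, ← h1]
  exact (Submodule.mem_sInf).2 fun q hq => h q hq.2

end Pool.Agent.D5
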