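import Pool.Agent.Lib.MP_d5e6ed_al.B.Defs
import Pool.Agent.Lib.MP_d5e6ed_al.B.NS
import Pool.Agent.Lib.MP_d5e6ed_al.Noeth

/-!
# Prime elements of Laurent polynomial rings; unit groups of infinite fields
-/

set_option autoImplicit false

namespace Pool.Agent.D5

namespace LPPaux

open AddMonoidAlgebra

section lin

variable {k G : Type*} [Field k] [AddCommGroup G]

/-- the projection killing the direction `u` -/
def proj (u : G) (lam : G →+ ℤ) : G →+ G where
  toFun e := e - lam e • u
  map_zero' := by simp
  map_add' a b := by simp only [map_add, add_smul]; abel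

variable (k) in
/-- the induced endomorphism of the group algebra -/
noncomputable def P (u : G) (lam : G →+ ℤ) : AddMonoidAlgebra k G →ₐ[k] AddMonoidAlgebra k G :=
  AddMonoidAlgebra.mapDomainAlgHom k k (proj u lam)

theorem P_single (u : G) (lam : G →+ ℤ) (e : G) (c : k) :
    P k u lam (single e c) = single (e - lam e • u) c := by
  simp [P, proj]

theorem exists_red [IsDomain (AddMonoidAlgebra k G)] (u : G) (lam : G →+ ℤ) (hlam : lam u = 1)
    (h : AddMonoidAlgebra k G) (hP : P k u lam h = h) (f : AddMonoidAlgebra k G) :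
    ∃ (N : ℕ) (g : AddMonoidAlgebra k G), P k u lam g = g ∧
      (single u 1 + h) ∣ (single u 1) ^ N * f - g := by
  set X : AddMonoidAlgebra k G := single u 1 with hX
  set r := X + h with hr
  have hXh : ∀ m : ℕ, r ∣ X ^ m - (-h) ^ m := fun m => by
    have h1 : X - (-h) ∣ X ^ m - (-h) ^ m := sub_dvd_pow_sub_pow X (-h) m
    rwa [sub_neg_eq_add] at h1
  have hmono : ∀ (f g : AddMonoidAlgebra k G) (N m : ℕ), P k u lam g = g → r ∣ X ^ N * f - g →
      ∃ g', P k u lam g' = g' ∧ r ∣ X ^ (N + m) * f - g' := by
    intro f g N m hg hd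
    refine ⟨(-h) ^ m * g, by simp [hg, hP], ?_⟩
    have h1 : X ^ (N + m) * f - (-h) ^ m * g =
        X ^ m * (X ^ N * f - g) + (X ^ m - (-h) ^ m) * g := by ring
    rw [h1]
    exact dvd_add (Dvd.dvd.mul_left hd _) (Dvd.dvd.mul_right (hXh m) _)
  induction f using AddMonoidAlgebra.induction_linear with
  | zero => exact ⟨0, 0, by simp, by simp⟩
  | add f f' ih ih' =>
    obtain ⟨N, g, hg, hd⟩ := ih
    obtain ⟨N', g', hg', hd'⟩ := ih'
    obtain ⟨g₁, hg₁, hd₁⟩ := hmono f g N N' hg hd
    obtain ⟨g₂, hg₂, hd₂⟩ := hmono f' g' N' N hg' hd'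
    refine ⟨N + N', g₁ + g₂, by rw [map_add, hg₁, hg₂], ?_⟩
    have h1 : X ^ (N + N') * (f + f') - (g₁ + g₂) =
      (X ^ (N + N') * f - g₁) + (X ^ (N' + N) * f' - g₂) := by
      rw [add_comm N' N]; ring
    rw [h1]
    exact dvd_add hd₁ hd₂
  | single e c =>
    have hXm : ∀ m : ℕ, X ^ m = single (m • u) (1 : k) := fun m => by
      rw [hX, single_pow, one_pow]
    have hproj : lam (e - lam e • u) = 0 := by
      rw [map_sub, map_zsmul, hlam]; simp
    have hPs : P k u lam (single (e - lam e • u) c) = single (e - lam e • u) c := by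
      rw [P_single, hproj]; simp
    obtain ⟨n, hn | hn⟩ := Int.eq_nat_or_neg (lam e)
    · -- `lam e = n ≥ 0`
      refine ⟨0, single (e - lam e • u) c * (-h) ^ n, by simp [hPs, hP], ?_⟩
      have h1 : single e c = single (e - lam e • u) c * X ^ n := by
        rw [hXm, single_mul_single, mul_one, hn, natCast_zsmul, sub_add_cancel]
      have h2 : X ^ 0 * single e c - single (e - lam e • u) c * (-h) ^ n =
          single (e - lam e • u) c * (X ^ n - (-h) ^ n) := by
        rw [mul_sub, ← h1]; ring
      rw [h2]
      exact Dvd.dvd.mul_left (hXh n) _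
    · refine ⟨n, single (e - lam e • u) c, hPs, ?_⟩
      have h1 : X ^ n * single e c = single (e - lam e • u) c := by
        rw [hXm, single_mul_single, one_mul, hn, neg_smul, natCast_zsmul, sub_neg_eq_add,
          add_comm]
      rw [h1, sub_self]
      exact dvd_zero _

theorem prime_lin [IsDomain (AddMonoidAlgebra k G)] (u : G) (lam : G →+ ℤ) (hlam : lam u = 1)
    (h : AddMonoidAlgebra k G) (hP : P k u lam h = h) (h0 : h ≠ 0) :
    Prime (single u 1 + h : AddMonoidAlgebra k G) := by
  let A := AddMonoidAlgebra k G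
  let F := FractionRing A
  have hinj : Function.Injective (algebraMap A F) := IsFractionRing.injective A F
  set h' : F := -algebraMap A F h with hh'
  have hh0 : h' ≠ 0 := by
    rw [hh', neg_ne_zero]
    intro hc
    exact h0 (hinj (by rw [hc, map_zero]))
  let chi : Multiplicative G →* F :=
    { toFun := fun e => algebraMap A F (single (e.toAdd - lam e.toAdd • u) 1) * h' ^ lam e.toAdd
      map_one' := by
        simp only [toAdd_one, map_zero, zero_smul, sub_zero, zpow_zero, mul_one]
        exact map_one _
      map_mul' := by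
        intro a b
        simp only [toAdd_mul, map_add, zpow_add₀ hh0]
        have h1 : (single (a.toAdd + b.toAdd - (lam a.toAdd + lam b.toAdd) • u) (1 : k) : A) =
            single (a.toAdd - lam a.toAdd • u) 1 * single (b.toAdd - lam b.toAdd • u) 1 := by
          rw [single_mul_single, mul_one]
          congr 1
          rw [add_smul]; abel
        rw [h1, map_mul]; ring }
  have hchi : ∀ e : G, chi (Multiplicative.ofAdd e) =
      algebraMap A F (single (e - lam e • u) 1) * h' ^ lam e := fun e => rfl
  let phi : A →ₐ[k] F := AddMonoidAlgebra.lift k F G chi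
  have hphis : ∀ (e : G) (c : k), phi (single e c) =
      c • (algebraMap A F (single (e - lam e • u) 1) * h' ^ lam e) := fun e c => by
    show AddMonoidAlgebra.lift k F G chi (single e c) = _
    rw [AddMonoidAlgebra.lift_single, hchi]
  have hphiP : ∀ f : A, phi (P k u lam f) = algebraMap A F (P k u lam f) := by
    intro f
    induction f using AddMonoidAlgebra.induction_linear with
    | zero => simp
    | add f g ih ih' => simp only [map_add, ih, ih']
    | single e c =>
      have hproj : lam (e - lam e • u) = 0 := by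
        rw [map_sub, map_zsmul, hlam]; simp
      have hsg : (single (e - lam e • u) c : A) = c • single (e - lam e • u) 1 := by
        rw [smul_single, smul_eq_mul, mul_one]
      rw [P_single, hphis, hproj, zero_smul, sub_zero, zpow_zero, mul_one, hsg]
      exact (map_smul (IsScalarTower.toAlgHom k A F) c (single (e - lam e • u) 1)).symm
  have hphiX : phi (single u 1) = h' := by
    rw [hphis, hlam, one_smul, one_smul, sub_self, zpow_one]
    have : (single 0 1 : A) = 1 := rfl
    rw [this, map_one, one_mul]
  have hphih : phi h = algebraMap A F h := by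
    rw [← hP, hphiP]
  have hphir : phi (single u 1 + h) = 0 := by
    rw [map_add, hphiX, hphih, hh', neg_add_cancel]
  have hXu : IsUnit (single u 1 : A) := by
    refine IsUnit.of_mul_eq_one (single (-u) 1) ?_
    rw [single_mul_single, add_neg_cancel, mul_one]; rfl
  have hker : ∀ f : A, phi f = 0 → (single u 1 + h : A) ∣ f := by
    intro f hf
    obtain ⟨N, g, hg, q, hq⟩ := exists_red u lam hlam h hP f
    have h1 : phi g = 0 := by
      have h2 := congrArg phi hq
      rw [map_sub, map_mul, hf, mul_zero, map_mul, hphir, zero_mul, zero_sub, neg_eq_zero] at h2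
      exact h2
    have h3 : g = 0 := by
      rw [← hg, hphiP, hg] at h1
      exact hinj (by rw [h1, map_zero])
    rw [h3, sub_zero] at hq
    have h4 : (single u 1 + h : A) ∣ (single u 1) ^ N * f := ⟨q, hq⟩
    exact (hXu.pow N).dvd_mul_left.1 h4
  refine ⟨?_, ?_, ?_⟩
  · intro hc
    have h1 : h = -single u 1 := by
      rw [eq_neg_iff_add_eq_zero, add_comm]; exact hc
    have h2 : h' = algebraMap A F (single u 1) := by rw [hh', h1, map_neg, neg_neg]
    -- apply `P`
    have h3 := hP
    rw [h1, map_neg, P_single, neg_inj, hlam, one_smul, sub_self,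
      single_left_inj (one_ne_zero)] at h3
    have h4 : lam u = 0 := by rw [← h3, map_zero]
    rw [hlam] at h4
    exact one_ne_zero h4
  · intro hc
    have h1 := hc.map phi
    rw [hphir] at h1
    exact not_isUnit_zero h1
  · intro a b hab
    obtain ⟨q, hq⟩ := hab
    have h1 : phi a * phi b = 0 := by rw [← map_mul, hq, map_mul, hphir, zero_mul]
    rcases mul_eq_zero.1 h1 with h2 | h2
    · exact Or.inl (hker a h2)
    · exact Or.inr (hker b h2)

end lin

end LPPaux

open LPPaux AddMonoidAlgebra in
theorem lp_prime_big {k : Type*} [Field k] {s : ℕ} (n : ℕ) :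
    Prime ((∑ i ∈ Finset.range (n + 1), AddMonoidAlgebra.single (Pi.single 0 (i : ℤ)) 1) +
      ∑ j : Fin (s + 1), AddMonoidAlgebra.single (Pi.single j.succ 1) 1 :
        AddMonoidAlgebra k (Fin (s + 2) → ℤ)) := by
  let u : Fin (s + 2) → ℤ := Pi.single (Fin.succ 0) 1
  let lam : (Fin (s + 2) → ℤ) →+ ℤ := Pi.evalAddMonoidHom (fun _ => ℤ) (Fin.succ 0)
  have hlam : lam u = 1 := by simp [lam, u]
  set h : AddMonoidAlgebra k (Fin (s + 2) → ℤ) :=
    (∑ i ∈ Finset.range (n + 1), AddMonoidAlgebra.single (Pi.single 0 (i : ℤ)) 1) +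
      ∑ j : Fin s, AddMonoidAlgebra.single (Pi.single j.succ.succ 1) 1 with hh
  have hP : P k u lam h = h := by
    rw [hh, map_add, map_sum, map_sum]
    congr 1
    · refine Finset.sum_congr rfl fun i _ => ?_
      rw [P_single]
      have : lam (Pi.single 0 (i : ℤ)) = 0 := by
        show (Pi.single 0 (i : ℤ) : Fin (s + 2) → ℤ) (Fin.succ 0) = 0
        rw [Pi.single_eq_of_ne]
        exact Fin.succ_ne_zero 0
      rw [this, zero_smul, sub_zero]
    · refine Finset.sum_congr rfl fun j _ => ?_
      rw [P_single]
      have : lam (Pi.single j.succ.succ 1) = 0 := by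
        show (Pi.single j.succ.succ 1 : Fin (s + 2) → ℤ) (Fin.succ 0) = 0
        rw [Pi.single_eq_of_ne]
        intro hc
        exact Fin.succ_ne_zero j (Fin.succ_injective _ hc).symm
      rw [this, zero_smul, sub_zero]
  have h0 : h ≠ 0 := by
    intro hc
    have h1 := congrArg (fun f => f.coeff 0) hc
    simp only [hh, coeff_add, coeff_sum, coeff_single, Finsupp.add_apply, Finsupp.finsetSum_apply,
      coeff_zero, Finsupp.zero_apply] at h1
    rw [Finset.sum_eq_single 0, Finset.sum_eq_zero] at h1
    · simp at h1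
    · intro j _
      rw [Finsupp.single_apply, if_neg]
      intro hc
      have := congrFun hc j.succ.succ
      simp at this
    · intro i _ hi
      rw [Finsupp.single_apply, if_neg]
      intro hc
      have := congrFun hc 0
      simp at this
      exact hi this
    · intro hc
      exact absurd (Finset.mem_range.2 (Nat.succ_pos n)) hc
  have h2 := prime_lin u lam hlam h hP h0
  have h3 : ((∑ i ∈ Finset.range (n + 1), AddMonoidAlgebra.single (Pi.single 0 (i : ℤ)) 1) +
      ∑ j : Fin (s + 1), AddMonoidAlgebra.single (Pi.single j.succ 1) 1 :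
        AddMonoidAlgebra k (Fin (s + 2) → ℤ)) = single u 1 + h := by
    rw [hh, Fin.sum_univ_succ]
    abel
  rw [h3]
  exact h2

open LPPaux AddMonoidAlgebra in
theorem lp_prime_one {k : Type*} [Field k] (c : k) (hc : c ≠ 0) :
    Prime (AddMonoidAlgebra.single (Pi.single 0 1) 1 - AddMonoidAlgebra.single 0 c :
      AddMonoidAlgebra k (Fin 1 → ℤ)) := by
  let u : Fin 1 → ℤ := Pi.single 0 1
  let lam : (Fin 1 → ℤ) →+ ℤ := Pi.evalAddMonoidHom (fun _ => ℤ) 0
  have hlam : lam u = 1 := by simp [lam, u]
  have hP : P k u lam (-single 0 c) = -single 0 c := by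
    rw [map_neg, P_single, map_zero, zero_smul, sub_zero]
  have h0 : (-single 0 c : AddMonoidAlgebra k (Fin 1 → ℤ)) ≠ 0 := by
    rw [neg_ne_zero]
    intro h
    have h1 := congrArg (fun f => f.coeff 0) h
    simp at h1
    exact hc h1
  have h2 := prime_lin u lam hlam _ hP h0
  rw [← sub_eq_add_neg] at h2
  exact h2

theorem units_not_fg (k : Type*) [Field k] [Infinite k] (A : Subgroup kˣ) (hA : A.FG) :
    Infinite (kˣ ⧸ A) := by
  by_contra hfin
  rw [not_infinite_iff_finite] at hfin
  have hfg : Group.FG kˣ := by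
    rw [Group.fg_def]
    refine PolycyclicCent.fg_of_map_of_inf_ker (QuotientGroup.mk' A) ⊤ ?_ ?_
    · rw [QuotientGroup.ker_mk', top_inf_eq]
      exact hA
    · have : Finite ((⊤ : Subgroup kˣ).map (QuotientGroup.mk' A)) := inferInstance
      exact (Group.fg_iff_subgroup_fg _).1 inferInstance
  obtain ⟨S, hS⟩ := (Group.fg_def).1 hfg
  have hft : Algebra.FiniteType ℤ k := by
    classical
    refine ⟨⟨S.image (fun a : kˣ => (a : k)) ∪ S.image (fun a : kˣ => ((a⁻¹ : kˣ) : k)), ?_⟩⟩
    rw [eq_top_iff]
    intro x _
    by_cases hx : x = 0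
    · rw [hx]; exact Subalgebra.zero_mem _
    · have h1 : ∀ a : kˣ, a ∈ Subgroup.closure (S : Set kˣ) → (a : k) ∈ Algebra.adjoin ℤ
          ((S.image (fun a : kˣ => (a : k)) ∪ S.image (fun a : kˣ => ((a⁻¹ : kˣ) : k)) :
            Finset k) : Set k) ∧ ((a⁻¹ : kˣ) : k) ∈ Algebra.adjoin ℤ
          ((S.image (fun a : kˣ => (a : k)) ∪ S.image (fun a : kˣ => ((a⁻¹ : kˣ) : k)) :
            Finset k) : Set k) := by
        intro a ha
        induction ha using Subgroup.closure_induction with
        | mem a ha =>
          constructor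
          · refine Algebra.subset_adjoin ?_
            rw [Finset.coe_union]
            exact Or.inl (Finset.mem_coe.2 (Finset.mem_image_of_mem _ ha))
          · refine Algebra.subset_adjoin ?_
            rw [Finset.coe_union]
            exact Or.inr (Finset.mem_coe.2 (Finset.mem_image_of_mem _ ha))
        | one => simp
        | mul a b _ _ iha ihb =>
          constructor
          · rw [Units.val_mul]; exact Subalgebra.mul_mem _ iha.1 ihb.1
          · rw [mul_inv, Units.val_mul]; exact Subalgebra.mul_mem _ iha.2 ihb.2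
        | inv a _ iha =>
          rw [inv_inv]
          exact ⟨iha.2, iha.1⟩
      have h2 := (h1 (Units.mk0 x hx) (by rw [hS]; trivial)).1
      simpa using h2
  have : Finite k := NSaux.finite_field k
  exact not_finite k

end Pool.Agent.D5
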