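import Mathlib

/-!
# Laurent polynomial rings over a field: unique factorization and units

(helper7, module LPR of the call MP_d5e6ed_al)
-/

set_option autoImplicit false

namespace Pool.Agent.D5

open AddMonoidAlgebra

namespace LPRaux

variable (k : Type*) [Field k] (s : ℕ)

/-- the inclusion of exponents -/
def inc : (Fin s →₀ ℕ) →+ (Fin s → ℤ) where
  toFun e := fun i => (e i : ℤ)
  map_zero' := by ext i; simp
  map_add' a b := by ext i; simp

theorem inc_inj : Function.Injective (inc s) := by
  intro a b h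
  ext i
  have := congrFun h i
  simpa [inc] using this

/-- the polynomial ring, as an additive monoid algebra, mapped to the Laurent ring -/
noncomputable def phi : AddMonoidAlgebra k (Fin s →₀ ℕ) →+* AddMonoidAlgebra k (Fin s → ℤ) :=
  AddMonoidAlgebra.mapDomainRingHom k (inc s)

theorem phi_single (e : Fin s →₀ ℕ) (c : k) :
    phi k s (single e c) = single (inc s e) c := by
  simp [phi]

theorem phi_inj : Function.Injective (phi k s) := by
  intro a b h
  exact AddMonoidAlgebra.mapDomain_injective (inc_inj s) h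

/-- monomials -/
def S : Submonoid (AddMonoidAlgebra k (Fin s →₀ ℕ)) where
  carrier := Set.range fun e : Fin s →₀ ℕ => single e (1 : k)
  one_mem' := ⟨0, rfl⟩
  mul_mem' := by
    rintro _ _ ⟨a, rfl⟩ ⟨b, rfl⟩
    exact ⟨a + b, by simp [AddMonoidAlgebra.single_mul_single]⟩

theorem ufd0 : UniqueFactorizationMonoid (AddMonoidAlgebra k (Fin s →₀ ℕ)) :=
  inferInstanceAs (UniqueFactorizationMonoid (MvPolynomial (Fin s) k))

theorem surj (z : AddMonoidAlgebra k (Fin s → ℤ)) :
    ∃ x : AddMonoidAlgebra k (Fin s →₀ ℕ), ∃ y ∈ S k s, z * phi k s y = phi k s x := by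
  classical
  induction z using AddMonoidAlgebra.induction_linear with
  | zero => exact ⟨0, 1, (S k s).one_mem, by simp⟩
  | add f g hf hg =>
    obtain ⟨x, y, hy, h⟩ := hf
    obtain ⟨x', y', hy', h'⟩ := hg
    refine ⟨x * y' + x' * y, y * y', (S k s).mul_mem hy hy', ?_⟩
    rw [map_add, map_mul, map_mul, map_mul, ← h, ← h']
    ring
  | single a b =>
    refine ⟨single (Finsupp.equivFunOnFinite.symm fun i => (a i).toNat) b,
      single (Finsupp.equivFunOnFinite.symm fun i => (-a i).toNat) 1, ⟨_, rfl⟩, ?_⟩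
    rw [phi_single, phi_single, AddMonoidAlgebra.single_mul_single, mul_one]
    congr 1
    ext i
    simp only [inc, AddMonoidHom.coe_mk, ZeroHom.coe_mk, Pi.add_apply,
      Finsupp.equivFunOnFinite_symm_apply_apply]
    have h := Int.toNat_sub_toNat_neg (a i)
    omega

end LPRaux

instance lp_ufd (k : Type*) [Field k] (s : ℕ) :
    UniqueFactorizationMonoid (AddMonoidAlgebra k (Fin s → ℤ)) := by
  classical
  let _ : Algebra (AddMonoidAlgebra k (Fin s →₀ ℕ)) (AddMonoidAlgebra k (Fin s → ℤ)) :=
    (LPRaux.phi k s).toAlgebra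
  have _ : IsLocalization (LPRaux.S k s) (AddMonoidAlgebra k (Fin s → ℤ)) :=
    { map_units := by
        rintro ⟨_, e, rfl⟩
        refine IsUnit.of_mul_eq_one (single (-(LPRaux.inc s e)) 1) ?_
        change LPRaux.phi k s _ * _ = 1
        rw [LPRaux.phi_single, AddMonoidAlgebra.single_mul_single, add_neg_cancel, mul_one]
        rfl
      surj := by
        intro z
        obtain ⟨x, y, hy, h⟩ := LPRaux.surj k s z
        exact ⟨(x, ⟨y, hy⟩), h⟩
      exists_of_eq := by
        intro x y h
        exact ⟨1, by rw [LPRaux.phi_inj k s h]⟩ }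
  have _ := LPRaux.ufd0 k s
  exact UniqueFactorizationMonoid.of_isLocalization (LPRaux.S k s) _

theorem lp_unit {k : Type*} [Field k] {s : ℕ} {u : AddMonoidAlgebra k (Fin s → ℤ)}
    (hu : IsUnit u) : ∃ e : Fin s → ℤ, ∃ c : k, c ≠ 0 ∧ u = AddMonoidAlgebra.single e c := by
  classical
  obtain ⟨v, hv⟩ := hu.exists_right_inv
  have hu0 : u ≠ 0 := hu.ne_zero
  have hv0 : v ≠ 0 := by
    rintro rfl
    simp at hv
  have hun : u.coeff.support.Nonempty := by
    rw [Finsupp.support_nonempty_iff]
    intro h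
    exact hu0 (AddMonoidAlgebra.coeff_eq_zero.mp h)
  have hvn : v.coeff.support.Nonempty := by
    rw [Finsupp.support_nonempty_iff]
    intro h
    exact hv0 (AddMonoidAlgebra.coeff_eq_zero.mp h)
  by_cases hc : 1 < u.coeff.support.card * v.coeff.support.card
  · exfalso
    obtain ⟨p1, hp1, p2, hp2, hne, h1, h2⟩ := TwoUniqueSums.uniqueAdd_of_one_lt_card hc
    rw [Finset.mem_product] at hp1 hp2
    have e1 := AddMonoidAlgebra.coeff_mul_add_of_uniqueAdd h1
    have e2 := AddMonoidAlgebra.coeff_mul_add_of_uniqueAdd h2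
    rw [hv] at e1 e2
    have n1 : (1 : AddMonoidAlgebra k (Fin s → ℤ)).coeff (p1.1 + p1.2) ≠ 0 := by
      rw [e1]
      exact mul_ne_zero (Finsupp.mem_support_iff.mp hp1.1) (Finsupp.mem_support_iff.mp hp1.2)
    have n2 : (1 : AddMonoidAlgebra k (Fin s → ℤ)).coeff (p2.1 + p2.2) ≠ 0 := by
      rw [e2]
      exact mul_ne_zero (Finsupp.mem_support_iff.mp hp2.1) (Finsupp.mem_support_iff.mp hp2.2)
    have z1 : p1.1 + p1.2 = 0 := by
      by_contra h
      apply n1
      rw [AddMonoidAlgebra.one_def, AddMonoidAlgebra.coeff_single,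
        Finsupp.single_eq_of_ne h]
    have z2 : p2.1 + p2.2 = 0 := by
      by_contra h
      apply n2
      rw [AddMonoidAlgebra.one_def, AddMonoidAlgebra.coeff_single,
        Finsupp.single_eq_of_ne h]
    have := h1 hp2.1 hp2.2 (by rw [z1, z2])
    exact hne (Prod.ext this.1.symm this.2.symm)
  · have h1 : u.coeff.support.card = 1 := by
      have a := hun.card_pos
      have b := hvn.card_pos
      have c : u.coeff.support.card * v.coeff.support.card ≤ 1 := not_lt.mp hc
      nlinarith
    obtain ⟨e, c, hc0, h⟩ := Finsupp.card_support_eq_one'.mp h1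
    refine ⟨e, c, hc0, ?_⟩
    ext x
    rw [h]
    rfl

end Pool.Agent.D5
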