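import Pool.Agent.Lib.MP_d5e6ed_al.B.Basic
import Pool.Agent.Lib.MP_d5e6ed_al.B.HallPC
import Pool.Agent.Lib.MP_d5e6ed_al.B.NS

/-!
# Relative generic freeness

(helper37, module RGF of helper50's project MP_d5e6ed_al)
-/

set_option autoImplicit false
set_option linter.unusedSectionVars false

namespace Pool.Agent.D5

universe u

open Subgroup Pointwise

namespace RGFaux

section basic

variable {S L : Type*} [CommRing S] [AddCommGroup L] [Module S L]

/-- independence modulo a submodule -/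
def IM (N : Submodule S L) (s : Set L) : Prop :=
  ∀ l : L →₀ S, (↑l.support : Set L) ⊆ s → Finsupp.linearCombination S id l ∈ N → l = 0

/-- `s` is a basis of `M` modulo `N` up to powers of `f` -/
structure RBs (f : S) (N M : Submodule S L) (s : Set L) : Prop where
  sub : s ⊆ (M : Set L)
  ind : IM N s
  spn : ∀ x ∈ M, ∃ n : ℕ, f ^ n • x ∈ Submodule.span S s ⊔ N

/-- there is a basis of `M` modulo `N` up to powers of `f` -/
def RB (f : S) (N M : Submodule S L) : Prop := ∃ s, RBs f N M s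

theorem mem_sup_mono {A A' B B' : Submodule S L} (hA : A ≤ A') (hB : B ≤ B') {x : L}
    (hx : x ∈ A ⊔ B) : x ∈ A' ⊔ B' := by
  have h : A ⊔ B ≤ A' ⊔ B' := sup_le_sup hA hB
  exact h hx

theorem IM.empty (N : Submodule S L) : IM N ∅ := by
  intro l hl _
  rwa [Set.subset_empty_iff, Finset.coe_eq_empty, Finsupp.support_eq_empty] at hl

theorem pow_mem_of_le {f : S} {N : Submodule S L} {x : L} {n m : ℕ} (h : n ≤ m)
    (hx : f ^ n • x ∈ N) : f ^ m • x ∈ N := by
  obtain ⟨k, rfl⟩ := Nat.exists_eq_add_of_le h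
  rw [add_comm, pow_add, mul_smul]
  exact N.smul_mem _ hx

theorem RBs.refl (f : S) (N : Submodule S L) : RBs f N N ∅ :=
  ⟨Set.empty_subset _, IM.empty N, fun x hx => ⟨0, by
    rw [pow_zero, one_smul]; exact Submodule.mem_sup_right hx⟩⟩

theorem RBs.mul {f : S} {N M : Submodule S L} {s : Set L} (h : RBs f N M s) (g : S) :
    RBs (f * g) N M s :=
  ⟨h.sub, h.ind, fun x hx => by
    obtain ⟨n, hn⟩ := h.spn x hx
    refine ⟨n, ?_⟩
    rw [mul_pow, mul_comm, mul_smul]
    exact Submodule.smul_mem _ _ hn⟩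

theorem RBs.of_dvd {f f' : S} {N M : Submodule S L} {s : Set L} (h : RBs f N M s)
    (hd : f ∣ f') : RBs f' N M s := by
  obtain ⟨g, rfl⟩ := hd
  exact h.mul g

theorem IM.trans {N M : Submodule S L} (hNM : N ≤ M) {s s' : Set L} (hs : s ⊆ (M : Set L))
    (h : IM N s) (h' : IM M s') : IM N (s ∪ s') := by
  classical
  intro l hl hsum
  have hsplit : l.filter (· ∈ s') + l.filter (fun x => ¬ (x ∈ s')) = l :=
    Finsupp.filter_add_filter_not l _
  have h2 : Finsupp.linearCombination S id (l.filter (fun x => ¬ (x ∈ s'))) ∈ M := by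
    rw [Finsupp.linearCombination_apply]
    refine Submodule.sum_mem _ fun x hx => Submodule.smul_mem _ _ (hs ?_)
    rw [Finsupp.support_filter, Finset.mem_filter] at hx
    rcases hl hx.1 with h | h
    · exact h
    · exact absurd h hx.2
  have hsum' : Finsupp.linearCombination S id (l.filter (· ∈ s')) +
      Finsupp.linearCombination S id (l.filter (fun x => ¬ (x ∈ s'))) ∈ N := by
    rw [← map_add, hsplit]; exact hsum
  have h1 : l.filter (· ∈ s') = 0 := by
    refine h' _ ?_ ?_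
    · intro x hx
      rw [Finset.mem_coe, Finsupp.support_filter, Finset.mem_filter] at hx
      exact hx.2
    · exact (Submodule.add_mem_iff_left _ h2).1 (hNM hsum')
  rw [h1, map_zero, zero_add] at hsum'
  have h3 : l.filter (fun x => ¬ (x ∈ s')) = 0 := by
    refine h _ ?_ hsum'
    intro x hx
    rw [Finset.mem_coe, Finsupp.support_filter, Finset.mem_filter] at hx
    rcases hl hx.1 with h | h
    · exact h
    · exact absurd h hx.2
  rw [← hsplit, h1, h3, add_zero]

theorem RBs.trans {f : S} {N M P : Submodule S L} {s s' : Set L} (hNM : N ≤ M) (hMP : M ≤ P)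
    (h : RBs f N M s) (h' : RBs f M P s') : RBs f N P (s ∪ s') := by
  refine ⟨Set.union_subset (h.sub.trans hMP) h'.sub, h.ind.trans hNM h.sub h'.ind, ?_⟩
  intro x hx
  obtain ⟨n, hn⟩ := h'.spn x hx
  obtain ⟨y, hy, m, hm, e⟩ := Submodule.mem_sup.1 hn
  obtain ⟨k, hk⟩ := h.spn m hm
  refine ⟨n + k, ?_⟩
  rw [add_comm, pow_add, mul_smul, ← e, smul_add]
  refine Submodule.add_mem _ ?_ ?_
  · exact Submodule.mem_sup_left (Submodule.smul_mem _ _
      (Submodule.span_mono Set.subset_union_right hy))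
  · exact mem_sup_mono (Submodule.span_mono Set.subset_union_left) le_rfl hk

theorem RB.trans {f : S} {N M P : Submodule S L} (hNM : N ≤ M) (hMP : M ≤ P)
    (h : RB f N M) (h' : RB f M P) : RB f N P := by
  obtain ⟨s, hs⟩ := h
  obtain ⟨s', hs'⟩ := h'
  exact ⟨_, hs.trans hNM hMP hs'⟩

theorem RB.of_dvd {f f' : S} {N M : Submodule S L} (h : RB f N M) (hd : f ∣ f') :
    RB f' N M := by
  obtain ⟨s, hs⟩ := h
  exact ⟨s, hs.of_dvd hd⟩

theorem RB.refl (f : S) (N : Submodule S L) : RB f N N := ⟨_, RBs.refl f N⟩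

theorem RB.iSup {f : S} (M : ℕ → Submodule S L) (hM : Monotone M)
    (h : ∀ k, RB f (M k) (M (k + 1))) : RB f (M 0) (⨆ k, M k) := by
  choose s hs using h
  let T : ℕ → Set L := fun n => Nat.rec ∅ (fun k t => t ∪ s k) n
  have hT0 : T 0 = ∅ := rfl
  have hTs : ∀ k, T (k + 1) = T k ∪ s k := fun k => rfl
  have hT : ∀ k, RBs f (M 0) (M k) (T k) := by
    intro k
    induction k with
    | zero => exact RBs.refl f _
    | succ k ih =>
      rw [hTs]
      exact ih.trans (hM (Nat.zero_le k)) (hM (Nat.le_succ k)) (hs k)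
  have hTm : Monotone T := monotone_nat_of_le_succ fun k => by
    rw [hTs]; exact Set.subset_union_left
  refine ⟨⋃ k, T k, ?_, ?_, ?_⟩
  · refine Set.iUnion_subset fun k => (hT k).sub.trans (le_iSup M k)
  · intro l hl hsum
    have hfin : ∃ k, (↑l.support : Set L) ⊆ T k := by
      have := DirectedOn.exists_mem_subset_of_finset_subset_biUnion (f := T)
        (c := Set.univ) Set.univ_nonempty (by
          intro a _ b _
          exact ⟨max a b, trivial, hTm (le_max_left _ _), hTm (le_max_right _ _)⟩)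
        (s := l.support) (by simpa using hl)
      obtain ⟨k, _, hk⟩ := this
      exact ⟨k, hk⟩
    obtain ⟨k, hk⟩ := hfin
    exact (hT k).ind l hk hsum
  · intro x hx
    obtain ⟨k, hk⟩ := (Submodule.mem_iSup_of_directed M hM.directed_le).1 hx
    obtain ⟨n, hn⟩ := (hT k).spn x hk
    exact ⟨n, mem_sup_mono (Submodule.span_mono (Set.subset_iUnion T k)) le_rfl hn⟩

/-- adding one generator -/
theorem RB.cyclic [IsDomain S] (M : Submodule S L) (t : L) :
    ∃ f : S, f ≠ 0 ∧ RB f M (M ⊔ Submodule.span S {t}) := by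
  by_cases h : ∃ s : S, s ≠ 0 ∧ s • t ∈ M
  · obtain ⟨s, hs, hst⟩ := h
    refine ⟨s, hs, ∅, Set.empty_subset _, IM.empty M, ?_⟩
    intro x hx
    obtain ⟨y, hy, z, hz, rfl⟩ := Submodule.mem_sup.1 hx
    obtain ⟨a, rfl⟩ := Submodule.mem_span_singleton.1 hz
    refine ⟨1, Submodule.mem_sup_right ?_⟩
    rw [pow_one, smul_add, smul_comm]
    exact M.add_mem (M.smul_mem _ hy) (M.smul_mem _ hst)
  · refine ⟨1, one_ne_zero, {t}, ?_, ?_, ?_⟩
    · rw [Set.singleton_subset_iff]
      exact Submodule.mem_sup_right (Submodule.mem_span_singleton_self t)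
    · intro l hl hsum
      have hl' : l.support ⊆ {t} := by
        intro x hx
        rw [Finset.mem_singleton]
        exact hl hx
      have e : l = Finsupp.single t (l t) := Finsupp.support_subset_singleton.1 hl'
      rw [e, Finsupp.linearCombination_single] at hsum
      by_contra hne
      refine h ⟨l t, ?_, hsum⟩
      intro h0
      rw [h0, Finsupp.single_zero] at e
      exact hne e
    · intro x hx
      refine ⟨0, ?_⟩
      rw [pow_zero, one_smul, sup_comm]
      exact hx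

/-- adding finitely many generators -/
theorem RB.finset [IsDomain S] (N : Submodule S L) (T : Finset L) :
    ∃ f : S, f ≠ 0 ∧ RB f N (N ⊔ Submodule.span S (T : Set L)) := by
  classical
  induction T using Finset.induction_on with
  | empty =>
    refine ⟨1, one_ne_zero, ?_⟩
    rw [Finset.coe_empty, Submodule.span_empty, sup_bot_eq]
    exact RB.refl 1 N
  | insert t T _ ih =>
    obtain ⟨f, hf, h⟩ := ih
    obtain ⟨g, hg, h'⟩ := RB.cyclic (N ⊔ Submodule.span S (T : Set L)) t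
    refine ⟨f * g, mul_ne_zero hf hg, ?_⟩
    have e : N ⊔ Submodule.span S ((insert t T : Finset L) : Set L) =
        N ⊔ Submodule.span S (T : Set L) ⊔ Submodule.span S {t} := by
      rw [Finset.coe_insert, Submodule.span_insert, sup_assoc, sup_comm (Submodule.span S {t})]
    rw [e]
    exact RB.trans le_sup_left le_sup_left (h.of_dvd (dvd_mul_right f g))
      (h'.of_dvd (dvd_mul_left g f))

/-- second isomorphism theorem -/
theorem RB.inf_sup {f : S} {A C : Submodule S L} (h : RB f (A ⊓ C) A) : RB f C (C ⊔ A) := by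
  obtain ⟨s, hs⟩ := h
  refine ⟨s, fun x hx => Submodule.mem_sup_right (hs.sub hx), ?_, ?_⟩
  · intro l hl hsum
    refine hs.ind l hl ⟨?_, hsum⟩
    rw [Finsupp.linearCombination_apply]
    exact Submodule.sum_mem _ fun x hx => Submodule.smul_mem _ _ (hs.sub (hl hx))
  · intro x hx
    obtain ⟨c, hc, a, ha, rfl⟩ := Submodule.mem_sup.1 hx
    obtain ⟨n, hn⟩ := hs.spn a ha
    refine ⟨n, ?_⟩
    rw [smul_add]
    refine Submodule.add_mem _ (Submodule.mem_sup_right (Submodule.smul_mem _ _ hc)) ?_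
    exact mem_sup_mono le_rfl inf_le_right hn

end basic

section act

variable {G S L : Type*} [Group G] [CommRing S] [AddCommGroup L] [Module S L]
  [DistribMulAction G L] [SMulCommClass G S L]

theorem mem_smul {g : G} {N : Submodule S L} {x : L} : x ∈ g • N ↔ g⁻¹ • x ∈ N := by
  rw [Submodule.mem_smul_pointwise_iff_exists]
  constructor
  · rintro ⟨y, hy, rfl⟩
    rwa [inv_smul_smul]
  · intro h
    exact ⟨_, h, smul_inv_smul g x⟩

theorem smul_mem_smul {g : G} {N : Submodule S L} {x : L} : g • x ∈ g • N ↔ x ∈ N := by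
  rw [mem_smul, inv_smul_smul]

theorem smul_mono {g : G} {N M : Submodule S L} (h : N ≤ M) : g • N ≤ g • M := by
  intro x hx
  rw [mem_smul] at hx ⊢
  exact h hx

theorem smul_sup' (g : G) (N M : Submodule S L) : g • (N ⊔ M) = g • N ⊔ g • M :=
  Submodule.map_sup _ _ _

theorem smul_inf' (g : G) (N M : Submodule S L) : g • (N ⊓ M) = g • N ⊓ g • M := by
  ext x
  simp only [mem_smul, Submodule.mem_inf]

theorem le_smul_iff {g : G} {N M : Submodule S L} : N ≤ g • M ↔ g⁻¹ • N ≤ M := by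
  constructor
  · intro h x hx
    rw [mem_smul, inv_inv] at hx
    have := h hx
    rwa [mem_smul, inv_smul_smul] at this
  · intro h x hx
    rw [mem_smul]
    exact h (by rw [mem_smul, inv_inv, smul_inv_smul]; exact hx)

/-- the linear automorphism given by a group element -/
theorem lc_mapDomain (g : G) (l : L →₀ S) :
    Finsupp.linearCombination S id (l.mapDomain (g • ·)) =
      g • Finsupp.linearCombination S id l := by
  rw [Finsupp.linearCombination_mapDomain, Finsupp.linearCombination_apply,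
    Finsupp.linearCombination_apply, Finsupp.sum, Finsupp.sum, Finset.smul_sum]
  refine Finset.sum_congr rfl fun x _ => ?_
  simp only [Function.comp, id]
  exact (smul_comm g _ _).symm

theorem RB.smul {f : S} {N M : Submodule S L} (h : RB f N M) (g : G) :
    RB f (g • N) (g • M) := by
  classical
  obtain ⟨s, hs⟩ := h
  refine ⟨g • s, ?_, ?_, ?_⟩
  · rintro _ ⟨x, hx, rfl⟩
    exact smul_mem_smul.2 (hs.sub hx)
  · intro l hl hsum
    have h1 : l.mapDomain (g⁻¹ • ·) = 0 := by
      refine hs.ind _ ?_ ?_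
      · intro x hx
        have := Finsupp.mapDomain_support hx
        obtain ⟨y, hy, rfl⟩ := Finset.mem_image.1 this
        obtain ⟨z, hz, rfl⟩ := hl hy
        simpa using hz
      · rw [lc_mapDomain, ← mem_smul]
        exact hsum
    have hinj : Function.Injective (Finsupp.mapDomain (M := S) (g⁻¹ • · : L → L)) :=
      Finsupp.mapDomain_injective (MulAction.injective g⁻¹)
    exact hinj (by rw [h1, Finsupp.mapDomain_zero])
  · intro x hx
    rw [mem_smul] at hx
    obtain ⟨n, hn⟩ := hs.spn _ hx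
    refine ⟨n, ?_⟩
    have h2 : Submodule.span S (g • s) ⊔ g • N = g • (Submodule.span S s ⊔ N) := by
      rw [smul_sup', Submodule.smul_span]
    rw [h2, mem_smul, smul_comm]
    exact hn

/-- the subgroup preserving a submodule -/
def stab (U : Submodule S L) : Subgroup G where
  carrier := {g | (∀ x ∈ U, g • x ∈ U) ∧ ∀ x ∈ U, g⁻¹ • x ∈ U}
  mul_mem' := by
    rintro a b ⟨ha, ha'⟩ ⟨hb, hb'⟩
    refine ⟨fun x hx => ?_, fun x hx => ?_⟩
    · rw [mul_smul]; exact ha _ (hb _ hx)
    · rw [mul_inv_rev, mul_smul]; exact hb' _ (ha' _ hx)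
  one_mem' := by
    refine ⟨fun x hx => ?_, fun x hx => ?_⟩
    · rwa [one_smul]
    · rwa [inv_one, one_smul]
  inv_mem' := by
    rintro a ⟨ha, ha'⟩
    exact ⟨ha', by rwa [inv_inv]⟩

theorem inv_iff_le_stab {H : Subgroup G} {U : Submodule S L} : Inv S H U ↔ H ≤ stab U := by
  constructor
  · intro h g hg
    exact ⟨h g hg, h g⁻¹ (H.inv_mem hg)⟩
  · intro h g hg
    exact (h hg).1

theorem inv_sup_zpowers {B : Subgroup G} {t : G} {U : Submodule S L} (hB : Inv S B U)
    (ht : ∀ x ∈ U, t • x ∈ U) (ht' : ∀ x ∈ U, t⁻¹ • x ∈ U) : Inv S (B ⊔ zpowers t) U := by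
  rw [inv_iff_le_stab] at hB ⊢
  refine sup_le hB ?_
  rw [zpowers_le]
  exact ⟨ht, ht'⟩

theorem inv_gen' (H : Subgroup G) (T : Set L) : Inv S H (gen S H T) :=
  inv_gen (fun g _ r x => smul_comm g r x) T

theorem inv_inf' {H : Subgroup G} {U V : Submodule S L} (hU : Inv S H U) (hV : Inv S H V) :
    Inv S H (U ⊓ V) := fun h hh x hx => ⟨hU h hh x hx.1, hV h hh x hx.2⟩

theorem inv_sup' {H : Subgroup G} {U V : Submodule S L} (hU : Inv S H U) (hV : Inv S H V) :
    Inv S H (U ⊔ V) := by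
  intro h hh x hx
  obtain ⟨u, hu, v, hv, rfl⟩ := Submodule.mem_sup.1 hx
  rw [smul_add]
  exact Submodule.add_mem_sup (hU h hh u hu) (hV h hh v hv)

theorem inv_iSup' {H : Subgroup G} {ι : Sort*} {U : ι → Submodule S L}
    (hU : ∀ i, Inv S H (U i)) : Inv S H (⨆ i, U i) := by
  intro h hh x hx
  have h1 : (⨆ i, U i) ≤ h⁻¹ • (⨆ i, U i) := by
    refine iSup_le fun i y hy => ?_
    rw [mem_smul, inv_inv]
    exact (le_iSup U i) (hU i h hh y hy)
  have := h1 hx
  rwa [mem_smul, inv_inv] at this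

/-- translates of invariant submodules by normalising elements -/
theorem inv_smul' {H : Subgroup G} {U : Submodule S L} (hU : Inv S H U) {g : G}
    (hg : ∀ b ∈ H, g⁻¹ * b * g ∈ H) : Inv S H (g • U) := by
  intro h hh x hx
  rw [mem_smul] at hx ⊢
  have : g⁻¹ • h • x = (g⁻¹ * h * g) • g⁻¹ • x := by
    rw [smul_smul, smul_smul, mul_assoc, mul_assoc, mul_inv_cancel, mul_one]
  rw [this]
  exact hU _ (hg h hh) _ hx

theorem conj_pow {H : Subgroup G} {g : G} (hg : ∀ b ∈ H, g⁻¹ * b * g ∈ H) (n : ℕ) :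
    ∀ b ∈ H, (g ^ n)⁻¹ * b * g ^ n ∈ H := by
  induction n with
  | zero => intro b hb; simpa using hb
  | succ n ih =>
    intro b hb
    have : (g ^ (n + 1))⁻¹ * b * g ^ (n + 1) = g⁻¹ * ((g ^ n)⁻¹ * b * g ^ n) * g := by
      rw [pow_succ]; group
    rw [this]
    exact hg _ (ih b hb)

/-- the statement proved by induction on a tower: the absolute version -/
def Abs (S L : Type*) [CommRing S] [AddCommGroup L] [Module S L] {G : Type*} [Group G]
    [DistribMulAction G L] (B : Subgroup G) : Prop :=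
  ∀ (N : Submodule S L), Inv S B N → ∀ T : Finset L,
    ∃ f : S, f ≠ 0 ∧ RB f N (N ⊔ gen S B (T : Set L))

section step

variable (M₀ : Submodule S L) (t : G)

/-- the partial sums `M₀ + t M₀ + ... + t ^ n M₀` -/
def Nn : ℕ → Submodule S L
  | 0 => M₀
  | n + 1 => Nn n ⊔ t ^ (n + 1) • M₀

theorem Nn_zero : Nn M₀ t 0 = M₀ := rfl

theorem Nn_succ (n : ℕ) : Nn M₀ t (n + 1) = Nn M₀ t n ⊔ t ^ (n + 1) • M₀ := rfl

theorem Nn_mono : Monotone (Nn M₀ t) := monotone_nat_of_le_succ fun n => by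
  rw [Nn_succ]; exact le_sup_left

theorem smul_Nn_le (n : ℕ) : t • Nn M₀ t n ≤ Nn M₀ t (n + 1) := by
  induction n with
  | zero =>
    rw [Nn_succ, Nn_zero, zero_add, pow_one]
    exact le_sup_right
  | succ n ih =>
    rw [Nn_succ M₀ t n, smul_sup', smul_smul, ← pow_succ', Nn_succ M₀ t (n + 1)]
    exact sup_le (ih.trans le_sup_left) le_sup_right

variable {M₀ t}

theorem Nn_inv {B : Subgroup G} (hB : ∀ b ∈ B, t⁻¹ * b * t ∈ B) (hM : Inv S B M₀) (n : ℕ) :
    Inv S B (Nn M₀ t n) := by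
  induction n with
  | zero => exact hM
  | succ n ih =>
    rw [Nn_succ]
    exact inv_sup' ih (inv_smul' hM (conj_pow hB (n + 1)))

variable (M₀ t) in
/-- the submodules `J_n` -/
def Jn (n : ℕ) : Submodule S L := M₀ ⊓ (t ^ (n + 1))⁻¹ • Nn M₀ t n

theorem Jn_inv {B : Subgroup G} (hB : ∀ b ∈ B, t * b * t⁻¹ ∈ B)
    (hB' : ∀ b ∈ B, t⁻¹ * b * t ∈ B) (hM : Inv S B M₀) (n : ℕ) :
    Inv S B (Jn M₀ t n) := by
  refine inv_inf' hM (inv_smul' (Nn_inv hB' hM n) ?_)
  have h1 : ∀ b ∈ B, (t⁻¹)⁻¹ * b * t⁻¹ ∈ B := by rwa [inv_inv]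
  have := conj_pow h1 (n + 1)
  rwa [inv_pow] at this

theorem Jn_mono : Monotone (Jn M₀ t) := monotone_nat_of_le_succ fun n => by
  refine inf_le_inf le_rfl ?_
  rw [le_smul_iff, inv_inv, smul_smul]
  have : t ^ (n + 1 + 1) * (t ^ (n + 1))⁻¹ = t := by
    rw [pow_succ' t (n + 1)]; group
  rw [this]
  exact smul_Nn_le M₀ t n

theorem le_Jn {N : Submodule S L} (hN : N ≤ M₀) (ht : ∀ x ∈ N, t • x ∈ N) (n : ℕ) :
    N ≤ Jn M₀ t n := by
  refine le_inf hN ?_
  rw [le_smul_iff, inv_inv]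
  intro x hx
  rw [mem_smul] at hx
  have h1 : ∀ k : ℕ, ∀ y ∈ N, t ^ k • y ∈ N := by
    intro k
    induction k with
    | zero => intro y hy; simpa using hy
    | succ k ih => intro y hy; rw [pow_succ', mul_smul]; exact ht _ (ih y hy)
  have h2 := h1 (n + 1) _ hx
  rw [smul_inv_smul] at h2
  exact Nn_mono M₀ t (Nat.zero_le n) (hN h2)

theorem RB_Nn {f : S} {n : ℕ} (h : RB f (Jn M₀ t n) M₀) :
    RB f (Nn M₀ t n) (Nn M₀ t (n + 1)) := by
  rw [Nn_succ]
  refine RB.inf_sup ?_
  have h1 := h.smul (t ^ (n + 1))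
  rwa [Jn, smul_inf', smul_inv_smul] at h1

end step

/-- the main step: from `M₀` to the module generated over `B ⟨t⟩` -/
theorem step_lemma [IsDomain S] [IsNoetherianRing S] (hG : PC G) (B : Subgroup G) (t : G)
    (h1 : ∀ b ∈ B, t * b * t⁻¹ ∈ B) (h2 : ∀ b ∈ B, t⁻¹ * b * t ∈ B) (ih : Abs S L B)
    (N : Submodule S L) (hN : Inv S (B ⊔ zpowers t) N) (T : Finset L) :
    ∃ f : S, f ≠ 0 ∧ RB f (N ⊔ gen S B (T : Set L)) (N ⊔ gen S (B ⊔ zpowers t) (T : Set L)) := by
  classical
  set M₀ : Submodule S L := N ⊔ gen S B (T : Set L) with hM₀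
  have hNB : Inv S B N := fun b hb => hN b (mem_sup_left hb)
  have ht : ∀ x ∈ N, t • x ∈ N := hN t (mem_sup_right (mem_zpowers t))
  have ht' : ∀ x ∈ N, t⁻¹ • x ∈ N := hN t⁻¹ (mem_sup_right (inv_mem (mem_zpowers t)))
  have hMB : Inv S B M₀ := inv_sup' hNB (inv_gen' B _)
  have hNM : N ≤ M₀ := le_sup_left
  -- submodules between `N` and `M₀`
  have hmod : ∀ J : Submodule S L, N ≤ J → J ≤ M₀ → J ⊔ gen S B (T : Set L) = M₀ := by
    intro J hJ hJM
    refine le_antisymm (sup_le hJM le_sup_right) ?_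
    rw [hM₀]
    exact sup_le (hJ.trans le_sup_left) le_sup_right
  have hJle : ∀ n, Jn M₀ t n ≤ M₀ := fun n => inf_le_left
  have hNJ : ∀ n, N ≤ Jn M₀ t n := fun n => le_Jn hNM ht n
  -- stabilisation
  have hstab : ∃ n, ∀ m, n ≤ m → Jn M₀ t m = Jn M₀ t n := by
    let F : ℕ →o Submodule S L := ⟨fun n => Jn M₀ t n ⊓ gen S B (T : Set L),
      fun a b hab => inf_le_inf (Jn_mono hab) le_rfl⟩
    obtain ⟨n, hn⟩ := hall_acc hG B T F (fun n => inf_le_right)
      (fun n => inv_inf' (Jn_inv h1 h2 hMB n) (inv_gen' B _))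
    refine ⟨n, fun m hm => ?_⟩
    have hrec : ∀ k, Jn M₀ t k = N ⊔ (Jn M₀ t k ⊓ gen S B (T : Set L)) := by
      intro k
      have := sup_inf_assoc_of_le (gen S B (T : Set L)) (hNJ k)
      rw [inf_comm (Jn M₀ t k), ← this, ← hM₀]
      exact (inf_eq_right.2 (hJle k)).symm
    have hm' : Jn M₀ t m ⊓ gen S B (T : Set L) = Jn M₀ t n ⊓ gen S B (T : Set L) := hn m hm
    rw [hrec m, hrec n, hm']
  obtain ⟨n₀, hn₀⟩ := hstab
  have hJ : ∀ n, ∃ f : S, f ≠ 0 ∧ RB f (Jn M₀ t n) M₀ := by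
    intro n
    obtain ⟨f, hf, h⟩ := ih (Jn M₀ t n) (Jn_inv h1 h2 hMB n) T
    rw [hmod _ (hNJ n) (hJle n)] at h
    exact ⟨f, hf, h⟩
  choose g hg hRB using hJ
  let f₁ : S := ∏ n ∈ Finset.range (n₀ + 1), g n
  have hf₁ : f₁ ≠ 0 := Finset.prod_ne_zero_iff.2 fun n _ => hg n
  have hall : ∀ n, RB f₁ (Jn M₀ t n) M₀ := by
    intro n
    by_cases hn : n ≤ n₀
    · exact (hRB n).of_dvd (Finset.dvd_prod_of_mem g (Finset.mem_range.2 (Nat.lt_succ_of_le hn)))
    · rw [hn₀ n (le_of_not_ge hn)]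
      exact (hRB n₀).of_dvd (Finset.dvd_prod_of_mem g (Finset.mem_range.2 (Nat.lt_succ_self _)))
  set Ninf : Submodule S L := ⨆ n, Nn M₀ t n with hNinf
  have hstep1 : RB f₁ M₀ Ninf := RB.iSup (Nn M₀ t) (Nn_mono M₀ t) fun n => RB_Nn (hall n)
  have hM₀inf : M₀ ≤ Ninf := le_iSup (Nn M₀ t) 0
  have hInfB : Inv S B Ninf := inv_iSup' fun n => Nn_inv h2 hMB n
  have htinf : t • Ninf ≤ Ninf := by
    intro x hx
    rw [mem_smul] at hx
    obtain ⟨n, hn⟩ := (Submodule.mem_iSup_of_directed _ (Nn_mono M₀ t).directed_le).1 hx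
    have : x ∈ t • Nn M₀ t n := mem_smul.2 hn
    exact le_iSup (Nn M₀ t) (n + 1) (smul_Nn_le M₀ t n this)
  have hInfeq : t • Ninf ⊔ M₀ = Ninf := by
    refine le_antisymm (sup_le htinf hM₀inf) (iSup_le fun n => ?_)
    induction n with
    | zero => exact le_sup_right
    | succ n ihn =>
      rw [Nn_succ]
      refine sup_le ihn ?_
      rw [pow_succ', mul_smul]
      refine le_trans (smul_mono ?_) le_sup_left
      cases n with
      | zero => rw [pow_zero, one_smul]; exact hM₀inf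
      | succ n => exact le_trans le_sup_right (le_iSup (Nn M₀ t) (n + 1))
  -- the second part
  have hJ2 : ∃ f : S, f ≠ 0 ∧ RB f (M₀ ⊓ t • Ninf) M₀ := by
    have hNt : N ≤ t • Ninf := by
      rw [le_smul_iff]
      intro x hx
      rw [mem_smul, inv_inv] at hx
      refine hM₀inf (hNM ?_)
      have := ht' _ hx
      rwa [inv_smul_smul] at this
    obtain ⟨f, hf, h⟩ := ih (M₀ ⊓ t • Ninf) (inv_inf' hMB (inv_smul' hInfB h2)) T
    rw [hmod _ (le_inf hNM hNt) inf_le_left] at h
    exact ⟨f, hf, h⟩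
  obtain ⟨f₂, hf₂, hR2⟩ := hJ2
  have hR3 : RB f₂ (t • Ninf) Ninf := by
    have := hR2.inf_sup
    rwa [hInfeq] at this
  let P : ℕ → Submodule S L := fun k => t⁻¹ ^ k • Ninf
  have hPs : ∀ k, t • P (k + 1) = P k := by
    intro k
    change t • (t⁻¹ ^ (k + 1) • Ninf) = t⁻¹ ^ k • Ninf
    rw [pow_succ', mul_smul, smul_inv_smul]
  have hP0 : P 0 = Ninf := by
    change t⁻¹ ^ 0 • Ninf = Ninf
    rw [pow_zero, one_smul]
  have hP1 : ∀ k, t⁻¹ ^ (k + 1) • (t • Ninf) = P k := by
    intro k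
    change _ = t⁻¹ ^ k • Ninf
    rw [pow_succ, mul_smul, inv_smul_smul]
  have hPm : Monotone P := monotone_nat_of_le_succ fun k => by
    rw [← hP1 k]
    exact smul_mono htinf
  have hstep2 : RB f₂ Ninf (⨆ k, P k) := by
    rw [← hP0]
    refine RB.iSup P hPm fun k => ?_
    have := hR3.smul (t⁻¹ ^ (k + 1))
    rwa [hP1 k] at this
  have hPinf : Ninf ≤ ⨆ k, P k := by
    have := le_iSup P 0
    rwa [hP0] at this
  have hPB : Inv S B (⨆ k, P k) := inv_iSup' fun k => inv_smul' hInfB (by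
    have h1' : ∀ b ∈ B, (t⁻¹)⁻¹ * b * t⁻¹ ∈ B := by rwa [inv_inv]
    exact conj_pow h1' k)
  have hPK : Inv S (B ⊔ zpowers t) (⨆ k, P k) := by
    refine inv_sup_zpowers hPB ?_ ?_
    · intro x hx
      obtain ⟨k, hk⟩ := (Submodule.mem_iSup_of_directed _ hPm.directed_le).1 hx
      refine le_iSup P k ?_
      rw [← hPs k]
      exact smul_mem_smul.2 (hPm (Nat.le_succ k) hk)
    · intro x hx
      obtain ⟨k, hk⟩ := (Submodule.mem_iSup_of_directed _ hPm.directed_le).1 hx
      refine le_iSup P (k + 1) ?_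
      change t⁻¹ • x ∈ t⁻¹ ^ (k + 1) • Ninf
      rw [pow_succ', mul_smul]
      exact smul_mem_smul.2 hk
  have hXK : Inv S (B ⊔ zpowers t) (N ⊔ gen S (B ⊔ zpowers t) (T : Set L)) :=
    inv_sup' hN (inv_gen' _ _)
  have hfinal : (⨆ k, P k) = N ⊔ gen S (B ⊔ zpowers t) (T : Set L) := by
    refine le_antisymm ?_ ?_
    · have hNn : ∀ n, Nn M₀ t n ≤ N ⊔ gen S (B ⊔ zpowers t) (T : Set L) := by
        intro n
        have hM : M₀ ≤ N ⊔ gen S (B ⊔ zpowers t) (T : Set L) :=
          sup_le_sup le_rfl (gen_mono_left le_sup_left _)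
        induction n with
        | zero => exact hM
        | succ n ihn =>
          rw [Nn_succ]
          refine sup_le ihn ?_
          intro x hx
          rw [mem_smul] at hx
          have := hXK (t ^ (n + 1)) (mem_sup_right (pow_mem (mem_zpowers t) _)) _ (hM hx)
          rwa [smul_inv_smul] at this
      refine iSup_le fun k => ?_
      intro x hx
      have hx' : (t⁻¹ ^ k)⁻¹ • x ∈ Ninf := mem_smul.1 hx
      have := hXK (t⁻¹ ^ k) (mem_sup_right (pow_mem (inv_mem (mem_zpowers t)) _)) _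
        ((iSup_le hNn : Ninf ≤ _) hx')
      rwa [smul_inv_smul] at this
    · refine sup_le (hNM.trans (hM₀inf.trans hPinf)) (gen_le hPK ?_)
      exact (subset_gen B _).trans ((le_sup_right : _ ≤ M₀).trans (hM₀inf.trans hPinf))
  rw [← hfinal]
  refine ⟨f₁ * f₂, mul_ne_zero hf₁ hf₂, RB.trans hM₀inf hPinf
    (hstep1.of_dvd (dvd_mul_right _ _)) (hstep2.of_dvd (dvd_mul_left _ _))⟩

end act

section final

variable {G S L : Type*} [Group G] [CommRing S] [IsDomain S] [IsNoetherianRing S]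
  [AddCommGroup L] [Module S L] [DistribMulAction G L] [SMulCommClass G S L]

theorem gen_bot (T : Set L) : gen S (⊥ : Subgroup G) T = Submodule.span S T := by
  refine le_antisymm (Submodule.span_mono ?_) (Submodule.span_mono ?_)
  · rintro y ⟨h, hh, x, hx, rfl⟩
    rw [mem_bot] at hh
    rwa [hh, one_smul]
  · intro x hx
    exact ⟨1, one_mem _, x, hx, (one_smul _ _).symm⟩

theorem abs_of_tower (hG : PC G) {B : Subgroup G} (hB : Tower (⊥ : Subgroup G) B) :
    Abs S L B := by
  induction hB with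
  | base =>
    intro N _ T
    rw [gen_bot]
    exact RB.finset N T
  | step B t hB h1 h2 ih =>
    intro N hN T
    obtain ⟨f, hf, h⟩ := ih N (fun b hb => hN b (mem_sup_left hb)) T
    obtain ⟨f', hf', h'⟩ := step_lemma hG B t h1 h2 ih N hN T
    exact ⟨f * f', mul_ne_zero hf hf', RB.trans le_sup_left
      (sup_le_sup le_rfl (gen_mono_left le_sup_left _))
      (h.of_dvd (dvd_mul_right _ _)) (h'.of_dvd (dvd_mul_left _ _))⟩

/-- the absolute version -/
theorem abs_all (hG : PC G) (B : Subgroup G) : Abs S L B := by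
  have hB : PC B := hG.subgroup B
  have h : Tower (⊥ : Subgroup B) ⊤ := PC.tower hB ⊥
  have h1 : Abs S L (⊤ : Subgroup B) := abs_of_tower hB h
  intro N hN T
  obtain ⟨f, hf, h2⟩ := h1 N (fun b _ x hx => hN b b.2 x hx) T
  rw [gen_top] at h2
  exact ⟨f, hf, h2⟩

theorem gen_union (H : Subgroup G) (T T' : Set L) :
    gen S H (T ∪ T') = gen S H T ⊔ gen S H T' := by
  refine le_antisymm ?_ (sup_le (gen_mono_right H Set.subset_union_left)
    (gen_mono_right H Set.subset_union_right))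
  refine gen_le (inv_sup' (inv_gen' H T) (inv_gen' H T')) ?_
  exact Set.union_subset ((subset_gen H T).trans (le_sup_left : gen S H T ≤ _))
    ((subset_gen H T').trans (le_sup_right : gen S H T' ≤ _))

/-- the relative version -/
theorem rel_of_tower (hG : PC G) {W B : Subgroup G} (hB : Tower W B) (T T' : Finset L) :
    W ≤ B ∧ ∃ f : S, f ≠ 0 ∧ RB f (gen S W (T' : Set L)) (gen S B ((T : Set L) ∪ T')) := by
  classical
  induction hB with
  | base =>
    refine ⟨le_rfl, ?_⟩
    obtain ⟨f, hf, h⟩ := abs_all hG W (gen S W (T' : Set L)) (inv_gen' W _) T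
    refine ⟨f, hf, ?_⟩
    rwa [gen_union, sup_comm]
  | step B t hB h1 h2 ih =>
    obtain ⟨hWB, f, hf, h⟩ := ih
    refine ⟨hWB.trans le_sup_left, ?_⟩
    obtain ⟨f', hf', h'⟩ := step_lemma (S := S) (L := L) hG B t h1 h2 (abs_all hG B) ⊥
      (fun b _ x hx => by
        rw [Submodule.mem_bot] at hx
        rw [hx, smul_zero]
        exact Submodule.zero_mem _) (T ∪ T')
    rw [bot_sup_eq, bot_sup_eq, Finset.coe_union] at h'
    exact ⟨f * f', mul_ne_zero hf hf', RB.trans
      ((gen_mono_left hWB _).trans (gen_mono_right B Set.subset_union_right))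
      (gen_mono_left le_sup_left _)
      (h.of_dvd (dvd_mul_right _ _)) (h'.of_dvd (dvd_mul_left _ _))⟩

theorem linearIndependent_of_IM {s : Set L} (h : IM (⊥ : Submodule S L) s) :
    LinearIndependent S (fun x : s => (x : L)) := by
  rw [linearIndependent_subtype_iff, linearIndepOn_iff]
  intro l hl hl0
  exact h l hl ((Submodule.mem_bot S).2 hl0)

end final

end RGFaux

open RGFaux in
theorem rgf {G S L : Type u} [Group G] [CommRing S] [IsDomain S] [IsNoetherianRing S]
    [AddCommGroup L] [Module S L] [DistribMulAction G L] [SMulCommClass G S L] (hG : PC G)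
    (W : Subgroup G) [W.Normal] (T T' : Finset L)
    (hT : gen S (⊤ : Subgroup G) (T : Set L) = ⊤) :
    ∃ f : S, f ≠ 0 ∧ ∃ (I : Type u) (J : Set I) (e : I → L), LinearIndependent S e ∧
      (∀ x : L, ∃ n : ℕ, f ^ n • x ∈ Submodule.span S (Set.range e)) ∧
      (∀ i ∈ J, e i ∈ gen S W (T' : Set L)) ∧
      (∀ x ∈ gen S W (T' : Set L), ∃ n : ℕ, f ^ n • x ∈ Submodule.span S (e '' J)) := by
  obtain ⟨f₁, hf₁, s₁, h₁⟩ := abs_all (S := S) (L := L) hG W ⊥ (fun b _ x hx => by
        rw [Submodule.mem_bot] at hx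
        rw [hx, smul_zero]
        exact Submodule.zero_mem _) T'
  rw [bot_sup_eq] at h₁
  obtain ⟨_, f₂, hf₂, s₂, h₂⟩ := rel_of_tower (S := S) hG (PC.tower hG W) T T'
  have htop : gen S (⊤ : Subgroup G) ((T : Set L) ∪ T') = ⊤ := by
    refine top_le_iff.1 ?_
    rw [← hT]
    exact gen_mono_right _ Set.subset_union_left
  rw [htop] at h₂
  have h₁' := h₁.of_dvd (dvd_mul_right f₁ f₂)
  have h₂' := h₂.of_dvd (dvd_mul_left f₂ f₁)
  have h := h₁'.trans bot_le le_top h₂'
  refine ⟨f₁ * f₂, mul_ne_zero hf₁ hf₂, ↥(s₁ ∪ s₂), {x | (x : L) ∈ s₁}, fun x => (x : L),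
    linearIndependent_of_IM h.ind, ?_, ?_, ?_⟩
  · intro x
    obtain ⟨n, hn⟩ := h.spn x trivial
    rw [sup_bot_eq] at hn
    refine ⟨n, ?_⟩
    rwa [Subtype.range_coe]
  · intro i hi
    exact h₁.sub hi
  · intro x hx
    obtain ⟨n, hn⟩ := h₁'.spn x hx
    rw [sup_bot_eq] at hn
    refine ⟨n, Submodule.span_mono ?_ hn⟩
    intro y hy
    exact ⟨⟨y, Or.inl hy⟩, hy, rfl⟩

namespace RGFaux

/-- an element of `q L` multiplied by a power of `f` has coordinates in `q` -/
theorem coord_mem {S L I : Type*} [CommRing S] [AddCommGroup L] [Module S L] {f : S}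
    {e : I → L} (hspan : ∀ x : L, ∃ n : ℕ, f ^ n • x ∈ Submodule.span S (Set.range e))
    (q : Ideal S) (x : L) (hx : x ∈ q • (⊤ : Submodule S L)) :
    ∃ n : ℕ, f ^ n • x ∈ q • Submodule.span S (Set.range e) := by
  refine Submodule.smul_induction_on hx ?_ ?_
  · intro r hr y _
    obtain ⟨n, hn⟩ := hspan y
    refine ⟨n, ?_⟩
    rw [smul_comm]
    exact Submodule.smul_mem_smul hr hn
  · rintro y z ⟨n, hn⟩ ⟨m, hm⟩
    refine ⟨n + m, ?_⟩
    rw [smul_add]
    exact Submodule.add_mem _ (pow_mem_of_le (Nat.le_add_right _ _) hn)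
      (pow_mem_of_le (Nat.le_add_left _ _) hm)

theorem coeff_mem {S L I : Type*} [CommRing S] [AddCommGroup L] [Module S L]
    {e : I → L} (he : LinearIndependent S e) (q : Ideal S) (l : I →₀ S)
    (hx : Finsupp.linearCombination S e l ∈ q • Submodule.span S (Set.range e)) (i : I) :
    l i ∈ q := by
  have h1 : ∀ x ∈ q • Submodule.span S (Set.range e), ∃ l' : I →₀ S,
      (∀ i, l' i ∈ q) ∧ Finsupp.linearCombination S e l' = x := by
    intro x hx
    refine Submodule.smul_induction_on hx ?_ ?_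
    · intro r hr y hy
      obtain ⟨m, rfl⟩ := (Finsupp.mem_span_range_iff_exists_finsupp).1 hy
      refine ⟨r • m, fun i => ?_, ?_⟩
      · rw [Finsupp.smul_apply, smul_eq_mul]
        exact q.mul_mem_right _ hr
      · rw [map_smul, Finsupp.linearCombination_apply]
    · rintro y z ⟨a, ha, rfl⟩ ⟨b, hb, rfl⟩
      exact ⟨a + b, fun i => q.add_mem (ha i) (hb i), map_add _ _ _⟩
  obtain ⟨l', hl', e'⟩ := h1 _ hx
  have : l' = l := he e'
  rw [← this]
  exact hl' i

end RGFaux

open RGFaux in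
theorem finite_rank_of_mod {G S L : Type u} [Group G] [CommRing S] [IsDomain S]
    [Algebra.FiniteType ℤ S]
    [AddCommGroup L] [Module S L] [DistribMulAction G L] [SMulCommClass G S L] (hG : PC G)
    (W : Subgroup G) [W.Normal] (T T' : Finset L)
    (hT : gen S (⊤ : Subgroup G) (T : Set L) = ⊤)
    (h : ∀ q : Ideal S, q.IsMaximal →
      {v : L ⧸ (q • (⊤ : Submodule S L)) | ∃ x ∈ gen S W (T' : Set L),
        v = Submodule.Quotient.mk x}.Finite) :
    LFin (⊥ : Ideal S) (gen S W (T' : Set L)) := by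
  classical
  haveI : IsNoetherianRing S := Algebra.FiniteType.isNoetherianRing ℤ S
  obtain ⟨f, hf, I, J, e, he, hspan, hJ, hJspan⟩ := rgf (S := S) hG W T T' hT
  obtain ⟨q, hq, hfq⟩ := ns_exists hf
  have hJfin : J.Finite := by
    refine Set.Finite.of_finite_image
      (f := fun i => (Submodule.Quotient.mk (e i) : L ⧸ (q • (⊤ : Submodule S L))))
      ((h q hq).subset ?_) ?_
    · rintro _ ⟨i, hi, rfl⟩
      exact ⟨e i, hJ i hi, rfl⟩
    · intro i _ j _ hij
      by_contra hne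
      rw [Submodule.Quotient.eq] at hij
      obtain ⟨n, hn⟩ := coord_mem hspan q _ hij
      have h1 : f ^ n • (e i - e j) = Finsupp.linearCombination S e
          (Finsupp.single i (f ^ n) - Finsupp.single j (f ^ n)) := by
        rw [map_sub, Finsupp.linearCombination_single, Finsupp.linearCombination_single, smul_sub]
      rw [h1] at hn
      have h2 := coeff_mem he q _ hn i
      rw [Finsupp.sub_apply, Finsupp.single_eq_same, Finsupp.single_apply,
        if_neg (fun hji => hne hji.symm), sub_zero] at h2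
      exact hfq (hq.isPrime.mem_of_pow_mem n h2)
  refine ⟨hJfin.toFinset.image e, fun x hx => ?_⟩
  obtain ⟨n, hn⟩ := hJspan x hx
  refine ⟨f ^ n, ?_, ?_⟩
  · rw [Ideal.mem_bot]
    exact pow_ne_zero n hf
  · rw [Finset.coe_image, Set.Finite.coe_toFinset]
    exact hn

end Pool.Agent.D5
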