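import Pool.Agent.Lib.MP_d5e6ed_al.B.Basic
import Pool.Agent.Lib.MP_d5e6ed_al.B.RGF
import Pool.Agent.Lib.MP_d5e6ed_al.B.HL

/-!
# The linear part

(helper37, module LIN of helper50's project MP_d5e6ed_al)
-/

set_option autoImplicit false
set_option linter.unusedSectionVars false

namespace Pool.Agent.D5

universe u

open Subgroup

namespace LINaux

/-- an action on a quotient module -/
@[reducible] def quotAct {G S L : Type*} [Group G] [CommRing S] [AddCommGroup L] [Module S L]
    [DistribMulAction G L] [SMulCommClass G S L] (U : Submodule S L)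
    (hU : ∀ (g : G), ∀ x ∈ U, g • x ∈ U) : DistribMulAction G (L ⧸ U) where
  smul g v := U.mapQ U (DistribSMul.toLinearMap S L g) (fun x hx => hU g x hx) v
  one_smul v := by
    obtain ⟨x, rfl⟩ := U.mkQ_surjective v
    change Submodule.Quotient.mk ((1 : G) • x) = Submodule.Quotient.mk x
    rw [one_smul]
  mul_smul g h v := by
    obtain ⟨x, rfl⟩ := U.mkQ_surjective v
    change Submodule.Quotient.mk ((g * h) • x) = Submodule.Quotient.mk (g • h • x)
    rw [mul_smul]
  smul_zero g := map_zero _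
  smul_add g v w := map_add _ _ _

/-- unipotent elements in prime characteristic have finite order -/
theorem pow_eq_one_of_unipotent {E : Type*} [Ring E] (l : ℕ) [Fact l.Prime] [CharP E l] (k : E)
    {n : ℕ} (h : (k - 1) ^ n = 0) : k ^ l ^ n = 1 := by
  have h1 : (k - 1) ^ l ^ n = k ^ l ^ n - 1 ^ l ^ n :=
    sub_pow_char_pow_of_commute (h := Commute.one_right k) ..
  have h2 : (k - 1) ^ l ^ n = 0 := by
    have hle : n ≤ l ^ n := (Nat.lt_pow_self (Fact.out : l.Prime).one_lt).le
    exact pow_eq_zero_of_le hle h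
  rw [h2, one_pow] at h1
  exact (sub_eq_zero.1 h1.symm)

theorem nilAct_pow {P V : Type*} [Group P] [AddCommGroup V] [DistribMulAction P V] (k : P)
    (n : ℕ) (v : V) : (List.replicate n k).foldr (fun k x => k • x - x) v =
      ((DistribMulAction.toAddMonoidEnd P V k - 1) ^ n : AddMonoid.End V) v := by
  induction n with
  | zero => rw [List.replicate_zero, List.foldr_nil, pow_zero]; rfl
  | succ n ih =>
    rw [List.replicate_succ, List.foldr_cons, ih, pow_succ']
    rfl

theorem torsion_of_nilAct {P V : Type*} [Group P] [AddCommGroup V] [DistribMulAction P V]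
    (l : ℕ) (hl : l.Prime) (hV : ∀ v : V, l • v = 0)
    (hfaith : ∀ g : P, (∀ v : V, g • v = v) → g = 1) (K : Subgroup P) (hK : NilAct V K)
    (g : P) (hg : g ∈ K) : IsOfFinOrder g := by
  obtain ⟨n, hn⟩ := hK
  rw [isOfFinOrder_iff_pow_eq_one]
  have : Fact l.Prime := ⟨hl⟩
  refine ⟨l ^ n, pow_pos hl.pos n, hfaith _ ?_⟩
  intro v
  rcases subsingleton_or_nontrivial V with hs | hs
  · exact Subsingleton.elim _ _
  have hnt : Nontrivial (AddMonoid.End V) := by
    obtain ⟨v, hv⟩ := exists_ne (0 : V)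
    exact ⟨0, 1, fun h => hv (DFunLike.congr_fun h v).symm⟩
  have hchar : CharP (AddMonoid.End V) l := by
    have h0 : ((l : ℕ) : AddMonoid.End V) = 0 := by
      ext v
      rw [AddMonoid.End.natCast_apply]
      exact hV v
    exact (CharP.charP_iff_prime_eq_zero hl).2 h0
  have h1 : (DistribMulAction.toAddMonoidEnd P V g - 1) ^ n = 0 := by
    ext v
    rw [← nilAct_pow]
    exact hn _ (fun k hk => (List.eq_of_mem_replicate hk) ▸ hg) (List.length_replicate) v
  have h2 := pow_eq_one_of_unipotent l _ h1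
  rw [← map_pow] at h2
  have h3 := DFunLike.congr_fun h2 v
  exact h3

/-- application of the induction hypothesis to one quotient -/
theorem lq {G V : Type u} [Group G] [AddCommGroup V] [DistribMulAction G V] (hG : PC G) {n : ℕ∞}
    (hn : hl G ≤ n) (ih : ThmA.{u} n) (hfg : FGAct G V) (l : ℕ) (hl' : l.Prime)
    (hV : ∀ v : V, l • v = 0) (W : Subgroup G) [W.Normal] (hW : ∀ g, g ∈ W ↔ ∀ v : V, g • v = v)
    (hinf : Infinite W) :
    ∃ v : V, W.relIndex (MulAction.stabilizer G v) ≠ 0 := by
  classical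
  let φ : G →* (AddMonoid.End V)ˣ := (DistribMulAction.toAddMonoidEnd G V).toHomUnits
  let _ : DistribMulAction (G ⧸ W) V :=
    DistribMulAction.compHom V (QuotientGroup.lift W φ (fun g hg => by
      rw [MonoidHom.mem_ker]
      ext v
      exact (hW g).1 hg v))
  have hact : ∀ (g : G) (v : V), ((g : G ⧸ W)) • v = g • v := fun g v => rfl
  have hPC : PC (G ⧸ W) := hG.quot _
  have hlt : hl (G ⧸ W) < n := lt_of_lt_of_le (hl_quot_lt hG W hinf) hn
  have hfg' : FGAct (G ⧸ W) V := by
    obtain ⟨T, hT⟩ := hfg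
    refine ⟨T, fun N hN hTN => hT N (fun g x hx => ?_) hTN⟩
    exact hN (g : G ⧸ W) x hx
  have hfaith : ∀ g : G ⧸ W, (∀ v : V, g • v = v) → g = 1 := by
    intro g hg
    obtain ⟨g, rfl⟩ := QuotientGroup.mk_surjective g
    rw [QuotientGroup.eq_one_iff, hW]
    exact hg
  have hHC : HC (G ⧸ W) V := by
    intro H K _ _ _ hK
    have hKt := torsion_of_nilAct l hl' hV hfaith K hK
    refine PC.finite_of_torsion (hPC.subgroup K) fun g => ?_
    exact (Submonoid.isOfFinOrder_coe).1 (hKt g g.2)
  obtain ⟨v, hv⟩ := ih (G ⧸ W) V hPC hlt hfg' hHC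
  refine ⟨v, ?_⟩
  let f : MulAction.stabilizer G v →* MulAction.stabilizer (G ⧸ W) v :=
    { toFun := fun g => ⟨((g : G) : G ⧸ W), g.2⟩
      map_one' := rfl
      map_mul' := fun _ _ => rfl }
  have hker : f.ker = W.subgroupOf (MulAction.stabilizer G v) := by
    ext g
    rw [MonoidHom.mem_ker, mem_subgroupOf, ← QuotientGroup.eq_one_iff]
    exact Subtype.ext_iff
  rw [relIndex, ← hker, index_ker]
  exact Nat.card_pos.ne'

section main

variable {G S L : Type u} [Group G] [CommRing S] [AddCommGroup L] [Module S L]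
  [DistribMulAction G L] [SMulCommClass G S L]

theorem smul_mem_ideal_smul (q : Ideal S) (g : G) (x : L) (hx : x ∈ q • (⊤ : Submodule S L)) :
    g • x ∈ q • (⊤ : Submodule S L) := by
  refine Submodule.smul_induction_on hx ?_ ?_
  · intro r hr y _
    rw [smul_comm]
    exact Submodule.smul_mem_smul hr trivial
  · intro y z hy hz
    rw [smul_add]
    exact Submodule.add_mem _ hy hz

/-- the kernel of the action on `L ⧸ q L` -/
def Wq (G : Type u) [Group G] [DistribMulAction G L] [SMulCommClass G S L] (q : Ideal S) :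
    Subgroup G where
  carrier := {g | ∀ x : L, g • x - x ∈ q • (⊤ : Submodule S L)}
  mul_mem' := by
    intro a b ha hb x
    have : (a * b) • x - x = a • (b • x - x) + (a • x - x) := by
      rw [mul_smul, smul_sub]; abel
    rw [this]
    exact Submodule.add_mem _ (smul_mem_ideal_smul q a _ (hb x)) (ha x)
  one_mem' := by
    intro x
    rw [one_smul, sub_self]
    exact Submodule.zero_mem _
  inv_mem' := by
    intro a ha x
    have : a⁻¹ • x - x = - (a⁻¹ • (a • x - x)) := by
      rw [smul_sub, inv_smul_smul]; abel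
    rw [this]
    exact Submodule.neg_mem _ (smul_mem_ideal_smul q a⁻¹ _ (ha x))

theorem mem_Wq {q : Ideal S} {g : G} :
    g ∈ Wq (L := L) G q ↔ ∀ x : L, g • x - x ∈ q • (⊤ : Submodule S L) := Iff.rfl

instance Wq_normal (q : Ideal S) : (Wq (L := L) G q).Normal where
  conj_mem := by
    intro a ha g x
    have : (g * a * g⁻¹) • x - x = g • (a • (g⁻¹ • x) - g⁻¹ • x) := by
      rw [mul_smul, mul_smul, smul_sub, smul_inv_smul]
    rw [this]
    exact smul_mem_ideal_smul q g _ (ha _)

/-- the induction hypothesis gives elements with small stabilisers modulo `q` -/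
theorem exists_yq [Algebra.FiniteType ℤ S] (hG : PC G) {n : ℕ∞}
    (hn : hl G ≤ n) (ih : ThmA.{u} n) (A : Subgroup G) (hA : Infinite A) (α : G → S)
    (hα : ∀ a ∈ A, ∀ x : L, a • x = α a • x)
    (T : Finset L) (hT : gen S (⊤ : Subgroup G) (T : Set L) = ⊤) (q : Ideal S)
    (hq : q.IsMaximal) :
    ∃ y : L, ∀ K : Subgroup G, (∀ g ∈ K, g • y - y ∈ q • (⊤ : Submodule S L)) →
      (Wq (L := L) G q).relIndex K ≠ 0 := by
  classical
  have hfin : Finite (S ⧸ q) := ns_finite q
  let V := L ⧸ (q • (⊤ : Submodule S L))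
  let _ : DistribMulAction G V := quotAct (q • (⊤ : Submodule S L)) (smul_mem_ideal_smul q)
  have hact : ∀ (g : G) (x : L), g • (Submodule.Quotient.mk x : V) =
    Submodule.Quotient.mk (g • x) := fun g x => rfl
  -- scalars only matter modulo `q`
  have hsc : ∀ (r r' : S), r - r' ∈ q → ∀ v : V, r • v = r' • v := by
    intro r r' h v
    obtain ⟨x, rfl⟩ := Submodule.mkQ_surjective _ v
    rw [← sub_eq_zero, ← sub_smul, Submodule.mkQ_apply, ← Submodule.Quotient.mk_smul,
      Submodule.Quotient.mk_eq_zero]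
    exact Submodule.smul_mem_smul h trivial
  -- finitely generated
  have hrep : ∀ r : S, ∃ r' ∈ Set.range (fun c : S ⧸ q => (Quotient.out c : S)), r - r' ∈ q := by
    intro r
    refine ⟨_, ⟨Ideal.Quotient.mk q r, rfl⟩, ?_⟩
    rw [← Ideal.Quotient.eq]
    exact (Quotient.out_eq (Ideal.Quotient.mk q r)).symm
  have hRfin : (Set.range (fun c : S ⧸ q => (Quotient.out c : S))).Finite := Set.finite_range _
  let T' : Finset V := (hRfin.toFinset ×ˢ T).image fun z => z.1 • (Submodule.Quotient.mk z.2 : V)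
  have hfg : FGAct G V := by
    refine ⟨T', fun N hN hTN => ?_⟩
    let N₁ : Submodule S L :=
      { carrier := {x | ∀ r : S, r • (Submodule.Quotient.mk x : V) ∈ N}
        add_mem' := by
          intro a b ha hb r
          rw [Submodule.Quotient.mk_add, smul_add]
          exact N.add_mem (ha r) (hb r)
        zero_mem' := by
          intro r
          rw [Submodule.Quotient.mk_zero, smul_zero]
          exact N.zero_mem
        smul_mem' := by
          intro c x hx r
          rw [Submodule.Quotient.mk_smul, smul_smul]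
          exact hx _ }
    have h1 : gen S (⊤ : Subgroup G) (T : Set L) ≤ N₁ := by
      refine gen_le ?_ ?_
      · intro g _ x hx r
        have : r • (Submodule.Quotient.mk (g • x) : V) =
            g • (r • (Submodule.Quotient.mk x : V)) := by
          rw [← Submodule.Quotient.mk_smul, ← Submodule.Quotient.mk_smul, hact, smul_comm g r x]
        rw [this]
        exact hN g _ (hx r)
      · intro x hx r
        obtain ⟨r', hr', hrr⟩ := hrep r
        rw [hsc r r' hrr]
        refine hTN ?_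
        rw [Finset.mem_coe, Finset.mem_image]
        exact ⟨(r', x), Finset.mem_product.2 ⟨hRfin.mem_toFinset.2 hr', hx⟩, rfl⟩
    rw [hT] at h1
    refine (AddSubgroup.eq_top_iff' N).2 fun v => ?_
    obtain ⟨x, rfl⟩ := Submodule.mkQ_surjective _ v
    have h3 : x ∈ N₁ := h1 trivial
    have := h3 1
    rwa [one_smul] at this
  -- characteristic
  let _ : Field (S ⧸ q) := Ideal.Quotient.field q
  obtain ⟨l, hl1⟩ := CharP.exists (S ⧸ q)
  have hlp : l.Prime := (CharP.char_is_prime_or_zero (S ⧸ q) l).resolve_right fun h0 => by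
    subst h0
    have : CharZero (S ⧸ q) := CharP.charP_to_charZero _
    exact (not_finite (S ⧸ q))
  have hlq : (l : S) ∈ q := by
    rw [← Ideal.Quotient.eq_zero_iff_mem, map_natCast]
    exact CharP.cast_eq_zero _ _
  have hV : ∀ v : V, l • v = 0 := by
    intro v
    have h1 : (l : S) • v = (0 : S) • v := hsc _ _ (by rwa [sub_zero]) v
    rwa [zero_smul, Nat.cast_smul_eq_nsmul] at h1
  have hW : ∀ g, g ∈ Wq (L := L) G q ↔ ∀ v : V, g • v = v := by
    intro g
    constructor
    · intro h v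
      obtain ⟨x, rfl⟩ := Submodule.mkQ_surjective _ v
      exact (Submodule.Quotient.eq _).2 (h x)
    · intro h x
      exact (Submodule.Quotient.eq _).1 (h (Submodule.Quotient.mk x))
  have hinf : Infinite (Wq (L := L) G q) := by
    obtain ⟨c, hc⟩ := Finite.exists_infinite_fiber
      (fun a : A => (Ideal.Quotient.mk q (α a) : S ⧸ q))
    obtain ⟨a₀⟩ : Nonempty ((fun a : A => (Ideal.Quotient.mk q (α a) : S ⧸ q)) ⁻¹' {c}) :=
      inferInstance
    refine Infinite.of_injective
      (fun a : ((fun a : A => (Ideal.Quotient.mk q (α a) : S ⧸ q)) ⁻¹' {c}) =>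
        (⟨((a₀ : A) : G)⁻¹ * ((a : A) : G), ?_⟩ : Wq (L := L) G q)) ?_
    · rw [hW]
      intro v
      have h1 : α ((a : A) : G) - α ((a₀ : A) : G) ∈ q := by
        rw [← Ideal.Quotient.eq]
        exact a.2.trans a₀.2.symm
      have h2 : ((a : A) : G) • v = ((a₀ : A) : G) • v := by
        obtain ⟨x, rfl⟩ := Submodule.mkQ_surjective _ v
        rw [Submodule.mkQ_apply, hact, hact, hα _ (a : A).2, hα _ (a₀ : A).2,
          Submodule.Quotient.mk_smul, Submodule.Quotient.mk_smul]
        exact hsc _ _ h1 _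
      rw [mul_smul, h2, inv_smul_smul]
    · intro a b hab
      have := Subtype.ext_iff.1 hab
      exact Subtype.ext (Subtype.ext (mul_left_cancel this))
  obtain ⟨v, hv⟩ := lq hG hn ih hfg l hlp hV (Wq (L := L) G q) hW hinf
  obtain ⟨y, rfl⟩ := Submodule.mkQ_surjective _ v
  refine ⟨y, fun K hK hK0 => hv (relIndex_eq_zero_of_le_right ?_ hK0)⟩
  intro g hg
  exact (Submodule.Quotient.eq _).2 (hK g hg)

/-- finite submodules of quotients by a maximal ideal -/
theorem finite_span {S V : Type*} [CommRing S] [AddCommGroup V] [Module S V] (q : Ideal S)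
    [Finite (S ⧸ q)] (hV : ∀ r ∈ q, ∀ v : V, r • v = 0) {O : Set V} (hO : O.Finite) :
    ((Submodule.span S O : Submodule S V) : Set V).Finite := by
  classical
  obtain ⟨F, rfl⟩ := hO.exists_finset_coe
  refine (Set.finite_range (fun c : F → S ⧸ q => ∑ v : F, (Quotient.out (c v) : S) • (v : V))).subset
    ?_
  intro x hx
  obtain ⟨f, -, hf⟩ := Submodule.mem_span_finset.1 hx
  refine ⟨fun v => Ideal.Quotient.mk q (f v), ?_⟩
  rw [← hf, ← Finset.sum_coe_sort F (fun v => f v • v)]
  refine Finset.sum_congr rfl fun v _ => ?_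
  rw [← sub_eq_zero, ← sub_smul]
  refine hV _ ?_ _
  rw [← Ideal.Quotient.eq]
  exact Quotient.out_eq (Ideal.Quotient.mk q (f v))

theorem lin' [IsDomain S] [Algebra.FiniteType ℤ S] (hG : PC G) {n : ℕ∞}
    (hn : hl G ≤ n) (ih : ThmA.{u} n) (A : Subgroup G) (hA : Infinite A) (α : G → S)
    (hα : ∀ a ∈ A, ∀ x : L, a • x = α a • x)
    (T : Finset L) (hT : gen S (⊤ : Subgroup G) (T : Set L) = ⊤) [Nontrivial L] :
    ∃ y : L, y ≠ 0 ∧ ∃ Y : Subgroup G, Y.Normal ∧ (∀ x : L, LFin (⊥ : Ideal S) (gen S Y {x})) ∧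
      Y.relIndex (MulAction.stabilizer G y) ≠ 0 := by
  classical
  have hyq : ∀ q : Ideal S, ∃ y : L, q.IsMaximal → ∀ K : Subgroup G,
      (∀ g ∈ K, g • y - y ∈ q • (⊤ : Submodule S L)) → (Wq (L := L) G q).relIndex K ≠ 0 := by
    intro q
    by_cases hq : q.IsMaximal
    · obtain ⟨y, hy⟩ := exists_yq hG hn ih A hA α hα T hT q hq
      exact ⟨y, fun _ => hy⟩
    · exact ⟨0, fun h => absurd h hq⟩
  choose yq hyq using hyq
  let F : Set (Subgroup G) := {W | ∃ Q : Finset (Ideal S), (∀ q ∈ Q, q.IsMaximal) ∧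
    W = ⨅ q ∈ Q, Wq (L := L) G q}
  have hF0 : F.Nonempty := ⟨_, ∅, by simp, rfl⟩
  have hFinf : ∀ A ∈ F, ∀ B ∈ F, A ⊓ B ∈ F := by
    rintro _ ⟨Q, hQ, rfl⟩ _ ⟨Q', hQ', rfl⟩
    refine ⟨Q ∪ Q', fun q hq => ?_, ?_⟩
    · rcases Finset.mem_union.1 hq with h | h
      · exact hQ q h
      · exact hQ' q h
    · rw [Finset.iInf_union]
  obtain ⟨W, ⟨Q, hQ, rfl⟩, hmin⟩ := exists_min_comm hG F hF0 hFinf
  set W : Subgroup G := ⨅ q ∈ Q, Wq (L := L) G q with hWdef
  have hWn : W.Normal := by
    rw [hWdef]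
    refine Subgroup.normal_iInf_normal fun q => Subgroup.normal_iInf_normal fun _ => Wq_normal q
  have hmin' : ∀ q : Ideal S, q.IsMaximal → (Wq (L := L) G q).relIndex W ≠ 0 := by
    intro q hq
    have h1 : Wq (L := L) G q ∈ F := ⟨{q}, by simpa using hq, by simp⟩
    exact hmin _ h1
  -- Chinese remainder theorem
  have hcop : Pairwise (Function.onFun IsCoprime fun q : Q => (q : Ideal S)) := by
    intro q q' hne
    have h1 := hQ q q.2
    have h2 := hQ q' q'.2
    exact Ideal.isCoprime_of_isMaximal (fun h => hne (Subtype.ext h))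
  have hcrt : ∀ q : Q, ∃ e : S, ∀ q' : Q, e - (if q' = q then 1 else 0) ∈ (q' : Ideal S) :=
    fun q => Ideal.exists_forall_sub_mem_ideal hcop _
  choose e he using hcrt
  let y : L := ∑ q : Q, e q • yq q
  have hy : ∀ q : Q, y - yq q ∈ (q : Ideal S) • (⊤ : Submodule S L) := by
    intro q
    have h1 : y - yq q = ∑ q' : Q, (e q' - (if q = q' then 1 else 0)) • yq q' := by
      simp only [sub_smul, Finset.sum_sub_distrib, ite_smul, one_smul, zero_smul,
        Finset.sum_ite_eq, Finset.mem_univ, if_true]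
      rfl
    rw [h1]
    exact Submodule.sum_mem _ fun q' _ => Submodule.smul_mem_smul (he q' q) trivial
  have hWstab : W.relIndex (MulAction.stabilizer G y) ≠ 0 := by
    have h1 : ∀ q : Q, (Wq (L := L) G (q : Ideal S)).relIndex (MulAction.stabilizer G y) ≠ 0 := by
      intro q
      refine hyq q (hQ q q.2) _ fun g hg => ?_
      have hgy : g • y = y := hg
      have h2 : g • yq q - yq q = (y - yq q) - g • (y - yq q) := by
        rw [smul_sub, hgy]; abel
      rw [h2]
      exact Submodule.sub_mem _ (hy q) (smul_mem_ideal_smul _ g _ (hy q))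
    have h2 : W = ⨅ q : Q, Wq (L := L) G (q : Ideal S) := by
      rw [hWdef, iInf_subtype]
    rw [h2]
    exact relIndex_iInf_ne_zero h1
  have hloc : ∀ x : L, LFin (⊥ : Ideal S) (gen S W {x}) := by
    intro x
    have := finite_rank_of_mod (S := S) hG W T {x} hT (fun q hq => ?_)
    · rwa [Finset.coe_singleton] at this
    · have hfin : Finite (S ⧸ q) := ns_finite q
      rw [Finset.coe_singleton]
      let V := L ⧸ (q • (⊤ : Submodule S L))
      let π : L →ₗ[S] V := Submodule.mkQ _
      let O : Set V := {v | ∃ g ∈ W, v = π (g • x)}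
      have hO : O.Finite := by
        have hrel := hmin' q hq
        rw [relIndex] at hrel
        have hfq : Finite (W ⧸ (Wq (L := L) G q).subgroupOf W) :=
          index_ne_zero_iff_finite.1 hrel
        let f : (W ⧸ (Wq (L := L) G q).subgroupOf W) → V := fun c =>
          π (((Quotient.out c : W) : G) • x)
        refine (Set.finite_range f).subset ?_
        rintro _ ⟨g, hg, rfl⟩
        refine ⟨QuotientGroup.mk (⟨g, hg⟩ : W), ?_⟩
        have h1 : (⟨g, hg⟩ : W)⁻¹ * (Quotient.out (QuotientGroup.mk (⟨g, hg⟩ : W) :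
            W ⧸ (Wq (L := L) G q).subgroupOf W)) ∈ (Wq (L := L) G q).subgroupOf W := by
          rw [← QuotientGroup.eq]
          exact (Quotient.out_eq _).symm
        rw [mem_subgroupOf, mem_Wq] at h1
        have h2 := smul_mem_ideal_smul q g _ (h1 x)
        have h3 : g • ((((⟨g, hg⟩ : W)⁻¹ * (Quotient.out (QuotientGroup.mk (⟨g, hg⟩ : W) :
            W ⧸ (Wq (L := L) G q).subgroupOf W)) : W) : G) • x - x) =
            ((Quotient.out (QuotientGroup.mk (⟨g, hg⟩ : W) :
            W ⧸ (Wq (L := L) G q).subgroupOf W) : W) : G) • x - g • x := by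
          rw [smul_sub, smul_smul]
          congr 2
          push_cast
          rw [mul_inv_cancel_left]
        rw [h3] at h2
        exact (Submodule.Quotient.eq _).2 h2
      have hVq : ∀ r ∈ q, ∀ v : V, r • v = 0 := by
        intro r hr v
        obtain ⟨z, rfl⟩ := Submodule.mkQ_surjective _ v
        rw [Submodule.mkQ_apply, ← Submodule.Quotient.mk_smul, Submodule.Quotient.mk_eq_zero]
        exact Submodule.smul_mem_smul hr trivial
      refine (finite_span q hVq hO).subset ?_
      rintro _ ⟨z, hz, rfl⟩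
      have h1 : gen S W {x} ≤ (Submodule.span S O).comap π := by
        refine Submodule.span_le.2 ?_
        rintro _ ⟨g, hg, w, hw, rfl⟩
        rw [Set.mem_singleton_iff] at hw
        subst hw
        exact Submodule.subset_span ⟨g, hg, rfl⟩
      exact h1 hz
  by_cases hy0 : y = 0
  · obtain ⟨y', hy'⟩ := exists_ne (0 : L)
    refine ⟨y', hy', W, hWn, hloc, ?_⟩
    have h1 : MulAction.stabilizer G y' ≤ MulAction.stabilizer G y := by
      intro g _
      rw [hy0]
      exact smul_zero g
    exact fun h => hWstab (relIndex_eq_zero_of_le_right h1 h)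
  · exact ⟨y, hy0, W, hWn, hloc, hWstab⟩

end main

end LINaux

open LINaux in
theorem lin {G R M : Type u} [Group G] [CommRing R] [Algebra.FiniteType ℤ R] [AddCommGroup M]
    [Module R M] [DistribMulAction G M] [SMulCommClass G R M] (hG : PC G) {n : ℕ∞}
    (hn : hl G ≤ n) (ih : ThmA.{u} n) (A : Subgroup G) (hA : Infinite A) (α : G → R)
    (hα : ∀ a ∈ A, ∀ x : M, a • x = α a • x) (p : Ideal R) [p.IsPrime] (N : Submodule R M)
    (T : Finset M) (hN : N = gen R (⊤ : Subgroup G) (T : Set M)) (hT : Tf p N) (hN0 : N ≠ ⊥) :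
    ∃ y ∈ N, y ≠ 0 ∧ ∃ Y : Subgroup G, Y.Normal ∧ (∀ x ∈ N, LFin p (gen R Y {x})) ∧
      Y.relIndex (MulAction.stabilizer G y) ≠ 0 := by
  classical
  have hinv : ∀ (g : G), ∀ x ∈ N, g • x ∈ N := by
    have h1 : Inv R (⊤ : Subgroup G) N := by
      rw [hN]; exact inv_gen (fun g _ r x => smul_comm g r x) _
    exact fun g => h1 g trivial
  let _ : DistribMulAction G N :=
    { smul := fun g x => ⟨g • (x : M), hinv g x x.2⟩
      one_smul := fun x => Subtype.ext (one_smul G (x : M))
      mul_smul := fun g h x => Subtype.ext (mul_smul g h (x : M))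
      smul_zero := fun g => Subtype.ext (smul_zero g)
      smul_add := fun g x y => Subtype.ext (smul_add g (x : M) y) }
  have hcoe : ∀ (g : G) (x : N), ((g • x : N) : M) = g • (x : M) := fun g x => rfl
  have htor : Module.IsTorsionBySet R N (p : Set R) := by
    intro x r
    exact Subtype.ext (hT.1 r r.2 x x.2)
  let _ : Module (R ⧸ p) N := htor.module
  have hmk : ∀ (r : R) (x : N), (Ideal.Quotient.mk p r) • x = r • x := fun r x =>
    htor.mk_smul r x
  have hcomm : SMulCommClass G (R ⧸ p) N := by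
    refine ⟨fun g c x => ?_⟩
    obtain ⟨r, rfl⟩ := Ideal.Quotient.mk_surjective c
    rw [hmk, hmk]
    exact Subtype.ext (smul_comm g r (x : M))
  have hft : Algebra.FiniteType ℤ (R ⧸ p) :=
    Algebra.FiniteType.of_surjective (Ideal.Quotient.mkₐ ℤ p) (Ideal.Quotient.mkₐ_surjective ℤ p)
  have hft' : @Algebra.FiniteType ℤ (R ⧸ p) _ _ (Ring.toIntAlgebra (R ⧸ p)) := by
    have e : Ring.toIntAlgebra (R ⧸ p) = Ideal.Quotient.algebra ℤ := Subsingleton.elim _ _
    rw [e]
    exact hft
  have hnt : Nontrivial N := (Submodule.nontrivial_iff_ne_bot).2 hN0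
  have hTN : ∀ x ∈ T, x ∈ N := fun x hx => by
    rw [hN]; exact subset_gen _ _ hx
  let T₁ : Finset N := T.attach.image fun x => (⟨x.1, hTN x.1 x.2⟩ : N)
  have hlift : ∀ (Y : Subgroup G) (U : Set M) (hU : ∀ x ∈ U, x ∈ N) (U₁ : Set N),
      (∀ x (hx : x ∈ U), (⟨x, hU x hx⟩ : N) ∈ U₁) → ∀ z ∈ gen R Y U, ∃ h : z ∈ N,
        (⟨z, h⟩ : N) ∈ gen (R ⧸ p) Y U₁ := by
    intro Y U hU U₁ hUU z hz
    induction hz using Submodule.span_induction with
    | mem y hy =>
      obtain ⟨g, hg, x, hx, rfl⟩ := hy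
      exact ⟨hinv g x (hU x hx), Submodule.subset_span ⟨g, hg, ⟨x, hU x hx⟩, hUU x hx, rfl⟩⟩
    | zero => exact ⟨N.zero_mem, Submodule.zero_mem _⟩
    | add a b _ _ ha hb =>
      obtain ⟨h1, h2⟩ := ha
      obtain ⟨h3, h4⟩ := hb
      exact ⟨N.add_mem h1 h3, Submodule.add_mem _ h2 h4⟩
    | smul r a _ ha =>
      obtain ⟨h1, h2⟩ := ha
      refine ⟨N.smul_mem r h1, ?_⟩
      have := Submodule.smul_mem _ (Ideal.Quotient.mk p r) h2
      rwa [hmk] at this
  have hT₁ : gen (R ⧸ p) (⊤ : Subgroup G) (T₁ : Set N) = ⊤ := by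
    refine (Submodule.eq_top_iff').2 fun z => ?_
    obtain ⟨_, h⟩ := hlift ⊤ T hTN T₁ (fun x hx => by
      rw [Finset.mem_coe, Finset.mem_image]
      exact ⟨⟨x, hx⟩, Finset.mem_attach _ _, rfl⟩) z (hN.le z.2)
    exact h
  obtain ⟨y, hy0, Y, hY, hloc, hst⟩ := lin' (S := R ⧸ p) (L := N) hG hn ih A hA
    (fun g => Ideal.Quotient.mk p (α g)) (fun a ha x => by
      rw [hmk]; exact Subtype.ext (hα a ha x)) T₁ hT₁
  refine ⟨y, y.2, fun h => hy0 (Subtype.ext h), Y, hY, ?_, ?_⟩
  · intro x hx
    obtain ⟨F, hF⟩ := hloc ⟨x, hx⟩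
    refine ⟨F.image Subtype.val, fun z hz => ?_⟩
    obtain ⟨hzN, hz'⟩ := hlift Y {x} (fun w hw => by rwa [Set.mem_singleton_iff.1 hw])
      {⟨x, hx⟩} (fun w hw => by
        rw [Set.mem_singleton_iff]; exact Subtype.ext (Set.mem_singleton_iff.1 hw)) z hz
    obtain ⟨c, hc, hcz⟩ := hF _ hz'
    obtain ⟨s, rfl⟩ := Ideal.Quotient.mk_surjective c
    refine ⟨s, fun h => hc ?_, ?_⟩
    · rw [Ideal.mem_bot]
      exact Ideal.Quotient.eq_zero_iff_mem.2 h
    · rw [hmk] at hcz
      have hdown : ∀ w ∈ Submodule.span (R ⧸ p) (F : Set N),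
          (w : M) ∈ Submodule.span R ((F.image Subtype.val : Finset M) : Set M) := by
        intro w hw
        induction hw using Submodule.span_induction with
        | mem a ha =>
          refine Submodule.subset_span ?_
          rw [Finset.mem_coe, Finset.mem_image]
          exact ⟨a, ha, rfl⟩
        | zero => exact Submodule.zero_mem _
        | add a b _ _ ha hb => exact Submodule.add_mem _ ha hb
        | smul c a _ ha =>
          obtain ⟨r, rfl⟩ := Ideal.Quotient.mk_surjective c
          rw [hmk]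
          exact Submodule.smul_mem _ r ha
      exact hdown _ hcz
  · have : MulAction.stabilizer G (y : M) = MulAction.stabilizer G y := by
      ext g
      rw [MulAction.mem_stabilizer_iff, MulAction.mem_stabilizer_iff, Subtype.ext_iff, hcoe]
    rw [this]
    exact hst

end Pool.Agent.D5
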