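import Pool.Agent.Lib.MP_d5e6ed_al.B.LPR

/-!
# Integrality of `A` over `k[E]` (module RINT of MP_d5e6ed_al)

(helper52)  `R = k[E]` is a Laurent polynomial ring, so a unique factorisation domain; the elements
`d` of `R` some power of which makes each element of `A` integral have a least element for
divisibility, which is invariant up to units; comparing supports it is a unit.
-/

set_option autoImplicit false

namespace Pool.Agent.D5

universe u

open Polynomial

theorem RIaux.coprime_elt {R F : Type*} [CommRing R] [IsDomain R] [UniqueFactorizationMonoid R]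
    [Field F] [Algebra R F] [IsFractionRing R F] {e e' : R} (hrel : IsRelPrime e e') (c : F)
    (h1 : ∃ y : R, algebraMap R F e * c = algebraMap R F y)
    (h2 : ∃ y : R, algebraMap R F e' * c = algebraMap R F y) : ∃ y : R, c = algebraMap R F y := by
  obtain ⟨y1, hy1⟩ := h1
  obtain ⟨y2, hy2⟩ := h2
  have hinj := IsFractionRing.injective R F
  have hc : algebraMap R F (IsFractionRing.num R c) /
      algebraMap R F (IsFractionRing.den R c : R) = c := IsFractionRing.mk'_num_den' R c
  -- c = num / den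
  have hden : algebraMap R F (IsFractionRing.den R c : R) ≠ 0 := by
    intro h
    exact (nonZeroDivisors.coe_ne_zero _) (hinj (by rw [h, map_zero]))
  have key : ∀ e y : R, algebraMap R F e * c = algebraMap R F y →
      (IsFractionRing.den R c : R) ∣ e := by
    intro e y hy
    have hrp := IsFractionRing.num_den_reduced R c
    have h3 : e * IsFractionRing.num R c = y * (IsFractionRing.den R c : R) := by
      apply hinj
      rw [map_mul, map_mul, ← hy]
      nth_rw 2 [← hc]
      field_simp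
    exact IsRelPrime.dvd_of_dvd_mul_right hrp.symm ⟨y, by rw [h3, mul_comm]⟩
  have hu : IsUnit (IsFractionRing.den R c : R) := hrel (key e y1 hy1) (key e' y2 hy2)
  obtain ⟨w, hw⟩ := hu.exists_right_inv
  refine ⟨IsFractionRing.num R c * w, ?_⟩
  rw [map_mul]
  nth_rw 1 [← hc]
  rw [div_eq_iff hden, mul_assoc, ← map_mul, mul_comm w, hw, map_one, mul_one]

theorem RIaux.coprime_int {R F K : Type*} [CommRing R] [IsDomain R] [UniqueFactorizationMonoid R]
    [Field F] [Field K] [Algebra R F] [IsFractionRing R F] [Algebra F K] [Algebra R K]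
    [IsScalarTower R F K] {x : K} {e e' : R} (he : e ≠ 0) (he' : e' ≠ 0)
    (hrel : IsRelPrime e e') (h1 : IsIntegral R (e • x)) (h2 : IsIntegral R (e' • x)) :
    IsIntegral R x := by
  have hinj := IsFractionRing.injective R F
  have heF : algebraMap R F e ≠ 0 := fun h => he (hinj (by rw [h, map_zero]))
  have he'F : algebraMap R F e' ≠ 0 := fun h => he' (hinj (by rw [h, map_zero]))
  have hx : IsIntegral F x := by
    have := (IsIntegral.tower_top (A := F) h1).smul (algebraMap R F e)⁻¹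
    rwa [← IsScalarTower.algebraMap_smul F e x, smul_smul, inv_mul_cancel₀ heF, one_smul] at this
  have key : ∀ e : R, e ≠ 0 → IsIntegral R (e • x) → ∀ i, ∃ y : R,
      algebraMap R F (e ^ ((minpoly F x).natDegree - i)) * (minpoly F x).coeff i =
        algebraMap R F y := by
    intro e he h1 i
    have heF : algebraMap R F e ≠ 0 := fun h => he (hinj (by rw [h, map_zero]))
    have e1 := IsIntegrallyClosed.minpoly_smul heF hx
    rw [IsScalarTower.algebraMap_smul F e x] at e1
    have e2 := minpoly.isIntegrallyClosed_eq_field_fractions' F h1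
    rw [e2] at e1
    have e3 := congrArg (fun q => q.coeff i) e1
    simp only [coeff_map, coeff_scaleRoots] at e3
    refine ⟨(minpoly R (e • x)).coeff i, ?_⟩
    rw [e3, map_pow, mul_comm]
  have hcoef : ∀ i, ∃ y : R, (minpoly F x).coeff i = algebraMap R F y := fun i =>
    RIaux.coprime_elt (hrel.pow (m := (minpoly F x).natDegree - i)
      (n := (minpoly F x).natDegree - i)) _ (key e he h1 i) (key e' he' h2 i)
  have hl : minpoly F x ∈ lifts (algebraMap R F) := by
    rw [lifts_iff_coeff_lifts]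
    intro i
    obtain ⟨y, hy⟩ := hcoef i
    exact ⟨y, hy.symm⟩
  obtain ⟨q, hq, _, hm⟩ := lifts_and_natDegree_eq_and_monic hl (minpoly.monic hx)
  refine ⟨q, hm, ?_⟩
  have := minpoly.aeval F x
  rw [← hq, aeval_map_algebraMap] at this
  exact this

/-- some power of `d` makes `x` integral -/
def RIaux.Q {K : Type*} [Field K] (R : Subring K) (d x : K) : Prop :=
  ∃ n : ℕ, IsIntegral R (d ^ n * x)

theorem RIaux.Q_pow {K : Type*} [Field K] {R : Subring K} {d x : K} {n m : ℕ} (hd : d ∈ R)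
    (h : n ≤ m) (hx : IsIntegral R (d ^ n * x)) : IsIntegral R (d ^ m * x) := by
  obtain ⟨k, rfl⟩ := Nat.exists_eq_add_of_le h
  have h1 : IsIntegral R (d ^ k) :=
    (isIntegral_algebraMap (R := R) (A := K) (x := ⟨d, hd⟩)).pow k
  have h2 := h1.mul hx
  have e : d ^ k * (d ^ n * x) = d ^ (n + k) * x := by ring
  rwa [e] at h2

theorem RIaux.Q_mul {K : Type*} [Field K] {R : Subring K} {d x y : K} (hx : RIaux.Q R d x)
    (hy : RIaux.Q R d y) : RIaux.Q R d (x * y) := by
  obtain ⟨n, hn⟩ := hx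
  obtain ⟨m, hm⟩ := hy
  refine ⟨n + m, ?_⟩
  have h2 := hn.mul hm
  have e : d ^ n * x * (d ^ m * y) = d ^ (n + m) * (x * y) := by ring
  rwa [e] at h2

theorem RIaux.Q_dvd {K : Type*} [Field K] {R : Subring K} {d e x : K} (he : e ∈ R)
    (hx : RIaux.Q R d x) : RIaux.Q R (d * e) x := by
  obtain ⟨n, hn⟩ := hx
  refine ⟨n, ?_⟩
  have h1 : IsIntegral R (e ^ n) :=
    (isIntegral_algebraMap (R := R) (A := K) (x := ⟨e, he⟩)).pow n
  have h2 := h1.mul hn
  have e : e ^ n * (d ^ n * x) = (d * e) ^ n * x := by ring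
  rwa [e] at h2

theorem RIaux.exists_d {K : Type*} [Field K] (R : Subring K) (A : Subgroup Kˣ) (hA : A.FG)
    (halg : ∀ a ∈ A, IsAlgebraic R (a : K)) :
    ∃ d : R, d ≠ 0 ∧ ∀ a ∈ A, RIaux.Q R (d : K) (a : K) := by
  classical
  obtain ⟨S, hS⟩ := hA
  have hy : ∀ a : Kˣ, ∃ y : R, y ≠ 0 ∧ (a ∈ A → RIaux.Q R (y : K) (a : K)) := by
    intro a
    by_cases ha : a ∈ A
    · obtain ⟨y, hy0, hy⟩ := (halg a ha).exists_integral_multiple
      refine ⟨y, hy0, fun _ => ⟨1, ?_⟩⟩
      rw [pow_one]
      exact hy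
    · exact ⟨1, one_ne_zero, fun h => absurd h ha⟩
  choose y hy0 hy using hy
  let d : R := ∏ s ∈ S, (y s * y s⁻¹)
  refine ⟨d, Finset.prod_ne_zero_iff.2 fun s _ => mul_ne_zero (hy0 _) (hy0 _), ?_⟩
  have hmem : ∀ s ∈ S, RIaux.Q R (d : K) (s : K) ∧ RIaux.Q R (d : K) ((s⁻¹ : Kˣ) : K) := by
    intro s hs
    have hsA : s ∈ A := hS ▸ Subgroup.subset_closure hs
    obtain ⟨w, hw⟩ : (y s * y s⁻¹) ∣ d := Finset.dvd_prod_of_mem (fun s => y s * y s⁻¹) hs
    have h1 : (d : K) = (y s : K) * ((y s⁻¹ * w : R) : K) := by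
      rw [hw]; push_cast; ring
    have h2 : (d : K) = (y s⁻¹ : K) * ((y s * w : R) : K) := by
      rw [hw]; push_cast; ring
    constructor
    · rw [h1]; exact RIaux.Q_dvd (Subtype.mem _) (hy s hsA)
    · rw [h2]; exact RIaux.Q_dvd (Subtype.mem _) (hy s⁻¹ (A.inv_mem hsA))
  have hall : ∀ a ∈ Subgroup.closure (S : Set Kˣ),
      RIaux.Q R (d : K) (a : K) ∧ RIaux.Q R (d : K) ((a⁻¹ : Kˣ) : K) := by
    intro a ha
    induction ha using Subgroup.closure_induction with
    | mem x hx => exact hmem x hx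
    | one =>
      have : RIaux.Q R (d : K) 1 := ⟨0, by rw [pow_zero, one_mul]; exact isIntegral_one⟩
      refine ⟨?_, ?_⟩
      · rw [Units.val_one]; exact this
      · rw [inv_one, Units.val_one]; exact this
    | mul x y _ _ hx hy =>
      refine ⟨?_, ?_⟩
      · rw [Units.val_mul]; exact RIaux.Q_mul hx.1 hy.1
      · rw [mul_inv, Units.val_mul]; exact RIaux.Q_mul hx.2 hy.2
    | inv x _ hx => exact ⟨hx.2, by rw [inv_inv]; exact hx.1⟩
  intro a ha
  rw [← hS] at ha
  exact (hall a ha).1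

theorem RIaux.main {D K : Type*} [Group D] [Field K] [MulSemiringAction D K] (R : Subring K)
    [UniqueFactorizationMonoid R] (hR : ∀ g : D, ∀ x ∈ R, g • x ∈ R) (A : Subgroup Kˣ)
    (hA : A.FG) (hinv : ∀ g : D, ∀ a ∈ A, ∃ b ∈ A, (b : K) = g • (a : K))
    (halg : ∀ a ∈ A, IsAlgebraic R (a : K))
    (hd : ∀ d : R, d ≠ 0 → (∀ g : D, ∃ u : R, IsUnit u ∧ g • (d : K) = u * d) → IsUnit d) :
    ∀ a ∈ A, IsIntegral R (a : K) := by
  classical
  let I : Set R := {d | d ≠ 0 ∧ ∀ a ∈ A, RIaux.Q R (d : K) (a : K)}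
  have hI : I.Nonempty := by
    obtain ⟨d, h0, h⟩ := RIaux.exists_d R A hA halg
    exact ⟨d, h0, h⟩
  obtain ⟨d, hdI, hmin⟩ := (wellFounded_dvdNotUnit (α := R)).has_min I hI
  -- gcd
  have hdvd : ∀ d' ∈ I, d ∣ d' := by
    intro d' hd'
    obtain ⟨a', b', c', hrel, ha', hb'⟩ :=
      UniqueFactorizationMonoid.exists_reduced_factors d hdI.1 d'
    have hc0 : c' ≠ 0 := by
      rintro rfl
      exact hdI.1 (by rw [← ha', zero_mul])
    have ha0 : a' ≠ 0 := by
      rintro rfl
      exact hdI.1 (by rw [← ha', mul_zero])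
    have hb0 : b' ≠ 0 := by
      rintro rfl
      exact hd'.1 (by rw [← hb', mul_zero])
    have hcI : c' ∈ I := by
      refine ⟨hc0, fun a ha => ?_⟩
      obtain ⟨n, hn⟩ := hdI.2 a ha
      obtain ⟨m, hm⟩ := hd'.2 a ha
      have hn' := RIaux.Q_pow d.2 (le_max_left n m) hn
      have hm' := RIaux.Q_pow d'.2 (le_max_right n m) hm
      set N := max n m
      refine ⟨N, ?_⟩
      let : Algebra (FractionRing R) K := FractionRing.liftAlgebra R K
      refine RIaux.coprime_int (F := FractionRing R) (e := a' ^ N) (e' := b' ^ N)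
        (pow_ne_zero _ ha0) (pow_ne_zero _ hb0) hrel.pow ?_ ?_
      · have e1 : (a' ^ N) • ((c' : K) ^ N * (a : K)) = (d : K) ^ N * a := by
          rw [← ha', Subring.smul_def, smul_eq_mul]; push_cast; ring
        rw [e1]; exact hn'
      · have e1 : (b' ^ N) • ((c' : K) ^ N * (a : K)) = (d' : K) ^ N * a := by
          rw [← hb', Subring.smul_def, smul_eq_mul]; push_cast; ring
        rw [e1]; exact hm'
    have hnot := hmin c' hcI
    have hu : IsUnit a' := by
      by_contra hu
      exact hnot ⟨hc0, a', hu, ha'.symm⟩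
    obtain ⟨w, hw⟩ := hu.exists_right_inv
    refine ⟨w * b', ?_⟩
    rw [← ha', ← hb', mul_assoc, ← mul_assoc a', hw, one_mul]
  -- invariance
  have hφ : ∀ (g : D) (x : K), IsIntegral R x → IsIntegral R (g • x) := by
    intro g x hx
    let φ : R →+* R := ((MulSemiringAction.toRingHom D K g).comp R.subtype).codRestrict R
      (fun x => hR g x x.2)
    exact hx.map_of_comp_eq φ (MulSemiringAction.toRingHom D K g) (by ext x; rfl)
  have hgI : ∀ g : D, (⟨g • (d : K), hR g d d.2⟩ : R) ∈ I := by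
    intro g
    refine ⟨fun h => ?_, fun a ha => ?_⟩
    · have : g • (d : K) = 0 := congrArg Subtype.val h
      exact hdI.1 (Subtype.ext ((smul_eq_zero_iff_eq g).1 this))
    · obtain ⟨b, hb, hba⟩ := hinv g⁻¹ a ha
      obtain ⟨n, hn⟩ := hdI.2 b hb
      refine ⟨n, ?_⟩
      have := hφ g _ hn
      rw [smul_mul', smul_pow', hba, smul_inv_smul] at this
      exact this
  have hunit : IsUnit d := by
    refine hd d hdI.1 fun g => ?_
    obtain ⟨u, hu⟩ := hdvd _ (hgI g)
    obtain ⟨v, hv⟩ := hdvd _ (hgI g⁻¹)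
    have hu' : g • (d : K) = d * u := congrArg Subtype.val hu
    have hv' : g⁻¹ • (d : K) = d * v := congrArg Subtype.val hv
    refine ⟨u, ?_, by rw [hu', mul_comm]⟩
    -- `d = g (g⁻¹ d) = g (d v) = d u g(v)`
    have h1 : (d : K) = d * u * (g • (v : K)) := by
      have : g • (g⁻¹ • (d : K)) = g • ((d : K) * v) := by rw [hv']
      rw [smul_inv_smul, smul_mul', hu'] at this
      exact this
    have hdK : (d : K) ≠ 0 := fun h => hdI.1 (Subtype.ext h)
    have h2 : (u : K) * (g • (v : K)) = 1 := by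
      have : (d : K) * (u * (g • (v : K))) = d * 1 := by rw [mul_one, ← mul_assoc]; exact h1.symm
      exact mul_left_cancel₀ hdK this
    exact IsUnit.of_mul_eq_one (⟨g • (v : K), hR g v v.2⟩ : R) (Subtype.ext h2)
  intro a ha
  obtain ⟨n, hn⟩ := hdI.2 a ha
  obtain ⟨w, hw⟩ := hunit.exists_right_inv
  have h1 : IsIntegral R (((w ^ n : R) : K)) := isIntegral_algebraMap (R := R) (A := K) (x := w ^ n)
  have h2 := h1.mul hn
  have e : ((w ^ n : R) : K) * ((d : K) ^ n * a) = a := by
    have hw' : (d : K) * w = 1 := congrArg Subtype.val hw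
    calc ((w ^ n : R) : K) * ((d : K) ^ n * a) = ((d : K) * w) ^ n * a := by push_cast; ring
      _ = a := by rw [hw', one_pow, one_mul]
  rwa [e] at h2

section mon

variable {K : Type*} [Field K] {t : ℕ}

/-- the Laurent monomial -/
def RIaux.mon (b : Fin t → Kˣ) (e : Fin t → ℤ) : Kˣ := ∏ i, b i ^ e i

theorem RIaux.mon_zero (b : Fin t → Kˣ) : RIaux.mon b 0 = 1 := by
  simp [RIaux.mon]

theorem RIaux.mon_add (b : Fin t → Kˣ) (e f : Fin t → ℤ) :
    RIaux.mon b (e + f) = RIaux.mon b e * RIaux.mon b f := by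
  simp [RIaux.mon, zpow_add, Finset.prod_mul_distrib]

theorem RIaux.mon_sub (b : Fin t → Kˣ) (e f : Fin t → ℤ) :
    RIaux.mon b (e - f) = RIaux.mon b e * (RIaux.mon b f)⁻¹ := by
  rw [eq_mul_inv_iff_mul_eq, ← RIaux.mon_add, sub_add_cancel]

/-- the monoid homomorphism -/
def RIaux.monHom (b : Fin t → Kˣ) : Multiplicative (Fin t → ℤ) →* K where
  toFun e := (RIaux.mon b e.toAdd : K)
  map_one' := by rw [toAdd_one, RIaux.mon_zero, Units.val_one]
  map_mul' e f := by rw [toAdd_mul, RIaux.mon_add, Units.val_mul]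

/-- Laurent polynomials to `K` -/
noncomputable def RIaux.Φ (k : Subfield K) (b : Fin t → Kˣ) :
    AddMonoidAlgebra k (Fin t → ℤ) →ₐ[k] K :=
  AddMonoidAlgebra.lift k K (Fin t → ℤ) (RIaux.monHom b)

theorem RIaux.Φ_single (k : Subfield K) (b : Fin t → Kˣ) (e : Fin t → ℤ) (c : k) :
    RIaux.Φ k b (AddMonoidAlgebra.single e c) = (c : K) * (RIaux.mon b e : K) := by
  rw [RIaux.Φ, AddMonoidAlgebra.lift_single, Subfield.smul_def, smul_eq_mul]
  rfl

theorem RIaux.Φ_apply (k : Subfield K) (b : Fin t → Kˣ) (f : AddMonoidAlgebra k (Fin t → ℤ)) :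
    RIaux.Φ k b f = ∑ e ∈ f.coeff.support, (f.coeff e : K) * (RIaux.mon b e : K) := by
  rw [RIaux.Φ, AddMonoidAlgebra.lift_apply, Finsupp.sum]
  refine Finset.sum_congr rfl fun e _ => ?_
  rw [Subfield.smul_def, smul_eq_mul]
  rfl

/-- Laurent monomials of algebraically independent elements are linearly independent -/
theorem RIaux.mon_indep (k : Subfield K) (b : Fin t → Kˣ)
    (halg : AlgebraicIndependent k (fun i => ((b i : Kˣ) : K)))
    (S : Finset (Fin t → ℤ)) (g : (Fin t → ℤ) → k)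
    (h : ∑ e ∈ S, (g e : K) * (RIaux.mon b e : K) = 0) : ∀ e ∈ S, g e = 0 := by
  classical
  -- shift
  obtain ⟨N, hN⟩ : ∃ N : ℕ, ∀ e ∈ S, ∀ i, 0 ≤ e i + (N : ℤ) := by
    refine ⟨∑ e ∈ S, ∑ i, (e i).natAbs, fun e he i => ?_⟩
    have h1 : (e i).natAbs ≤ ∑ i, (e i).natAbs :=
      Finset.single_le_sum (f := fun i => (e i).natAbs) (fun _ _ => Nat.zero_le _)
        (Finset.mem_univ i)
    have h2 : ∑ i, (e i).natAbs ≤ ∑ e ∈ S, ∑ i, (e i).natAbs :=
      Finset.single_le_sum (f := fun e : Fin t → ℤ => ∑ i, (e i).natAbs)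
        (fun _ _ => Nat.zero_le _) he
    have h3 : -((e i).natAbs : ℤ) ≤ e i := by omega
    have h4 : ((e i).natAbs : ℤ) ≤ ((∑ e ∈ S, ∑ i, (e i).natAbs : ℕ) : ℤ) := by
      exact_mod_cast h1.trans h2
    linarith
  let sh : (Fin t → ℤ) → (Fin t →₀ ℕ) := fun e =>
    Finsupp.equivFunOnFinite.symm fun i => (e i + (N : ℤ)).toNat
  have hsh : ∀ e ∈ S, ∀ i, ((sh e i : ℕ) : ℤ) = e i + N := by
    intro e he i
    show (((e i + (N : ℤ)).toNat : ℕ) : ℤ) = e i + N
    exact Int.toNat_of_nonneg (hN e he i)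
  let p : MvPolynomial (Fin t) k := ∑ e ∈ S, MvPolynomial.monomial (sh e) (g e)
  have hmon : ∀ e ∈ S, MvPolynomial.aeval (fun i => ((b i : Kˣ) : K))
      (MvPolynomial.monomial (sh e) (g e)) =
      (RIaux.mon b (fun _ => (N : ℤ)) : K) * ((g e : K) * (RIaux.mon b e : K)) := by
    intro e he
    rw [MvPolynomial.aeval_monomial]
    have e1 : (sh e).prod (fun i n => ((b i : Kˣ) : K) ^ n) =
        ((RIaux.mon b (e + fun _ => (N : ℤ)) : Kˣ) : K) := by
      rw [Finsupp.prod_fintype _ _ (fun i => pow_zero _), RIaux.mon, Units.coe_prod]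
      refine Finset.prod_congr rfl fun i _ => ?_
      rw [Pi.add_apply, ← hsh e he i, zpow_natCast, Units.val_pow_eq_pow_val]
    rw [e1, RIaux.mon_add, Units.val_mul]
    show (g e : K) * _ = _
    ring
  have hp : MvPolynomial.aeval (fun i => ((b i : Kˣ) : K)) p = 0 := by
    show MvPolynomial.aeval _ (∑ e ∈ S, MvPolynomial.monomial (sh e) (g e)) = 0
    rw [map_sum, Finset.sum_congr rfl hmon, ← Finset.mul_sum, h, mul_zero]
  have hp0 : p = 0 := halg (by rw [hp, map_zero])
  intro e he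
  have hinj : ∀ e' ∈ S, sh e' = sh e → e' = e := by
    intro e' he' h'
    funext i
    have h1 := hsh e he i
    have h2 := hsh e' he' i
    rw [h'] at h2
    linarith
  have := congrArg (MvPolynomial.coeff (sh e)) hp0
  rw [MvPolynomial.coeff_zero] at this
  rw [show MvPolynomial.coeff (sh e) p = g e from ?_] at this
  · exact this
  · show MvPolynomial.coeff (sh e) (∑ e ∈ S, MvPolynomial.monomial (sh e) (g e)) = g e
    rw [MvPolynomial.coeff_sum, Finset.sum_eq_single e]
    · rw [MvPolynomial.coeff_monomial, if_pos rfl]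
    · intro e' he' hne
      rw [MvPolynomial.coeff_monomial, if_neg fun h => hne (hinj e' he' h)]
    · exact fun h => absurd he h

theorem RIaux.Φ_inj (k : Subfield K) (b : Fin t → Kˣ)
    (halg : AlgebraicIndependent k (fun i => ((b i : Kˣ) : K))) :
    Function.Injective (RIaux.Φ k b) := by
  rw [injective_iff_map_eq_zero]
  intro f hf
  rw [RIaux.Φ_apply] at hf
  have := RIaux.mon_indep k b halg _ (fun e => f.coeff e) hf
  have h0 : f.coeff = 0 := by
    ext e
    by_contra hne
    have hne' : f.coeff e ≠ 0 := fun h => hne (by rw [h]; rfl)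
    exact hne' (this e (Finsupp.mem_support_iff.2 hne'))
  exact AddMonoidAlgebra.coeff_inj.1 h0

theorem RIaux.mon_mem (k : Subfield K) (b : Fin t → Kˣ)
    (halg : AlgebraicIndependent k (fun i => ((b i : Kˣ) : K))) {e : Fin t → ℤ}
    (h : (RIaux.mon b e : K) ∈ k) : e = 0 := by
  have h1 : RIaux.Φ k b (AddMonoidAlgebra.single e 1) =
      RIaux.Φ k b (AddMonoidAlgebra.single 0 ⟨_, h⟩) := by
    rw [RIaux.Φ_single, RIaux.Φ_single, RIaux.mon_zero]
    simp
  have h2 := RIaux.Φ_inj k b halg h1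
  have h3 := congrArg (fun f => f.coeff e) h2
  by_contra hne
  simp only [AddMonoidAlgebra.coeff_single, Finsupp.single_apply, if_neg (Ne.symm hne)] at h3
  simp at h3

end mon


/-- a nonzero element which is invariant up to units is a unit -/
theorem RIaux.unit_of_inv {D K : Type*} [Group D] [Field K] [MulSemiringAction D K]
    (k : Subfield K) (hk : ∀ g : D, ∀ x ∈ k, g • x = x) {t : ℕ} (b : Fin t → Kˣ)
    (halg : AlgebraicIndependent k (fun i => ((b i : Kˣ) : K)))
    (hmon : ∀ (g : D) (e : Fin t → ℤ), ∃ e' : Fin t → ℤ, ∃ c : k,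
      g • (RIaux.mon b e : K) = (c : K) * (RIaux.mon b e' : K))
    (horb : ∀ e : Fin t → ℤ, (MulAction.orbit D (RIaux.mon b e : K)).Finite →
      (RIaux.mon b e : K) ∈ k)
    (f : AddMonoidAlgebra k (Fin t → ℤ)) (hf : f ≠ 0)
    (hinv : ∀ g : D, ∃ u : AddMonoidAlgebra k (Fin t → ℤ), IsUnit u ∧
      g • (RIaux.Φ k b f) = RIaux.Φ k b u * RIaux.Φ k b f) : IsUnit f := by
  classical
  have hinj := RIaux.Φ_inj k b halg
  -- main step
  have key : ∀ g : D, ∃ w : K, w ≠ 0 ∧ ∀ x ∈ f.coeff.support, ∃ x' ∈ f.coeff.support,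
      g • ((f.coeff x : K) * (RIaux.mon b x : K)) =
        w * ((f.coeff x' : K) * (RIaux.mon b x' : K)) := by
    intro g
    choose γ κ hγ using hmon g
    obtain ⟨u, hu, hgu⟩ := hinv g
    obtain ⟨e, μ, hμ, rfl⟩ := lp_unit hu
    have hκ : ∀ x, κ x ≠ 0 := by
      intro x hx
      have h1 := hγ x
      rw [hx] at h1
      have h2 : g • ((RIaux.mon b x : Kˣ) : K) = 0 := by rw [h1]; simp
      exact (RIaux.mon b x).ne_zero ((smul_eq_zero_iff_eq g).1 h2)
    have hγinj : Function.Injective γ := by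
      intro x y hxy
      have hx := hγ x
      have hy := hγ y
      have hκy : (κ y : K) ≠ 0 := fun h => hκ y (Subtype.ext h)
      have h1 : g • ((RIaux.mon b (x - y) : Kˣ) : K) = ((κ x * (κ y)⁻¹ : k) : K) := by
        have h2 : ((RIaux.mon b (x - y) : Kˣ) : K) * (RIaux.mon b y : K) = RIaux.mon b x := by
          rw [← Units.val_mul, ← RIaux.mon_add, sub_add_cancel]
        have h3 := congrArg (fun z => g • z) h2
        simp only [smul_mul'] at h3
        rw [hx, hy, hxy] at h3
        have h4 : (κ y : K) * ((RIaux.mon b (γ y) : Kˣ) : K) ≠ 0 :=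
          mul_ne_zero hκy (Units.ne_zero _)
        refine mul_right_cancel₀ h4 ?_
        rw [h3]
        push_cast
        field_simp
      have h2 : ((RIaux.mon b (x - y) : Kˣ) : K) ∈ k := by
        have h3 := congrArg (fun z => g⁻¹ • z) h1
        simp only [inv_smul_smul] at h3
        rw [hk g⁻¹ _ (Subtype.mem _)] at h3
        rw [h3]
        exact Subtype.mem _
      exact sub_eq_zero.1 (RIaux.mon_mem k b halg h2)
    refine ⟨(μ : K) * (RIaux.mon b e : K), mul_ne_zero (fun h => hμ (Subtype.ext h))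
      (Units.ne_zero _), ?_⟩
    -- compare coefficients
    let f₁ : AddMonoidAlgebra k (Fin t → ℤ) :=
      ∑ x ∈ f.coeff.support, AddMonoidAlgebra.single (γ x) (κ x * f.coeff x)
    have h1 : RIaux.Φ k b f₁ = RIaux.Φ k b (AddMonoidAlgebra.single e μ * f) := by
      rw [map_mul, ← hgu, RIaux.Φ_apply k b f, Finset.smul_sum, map_sum]
      refine Finset.sum_congr rfl fun x _ => ?_
      rw [RIaux.Φ_single, smul_mul', hk g _ (Subtype.mem _), hγ x]
      push_cast
      ring
    have h2 := hinj h1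
    intro x hx
    have h3 := congrArg (fun q => q.coeff (γ x)) h2
    have h4 : f₁.coeff (γ x) = κ x * f.coeff x := by
      show (∑ x ∈ f.coeff.support, AddMonoidAlgebra.single (γ x) (κ x * f.coeff x)).coeff
        (γ x) = _
      rw [AddMonoidAlgebra.coeff_sum, Finsupp.finsetSum_apply, Finset.sum_eq_single x]
      · rw [AddMonoidAlgebra.coeff_single, Finsupp.single_eq_same]
      · intro y _ hyx
        rw [AddMonoidAlgebra.coeff_single, Finsupp.single_apply,
          if_neg fun h => hyx (hγinj h)]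
      · exact fun h => absurd hx h
    have h5 : (AddMonoidAlgebra.single e μ * f).coeff (γ x) = μ * f.coeff (-e + γ x) :=
      AddMonoidAlgebra.coeff_single_mul_apply ..
    simp only [h4, h5] at h3
    have hx0 : f.coeff x ≠ 0 := Finsupp.mem_support_iff.1 hx
    have hx' : f.coeff (-e + γ x) ≠ 0 := by
      intro h
      rw [h, mul_zero] at h3
      exact mul_ne_zero (hκ x) hx0 h3
    refine ⟨-e + γ x, Finsupp.mem_support_iff.2 hx', ?_⟩
    rw [smul_mul', hk g _ (Subtype.mem _), hγ x]
    have h6 : ((RIaux.mon b (γ x) : Kˣ) : K) = RIaux.mon b e * RIaux.mon b (-e + γ x) := by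
      rw [← Units.val_mul, ← RIaux.mon_add]
      congr 2
      abel
    have h7 : (κ x : K) * (f.coeff x : K) = μ * (f.coeff (-e + γ x) : K) := by
      exact_mod_cast congrArg (Subtype.val) h3
    rw [h6]
    calc _ = ((κ x : K) * (f.coeff x : K)) * (RIaux.mon b e * RIaux.mon b (-e + γ x)) := by ring
      _ = _ := by rw [h7]; ring
  -- support has one element
  obtain ⟨x, hx⟩ : f.coeff.support.Nonempty := by
    rw [Finsupp.support_nonempty_iff]
    intro h
    exact hf (AddMonoidAlgebra.coeff_inj.1 (by rw [h]; rfl))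
  have hsub : ∀ y ∈ f.coeff.support, y = x := by
    intro y hy
    have hfin : (MulAction.orbit D (RIaux.mon b (y - x) : K)).Finite := by
      let T : Finset K := (f.coeff.support ×ˢ f.coeff.support).image fun q =>
        ((f.coeff x : K) / (f.coeff y : K)) *
          (((f.coeff q.1 : K) * (RIaux.mon b q.1 : K)) /
            ((f.coeff q.2 : K) * (RIaux.mon b q.2 : K)))
      refine (Finset.finite_toSet T).subset ?_
      rintro _ ⟨g, rfl⟩
      obtain ⟨w, hw, hg⟩ := key g
      obtain ⟨y', hy', hgy⟩ := hg y hy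
      obtain ⟨x', hx', hgx⟩ := hg x hx
      rw [Finset.mem_coe, Finset.mem_image]
      refine ⟨(y', x'), Finset.mem_product.2 ⟨hy', hx'⟩, ?_⟩
      have nz : ∀ z ∈ f.coeff.support, (f.coeff z : K) ≠ 0 := fun z hz h =>
        (Finsupp.mem_support_iff.1 hz) (Subtype.ext h)
      have hbne : ∀ z, ((RIaux.mon b z : Kˣ) : K) ≠ 0 := fun z => Units.ne_zero _
      have e1 : ((RIaux.mon b (y - x) : Kˣ) : K) =
          ((f.coeff x : K) / (f.coeff y : K)) * (((f.coeff y : K) * (RIaux.mon b y : K)) /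
            ((f.coeff x : K) * (RIaux.mon b x : K))) := by
        rw [RIaux.mon_sub, Units.val_mul, Units.val_inv_eq_inv_val]
        have := nz x hx
        have := nz y hy
        have := hbne x
        field_simp
      show _ = g • ((RIaux.mon b (y - x) : Kˣ) : K)
      rw [e1, smul_mul', smul_div₀', smul_div₀', hgy, hgx, hk g _ (Subtype.mem _),
        hk g _ (Subtype.mem _)]
      congr 1
      rw [mul_div_mul_left _ _ hw]
    exact sub_eq_zero.1 (RIaux.mon_mem k b halg (horb _ hfin))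
  have hfe : f = AddMonoidAlgebra.single x (f.coeff x) := by
    apply AddMonoidAlgebra.coeff_inj.1
    rw [AddMonoidAlgebra.coeff_single]
    ext y
    by_cases hy : y = x
    · rw [hy, Finsupp.single_eq_same]
    · rw [Finsupp.single_apply, if_neg (Ne.symm hy),
        Finsupp.notMem_support_iff.1 fun h => hy (hsub y h)]
  rw [hfe]
  have hx0 : f.coeff x ≠ 0 := Finsupp.mem_support_iff.1 hx
  refine IsUnit.of_mul_eq_one (AddMonoidAlgebra.single (-x) (f.coeff x)⁻¹) ?_
  rw [AddMonoidAlgebra.single_mul_single, add_neg_cancel, mul_inv_cancel₀ hx0]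
  rfl

theorem rint {D K : Type u} [Group D] [Field K] [MulSemiringAction D K] (A : Subgroup Kˣ)
    (hA : A.FG) (htf : ∀ a ∈ A, IsOfFinOrder a → a = 1)
    (hinv : ∀ g : D, ∀ a ∈ A, ∃ b ∈ A, (b : K) = g • (a : K)) (k : Subfield K)
    (hk : ∀ g : D, ∀ x ∈ k, g • x = x)
    (horb : ∀ a ∈ A, (MulAction.orbit D (a : K)).Finite → (a : K) ∈ k)
    (E : Subgroup Kˣ) (hEA : E ≤ A)
    (hEinv : ∀ g : D, ∀ a ∈ E, ∃ b ∈ E, (b : K) = g • (a : K))
    {t : ℕ} (b : Fin t → Kˣ) (hbE : ∀ i, b i ∈ E)
    (hbgen : ∀ a ∈ E, ∃ e : Fin t → ℤ, ((a * (∏ i, b i ^ e i)⁻¹ : Kˣ) : K) ∈ k)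
    (halg : AlgebraicIndependent k (fun i => ((b i : Kˣ) : K)))
    (hK : ∀ a ∈ A, IsAlgebraic
      (Subfield.closure ((k : Set K) ∪ (fun a : Kˣ => (a : K)) '' (E : Set Kˣ))) ((a : Kˣ) : K)) :
    ∀ a ∈ A, IsIntegral
      (Subring.closure ((k : Set K) ∪ (fun a : Kˣ => (a : K)) '' (E : Set Kˣ))) ((a : Kˣ) : K) := by
  classical
  set S₀ : Set K := (k : Set K) ∪ (fun a : Kˣ => (a : K)) '' (E : Set Kˣ) with hS₀
  have hmonE : ∀ e : Fin t → ℤ, RIaux.mon b e ∈ E := fun e =>
    E.prod_mem fun i _ => E.zpow_mem (hbE i) _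
  -- the ring is the image of the Laurent polynomial ring
  have hrange : ∀ x : K, x ∈ Subring.closure S₀ ↔ ∃ f, RIaux.Φ k b f = x := by
    intro x
    constructor
    · intro hx
      have hle : Subring.closure S₀ ≤ (RIaux.Φ k b).toRingHom.range := by
        rw [Subring.closure_le]
        rintro y (hy | ⟨a, ha, rfl⟩)
        · refine ⟨AddMonoidAlgebra.single 0 ⟨y, hy⟩, ?_⟩
          show RIaux.Φ k b _ = y
          rw [RIaux.Φ_single, RIaux.mon_zero, Units.val_one, mul_one]
        · obtain ⟨e, he⟩ := hbgen a ha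
          refine ⟨AddMonoidAlgebra.single e ⟨_, he⟩, ?_⟩
          show RIaux.Φ k b _ = (a : K)
          rw [RIaux.Φ_single]
          show ((a * (RIaux.mon b e)⁻¹ : Kˣ) : K) * (RIaux.mon b e : K) = a
          rw [← Units.val_mul, inv_mul_cancel_right]
      exact hle hx
    · rintro ⟨f, rfl⟩
      rw [RIaux.Φ_apply]
      refine Subring.sum_mem _ fun e _ => Subring.mul_mem _ ?_ ?_
      · exact Subring.subset_closure (Or.inl (Subtype.mem _))
      · exact Subring.subset_closure (Or.inr ⟨_, hmonE e, rfl⟩)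
  let ψ : AddMonoidAlgebra k (Fin t → ℤ) →+* Subring.closure S₀ :=
    (RIaux.Φ k b).toRingHom.codRestrict _ fun f => (hrange _).2 ⟨f, rfl⟩
  have hψ : ∀ f, ((ψ f : Subring.closure S₀) : K) = RIaux.Φ k b f := fun f => rfl
  have hψb : Function.Bijective ψ := by
    constructor
    · intro f f' h
      exact RIaux.Φ_inj k b halg (by rw [← hψ, ← hψ, h])
    · rintro ⟨x, hx⟩
      obtain ⟨f, hf⟩ := (hrange x).1 hx
      exact ⟨f, Subtype.ext hf⟩
  let ψe : AddMonoidAlgebra k (Fin t → ℤ) ≃+* Subring.closure S₀ := RingEquiv.ofBijective ψ hψb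
  have hψe : ∀ f, ((ψe f : Subring.closure S₀) : K) = RIaux.Φ k b f := fun f => rfl
  have hufd : UniqueFactorizationMonoid (Subring.closure S₀) :=
    ψe.toMulEquiv.uniqueFactorizationMonoid (lp_ufd k t)
  -- the subring is invariant
  have hR : ∀ g : D, ∀ x ∈ Subring.closure S₀, g • x ∈ Subring.closure S₀ := by
    intro g
    have hle : Subring.closure S₀ ≤
        (Subring.closure S₀).comap (MulSemiringAction.toRingHom D K g) := by
      rw [Subring.closure_le]
      rintro y (hy | ⟨a, ha, rfl⟩)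
      · show g • y ∈ Subring.closure S₀
        rw [hk g y hy]
        exact Subring.subset_closure (Or.inl hy)
      · show g • (a : K) ∈ Subring.closure S₀
        obtain ⟨c, hc, hca⟩ := hEinv g a ha
        rw [← hca]
        exact Subring.subset_closure (Or.inr ⟨c, hc, rfl⟩)
    exact fun x hx => hle hx
  -- algebraic over the ring
  have halgR : ∀ a ∈ A, IsAlgebraic (Subring.closure S₀) ((a : Kˣ) : K) := by
    intro a ha
    have hle : ∀ x ∈ Subring.closure S₀, x ∈ Subfield.closure S₀ := fun x hx =>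
      Subfield.subring_closure_le _ hx
    let ι : Subring.closure S₀ →+* Subfield.closure S₀ :=
      (Subring.closure S₀).subtype.codRestrict _ fun x => hle x x.2
    let : Algebra (Subring.closure S₀) (Subfield.closure S₀) := ι.toAlgebra
    have : IsScalarTower (Subring.closure S₀) (Subfield.closure S₀) K :=
      IsScalarTower.of_algebraMap_eq fun _ => rfl
    have hι : ∀ x, ((algebraMap (Subring.closure S₀) (Subfield.closure S₀) x :
        Subfield.closure S₀) : K) = x := fun x => rfl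
    have : IsFractionRing (Subring.closure S₀) (Subfield.closure S₀) := by
      have : FaithfulSMul (Subring.closure S₀) (Subfield.closure S₀) :=
        (faithfulSMul_iff_algebraMap_injective _ _).2 fun x y hxy =>
          Subtype.ext (by rw [← hι x, ← hι y, hxy])
      refine IsFractionRing.of_field _ _ fun z => ?_
      obtain ⟨y, hy, w, hw, hyw⟩ := Subfield.mem_closure_iff.1 z.2
      exact ⟨⟨y, hy⟩, ⟨w, hw⟩, Subtype.ext hyw.symm⟩
    exact (IsFractionRing.isAlgebraic_iff (Subring.closure S₀) (Subfield.closure S₀) K).2 (hK a ha)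
  refine RIaux.main (Subring.closure S₀) hR A hA hinv halgR ?_
  intro d hd0 hd
  obtain ⟨f, rfl⟩ := ψe.surjective d
  have hfu : IsUnit f := by
    refine RIaux.unit_of_inv (D := D) k hk b halg ?_ ?_ f ?_ ?_
    · intro g e
      obtain ⟨c, hc, hca⟩ := hEinv g _ (hmonE e)
      obtain ⟨e', he'⟩ := hbgen c hc
      refine ⟨e', ⟨_, he'⟩, ?_⟩
      rw [← hca]
      show (c : K) = ((c * (RIaux.mon b e')⁻¹ : Kˣ) : K) * (RIaux.mon b e' : K)
      rw [← Units.val_mul, inv_mul_cancel_right]
    · exact fun e he => horb _ (hEA (hmonE e)) he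
    · rintro rfl
      exact hd0 (map_zero ψe)
    · intro g
      obtain ⟨u, hu, hgu⟩ := hd g
      obtain ⟨v, rfl⟩ := ψe.surjective u
      refine ⟨v, ?_, ?_⟩
      · have := hu.map ψe.symm
        rwa [RingEquiv.symm_apply_apply] at this
      · rw [← hψe, ← hψe]
        exact hgu
  exact hfu.map ψe

end Pool.Agent.D5
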