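import Pool.Agent.Lib.MP_d5e6ed_al.B.ThmA
import Pool.Agent.Lib.MP_d5e6ed_al.B.FP
import Pool.Agent.Lib.MP_d5e6ed_al.B.HallNil
import Pool.Agent.Lib.MP_d5e6ed_al.Main

/-!
# The final reduction
-/

set_option autoImplicit false

namespace Pool.Agent.D5

universe u

open Subgroup PolycyclicCent

namespace Red

/-- the action of `G ⧸ N` on the abelianization of `N` -/
noncomputable def qact {G : Type*} [Group G] (N : Subgroup G) [N.Normal] :
    (G ⧸ N) →* Module.End ℤ (Additive (Abelianization N)) :=
  QuotientGroup.lift N (act N) fun g hg => act_of_mem N g hg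

theorem qact_mk {G : Type*} [Group G] (N : Subgroup G) [N.Normal] (g : G) :
    qact N (QuotientGroup.mk g) = act N g := rfl

/-- all subgroups of an extension are finitely generated -/
theorem fg_of_ext {G : Type*} [Group G] (N : Subgroup G) [N.Normal] (hN : NoethSub N)
    (hQ : ∀ H : Subgroup (G ⧸ N), H.FG) (H : Subgroup G) : H.FG :=
  noethSub_of_ext (A := ⊤) hN (fun H _ => hQ H) H le_top

theorem core (h : ℕ∞) : ∀ (G : Type u) [Group G] (N : Subgroup G) [N.Normal],
    Group.IsNilpotent N → PC (G ⧸ N) → hl (G ⧸ N) = h → (∀ g : G, (centralizer {g}).FG) →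
    ∀ H : Subgroup G, H.FG := by
  classical
  induction h using WellFoundedLT.induction with
  | ind h IH =>
  intro G _ N _ hN hP hh hC
  have hG : Group.FG G := by
    have h1 := hC 1
    have h2 : centralizer {(1 : G)} = ⊤ := by
      rw [eq_top_iff]; intro x _; rw [mem_centralizer_singleton_iff]; simp
    rw [h2] at h1
    exact Group.fg_def.mpr h1
  letI : DistribMulAction (G ⧸ N) (Additive (Abelianization N)) :=
    DistribMulAction.compHom (Additive (Abelianization N)) (qact N)
  have hsmul : ∀ (g : G) (n : N), (QuotientGroup.mk g : G ⧸ N) • cls N n =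
      cls N (MulAut.conjNormal g n) := fun g n => act_cls N g n
  by_cases hHC : HC (G ⧸ N) (Additive (Abelianization N))
  · -- Theorem A applies
    have hFG : FGAct (G ⧸ N) (Additive (Abelianization N)) := by
      obtain ⟨X, hXf, hXN, hX⟩ := fp hG N hP
      refine ⟨(hXf.preimage (Subtype.val_injective.injOn (s := ((↑) : N → G) ⁻¹' X))).toFinset.image
        (cls N), ?_⟩
      intro L hL hTL
      -- the subgroup of `G` corresponding to `L`
      let L' : Subgroup N :=
        { carrier := {n | cls N n ∈ L}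
          mul_mem' := by
            intro a b ha hb
            change cls N (a * b) ∈ L
            rw [cls_mul]
            exact L.add_mem ha hb
          one_mem' := by
            change cls N 1 ∈ L
            rw [cls_one]
            exact L.zero_mem
          inv_mem' := by
            intro a ha
            change cls N a⁻¹ ∈ L
            rw [cls_inv]
            exact L.neg_mem ha }
      have hLn : (L'.map N.subtype).Normal := by
        refine ⟨?_⟩
        rintro _ ⟨n, hn, rfl⟩ g
        refine ⟨MulAut.conjNormal g n, ?_, ?_⟩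
        · change cls N (MulAut.conjNormal g n) ∈ L
          rw [← hsmul]
          exact hL _ _ hn
        · exact MulAut.conjNormal_apply g n
      have hXL : X ⊆ (L'.map N.subtype : Subgroup G) := by
        intro x hx
        refine ⟨⟨x, hXN hx⟩, ?_, rfl⟩
        change cls N ⟨x, hXN hx⟩ ∈ L
        refine hTL ?_
        rw [Finset.coe_image, Set.Finite.coe_toFinset]
        exact ⟨⟨x, hXN hx⟩, hx, rfl⟩
      have hNL := hX _ hLn hXL
      rw [eq_top_iff]
      intro m _
      obtain ⟨n, rfl⟩ := cls_surj N m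
      obtain ⟨n', hn', h2⟩ := hNL n.2
      have : n' = n := Subtype.ext h2
      rw [← this]
      exact hn'
    obtain ⟨m, hm⟩ := thmA ⊤ (G ⧸ N) (Additive (Abelianization N)) hP
      (lt_top_iff_ne_top.2 (hl_ne_top hP)) hFG hHC
    obtain ⟨n, rfl⟩ := cls_surj N m
    have hle : (centralizer {(n : G)}).map (QuotientGroup.mk' N) ≤
        MulAction.stabilizer (G ⧸ N) (cls N n) := by
      rintro _ ⟨g, hg, rfl⟩
      rw [MulAction.mem_stabilizer_iff]
      have hg' := mem_centralizer_singleton_iff.1 hg
      have h1 := hsmul g n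
      have h2 : MulAut.conjNormal g n = n := by
        refine Subtype.ext ?_
        rw [MulAut.conjNormal_apply, hg', mul_inv_cancel_right]
      rw [h2] at h1
      exact h1
    have hfin : Finite ((centralizer {(n : G)}).map (QuotientGroup.mk' N)) :=
      Finite.of_injective _ (Subgroup.inclusion_injective hle)
    have hrel : N.relIndex (centralizer {(n : G)}) ≠ 0 := by
      have h1 := Subgroup.relIndex_comap (H := (⊥ : Subgroup (G ⧸ N))) (QuotientGroup.mk' N)
        (centralizer {(n : G)})
      rw [MonoidHom.comap_bot, QuotientGroup.ker_mk', Subgroup.relIndex_bot_left] at h1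
      rw [h1]
      exact Nat.card_pos.ne'
    have hNfg : N.FG := by
      refine fg_of_centralizer_inf_fg N hN n n.2 ?_
      have h1 : Group.FG (centralizer {(n : G)}) := (Group.fg_iff_subgroup_fg _).mpr (hC n)
      have h2 : (N.subgroupOf (centralizer {(n : G)})).FiniteIndex := ⟨hrel⟩
      have h3 : Group.FG (N.subgroupOf (centralizer {(n : G)})) := by infer_instance
      have h4 := map_fg (centralizer {(n : G)}).subtype ((Group.fg_iff_subgroup_fg _).mp h3)
      rw [Subgroup.subgroupOf_map_subtype, inf_comm] at h4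
      exact h4
    exact fg_of_ext N (noethSub_of_nilpotent_fg hN hNfg) hP.fg
  · -- otherwise there is a larger nilpotent subgroup
    rw [HC] at hHC
    push Not at hHC
    obtain ⟨H, K, hHi, hKH, hKn, ⟨n, hnil⟩, hKinf⟩ := hHC
    have hKinf' : Infinite K := hKinf
    obtain ⟨K₀, hK₀c, hK₀i, hK₀a⟩ := (hP.subgroup K).exists_char
    set K₁ : Subgroup (G ⧸ N) := K₀.map K.subtype with hK₁
    have hK₁K : K₁ ≤ K := by
      rintro _ ⟨k, _, rfl⟩
      exact k.2
    have hK₁i : Infinite K₁ :=
      (K₀.equivMapOfInjective K.subtype K.subtype_injective).toEquiv.infinite_iff.1 hK₀i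
    -- `K₁` is normalised by `H`
    have hK₁n : ∀ h ∈ H, ∀ k ∈ K₁, h * k * h⁻¹ ∈ K₁ := by
      rintro h hh _ ⟨k, hk, rfl⟩
      let φ : K ≃* K :=
        { toFun := fun x => ⟨h * x * h⁻¹, hKn h hh x x.2⟩
          invFun := fun x => ⟨h⁻¹ * x * h, by
            have := hKn h⁻¹ (H.inv_mem hh) x x.2
            rwa [inv_inv] at this⟩
          left_inv := by
            intro x
            refine Subtype.ext ?_
            change h⁻¹ * (h * x * h⁻¹) * h = x
            group
          right_inv := by
            intro x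
            refine Subtype.ext ?_
            change h * (h⁻¹ * x * h) * h⁻¹ = x
            group
          map_mul' := by
            intro x y
            refine Subtype.ext ?_
            change h * (x * y) * h⁻¹ = (h * x * h⁻¹) * (h * y * h⁻¹)
            group }
      have h3 := hK₀c.fixed φ
      rw [← h3] at hk
      exact ⟨φ k, hk, rfl⟩
    set L : Subgroup G := K₁.comap (QuotientGroup.mk' N) with hL
    have hNL : N ≤ L := by
      intro x hx
      change (QuotientGroup.mk x : G ⧸ N) ∈ K₁
      rw [(QuotientGroup.eq_one_iff x).2 hx]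
      exact K₁.one_mem
    have hLab : ⁅L, L⁆ ≤ N := by
      rw [Subgroup.commutator_le]
      intro x hx y hy
      rw [← QuotientGroup.eq_one_iff]
      obtain ⟨a, ha, ha'⟩ := hx
      obtain ⟨b, hb, hb'⟩ := hy
      have h1 : ((a * b : K) : G ⧸ N) = ((b * a : K) : G ⧸ N) := congrArg Subtype.val (hK₀a a ha b hb)
      have ha'' : (a : G ⧸ N) = QuotientGroup.mk x := ha'
      have hb'' : (b : G ⧸ N) = QuotientGroup.mk y := hb'
      rw [commutatorElement_def, QuotientGroup.mk_mul, QuotientGroup.mk_mul, QuotientGroup.mk_mul,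
        QuotientGroup.mk_inv, QuotientGroup.mk_inv, ← ha'', ← hb'']
      have h2 : (a : G ⧸ N) * b = b * a := h1
      rw [h2]
      group
    have hLnil : Group.IsNilpotent L := by
      refine hall_nilp N L hN hNL hLab ⟨n, ?_⟩
      intro l hl hlen m
      have h1 := hnil (l.map (QuotientGroup.mk : G → G ⧸ N)) (by
        intro k hk
        obtain ⟨g, hg, rfl⟩ := List.mem_map.1 hk
        exact hK₁K (hl g hg)) (by rw [List.length_map, hlen]) m
      rw [List.foldr_map] at h1
      exact h1
    -- the subgroup of finite index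
    set G₁ : Subgroup G := H.comap (QuotientGroup.mk' N) with hG₁
    have hG₁i : G₁.FiniteIndex := by
      refine ⟨?_⟩
      rw [hG₁, Subgroup.index_comap_of_surjective _ (QuotientGroup.mk'_surjective N)]
      exact hHi.index_ne_zero
    have hLG₁ : L ≤ G₁ := Subgroup.comap_mono (hK₁K.trans hKH)
    have hL'n : (L.subgroupOf G₁).Normal := by
      refine ⟨?_⟩
      intro x hx g
      have hx' : (QuotientGroup.mk (x : G) : G ⧸ N) ∈ K₁ := hx
      exact hK₁n _ g.2 _ hx'
    have hL'nil : Group.IsNilpotent (L.subgroupOf G₁) := by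
      rw [Group.isNilpotent_congr (Subgroup.subgroupOfEquivOfLe hLG₁)]
      exact hLnil
    -- the quotient
    have hK₁n' : (K₁.subgroupOf H).Normal := by
      refine ⟨?_⟩
      intro x hx g
      exact hK₁n _ g.2 _ hx
    let f : G₁ →* H :=
      { toFun := fun g => ⟨QuotientGroup.mk (g : G), g.2⟩
        map_one' := rfl
        map_mul' := fun _ _ => rfl }
    have hf : Function.Surjective f := by
      rintro ⟨x, hx⟩
      obtain ⟨g, rfl⟩ := QuotientGroup.mk_surjective x
      exact ⟨⟨g, hx⟩, rfl⟩
    let q : G₁ →* H ⧸ K₁.subgroupOf H := (QuotientGroup.mk' (K₁.subgroupOf H)).comp f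
    have hq : Function.Surjective q := (QuotientGroup.mk'_surjective _).comp hf
    have hker : q.ker = L.subgroupOf G₁ := by
      ext g
      rw [MonoidHom.mem_ker]
      change (QuotientGroup.mk (f g) : H ⧸ K₁.subgroupOf H) = 1 ↔ _
      rw [QuotientGroup.eq_one_iff]
      rfl
    let e : (G₁ ⧸ L.subgroupOf G₁) ≃* (H ⧸ K₁.subgroupOf H) :=
      (QuotientGroup.quotientMulEquivOfEq hker.symm).trans
        (QuotientGroup.quotientKerEquivOfSurjective q hq)
    have hHK : PC (H ⧸ K₁.subgroupOf H) := (hP.subgroup H).quot _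
    have hPC' : PC (G₁ ⧸ L.subgroupOf G₁) := PC.of_equiv e.symm hHK
    have hK₁i' : Infinite (K₁.subgroupOf H) :=
      (Subgroup.subgroupOfEquivOfLe (hK₁K.trans hKH)).toEquiv.infinite_iff.2 hK₁i
    have hlt : hl (G₁ ⧸ L.subgroupOf G₁) < h := by
      calc hl (G₁ ⧸ L.subgroupOf G₁) ≤ hl (H ⧸ K₁.subgroupOf H) :=
            hl_le_of_injective e.toMonoidHom e.injective
        _ < hl H := hl_quot_lt (hP.subgroup H) _ hK₁i'
        _ ≤ hl (G ⧸ N) := hl_subgroup_le H
        _ = h := hh
    exact noeth_of_finiteIndex G₁ (IH _ hlt G₁ (L.subgroupOf G₁) hL'nil hPC' rfl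
      (cent_fg_finiteIndex G₁ hC))

end Red

theorem main {G : Type u} [Group G] (N : Subgroup G) [N.Normal] (hN : Group.IsNilpotent N)
    (P₀ : Subgroup (G ⧸ N)) (hfin : P₀.FiniteIndex) (hsol : Group.IsSolvable P₀)
    (hfg : ∀ H : Subgroup (G ⧸ N), H.FG) (hC : ∀ g : G, (centralizer {g}).FG)
    (H : Subgroup G) : H.FG := by
  classical
  set G₀ : Subgroup G := P₀.comap (QuotientGroup.mk' N) with hG₀
  have hG₀i : G₀.FiniteIndex := by
    refine ⟨?_⟩
    rw [hG₀, Subgroup.index_comap_of_surjective _ (QuotientGroup.mk'_surjective N)]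
    exact hfin.index_ne_zero
  have hNG : N ≤ G₀ := by
    intro x hx
    change (QuotientGroup.mk x : G ⧸ N) ∈ P₀
    rw [(QuotientGroup.eq_one_iff x).2 hx]
    exact P₀.one_mem
  have hPC₀ : PC P₀ := by
    refine ⟨hsol, fun K => ?_⟩
    have h1 := hfg (K.map P₀.subtype)
    have e := K.equivMapOfInjective P₀.subtype P₀.subtype_injective
    rw [← Group.fg_iff_subgroup_fg] at h1 ⊢
    exact Group.fg_of_surjective (f := e.symm.toMonoidHom) e.symm.surjective
  let f : G₀ →* P₀ :=
    { toFun := fun g => ⟨QuotientGroup.mk (g : G), g.2⟩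
      map_one' := rfl
      map_mul' := fun _ _ => rfl }
  have hf : Function.Surjective f := by
    rintro ⟨x, hx⟩
    obtain ⟨g, rfl⟩ := QuotientGroup.mk_surjective x
    exact ⟨⟨g, hx⟩, rfl⟩
  have hker : f.ker = N.subgroupOf G₀ := by
    ext g
    rw [MonoidHom.mem_ker, Subgroup.mem_subgroupOf, ← QuotientGroup.eq_one_iff (N := N)]
    exact Subtype.ext_iff
  let e : (G₀ ⧸ N.subgroupOf G₀) ≃* P₀ :=
    (QuotientGroup.quotientMulEquivOfEq hker.symm).trans
      (QuotientGroup.quotientKerEquivOfSurjective f hf)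
  have hPC : PC (G₀ ⧸ N.subgroupOf G₀) := PC.of_equiv e.symm hPC₀
  have hnil : Group.IsNilpotent (N.subgroupOf G₀) := by
    rw [Group.isNilpotent_congr (Subgroup.subgroupOfEquivOfLe hNG)]
    exact hN
  exact noeth_of_finiteIndex G₀ (Red.core _ G₀ (N.subgroupOf G₀) hnil hPC rfl
    (cent_fg_finiteIndex G₀ hC)) H

end Pool.Agent.D5
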