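import Mathlib

/-!
# VAL : a lexicographic valuation ring (helper92)
-/

set_option autoImplicit false

namespace Pool.Agent.D5

universe u

namespace VALaux

open Submodule

variable {K : Type u} [Field K]

/-- Laurent monomials -/
def mon {n : ℕ} (x : Fin n → Kˣ) (e : Fin n → ℤ) : K := ((∏ i, x i ^ e i : Kˣ) : K)

theorem mon_add {n : ℕ} (x : Fin n → Kˣ) (e e' : Fin n → ℤ) :
    mon x (e + e') = mon x e * mon x e' := by
  unfold mon
  rw [← Units.val_mul, ← Finset.prod_mul_distrib]
  congr 1
  exact Finset.prod_congr rfl fun i _ => by rw [Pi.add_apply, zpow_add]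

theorem mon_zero {n : ℕ} (x : Fin n → Kˣ) : mon x 0 = 1 := by
  unfold mon
  simp

/-- Laurent monomials in algebraically independent elements are linearly independent -/
theorem mon_linInd (k : Subfield K) {n : ℕ} (x : Fin n → Kˣ)
    (h : AlgebraicIndependent k (fun i => ((x i : Kˣ) : K))) : LinearIndependent k (mon x) := by
  classical
  rw [linearIndependent_iff']
  intro s g hg e he
  set N : ℕ := ∑ e ∈ s, ∑ i, (e i).natAbs with hN
  have hpos : ∀ e ∈ s, ∀ i, 0 ≤ e i + N := by
    intro e he i
    have h1 : (e i).natAbs ≤ N := by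
      rw [hN]
      calc (e i).natAbs ≤ ∑ i, (e i).natAbs :=
            Finset.single_le_sum (f := fun i => (e i).natAbs) (fun _ _ => Nat.zero_le _)
              (Finset.mem_univ i)
        _ ≤ _ := Finset.single_le_sum (f := fun e : Fin n → ℤ => ∑ i, (e i).natAbs)
              (fun _ _ => Nat.zero_le _) he
    omega
  let τ : (Fin n → ℤ) → (Fin n →₀ ℕ) := fun e => Finsupp.equivFunOnFinite.symm
    (fun i => (e i + N).toNat)
  have hτ : ∀ e ∈ s, ∀ e' ∈ s, τ e = τ e' → e = e' := by
    intro e he e' he' hh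
    funext i
    have h1 : (e i + N).toNat = (e' i + N).toNat := by
      have := DFunLike.congr_fun hh i
      simpa [τ] using this
    have := hpos e he i
    have := hpos e' he' i
    omega
  have hmon : ∀ e ∈ s, MvPolynomial.aeval (R := k) (fun i => ((x i : Kˣ) : K))
      (MvPolynomial.monomial (τ e) (1 : k)) = mon x e * mon x (fun _ => (N : ℤ)) := by
    intro e he
    rw [MvPolynomial.aeval_monomial, map_one, one_mul, ← mon_add,
      Finsupp.prod_fintype _ _ (fun i => pow_zero _)]
    unfold mon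
    rw [Units.coe_prod]
    refine Finset.prod_congr rfl fun i _ => ?_
    have h1 : ((τ e) i : ℤ) = e i + N := by
      show (((e i + N).toNat : ℕ) : ℤ) = _
      rw [Int.toNat_of_nonneg (hpos e he i)]
    rw [Pi.add_apply, ← h1, zpow_natCast, Units.val_pow_eq_pow_val]
  have hp : (∑ e ∈ s, MvPolynomial.monomial (τ e) (g e)) = 0 := by
    apply h.eq_zero_of_aeval_eq_zero
    rw [map_sum]
    have h2 : ∀ e ∈ s, MvPolynomial.aeval (R := k) (fun i => ((x i : Kˣ) : K))
        (MvPolynomial.monomial (τ e) (g e)) = (g e • mon x e) * mon x (fun _ => (N : ℤ)) := by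
      intro e he
      have h3 : MvPolynomial.monomial (τ e) (g e) = g e • MvPolynomial.monomial (τ e) (1 : k) := by
        rw [MvPolynomial.smul_monomial, smul_eq_mul, mul_one]
      rw [h3, map_smul, hmon e he, smul_mul_assoc]
    rw [Finset.sum_congr rfl h2, ← Finset.sum_mul, hg, zero_mul]
  have hc := congrArg (MvPolynomial.coeff (τ e)) hp
  rw [MvPolynomial.coeff_sum, MvPolynomial.coeff_zero] at hc
  rw [Finset.sum_eq_single e] at hc
  · rwa [MvPolynomial.coeff_monomial, if_pos rfl] at hc
  · intro e' he' hne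
    rw [MvPolynomial.coeff_monomial, if_neg]
    intro hh
    exact hne (hτ e' he' e he hh)
  · intro hh
    exact absurd he hh

section ordered

variable (k : Subfield K) {Γ : Type*} [AddCommGroup Γ] (M : Γ → K)

/-- the subring of linear combinations of the monomials with exponents in a submonoid -/
def ring (hadd : ∀ γ δ, M (γ + δ) = M γ * M δ) (h0 : M 0 = 1) (E : AddSubmonoid Γ) : Subring K where
  carrier := span k (M '' (E : Set Γ))
  mul_mem' := by
    intro x y hx hy
    have h1 : x * y ∈ span k (M '' (E : Set Γ)) * span k (M '' (E : Set Γ)) :=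
      Submodule.mul_mem_mul hx hy
    rw [Submodule.span_mul_span] at h1
    refine Submodule.span_mono ?_ h1
    rintro _ ⟨_, ⟨γ, hγ, rfl⟩, _, ⟨δ, hδ, rfl⟩, rfl⟩
    exact ⟨γ + δ, E.add_mem hγ hδ, hadd γ δ⟩
  one_mem' := Submodule.subset_span ⟨0, E.zero_mem, h0⟩
  add_mem' := fun hx hy => Submodule.add_mem _ hx hy
  zero_mem' := Submodule.zero_mem _
  neg_mem' := fun hx => Submodule.neg_mem _ hx

theorem coe_mem_span (h0 : M 0 = 1) (E : AddSubmonoid Γ) (c : K) (hc : c ∈ k) :
    c ∈ span k (M '' (E : Set Γ)) := by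
  have h1 : (⟨c, hc⟩ : k) • M 0 ∈ span k (M '' (E : Set Γ)) :=
    Submodule.smul_mem _ _ (Submodule.subset_span ⟨0, E.zero_mem, rfl⟩)
  rw [h0] at h1
  have h2 : (⟨c, hc⟩ : k) • (1 : K) = c := by
    show c * 1 = c
    exact mul_one c
  rwa [h2] at h1

variable [LinearOrder Γ] [IsOrderedAddMonoid Γ]

/-- the valuation ring -/
theorem exists_O (hadd : ∀ γ δ, M (γ + δ) = M γ * M δ) (h0 : M 0 = 1)
    (hlin : LinearIndependent k M) :
    ∃ O : ValuationSubring K, (∀ x ∈ k, x ∈ O) ∧
      ∀ z ∈ span k (M '' Set.Ioi 0), O.valuation z < 1 := by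
  let P : AddSubmonoid Γ :=
    { carrier := {γ | 0 ≤ γ}
      zero_mem' := le_refl (0 : Γ)
      add_mem' := fun ha hb => add_nonneg ha hb }
  let B : Subring K := ring k M hadd h0 P
  have hPQ : ∀ x ∈ span k (M '' (P : Set Γ)), ∀ y ∈ span k (M '' Set.Ioi 0),
      x * y ∈ span k (M '' Set.Ioi 0) := by
    intro x hx y hy
    have h1 : x * y ∈ span k (M '' (P : Set Γ)) * span k (M '' Set.Ioi 0) :=
      Submodule.mul_mem_mul hx hy
    rw [Submodule.span_mul_span] at h1
    refine Submodule.span_mono ?_ h1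
    rintro _ ⟨_, ⟨γ, hγ, rfl⟩, _, ⟨δ, hδ, rfl⟩, rfl⟩
    exact ⟨γ + δ, add_pos_of_nonneg_of_pos hγ hδ, hadd γ δ⟩
  have hQP : span k (M '' Set.Ioi 0) ≤ span k (M '' (P : Set Γ)) :=
    Submodule.span_mono (Set.image_mono fun γ (hγ : 0 < γ) => hγ.le)
  let I : Ideal B :=
    { carrier := {x | (x : K) ∈ span k (M '' Set.Ioi 0)}
      zero_mem' := by
        show ((0 : B) : K) ∈ span k (M '' Set.Ioi 0)
        exact Submodule.zero_mem _
      add_mem' := by
        intro x y hx hy
        show ((x : K) + (y : K)) ∈ span k (M '' Set.Ioi 0)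
        exact Submodule.add_mem _ hx hy
      smul_mem' := fun c x hx => hPQ c c.2 x hx }
  have hI : I ≠ ⊤ := by
    rw [Ideal.ne_top_iff_one]
    intro h1
    have h2 : (1 : K) ∈ span k (M '' Set.Ioi 0) := h1
    rw [← h0] at h2
    exact hlin.notMem_span_image (s := Set.Ioi 0) (x := 0) (by simp) h2
  obtain ⟨O, hO1, hO2⟩ := Ideal.image_subset_nonunits_valuationSubring I hI
  refine ⟨O, fun x hx => hO1 (coe_mem_span k M h0 P x hx), fun z hz => ?_⟩
  exact (ValuationSubring.mem_nonunits_iff O).1 (hO2 ⟨⟨z, hQP hz⟩, hz, rfl⟩)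

/-- a nonzero combination is a monomial times one plus a positive part -/
theorem leading (hadd : ∀ γ δ, M (γ + δ) = M γ * M δ) (h0 : M 0 = 1) (E : AddSubmonoid Γ) {z : K}
    (hz : z ∈ span k (M '' (E : Set Γ))) (hz0 : z ≠ 0) :
    ∃ e ∈ E, ∃ c : k, c ≠ 0 ∧ ∃ h ∈ span k (M '' Set.Ioi 0), z * (c • M (-e)) = 1 + h := by
  classical
  obtain ⟨l, hl, rfl⟩ := (Finsupp.mem_span_image_iff_linearCombination k).1 hz
  have hl0 : l ≠ 0 := by
    rintro rfl
    exact hz0 (map_zero _)
  have hne : l.support.Nonempty := Finsupp.support_nonempty_iff.2 hl0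
  set e := l.support.min' hne with he
  have hemem : e ∈ l.support := Finset.min'_mem _ _
  have hle : l e ≠ 0 := Finsupp.mem_support_iff.1 hemem
  refine ⟨e, (Finsupp.mem_supported k l).1 hl hemem, (l e)⁻¹, inv_ne_zero hle,
    ∑ γ ∈ l.support.erase e, (l γ * (l e)⁻¹) • M (γ - e), ?_, ?_⟩
  · refine Submodule.sum_mem _ fun γ hγ => Submodule.smul_mem _ _ (Submodule.subset_span ⟨_, ?_, rfl⟩)
    rw [Finset.mem_erase] at hγ
    rw [Set.mem_Ioi, sub_pos]
    exact lt_of_le_of_ne (Finset.min'_le _ _ hγ.2) (Ne.symm hγ.1)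
  · rw [Finsupp.linearCombination_apply, Finsupp.sum, Finset.sum_mul]
    have h1 : ∀ γ ∈ l.support, (l γ • M γ) * ((l e)⁻¹ • M (-e)) = (l γ * (l e)⁻¹) • M (γ - e) := by
      intro γ _
      rw [smul_mul_smul_comm, ← hadd, sub_eq_add_neg]
    rw [Finset.sum_congr rfl h1, ← Finset.add_sum_erase _ _ hemem]
    congr 1
    rw [mul_inv_cancel₀ hle, sub_self, h0, one_smul]

end ordered

end VALaux

open VALaux Submodule in
theorem val {K : Type u} [Field K] (k : Subfield K) {m : ℕ} (b : Fin m → Kˣ) (a : Kˣ)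
    (hind : AlgebraicIndependent k (Fin.cons (a : K) (fun i => ((b i : Kˣ) : K)) : Fin (m + 1) → K)) :
    ∃ O : ValuationSubring K, (∀ x ∈ k, x ∈ O) ∧
      (∀ e : Fin m → ℤ, ((∏ i, b i ^ e i : Kˣ) : K) ∈ O →
        (((∏ i, b i ^ e i : Kˣ)⁻¹ : Kˣ) : K) ∈ O → e = 0) ∧
      (∀ x ∈ Subfield.closure ((k : Set K) ∪ Set.range fun i => ((b i : Kˣ) : K)),
        (a : K)⁻¹ * x ∈ O ∧ (x ≠ 0 → ((a : K)⁻¹ * x)⁻¹ ∉ O)) := by
  classical
  let x : Fin (m + 1) → Kˣ := Fin.cons a b
  let y : Fin (m + 1) → Kˣ := Fin.cons a⁻¹ b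
  have hx : AlgebraicIndependent k (fun i => ((x i : Kˣ) : K)) := by
    have : (fun i => ((x i : Kˣ) : K)) = (Fin.cons (a : K) (fun i => ((b i : Kˣ) : K)) :
        Fin (m + 1) → K) := by
      funext i
      refine Fin.cases ?_ (fun j => ?_) i
      · simp [x]
      · simp [x]
    rw [this]
    exact hind
  let σ : (Fin (m + 1) → ℤ) → (Fin (m + 1) → ℤ) := fun e => Fin.cons (-e 0) (fun i => e i.succ)
  have hσ : Function.Injective σ := by
    intro e e' h
    funext i
    refine Fin.cases ?_ (fun j => ?_) i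
    · have := congrFun h 0
      simp only [σ, Fin.cons_zero, neg_inj] at this
      exact this
    · have := congrFun h j.succ
      simp only [σ, Fin.cons_succ] at this
      exact this
  have hyx : ∀ e, mon y e = mon x (σ e) := by
    intro e
    unfold mon
    rw [Fin.prod_univ_succ, Fin.prod_univ_succ]
    simp only [x, y, σ, Fin.cons_zero, Fin.cons_succ, inv_zpow']
  let M : Lex (Fin (m + 1) → ℤ) → K := fun γ => mon y (ofLex γ)
  have hlin : LinearIndependent k M := by
    have h1 := (mon_linInd k x hx).comp σ hσ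
    have h2 : (mon x ∘ σ) = mon y := by
      funext e
      exact (hyx e).symm
    rw [h2] at h1
    exact h1.comp (fun γ => ofLex γ) ofLex.injective
  have hadd : ∀ γ δ, M (γ + δ) = M γ * M δ := fun γ δ => mon_add y _ _
  have h0 : M 0 = 1 := mon_zero y
  obtain ⟨O, hO1, hO2⟩ := exists_O k M hadd h0 hlin
  have hMinv : ∀ γ, M (-γ) = (M γ)⁻¹ := by
    intro γ
    apply eq_inv_of_mul_eq_one_left
    rw [← hadd, neg_add_cancel, h0]
  have hpos : ∀ γ : Lex (Fin (m + 1) → ℤ), 0 < γ → O.valuation (M γ) < 1 := fun γ hγ =>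
    hO2 _ (Submodule.subset_span ⟨γ, hγ, rfl⟩)
  refine ⟨O, hO1, ?_, ?_⟩
  · intro e he1 he2
    by_contra hne
    have hM : M (toLex (Fin.cons 0 e)) = ((∏ i, b i ^ e i : Kˣ) : K) := by
      show mon y (Fin.cons 0 e) = _
      unfold mon
      rw [Fin.prod_univ_succ]
      simp only [y, Fin.cons_zero, Fin.cons_succ, zpow_zero, one_mul]
    have h1 := (O.valuation_le_one_iff _).2 he1
    have h2 := (O.valuation_le_one_iff _).2 he2
    rw [Units.val_inv_eq_inv_val] at h2
    rw [← hM] at h1 h2
    have hne' : (toLex (Fin.cons 0 e) : Lex (Fin (m + 1) → ℤ)) ≠ 0 := by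
      intro h3
      apply hne
      funext i
      exact congrFun (congrArg ofLex h3) i.succ
    rcases lt_or_gt_of_ne hne' with h3 | h3
    · have h4 := hpos _ (neg_pos.2 h3)
      rw [hMinv, map_inv₀] at h4
      have h5 : O.valuation (M (toLex (Fin.cons 0 e))) ≠ 0 := by
        intro h6
        rw [h6, inv_zero] at h4
        rw [map_eq_zero] at h6
        rw [hM] at h6
        exact Units.ne_zero _ h6
      have h7 := mul_lt_mul_of_pos_right h4 (zero_lt_iff.2 h5)
      rw [inv_mul_cancel₀ h5, one_mul] at h7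
      exact absurd h1 (not_le.2 h7)
    · have h4 := hpos _ h3
      rw [map_inv₀] at h2
      have h5 : O.valuation (M (toLex (Fin.cons 0 e))) ≠ 0 := by
        intro h6
        rw [map_eq_zero] at h6
        rw [hM] at h6
        exact Units.ne_zero _ h6
      have h7 := mul_le_mul_left h2 (O.valuation (M (toLex (Fin.cons 0 e))))
      rw [inv_mul_cancel₀ h5, one_mul] at h7
      exact absurd h7 (not_le.2 h4)
  · -- the third property
    let E : AddSubmonoid (Lex (Fin (m + 1) → ℤ)) :=
      { carrier := {γ | ofLex γ 0 = 0}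
        zero_mem' := rfl
        add_mem' := by
          intro γ δ hγ hδ
          show ofLex γ 0 + ofLex δ 0 = 0
          have h1 : ofLex γ 0 = 0 := hγ
          have h2 : ofLex δ 0 = 0 := hδ
          rw [h1, h2, add_zero] }
    have hEpos : ∀ e ∈ E, ∀ e' ∈ E, (0 : Lex (Fin (m + 1) → ℤ)) <
        toLex (Fin.cons 1 0) + (e - e') := by
      intro e he e' he'
      refine ⟨0, fun j hj => absurd hj (Fin.not_lt_zero j), ?_⟩
      show (0 : ℤ) < 1 + (ofLex e 0 - ofLex e' 0)
      have h1 : ofLex e 0 = 0 := he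
      have h2 : ofLex e' 0 = 0 := he'
      rw [h1, h2]
      norm_num
    have hMa : M (toLex (Fin.cons 1 0)) = (a : K)⁻¹ := by
      show mon y (Fin.cons 1 0) = _
      unfold mon
      rw [Fin.prod_univ_succ]
      simp [y]
    have hb : ∀ i, ((b i : Kˣ) : K) = M (toLex (Fin.cons 0 (Pi.single i 1))) := by
      intro i
      show _ = mon y (Fin.cons 0 (Pi.single i 1))
      unfold mon
      rw [Fin.prod_univ_succ]
      simp only [y, Fin.cons_zero, Fin.cons_succ, zpow_zero, one_mul]
      congr 1
      rw [Finset.prod_eq_single i]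
      · simp
      · intro j _ hj
        rw [Pi.single_eq_of_ne hj, zpow_zero]
      · intro h
        exact absurd (Finset.mem_univ i) h
    have hcl : Subring.closure ((k : Set K) ∪ Set.range fun i => ((b i : Kˣ) : K)) ≤
        ring k M hadd h0 E := by
      rw [Subring.closure_le]
      rintro z (hz | ⟨i, rfl⟩)
      · exact coe_mem_span k M h0 E z hz
      · refine Submodule.subset_span ⟨toLex (Fin.cons 0 (Pi.single i 1)), ?_, (hb i).symm⟩
        show (Fin.cons 0 (Pi.single i 1) : Fin (m + 1) → ℤ) 0 = 0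
        rfl
    have key : ∀ z ∈ Subfield.closure ((k : Set K) ∪ Set.range fun i => ((b i : Kˣ) : K)),
        O.valuation ((a : K)⁻¹ * z) < 1 := by
      intro z hz
      obtain ⟨f, hf, g, hg, rfl⟩ := Subfield.mem_closure_iff.1 hz
      by_cases hg0 : g = 0
      · rw [hg0, div_zero, mul_zero, map_zero]
        exact zero_lt_one
      · obtain ⟨e, he, c, hc, h, hh, hgh⟩ := leading k M hadd h0 E (hcl hg) hg0
        have h1 : O.valuation (1 + h) = 1 := by
          have h2 := hO2 h hh
          have h3 := Valuation.map_add_eq_of_lt_left O.valuation (x := (1 : K)) (y := h)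
            (by rw [map_one]; exact h2)
          rw [h3, map_one]
        have h4 : (a : K)⁻¹ * f * (c • M (-e)) ∈ span k (M '' Set.Ioi 0) := by
          rw [← hMa]
          have h5 : ∀ w ∈ span k (M '' (E : Set (Lex (Fin (m + 1) → ℤ)))),
              M (toLex (Fin.cons 1 0)) * w * (c • M (-e)) ∈ span k (M '' Set.Ioi 0) := by
            intro w hw
            induction hw using Submodule.span_induction with
            | mem w hw =>
              obtain ⟨γ, hγ, rfl⟩ := hw
              rw [mul_smul_comm, ← hadd, ← hadd]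
              refine Submodule.smul_mem _ _ (Submodule.subset_span ⟨_, ?_, rfl⟩)
              have := hEpos γ hγ e he
              rw [Set.mem_Ioi, add_assoc, ← sub_eq_add_neg]
              exact this
            | zero =>
              rw [mul_zero, zero_mul]
              exact Submodule.zero_mem _
            | add w w' _ _ h1 h2 =>
              rw [mul_add, add_mul]
              exact Submodule.add_mem _ h1 h2
            | smul r w _ h1 =>
              have h8 : M (toLex (Fin.cons 1 0)) * (r • w) * (c • M (-e)) =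
                  r • (M (toLex (Fin.cons 1 0)) * w * (c • M (-e))) := by
                simp only [Algebra.smul_def]
                ring
              rw [h8]
              exact Submodule.smul_mem _ _ h1
          exact h5 f (hcl hf)
        have h6 := hO2 _ h4
        have hu0 : c • M (-e) ≠ 0 := by
          intro h7
          rw [h7, mul_zero] at hgh
          rw [← hgh, map_zero] at h1
          exact zero_ne_one h1
        have h7 : (a : K)⁻¹ * (f / g) * (1 + h) = (a : K)⁻¹ * f * (c • M (-e)) := by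
          rw [← hgh]
          field_simp
        rw [← h7, map_mul, h1, mul_one] at h6
        exact h6
    intro z hz
    have h1 := key z hz
    refine ⟨(O.valuation_le_one_iff _).1 h1.le, fun hz0 h2 => ?_⟩
    have h3 := (O.valuation_le_one_iff _).2 h2
    have h4 : (a : K)⁻¹ * z ≠ 0 := mul_ne_zero (inv_ne_zero (Units.ne_zero a)) hz0
    have h5 : O.valuation ((a : K)⁻¹ * z) ≠ 0 := by
      intro h6
      rw [map_eq_zero] at h6
      exact h4 h6
    rw [map_inv₀] at h3
    have h6 : (1 : _) ≤ O.valuation ((a : K)⁻¹ * z) := by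
      rwa [inv_le_one₀ (zero_lt_iff.2 h5)] at h3
    exact absurd h6 (not_le.2 h1)

end Pool.Agent.D5
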