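import Pool.Agent.Lib.MP_d5e6ed_al.B.Cov
import Pool.Agent.Lib.MP_d5e6ed_al.B.Val
import Pool.Agent.Lib.MP_d5e6ed_al.B.RInt

/-!
# A Roseblade-type theorem : algebraic independence

(helper98, problem MP_d5e6ed_al, module ROS)
-/

set_option autoImplicit false

namespace Pool.Agent.D5

universe u

namespace Ros

/-- multiplicatively independent modulo `k` -/
def Ind {K : Type u} [Field K] (k : Subfield K) {s : ℕ} (b : Fin s → Kˣ) : Prop :=
  ∀ e : Fin s → ℤ, ((∏ i, b i ^ e i : Kˣ) : K) ∈ k → e = 0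

/-- `f` generates `E` modulo `k` -/
def Gen {K : Type u} [Field K] (k : Subfield K) (E : Subgroup Kˣ) {m : ℕ} (f : Fin m → Kˣ) : Prop :=
  ∀ a ∈ E, ∃ e : Fin m → ℤ, ((a * (∏ i, f i ^ e i)⁻¹ : Kˣ) : K) ∈ k

/-- the units of `K` in `k` -/
def kU {K : Type u} [Field K] (k : Subfield K) : Subgroup Kˣ where
  carrier := {x | (x : K) ∈ k}
  mul_mem' {a b} ha hb := by
    simp only [Set.mem_ofPred_eq, Units.val_mul] at *
    exact k.mul_mem ha hb
  one_mem' := by simp [k.one_mem]
  inv_mem' {a} ha := by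
    simp only [Set.mem_ofPred_eq, Units.val_inv_eq_inv_val] at *
    exact k.inv_mem ha

variable {K : Type u} [Field K] (k : Subfield K)

theorem mem_kU {x : Kˣ} : x ∈ kU k ↔ (x : K) ∈ k := Iff.rfl

theorem ind_of_alg {s : ℕ} {b : Fin s → Kˣ}
    (h : AlgebraicIndependent k (fun i => ((b i : Kˣ) : K))) : Ind k b := by
  intro e he
  set κ : k := ⟨_, he⟩ with hκ
  let p : Fin s →₀ ℕ := Finsupp.equivFunOnFinite.symm fun i => (e i).toNat
  let q : Fin s →₀ ℕ := Finsupp.equivFunOnFinite.symm fun i => (-e i).toNat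
  have h1 : MvPolynomial.aeval (fun i => ((b i : Kˣ) : K)) (MvPolynomial.monomial p (1 : k)) =
      MvPolynomial.aeval (fun i => ((b i : Kˣ) : K)) (MvPolynomial.monomial q κ) := by
    rw [MvPolynomial.aeval_monomial, MvPolynomial.aeval_monomial]
    rw [Finsupp.prod_fintype _ _ (by simp), Finsupp.prod_fintype _ _ (by simp)]
    have h2 : (∏ i, b i ^ p i : Kˣ) = (∏ i, b i ^ e i) * ∏ i, b i ^ q i := by
      rw [← Finset.prod_mul_distrib]
      refine Finset.prod_congr rfl fun i _ => ?_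
      rw [← zpow_natCast, ← zpow_natCast (b i) (q i), ← zpow_add]
      congr 1
      simp only [p, q, Finsupp.equivFunOnFinite_symm_apply_apply]
      omega
    have h3 := congrArg (fun x : Kˣ => (x : K)) h2
    simp only [Units.val_mul, Units.coe_prod, Units.val_pow_eq_pow_val] at h3
    rw [map_one, one_mul, h3]
    congr 1
    show _ = ((κ : k) : K)
    rw [hκ]
    simp [Units.coe_prod]
  have h4 := h h1
  rw [MvPolynomial.monomial_eq_monomial_iff] at h4
  rcases h4 with ⟨h4, -⟩ | ⟨h4, -⟩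
  · funext i
    have h5 := DFunLike.congr_fun h4 i
    simp only [p, q, Finsupp.equivFunOnFinite_symm_apply_apply] at h5
    show e i = 0
    omega
  · exact absurd h4 one_ne_zero

theorem ind_le {m s : ℕ} (f : Fin m → Kˣ) (b : Fin s → Kˣ) (hb : Ind k b)
    (hgen : ∀ i, ∃ e : Fin m → ℤ, ((b i * (∏ j, f j ^ e j)⁻¹ : Kˣ) : K) ∈ k) : s ≤ m := by
  choose M hM using hgen
  have h1 : LinearIndependent ℤ M := by
    rw [Fintype.linearIndependent_iff]
    intro c hc
    have h2 : ∀ j, ∑ i, M i j * c i = 0 := by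
      intro j
      have := congrFun hc j
      simp only [Finset.sum_apply, Pi.smul_apply, smul_eq_mul, Pi.zero_apply] at this
      rw [← this]
      exact Finset.sum_congr rfl fun i _ => mul_comm _ _
    have h3 : (∏ i, (b i * (∏ j, f j ^ M i j)⁻¹) ^ c i) = ∏ i, b i ^ c i := by
      simp only [mul_zpow, Finset.prod_mul_distrib]
      have : (∏ i, ((∏ j, f j ^ M i j)⁻¹) ^ c i) = 1 := by
        have h5 : ∀ i, (∏ j, f j ^ M i j) ^ c i = ∏ j, f j ^ (M i j * c i) := by
          intro i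
          rw [← Finset.prod_zpow]
          exact Finset.prod_congr rfl fun j _ => (zpow_mul _ _ _).symm
        simp only [inv_zpow, Finset.prod_inv_distrib, h5]
        rw [Finset.prod_comm]
        have h6 : ∀ j, ∏ i, f j ^ (M i j * c i) = 1 := by
          intro j
          have h7 : ∀ t : Finset (Fin s), ∏ i ∈ t, f j ^ (M i j * c i) =
              f j ^ (∑ i ∈ t, M i j * c i) := by
            intro t
            induction t using Finset.induction_on with
            | empty => simp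
            | insert a t ha ih => rw [Finset.prod_insert ha, Finset.sum_insert ha, zpow_add, ih]
          rw [h7, h2, zpow_zero]
        simp only [h6, Finset.prod_const_one, inv_one]
      rw [this, mul_one]
    have h4 : (∏ i, b i ^ c i) ∈ kU k := by
      rw [← h3]
      exact Subgroup.prod_mem _ fun i _ => Subgroup.zpow_mem _ (hM i) _
    exact congrFun (hb c h4)
  have := h1.fintype_card_le_finrank
  simpa using this

theorem abs_basis {Q : Type*} [CommGroup Q] [Group.FG Q]
    (h : ∀ x : Q, ∀ n : ℕ, 0 < n → x ^ n = 1 → x = 1) :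
    ∃ (m : ℕ) (B : Fin m → Q), (∀ e : Fin m → ℤ, ∏ i, B i ^ e i = 1 → e = 0) ∧
      ∀ x : Q, ∃ e : Fin m → ℤ, x = ∏ i, B i ^ e i := by
  have : Module.Finite ℤ (Additive Q) := by
    rw [Module.Finite.iff_addGroup_fg]
    exact GroupFG.iff_add_fg.1 inferInstance
  have : IsAddTorsionFree (Additive Q) := by
    rw [isAddTorsionFree_iff_not_isOfFinAddOrder]
    intro a ha hfin
    rw [isOfFinAddOrder_iff_nsmul_eq_zero] at hfin
    obtain ⟨n, hn, hn'⟩ := hfin
    exact ha (h a.toMul n hn hn')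
  have : Module.Free ℤ (Additive Q) := Module.free_of_finite_type_torsion_free'
  let B := Module.finBasis ℤ (Additive Q)
  refine ⟨_, fun i => (B i).toMul, ?_, ?_⟩
  · intro e he
    have h4 := Fintype.linearIndependent_iff.1 B.linearIndependent e
      (by
        have := congrArg Additive.ofMul he
        simpa [ofMul_prod] using this)
    exact funext h4
  · intro x
    refine ⟨fun i => B.repr (Additive.ofMul x) i, ?_⟩
    have h1 := congrArg Additive.toMul (B.sum_repr (Additive.ofMul x))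
    rw [toMul_sum] at h1
    exact h1.symm

theorem exists_basis (E : Subgroup Kˣ) (hE : E.FG)
    (hiso : ∀ x ∈ E, ∀ n : ℕ, 0 < n → ((x ^ n : Kˣ) : K) ∈ k → (x : K) ∈ k) :
    ∃ (m : ℕ) (f : Fin m → Kˣ), (∀ i, f i ∈ E) ∧ Ind k f ∧ Gen k E f := by
  let Δ : Subgroup E := (kU k).comap E.subtype
  have : Group.FG E := (Group.fg_iff_subgroup_fg E).2 hE
  have : Group.FG (E ⧸ Δ) := inferInstance
  obtain ⟨m, B, hB, hB'⟩ := abs_basis (Q := E ⧸ Δ) (by
    intro x n hn hx
    induction x using QuotientGroup.induction_on with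
    | H x =>
      rw [← QuotientGroup.mk_pow, QuotientGroup.eq_one_iff] at hx
      rw [QuotientGroup.eq_one_iff]
      exact hiso x x.2 n hn hx)
  have hs : ∀ i, ∃ x : E, (QuotientGroup.mk x : E ⧸ Δ) = B i := fun i =>
    QuotientGroup.mk_surjective _
  choose f hf using hs
  have hf' : ∀ e : Fin m → ℤ, (QuotientGroup.mk (∏ i, f i ^ e i) : E ⧸ Δ) = ∏ i, B i ^ e i := by
    intro e
    simp only [← hf]
    exact map_prod (QuotientGroup.mk' Δ) _ _
  refine ⟨m, fun i => (f i : Kˣ), fun i => (f i).2, ?_, ?_⟩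
  · intro e he
    refine hB e ?_
    rw [← hf', QuotientGroup.eq_one_iff]
    show (((∏ i, f i ^ e i : E) : Kˣ) : K) ∈ k
    simpa using he
  · intro a ha
    obtain ⟨e, he⟩ := hB' (QuotientGroup.mk ⟨a, ha⟩)
    refine ⟨e, ?_⟩
    rw [← hf'] at he
    have h2 := QuotientGroup.eq.1 he.symm
    have h3 : (((∏ i, f i ^ e i)⁻¹ * ⟨a, ha⟩ : E) : Kˣ) ∈ kU k := h2
    rw [← mem_kU, mul_comm]
    simpa using h3


/-- the action on the units -/
def act (D : Type u) [Group D] [MulSemiringAction D K] (g : D) : Kˣ →* Kˣ :=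
  Units.map (MulSemiringAction.toRingHom D K g : K →* K)

section action

variable {D : Type u} [Group D] [MulSemiringAction D K]

@[simp] theorem act_val (g : D) (x : Kˣ) : ((act D g x : Kˣ) : K) = g • (x : K) := rfl

theorem act_one (x : Kˣ) : act D 1 x = x := by
  ext; simp

theorem act_mul (g h : D) (x : Kˣ) : act D (g * h) x = act D g (act D h x) := by
  ext; simp [mul_smul]

theorem act_inv_val (g : D) (x : Kˣ) : g • ((x : K)⁻¹) = (g • (x : K))⁻¹ := by
  simp

theorem finite_orbit_of_alg (hk : ∀ g : D, ∀ x ∈ k, g • x = x) {x : K}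
    (hx : IsAlgebraic k x) : (MulAction.orbit D x).Finite := by
  obtain ⟨p, hp, hp'⟩ := hx
  refine (p.rootSet_finite K).subset ?_
  rintro _ ⟨g, rfl⟩
  rw [Polynomial.mem_rootSet]
  refine ⟨hp, ?_⟩
  let φ : K →ₐ[k] K := { MulSemiringAction.toRingHom D K g with
    commutes' := fun r => hk g r r.2 }
  have h1 : Polynomial.aeval (φ x) p = φ (Polynomial.aeval x p) := Polynomial.aeval_algHom_apply φ x p
  rw [hp', map_zero] at h1
  exact h1

theorem finite_orbit_of_index {X : Type*} [MulAction D X] (D' : Subgroup D) (hD' : D'.FiniteIndex)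
    (x : X) (h : (MulAction.orbit D' x).Finite) : (MulAction.orbit D x).Finite := by
  have : Finite (D ⧸ D') := inferInstance
  have h1 : MulAction.orbit D x ⊆ ⋃ q : D ⧸ D', (fun y => q.out • y) '' MulAction.orbit D' x := by
    rintro _ ⟨g, rfl⟩
    rw [Set.mem_iUnion]
    have h2 : (QuotientGroup.mk g : D ⧸ D').out⁻¹ * g ∈ D' := by
      rw [← QuotientGroup.eq]
      exact (QuotientGroup.out_eq' _)
    refine ⟨QuotientGroup.mk g, ((QuotientGroup.mk g : D ⧸ D').out⁻¹ * g) • x, ⟨⟨_, h2⟩, rfl⟩, ?_⟩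
    simp [smul_smul]
  exact (Set.finite_iUnion fun q => h.image _).subset h1

end action

theorem cons_indep {m : ℕ} {f : Fin m → K} (hf : AlgebraicIndependent k f) {a : K}
    (ha : Transcendental (Algebra.adjoin k (Set.range f)) a) :
    AlgebraicIndependent k (Fin.cons a f : Fin (m + 1) → K) := by
  have h1 := (hf.option_iff_transcendental a).2 ha
  refine (algebraicIndependent_equiv' (finSuccEquiv m) ?_).2 h1
  funext i
  refine Fin.cases ?_ (fun i => ?_) i
  · simp
  · simp

theorem augment {m t : ℕ} {f : Fin m → K} (hf : AlgebraicIndependent k f) {v : Fin t → K}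
    (hv : AlgebraicIndependent k v) (h : m < t) :
    ∃ i, AlgebraicIndependent k (Fin.cons (v i) f : Fin (m + 1) → K) := by
  have hfi := hf.injective
  have hvi := hv.injective
  have h1 : (AlgebraicIndependent.matroid k K).Indep (Set.range f) := by
    rw [AlgebraicIndependent.matroid_indep_iff]
    exact (algebraicIndependent_subtype_range hfi).2 hf
  have h2 : (AlgebraicIndependent.matroid k K).Indep (Set.range v) := by
    rw [AlgebraicIndependent.matroid_indep_iff]
    exact (algebraicIndependent_subtype_range hvi).2 hv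
  obtain ⟨e, ⟨⟨i, rfl⟩, he⟩, h3⟩ := h1.augment h2 (by
    rw [← Set.image_univ, ← Set.image_univ, hfi.injOn.encard_image, hvi.injOn.encard_image]
    simpa using h)
  refine ⟨i, ?_⟩
  rw [AlgebraicIndependent.matroid_indep_iff] at h3
  have h4 : Function.Injective (Fin.cons (v i) f : Fin (m + 1) → K) := by
    rw [Fin.cons_injective_iff]
    exact ⟨he, hfi⟩
  rw [← algebraicIndependent_subtype_range h4, Fin.range_cons]
  exact h3

/-- the coarsening of a valuation ring -/
def coarse (O : ValuationSubring K) (F : Subfield K) : ValuationSubring K where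
  carrier := {x | ∃ y ∈ F, y ≠ 0 ∧ x * y ∈ O}
  mul_mem' := by
    rintro a b ⟨y, hy, hy0, h⟩ ⟨z, hz, hz0, h'⟩
    refine ⟨y * z, F.mul_mem hy hz, mul_ne_zero hy0 hz0, ?_⟩
    have := O.mul_mem _ _ h h'
    rwa [mul_mul_mul_comm] at this
  one_mem' := ⟨1, F.one_mem, one_ne_zero, by simp⟩
  add_mem' := by
    rintro a b ⟨y, hy, hy0, h⟩ ⟨z, hz, hz0, h'⟩
    rcases O.mem_or_inv_mem (y * z⁻¹) with h1 | h1
    · refine ⟨y, hy, hy0, ?_⟩
      have h2 := O.mul_mem _ _ h' h1
      have h3 : (a + b) * y = a * y + b * z * (y * z⁻¹) := by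
        field_simp
      rw [h3]
      exact O.add_mem _ _ h h2
    · refine ⟨z, hz, hz0, ?_⟩
      have h2 := O.mul_mem _ _ h h1
      have h3 : (a + b) * z = a * y * (y * z⁻¹)⁻¹ + b * z := by
        field_simp
      rw [h3]
      exact O.add_mem _ _ h2 h'
  zero_mem' := ⟨1, F.one_mem, one_ne_zero, by simp⟩
  neg_mem' := by
    rintro a ⟨y, hy, hy0, h⟩
    refine ⟨y, hy, hy0, ?_⟩
    rw [neg_mul]
    exact O.neg_mem _ h
  mem_or_inv_mem' x := by
    rcases O.mem_or_inv_mem x with h | h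
    · exact Or.inl ⟨1, F.one_mem, one_ne_zero, by simpa using h⟩
    · exact Or.inr ⟨1, F.one_mem, one_ne_zero, by simpa using h⟩

theorem mem_coarse {O : ValuationSubring K} {F : Subfield K} {x : K} :
    x ∈ coarse O F ↔ ∃ y ∈ F, y ≠ 0 ∧ x * y ∈ O := Iff.rfl

theorem le_coarse {O : ValuationSubring K} {F : Subfield K} {x : K} (h : x ∈ O) :
    x ∈ coarse O F := ⟨1, F.one_mem, one_ne_zero, by simpa using h⟩

theorem sub_coarse {O : ValuationSubring K} {F : Subfield K} {x : K} (h : x ∈ F) :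
    x ∈ coarse O F := by
  by_cases hx : x = 0
  · subst hx
    exact (coarse O F).zero_mem
  · exact ⟨x⁻¹, F.inv_mem h, inv_ne_zero hx, by rw [mul_inv_cancel₀ hx]; exact O.one_mem⟩

/-- a valuation ring is integrally closed -/
theorem mem_of_integral (O : ValuationSubring K) (R : Subring K) (hR : ∀ x ∈ R, x ∈ O) {x : K}
    (hx : IsIntegral R x) : x ∈ O := by
  have h1 : IsIntegral O x := by
    obtain ⟨p, hp, hp'⟩ := hx
    let φ : R →+* O := Subring.inclusion (S := R) (T := O.toSubring) hR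
    refine ⟨p.map φ, hp.map φ, ?_⟩
    rw [Polynomial.eval₂_map]
    exact hp'
  rw [IsIntegrallyClosed.isIntegral_iff] at h1
  obtain ⟨y, rfl⟩ := h1
  exact y.2

theorem mem_of_pow (O : ValuationSubring K) {x : K} {n : ℕ} (hn : 0 < n) (h : x ^ n ∈ O) :
    x ∈ O := by
  rw [← ValuationSubring.valuation_le_one_iff] at h ⊢
  rw [map_pow] at h
  exact (pow_le_one_iff_of_nonneg zero_le (by omega)).1 h

/-- the units of a valuation ring -/
def OU (O : ValuationSubring K) : Subgroup Kˣ where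
  carrier := {x | (x : K) ∈ O ∧ ((x⁻¹ : Kˣ) : K) ∈ O}
  mul_mem' {a b} ha hb := by
    refine ⟨?_, ?_⟩
    · rw [Units.val_mul]
      exact O.mul_mem _ _ ha.1 hb.1
    · rw [mul_inv_rev, Units.val_mul]
      exact O.mul_mem _ _ hb.2 ha.2
  one_mem' := ⟨O.one_mem, by simp⟩
  inv_mem' {a} ha := ⟨ha.2, by simpa using ha.1⟩

theorem mem_OU {O : ValuationSubring K} {x : Kˣ} :
    x ∈ OU O ↔ (x : K) ∈ O ∧ ((x⁻¹ : Kˣ) : K) ∈ O := Iff.rfl

theorem OU_of_pow {O : ValuationSubring K} {x : Kˣ} {n : ℕ} (hn : 0 < n) (h : x ^ n ∈ OU O) :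
    x ∈ OU O := by
  refine ⟨mem_of_pow O hn ?_, mem_of_pow O hn ?_⟩
  · simpa using h.1
  · have := h.2
    rw [← inv_pow] at this
    simpa using this

theorem mem_OU_iff {O : ValuationSubring K} {x : Kˣ} : x ∈ OU O ↔ O.valuation (x : K) = 1 := by
  rw [mem_OU, ← ValuationSubring.valuation_le_one_iff, ← ValuationSubring.valuation_le_one_iff]
  rw [Units.val_inv_eq_inv_val, map_inv₀]
  have h0 : O.valuation (x : K) ≠ 0 := by
    rw [Valuation.ne_zero_iff]
    exact x.ne_zero
  constructor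
  · rintro ⟨h1, h2⟩
    refine le_antisymm h1 ?_
    exact (inv_le_one₀ (zero_lt_iff.2 h0)).1 h2
  · intro h
    rw [h]
    simp


section cover

variable {D : Type u} [Group D] [MulSemiringAction D K]

theorem act_mem {A : Subgroup Kˣ} (hinv : ∀ g : D, ∀ a ∈ A, ∃ b ∈ A, (b : K) = g • (a : K)) (g : D)
    {a : Kˣ} (ha : a ∈ A) : act D g a ∈ A := by
  obtain ⟨b, hb, hb'⟩ := hinv g a ha
  have : act D g a = b := Units.ext (by rw [act_val, hb'])
  rw [this]
  exact hb

/-- the action on the additive group -/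
@[instance_reducible]
def addAct (A : Subgroup Kˣ) (hinv : ∀ g : D, ∀ a ∈ A, act D g a ∈ A) :
    DistribMulAction D (Additive A) where
  smul g a := Additive.ofMul ⟨act D g a.toMul, hinv g _ a.toMul.2⟩
  one_smul a := by
    apply Additive.toMul.injective
    apply Subtype.ext
    exact act_one _
  mul_smul g h a := by
    apply Additive.toMul.injective
    apply Subtype.ext
    exact act_mul _ _ _
  smul_zero g := by
    apply Additive.toMul.injective
    apply Subtype.ext
    exact map_one _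
  smul_add g a b := by
    apply Additive.toMul.injective
    apply Subtype.ext
    exact map_mul _ _ _

theorem cov_mul (A : Subgroup Kˣ) (hA : A.FG) (hinv : ∀ g : D, ∀ a ∈ A, act D g a ∈ A)
    {ι : Type*} [Finite ι] (e : ι → Kˣ) (he : ∀ i, e i ∈ A) (U : Subgroup Kˣ)
    (hU : ∀ n : ℕ, 0 < n → ∀ a, a ^ n ∈ U → a ∈ U) (h : ∀ g : D, ∃ i, act D g (e i) ∈ U) :
    ∃ i, ∃ D' : Subgroup D, D'.FiniteIndex ∧ ∀ g ∈ D', act D g (e i) ∈ U := by
  let _ := addAct A hinv
  have : Module.Finite ℤ (Additive A) := by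
    rw [Module.Finite.iff_addGroup_fg]
    have : Group.FG A := (Group.fg_iff_subgroup_fg A).2 hA
    exact GroupFG.iff_add_fg.1 this
  let V : AddSubgroup (Additive A) := (U.comap A.subtype).toAddSubgroup
  obtain ⟨i, D', hD', h'⟩ := cov (D := D) (A := Additive A)
    (fun i => Additive.ofMul ⟨e i, he i⟩) (fun _ => V)
    (by
      intro i n hn a ha
      exact hU n hn _ ha)
    (by
      intro g
      obtain ⟨i, hi⟩ := h g
      exact ⟨i, hi⟩)
  exact ⟨i, D', hD', fun g hg => h' g hg⟩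

theorem step2 (A : Subgroup Kˣ) (hA : A.FG) (hinv : ∀ g : D, ∀ a ∈ A, act D g a ∈ A)
    (hk : ∀ g : D, ∀ x ∈ k, g • x = x) {s : ℕ} (b : Fin s → Kˣ) (hb : ∀ i, b i ∈ A)
    (hind : Ind k b) (hnot : ¬ AlgebraicIndependent k fun i => ((b i : Kˣ) : K))
    (O : ValuationSubring K) (hO : ∀ x ∈ k, x ∈ O) :
    ∃ e ∈ A, e ∉ kU k ∧ ∃ D1 : Subgroup D, D1.FiniteIndex ∧ ∀ g ∈ D1, act D g e ∈ OU O := by
  classical
  rw [algebraicIndependent_iff] at hnot
  push Not at hnot
  obtain ⟨p, hp, hp0⟩ := hnot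
  let mon : (Fin s →₀ ℕ) → Kˣ := fun d => ∏ i, b i ^ d i
  have hsum : ∑ d ∈ p.support, ((p.coeff d : k) : K) * (mon d : K) = 0 := by
    rw [MvPolynomial.aeval_def, MvPolynomial.eval₂_eq'] at hp
    rw [← hp]
    refine Finset.sum_congr rfl fun d _ => ?_
    simp only [mon, Units.coe_prod, Units.val_pow_eq_pow_val]
    rfl
  let ι := {q : p.support × p.support // q.1 ≠ q.2}
  let e : ι → Kˣ := fun q => mon q.1.1 * (mon q.1.2)⁻¹
  have hmon : ∀ d, mon d ∈ A := fun d => Subgroup.prod_mem _ fun i _ => Subgroup.pow_mem _ (hb i) _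
  have heA : ∀ q, e q ∈ A := fun q => A.mul_mem (hmon _) (A.inv_mem (hmon _))
  have hek : ∀ q, e q ∉ kU k := by
    rintro ⟨⟨d, d'⟩, hq⟩ h
    have h1 : mon d * (mon d')⁻¹ = ∏ i, b i ^ ((d.1 i : ℤ) - d'.1 i) := by
      simp only [mon, zpow_sub, zpow_natCast, Finset.prod_mul_distrib, Finset.prod_inv_distrib]
    have h2 := hind _ (by
      have h3 : ∏ i, b i ^ ((d.1 i : ℤ) - d'.1 i) ∈ kU k := h1 ▸ h
      exact h3)
    apply hq
    apply Subtype.ext
    ext i
    have := congrFun h2 i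
    simp only [Pi.zero_apply] at this
    show d.1 i = d'.1 i
    omega
  obtain ⟨q, D1, hD1, h1⟩ := cov_mul A hA hinv e heA (OU O) (fun n hn a ha => OU_of_pow hn ha) (by
    intro g
    have hne : p.support.Nonempty := by
      rw [Finset.nonempty_iff_ne_empty]
      intro h
      exact hp0 (MvPolynomial.support_eq_empty.1 h)
    obtain ⟨d, hd, hmax⟩ := Finset.exists_max_image p.support
      (fun d => O.valuation (g • (mon d : K))) hne
    have hco : ∀ d ∈ p.support, O.valuation ((p.coeff d : k) : K) = 1 := by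
      intro d hd
      have hne0 : ((p.coeff d : k) : K) ≠ 0 := by
        rw [MvPolynomial.mem_support_iff] at hd
        simpa using hd
      have : (Units.mk0 _ hne0) ∈ OU O := by
        refine ⟨hO _ (p.coeff d).2, ?_⟩
        rw [Units.val_inv_eq_inv_val]
        exact hO _ (k.inv_mem (p.coeff d).2)
      exact mem_OU_iff.1 this
    have hex : ∃ d' ∈ p.support, d' ≠ d ∧
        O.valuation (g • (mon d' : K)) = O.valuation (g • (mon d : K)) := by
      by_contra hcon
      push Not at hcon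
      have hlt : ∀ d' ∈ p.support.erase d, O.valuation (g • (((p.coeff d' : k) : K) * (mon d' : K))) <
          O.valuation (g • (mon d : K)) := by
        intro d' hd'
        rw [Finset.mem_erase] at hd'
        rw [smul_mul', hk g _ (p.coeff d').2, map_mul, hco _ hd'.2, one_mul]
        exact lt_of_le_of_ne (hmax d' hd'.2) (hcon d' hd'.2 hd'.1)
      have h2 := congrArg (fun x => g • x) hsum
      simp only [smul_zero] at h2
      rw [← Finset.add_sum_erase _ _ hd, smul_add, Finset.smul_sum] at h2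
      have h3 := Valuation.map_sum_lt O.valuation (g := O.valuation (g • (mon d : K))) (by
        rw [Valuation.ne_zero_iff]
        exact (act D g (mon d)).ne_zero) hlt
      rw [← eq_neg_iff_add_eq_zero] at h2
      rw [← Valuation.map_neg, ← h2, smul_mul', hk g _ (p.coeff d).2, map_mul, hco _ hd, one_mul] at h3
      exact lt_irrefl _ h3
    obtain ⟨d', hd', hne', heq⟩ := hex
    refine ⟨⟨(⟨d, hd⟩, ⟨d', hd'⟩), fun h => hne' (Subtype.ext_iff.1 h).symm⟩, ?_⟩
    rw [mem_OU_iff]
    have h4 : act D g (e ⟨(⟨d, hd⟩, ⟨d', hd'⟩), fun h => hne' (Subtype.ext_iff.1 h).symm⟩) =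
        act D g (mon d) * (act D g (mon d'))⁻¹ := by
      simp [e]
    rw [h4, Units.val_mul, Units.val_inv_eq_inv_val, map_mul, map_inv₀, act_val, act_val, heq]
    refine mul_inv_cancel₀ ?_
    rw [Valuation.ne_zero_iff]
    exact (act D g (mon d)).ne_zero)
  exact ⟨e q, heA q, hek q, D1, hD1, h1⟩

end cover


theorem exists_max (P : ℕ → Prop) (n : ℕ) (h0 : P 0) (hn : ∀ t, P t → t ≤ n) :
    ∃ t, P t ∧ ∀ t', P t' → t' ≤ t := by
  classical
  exact ⟨Nat.findGreatest P n, Nat.findGreatest_spec (Nat.zero_le n) h0,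
    fun t' ht' => Nat.le_findGreatest (hn t' ht') ht'⟩

theorem fg_of_le {A B : Subgroup Kˣ} (hA : A.FG) (h : B ≤ A) : B.FG := by
  have h1 : Module.Finite ℤ (Additive A) := by
    rw [Module.Finite.iff_addGroup_fg]
    have : Group.FG A := (Group.fg_iff_subgroup_fg A).2 hA
    exact GroupFG.iff_add_fg.1 this
  have h2 : IsNoetherian ℤ (Additive A) := inferInstance
  have h3 : (AddSubgroup.toIntSubmodule (B.comap A.subtype).toAddSubgroup).FG := IsNoetherian.noetherian _
  have h4 : (B.comap A.subtype).toAddSubgroup.FG := by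
    rwa [Submodule.fg_iff_addSubgroup_fg] at h3
  have h5 : (B.comap A.subtype).FG := (Subgroup.fg_iff_add_fg _).2 h4
  have h6 : Group.FG (B.subgroupOf A) := (Group.fg_iff_subgroup_fg _).2 h5
  have h7 : Group.FG B := Group.fg_of_surjective
    (f := (Subgroup.subgroupOfEquivOfLe h).toMonoidHom) (Subgroup.subgroupOfEquivOfLe h).surjective
  exact (Group.fg_iff_subgroup_fg _).1 h7

theorem ind_comp {s t : ℕ} {b : Fin s → Kˣ} (σ : Fin t → Fin s) (hσ : Function.Injective σ)
    (h : AlgebraicIndependent k (fun i => ((b i : Kˣ) : K))) : Ind k (b ∘ σ) :=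
  ind_of_alg k (h.comp σ hσ)

theorem cons_ind {A E : Subgroup Kˣ} (hiso : ∀ x ∈ A, ∀ n : ℕ, 0 < n → x ^ n ∈ E → x ∈ E)
    (hEA : E ≤ A) (hkE : ∀ x ∈ A, x ∈ kU k → x ∈ E) {n : ℕ} {c : Fin n → Kˣ} (hcE : ∀ i, c i ∈ E)
    (hc : Ind k c) {a : Kˣ} (ha : a ∈ A) (haE : a ∉ E) : Ind k (Fin.cons a c : Fin (n + 1) → Kˣ) := by
  intro e he
  rw [Fin.prod_univ_succ] at he
  simp only [Fin.cons_zero, Fin.cons_succ] at he
  have hpE : ∏ i : Fin n, c i ^ e i.succ ∈ E :=
    Subgroup.prod_mem _ fun i _ => Subgroup.zpow_mem _ (hcE i) _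
  have h1 : a ^ e 0 * ∏ i : Fin n, c i ^ e i.succ ∈ E :=
    hkE _ (A.mul_mem (A.zpow_mem ha _) (hEA hpE)) he
  have h2 : a ^ e 0 ∈ E := (E.mul_mem_cancel_right hpE).1 h1
  have h3 : e 0 = 0 := by
    by_contra hne
    apply haE
    refine hiso a ha (e 0).natAbs (by omega) ?_
    rcases Int.natAbs_eq (e 0) with h | h
    · rw [h] at h2
      rwa [zpow_natCast] at h2
    · rw [h, zpow_neg] at h2
      rw [← zpow_natCast]
      exact E.inv_mem_iff.1 h2
  rw [h3, zpow_zero, one_mul] at he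
  have h4 := hc _ he
  funext i
  refine Fin.cases h3 (fun i => ?_) i
  exact congrFun h4 i

/-- the isolator -/
def isol (A B : Subgroup Kˣ) : Subgroup Kˣ where
  carrier := {x | x ∈ A ∧ ∃ N : ℕ, 0 < N ∧ x ^ N ∈ B}
  mul_mem' := by
    rintro a b ⟨ha, N, hN, h⟩ ⟨hb, M, hM, h'⟩
    refine ⟨A.mul_mem ha hb, N * M, Nat.mul_pos hN hM, ?_⟩
    rw [mul_pow]
    refine B.mul_mem ?_ ?_
    · rw [pow_mul]
      exact B.pow_mem h _
    · rw [mul_comm, pow_mul]
      exact B.pow_mem h' _
  one_mem' := ⟨A.one_mem, 1, one_pos, by simp [B.one_mem]⟩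
  inv_mem' := by
    rintro a ⟨ha, N, hN, h⟩
    refine ⟨A.inv_mem ha, N, hN, ?_⟩
    rw [inv_pow]
    exact B.inv_mem h

theorem mem_isol {A B : Subgroup Kˣ} {x : Kˣ} :
    x ∈ isol A B ↔ x ∈ A ∧ ∃ N : ℕ, 0 < N ∧ x ^ N ∈ B := Iff.rfl

theorem alg_mono (R S : Subring K) (h : R ≤ S) {x : K} (hx : IsAlgebraic R x) : IsAlgebraic S x := by
  obtain ⟨p, hp, hp'⟩ := hx
  have hinj : Function.Injective (Subring.inclusion h) := Set.inclusion_injective h
  refine ⟨p.map (Subring.inclusion h), ?_, ?_⟩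
  · rwa [Ne, Polynomial.map_eq_zero_iff hinj]
  · rw [Polynomial.aeval_def, Polynomial.eval₂_map]
    exact hp'

theorem main_ind (n : ℕ) : ∀ (D : Type u) [Group D] [MulSemiringAction D K] (A : Subgroup Kˣ),
    A.FG → (∀ a ∈ A, IsOfFinOrder a → a = 1) →
    (∀ g : D, ∀ a ∈ A, ∃ b ∈ A, (b : K) = g • (a : K)) →
    (∀ g : D, ∀ x ∈ k, g • x = x) →
    (∀ a ∈ A, (MulAction.orbit D (a : K)).Finite → (a : K) ∈ k) →
    (∀ c : Fin n → Kˣ, (∀ i, c i ∈ A) → ¬ Ind k c) →
    ∀ (s : ℕ) (b : Fin s → Kˣ), (∀ i, b i ∈ A) → Ind k b →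
      AlgebraicIndependent k (fun i => ((b i : Kˣ) : K)) := by
  induction n with
  | zero =>
    intro D _ _ A hA htf hinv hk horb hn
    exact absurd (fun e _ => Subsingleton.elim _ _) (hn Fin.elim0 (fun i => i.elim0))
  | succ n ih =>
    intro D _ _ A hA htf hinv hk horb hn s b hbA hb
    by_contra hnot
    have hact : ∀ g : D, ∀ a ∈ A, act D g a ∈ A := fun g a ha => act_mem hinv g ha
    have halgk : ∀ a ∈ A, IsAlgebraic k (a : K) → a ∈ kU k := fun a ha h =>
      horb a ha (finite_orbit_of_alg k hk h)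
    have hiso : ∀ x ∈ A, ∀ n : ℕ, 0 < n → x ^ n ∈ kU k → x ∈ kU k := by
      intro x hx n hn h
      apply halgk x hx
      have h1 : IsAlgebraic k ((x : K) ^ n) := by
        have : (x : K) ^ n = algebraMap k K ⟨((x ^ n : Kˣ) : K), h⟩ :=
          (Units.val_pow_eq_pow_val x n).symm
        rw [this]
        exact isAlgebraic_algebraMap _
      exact h1.of_pow hn
    let P : ℕ → Prop := fun t => ∃ v : Fin t → Kˣ, (∀ i, v i ∈ A) ∧
      AlgebraicIndependent k (fun i => ((v i : Kˣ) : K))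
    have hPn : ∀ t, P t → t ≤ n := by
      rintro t ⟨v, hvA, hv⟩
      by_contra hlt
      push Not at hlt
      exact hn (v ∘ Fin.castLE (by omega : n + 1 ≤ t)) (fun i => hvA _)
        (ind_comp k _ (Fin.castLE_injective _) hv)
    obtain ⟨t, ht, htmax⟩ := exists_max P n
      ⟨Fin.elim0, fun i => i.elim0, algebraicIndependent_empty_type_iff.2 (algebraMap k K).injective⟩ hPn
    have ht1 : 1 ≤ t := by
      have hs : s ≠ 0 := by
        rintro rfl
        exact hnot (algebraicIndependent_empty_type_iff.2 (algebraMap k K).injective)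
      obtain ⟨s', rfl⟩ := Nat.exists_eq_succ_of_ne_zero hs
      apply htmax
      refine ⟨fun _ => b 0, fun _ => hbA 0, ?_⟩
      rw [algebraicIndependent_unique_type_iff]
      intro halg
      have h1 := halgk _ (hbA 0) halg
      have h2 := hb (Pi.single 0 1) (by
        have : ∏ i, b i ^ (Pi.single (M := fun _ => ℤ) 0 1 i) = b 0 := by
          rw [Finset.prod_eq_single 0]
          · simp
          · intro i _ hi
            simp [Pi.single_eq_of_ne hi]
          · simp
        rw [this]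
        exact h1)
      have := congrFun h2 0
      simp at this
    obtain ⟨v, hvA, hv⟩ := ht
    -- the maximal pair
    let Q : ℕ → Prop := fun m => m < t ∧ ∃ (DE : Subgroup D) (E : Subgroup Kˣ), DE.FiniteIndex ∧
      E ≤ A ∧ (∀ g ∈ DE, ∀ a ∈ E, act D g a ∈ E) ∧
      (∀ x ∈ A, ∀ n : ℕ, 0 < n → x ^ n ∈ E → x ∈ E) ∧ (∀ x ∈ A, x ∈ kU k → x ∈ E) ∧
      ∃ f : Fin m → Kˣ, (∀ i, f i ∈ E) ∧ Ind k f ∧ Gen k E f
    obtain ⟨m, ⟨hmt, DE, E, hDE, hEA, hEinv, hEiso, hkE, f, hfE, hfind, hfgen⟩, hmmax⟩ :=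
      exists_max Q t (by
        refine ⟨ht1, ⊤, A ⊓ kU k, inferInstance, inf_le_left, ?_, ?_, fun x hx hx' => ⟨hx, hx'⟩,
          Fin.elim0, fun i => i.elim0, fun e _ => Subsingleton.elim _ _, ?_⟩
        · rintro g - a ⟨ha, ha'⟩
          refine ⟨hact g a ha, ?_⟩
          have : act D g a = a := Units.ext (hk g _ ha')
          rw [this]
          exact ha'
        · rintro x hx n hn ⟨-, h⟩
          exact ⟨hx, hiso x hx n hn h⟩
        · rintro a ⟨-, ha⟩
          exact ⟨0, by simpa using (show ((a : Kˣ) : K) ∈ k from ha)⟩) (fun t' h => h.1.le)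
    -- facts for invariant subgroups
    have hsub : ∀ (D' : Subgroup D) (E : Subgroup Kˣ), D'.FiniteIndex → E ≤ A →
        (∀ g ∈ D', ∀ a ∈ E, act D g a ∈ E) → (∀ c : Fin n → Kˣ, (∀ i, c i ∈ E) → ¬ Ind k c) →
        ∀ (s : ℕ) (b : Fin s → Kˣ), (∀ i, b i ∈ E) → Ind k b →
        AlgebraicIndependent k (fun i => ((b i : Kˣ) : K)) := by
      intro D' E hD' hEA hEinv hEn
      refine ih D' E (fg_of_le hA hEA) (fun a ha => htf a (hEA ha)) ?_ (fun g x hx => hk g x hx) ?_ hEn
      · intro g a ha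
        exact ⟨act D g a, hEinv g g.2 a ha, rfl⟩
      · intro a ha hfin
        exact horb a (hEA ha) (finite_orbit_of_index D' hD' _ hfin)
    have hrank : ∀ c : Fin n → Kˣ, (∀ i, c i ∈ E) → ¬ Ind k c := by
      intro c hc hc'
      have h1 := ind_le k f c hc' (fun i => hfgen _ (hc i))
      have h2 := hPn t ⟨v, hvA, hv⟩
      omega
    have hfalg := hsub DE E hDE hEA hEinv hrank m f hfE hfind
    obtain ⟨i0, hi0⟩ := augment k hfalg hv hmt
    obtain ⟨O, hkO, hO2, hO3⟩ := val k f (v i0) hi0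
    obtain ⟨e, heA, hek, D1, hD1, he1⟩ := step2 k A hA hact hk b hbA hb hnot O hkO
    let C : Subgroup Kˣ := Subgroup.closure {x | ∃ g ∈ D1, x = act D g e}
    have hCA : C ≤ A := by
      rw [Subgroup.closure_le]
      rintro _ ⟨g, -, rfl⟩
      exact hact g e heA
    have hCO : C ≤ OU O := by
      rw [Subgroup.closure_le]
      rintro _ ⟨g, hg, rfl⟩
      exact he1 g hg
    have heC : e ∈ C := Subgroup.subset_closure ⟨1, D1.one_mem, (act_one e).symm⟩
    have hCinv : ∀ g ∈ D1, ∀ x ∈ C, act D g x ∈ C := by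
      intro g hg x hx
      have : C ≤ C.comap (act D g) := by
        rw [Subgroup.closure_le]
        rintro _ ⟨h, hh, rfl⟩
        exact Subgroup.subset_closure ⟨g * h, D1.mul_mem hg hh, (act_mul g h e).symm⟩
      exact this hx
    let D2 : Subgroup D := DE ⊓ D1
    have hD2 : D2.FiniteIndex := inferInstance
    let E' : Subgroup Kˣ := isol A (E ⊔ C)
    have hE'A : E' ≤ A := fun x hx => hx.1
    have hEE' : E ≤ E' := fun x hx => ⟨hEA hx, 1, one_pos, by
      rw [pow_one]; exact Subgroup.mem_sup_left hx⟩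
    have heE' : e ∈ E' := ⟨heA, 1, one_pos, by rw [pow_one]; exact Subgroup.mem_sup_right heC⟩
    have hE'inv : ∀ g ∈ D2, ∀ x ∈ E', act D g x ∈ E' := by
      rintro g ⟨hg, hg'⟩ x ⟨hx, N, hN, h⟩
      refine ⟨hact g x hx, N, hN, ?_⟩
      rw [← map_pow]
      have : E ⊔ C ≤ (E ⊔ C).comap (act D g) := by
        refine sup_le ?_ ?_
        · intro y hy
          exact Subgroup.mem_sup_left (hEinv g hg y hy)
        · intro y hy
          exact Subgroup.mem_sup_right (hCinv g hg' y hy)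
      exact this h
    have hE'iso : ∀ x ∈ A, ∀ n : ℕ, 0 < n → x ^ n ∈ E' → x ∈ E' := by
      rintro x hx n hn ⟨-, N, hN, h⟩
      exact ⟨hx, n * N, Nat.mul_pos hn hN, by rwa [pow_mul]⟩
    have hkE' : ∀ x ∈ A, x ∈ kU k → x ∈ E' := fun x hx hx' => hEE' (hkE x hx hx')
    have hE'FG := fg_of_le hA hE'A
    obtain ⟨m', f', hf'E, hf'ind, hf'gen⟩ := exists_basis k E' hE'FG
      (fun x hx n hn h => hiso x (hE'A hx) n hn h)
    have heE : e ∉ E := by
      intro he
      obtain ⟨x, hx⟩ := hfgen e he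
      have h1 : e * (∏ i, f i ^ x i)⁻¹ ∈ kU k := hx
      have h2 : kU k ≤ OU O := fun y hy => ⟨hkO _ hy, hkO _ ((kU k).inv_mem hy)⟩
      have h3 : (∏ i, f i ^ x i) ∈ OU O := by
        have h4 := (OU O).mul_mem ((OU O).inv_mem (h2 h1)) (hCO heC)
        simpa [mul_comm] using h4
      have h5 := hO2 x h3.1 h3.2
      rw [h5] at h1
      simp only [Pi.zero_apply, zpow_zero, Finset.prod_const_one, inv_one, mul_one] at h1
      exact hek h1
    have hmm' : m < m' := by
      have h1 := cons_ind k hEiso hEA hkE hfE hfind heA heE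
      refine ind_le k f' _ h1 (fun i => hf'gen _ ?_)
      refine Fin.cases ?_ (fun i => ?_) i
      · simpa using heE'
      · simpa using hEE' (hfE i)
    have htm' : t ≤ m' := by
      by_contra hlt
      push Not at hlt
      have := hmmax m' ⟨hlt, D2, E', hD2, hE'A, hE'inv, hE'iso, hkE', f', hf'E, hf'ind, hf'gen⟩
      omega
    let F : Subfield K := Subfield.closure ((k : Set K) ∪ Set.range fun i => ((f i : Kˣ) : K))
    let W : ValuationSubring K := coarse O F
    have hkW : ∀ x ∈ k, x ∈ W := fun x hx => le_coarse (hkO x hx)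
    have hEW : E ≤ OU W := by
      intro x hx
      have h1 : ∀ i, f i ∈ kU F := fun i => Subfield.subset_closure (Or.inr ⟨i, rfl⟩)
      obtain ⟨y, hy⟩ := hfgen x hx
      have h2 : x * (∏ i, f i ^ y i)⁻¹ ∈ kU F := Subfield.subset_closure (Or.inl hy)
      have h3 : (∏ i, f i ^ y i) ∈ kU F := Subgroup.prod_mem _ fun i _ => Subgroup.zpow_mem _ (h1 i) _
      have h4 : x ∈ kU F := by
        have := (kU F).mul_mem h2 h3
        simpa using this
      exact ⟨sub_coarse h4, sub_coarse ((kU F).inv_mem h4)⟩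
    have hCW : C ≤ OU W := fun x hx => ⟨le_coarse (hCO hx).1, le_coarse (hCO hx).2⟩
    have hE'W : E' ≤ OU W := by
      rintro x ⟨-, N, hN, h⟩
      exact OU_of_pow hN ((sup_le hEW hCW) h)
    have haW : ((v i0 : Kˣ) : K) ∉ W := by
      rintro ⟨y, hy, hy0, h⟩
      have h1 := (hO3 y⁻¹ (F.inv_mem hy)).2 (inv_ne_zero hy0)
      apply h1
      rw [mul_inv, inv_inv, inv_inv]
      exact h
    have haE' : v i0 ∉ E' := fun h => haW (hE'W h).1
    have hrank' : ∀ c : Fin n → Kˣ, (∀ i, c i ∈ E') → ¬ Ind k c := by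
      intro c hc hc'
      refine hn (Fin.cons (v i0) c) ?_ (cons_ind k hE'iso hE'A hkE' hc hc' (hvA i0) haE')
      intro i
      refine Fin.cases ?_ (fun i => ?_) i
      · exact hvA i0
      · exact hE'A (hc i)
    have hf'alg := hsub D2 E' hD2 hE'A hE'inv hrank' m' f' hf'E hf'ind
    have hm't : m' ≤ t := htmax m' ⟨f', fun i => hE'A (hf'E i), hf'alg⟩
    have hint := rint (D := D2) A hA htf (fun g a ha => hinv g a ha) k (fun g x hx => hk g x hx)
      (fun a ha hfin => horb a ha (finite_orbit_of_index D2 hD2 _ hfin)) E' hE'A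
      (fun g a ha => ⟨act D g a, hE'inv g g.2 a ha, rfl⟩) f' hf'E hf'gen hf'alg (by
        intro x hx
        by_contra hcon
        have h1 : Transcendental (Algebra.adjoin k (Set.range fun i => ((f' i : Kˣ) : K))) (x : K) := by
          intro halg
          apply hcon
          refine alg_mono (Algebra.adjoin k (Set.range fun i => ((f' i : Kˣ) : K))).toSubring
            (Subfield.closure ((k : Set K) ∪ (fun a : Kˣ => (a : K)) '' (E' : Set Kˣ))).toSubring
            ?_ halg
          have h2 : Algebra.adjoin k (Set.range fun i => ((f' i : Kˣ) : K)) ≤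
            ({ (Subfield.closure ((k : Set K) ∪ (fun a : Kˣ => (a : K)) '' (E' : Set Kˣ))).toSubring with
               algebraMap_mem' := fun r => Subfield.subset_closure (Or.inl r.2) } : Subalgebra k K) := by
            rw [Algebra.adjoin_le_iff]
            rintro _ ⟨i, rfl⟩
            exact Subfield.subset_closure (Or.inr ⟨f' i, hf'E i, rfl⟩)
          exact h2
        have h3 := cons_indep k hf'alg h1
        have h4 := htmax (m' + 1) ⟨Fin.cons x f', ?_, ?_⟩
        · omega
        · intro i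
          refine Fin.cases ?_ (fun i => ?_) i
          · exact hx
          · exact hE'A (hf'E i)
        · have : (fun i => (((Fin.cons x f' : Fin (m' + 1) → Kˣ) i : Kˣ) : K)) =
              Fin.cons (x : K) (fun i => ((f' i : Kˣ) : K)) := by
            funext i
            refine Fin.cases ?_ (fun i => ?_) i
            · simp
            · simp
          rw [this]
          exact h3)
    refine haW (mem_of_integral W _ ?_ (hint _ (hvA i0)))
    have : Subring.closure ((k : Set K) ∪ (fun a : Kˣ => (a : K)) '' (E' : Set Kˣ)) ≤ W.toSubring := by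
      rw [Subring.closure_le]
      rintro x (hx | ⟨y, hy, rfl⟩)
      · exact hkW x hx
      · exact (hE'W hy).1
    exact this

end Ros

theorem roseblade {D K : Type u} [Group D] [Field K] [MulSemiringAction D K] (A : Subgroup Kˣ)
    (hA : A.FG) (htf : ∀ a ∈ A, IsOfFinOrder a → a = 1)
    (hinv : ∀ g : D, ∀ a ∈ A, ∃ b ∈ A, (b : K) = g • (a : K)) (k : Subfield K)
    (hk : ∀ g : D, ∀ x ∈ k, g • x = x)
    (horb : ∀ a ∈ A, (MulAction.orbit D (a : K)).Finite → (a : K) ∈ k) {s : ℕ}
    (b : Fin s → Kˣ) (hb : ∀ i, b i ∈ A)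
    (hind : ∀ e : Fin s → ℤ, ((∏ i, b i ^ e i : Kˣ) : K) ∈ k → e = 0) :
    AlgebraicIndependent k (fun i => ((b i : Kˣ) : K)) := by
  obtain ⟨m, f, hfA, hf, hfg⟩ := Ros.exists_basis k A hA (by
    intro x hx n hn h
    refine horb x hx (Ros.finite_orbit_of_alg k hk ?_)
    have h1 : IsAlgebraic k ((x : K) ^ n) := by
      have : (x : K) ^ n = algebraMap k K ⟨((x ^ n : Kˣ) : K), h⟩ :=
        (Units.val_pow_eq_pow_val x n).symm
      rw [this]
      exact isAlgebraic_algebraMap _
    exact h1.of_pow hn)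
  refine Ros.main_ind k (m + 1) D A hA htf hinv hk horb ?_ s b hb hind
  intro c hc hc'
  have := Ros.ind_le k f c hc' (fun i => hfg _ (hc i))
  omega

end Pool.Agent.D5
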