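import Pool.Agent.Lib.MP_d5e6ed_al.B.SemiField

/-!
# The cocycle of the semilinear action on a line (MP_d5e6ed_al, module SEMI)
-/

set_option autoImplicit false

namespace Pool.Agent.D5

universe u

open Subgroup

namespace SemiAux

/-- the action of a subgroup preserving `p` on the quotient ring -/
@[instance_reducible]
noncomputable def quotAction {P R : Type*} [Group P] [CommRing R] [MulSemiringAction P R]
    (p : Ideal R) (D : Subgroup P) (h : ∀ g ∈ D, ∀ r, r ∈ p ↔ g • r ∈ p) :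
    MulSemiringAction D (R ⧸ p) where
  smul g := Ideal.quotientMap p (MulSemiringAction.toRingHom P R (g : P))
    (fun r hr => (h g g.2 r).1 hr)
  one_smul x := by
    obtain ⟨r, rfl⟩ := Ideal.Quotient.mk_surjective x
    show Ideal.Quotient.mk p ((1 : P) • r) = _
    rw [one_smul]
  mul_smul g g' x := by
    obtain ⟨r, rfl⟩ := Ideal.Quotient.mk_surjective x
    show Ideal.Quotient.mk p (((g : P) * (g' : P)) • r) = Ideal.Quotient.mk p ((g : P) • ((g' : P) • r))
    rw [mul_smul]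
  smul_zero g := map_zero _
  smul_add g := map_add _
  smul_one g := map_one _
  smul_mul g := map_mul _

end SemiAux

section setup

variable {P M : Type u} [Group P] [AddCommGroup M] [DistribMulAction P M] {A : Subgroup P}
  {R : Type u} [CommRing R] [Module R M] [MulSemiringAction P R]

theorem semi [Algebra.FiniteType ℤ R] (S : Setup (M := M) A R) (hP : PC P) [A.Normal]
    (p : Ideal R) [p.IsPrime] (x : M) (hx : ∀ r ∈ p, r • x = 0)
    (hx' : ∀ r, r ∉ p → r • x ≠ 0) :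
    ∃ r : R, r ∉ p ∧ ∀ C : Subgroup P,
      (∀ g ∈ C, (∀ r, r ∈ p ↔ g • r ∈ p) ∧ ∃ s : R, s ∉ p ∧ s • (g • (r • x) - r • x) = 0) →
      ∃ C' ≤ C, C'.relIndex C ≠ 0 ∧ ∀ g ∈ C', ∀ a : A, g • S.α a - S.α a ∈ p := by
  classical
  have hprod : ∀ {s t : R}, s ∉ p → t ∉ p → s * t ∉ p := fun hs ht h =>
    (Ideal.IsPrime.mem_or_mem inferInstance h).elim hs ht
  let D1 : Subgroup P :=
    { carrier := {g | (∀ r, r ∈ p ↔ g • r ∈ p) ∧
        ∃ s s' : R, s ∉ p ∧ s' ∉ p ∧ s • (g • x) = s' • x}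
      one_mem' := ⟨fun r => by rw [one_smul], 1, 1, Ideal.IsPrime.one_notMem inferInstance,
        Ideal.IsPrime.one_notMem inferInstance, by simp⟩
      mul_mem' := by
        rintro g h ⟨hg, s, s', hs, hs', e⟩ ⟨hh, t, t', ht, ht', f⟩
        refine ⟨fun r => by rw [mul_smul, ← hg, ← hh], s * (g • t), (g • t') * s',
          hprod hs (fun hc => ht ((hg t).2 hc)), hprod (fun hc => ht' ((hg t').2 hc)) hs', ?_⟩
        have h1 : (g • t) • ((g * h) • x) = (g • t') • (g • x) := by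
          rw [mul_smul, ← S.comp, f, S.comp]
        rw [mul_smul s, h1, smul_comm, e, ← mul_smul]
      inv_mem' := by
        rintro g ⟨hg, s, s', hs, hs', e⟩
        have hg' : ∀ r, r ∈ p ↔ g⁻¹ • r ∈ p := fun r => by
          rw [hg (g⁻¹ • r), smul_inv_smul]
        refine ⟨hg', g⁻¹ • s', g⁻¹ • s, fun hc => hs' ((hg' _).2 hc),
          fun hc => hs ((hg' _).2 hc), ?_⟩
        rw [← S.comp, ← e, S.comp, inv_smul_smul] }
  have hD1p : ∀ g ∈ D1, ∀ r, r ∈ p ↔ g • r ∈ p := fun g hg => hg.1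
  let act1 : MulSemiringAction D1 (R ⧸ p) := SemiAux.quotAction p D1 hD1p
  let K := FractionRing (R ⧸ p)
  let act2 : MulSemiringAction D1 K := IsFractionRing.mulSemiringAction D1 (R ⧸ p) K
  let ι : R →+* K := (algebraMap (R ⧸ p) K).comp (Ideal.Quotient.mk p)
  have hι0 : ∀ r, ι r = 0 ↔ r ∈ p := by
    intro r
    show algebraMap (R ⧸ p) K (Ideal.Quotient.mk p r) = 0 ↔ _
    rw [IsFractionRing.to_map_eq_zero_iff, Ideal.Quotient.eq_zero_iff_mem]
  have hιg : ∀ (g : D1) (r : R), g • ι r = ι ((g : P) • r) := by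
    intro g r
    show g • algebraMap (R ⧸ p) K (Ideal.Quotient.mk p r) = _
    rw [← algebraMap.coe_smul']
    rfl
  have hex : ∀ g : D1, ∃ s s' : R, s ∉ p ∧ s' ∉ p ∧ s • ((g : P) • x) = s' • x := fun g => g.2.2
  choose σ σ' hσ hσ' hσe using hex
  have hwd : ∀ (g : D1) (t t' : R), t ∉ p → t • ((g : P) • x) = t' • x →
      ι (σ' g) / ι (σ g) = ι t' / ι t := by
    intro g t t' ht e
    have h1 : (t * σ' g - σ g * t') • x = 0 := by
      rw [sub_smul, mul_smul, mul_smul, ← hσe, ← e, smul_comm, sub_self]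
    have h2 : t * σ' g - σ g * t' ∈ p := by
      by_contra hc
      exact hx' _ hc h1
    have h3 := (hι0 _).2 h2
    rw [map_sub, map_mul, map_mul, sub_eq_zero] at h3
    have h4 : ι t ≠ 0 := fun h => ht ((hι0 _).1 h)
    have h5 : ι (σ g) ≠ 0 := fun h => hσ g ((hι0 _).1 h)
    rw [div_eq_div_iff h5 h4]
    linear_combination h3
  let c : D1 → K := fun g => ι (σ' g) / ι (σ g)
  have hc0 : ∀ g, c g ≠ 0 := fun g =>
    div_ne_zero (fun h => hσ' g ((hι0 _).1 h)) (fun h => hσ g ((hι0 _).1 h))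
  have hc : ∀ g h, c (g * h) = c g * g • c h := by
    intro g h
    have h1 : (σ g * ((g : P) • σ h)) • (((g * h : D1) : P) • x) =
        (((g : P) • σ' h) * σ' g) • x := by
      have h1 : ((g : P) • σ h) • (((g : P) * (h : P)) • x) =
          ((g : P) • σ' h) • ((g : P) • x) := by
        rw [mul_smul, ← S.comp, hσe, S.comp]
      rw [Subgroup.coe_mul, mul_smul (σ g), h1, smul_comm, hσe, ← mul_smul]
    have h2 := hwd (g * h) _ _ (hprod (hσ g) (fun hc => hσ h ((g.2.1 _).2 hc))) h1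
    show ι (σ' (g * h)) / ι (σ (g * h)) = ι (σ' g) / ι (σ g) * g • (ι (σ' h) / ι (σ h))
    rw [h2, smul_div₀', hιg, hιg, map_mul, map_mul]
    rw [mul_comm (ι ((g : P) • σ' h))]
    exact (div_mul_div_comm _ _ _ _).symm
  let φ : A →* K := (ι : R →* K).comp S.α
  let Ab : Subgroup Kˣ := φ.toHomUnits.range
  have hval : ∀ a : A, ((φ.toHomUnits a : Kˣ) : K) = ι (S.α a) := fun a => rfl
  have hAb : Ab.FG := by
    have h1 : Group.FG A := (Group.fg_iff_subgroup_fg A).2 (hP.fg A)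
    exact (Group.fg_iff_subgroup_fg _).1 (Group.fg_range φ.toHomUnits)
  have hD : ∀ H : Subgroup D1, H.FG := by
    intro H
    have h1 := hP.fg (H.map D1.subtype)
    rw [← Group.fg_iff_subgroup_fg] at h1 ⊢
    exact Group.fg_of_surjective
      (f := ((H.equivMapOfInjective D1.subtype D1.subtype_injective).symm :
        (H.map D1.subtype) →* H)) (MulEquiv.surjective _)
  have hinv : ∀ g : D1, ∀ a ∈ Ab, ∃ b ∈ Ab, (b : K) = g • (a : K) := by
    rintro g _ ⟨a, rfl⟩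
    have hmem : (g : P) * (a : P) * (g : P)⁻¹ ∈ A := Subgroup.Normal.conj_mem inferInstance _ a.2 _
    refine ⟨_, ⟨⟨_, hmem⟩, rfl⟩, ?_⟩
    rw [hval, hval, hιg, S.conj _ _ hmem]
  obtain ⟨r', hr', hr'0, hr'C⟩ := semi_field hD Ab hAb hinv c hc0 hc
  have hcl : Subring.closure ((fun a : Kˣ => (a : K)) '' (Ab : Set Kˣ)) ≤ ι.range := by
    rw [Subring.closure_le]
    rintro _ ⟨_, ⟨a, rfl⟩, rfl⟩
    exact ⟨S.α a, rfl⟩
  obtain ⟨r, rfl⟩ := hcl hr'
  refine ⟨r, fun h => hr'0 ((hι0 r).2 h), fun C hC => ?_⟩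
  have hrp : r ∉ p := fun h => hr'0 ((hι0 r).2 h)
  have hrel : ∀ g ∈ C, ∃ s : R, s ∉ p ∧ (s * (g • r)) • (g • x) = (s * r) • x := by
    intro g hg
    obtain ⟨-, s, hs, e⟩ := hC g hg
    refine ⟨s, hs, ?_⟩
    rw [smul_sub, sub_eq_zero, S.comp, ← mul_smul, ← mul_smul] at e
    exact e
  have hCD : C ≤ D1 := by
    intro g hg
    obtain ⟨s, hs, e⟩ := hrel g hg
    exact ⟨(hC g hg).1, _, _, hprod hs (fun hc => hrp (((hC g hg).1 r).2 hc)), hprod hs hrp, e⟩
  obtain ⟨C', hC', hidx, hfix⟩ := hr'C (C.subgroupOf D1) (by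
    intro g hg
    obtain ⟨s, hs, e⟩ := hrel g hg
    have hgr : (g : P) • r ∉ p := fun hc => hrp ((g.2.1 r).2 hc)
    have h1 := hwd g _ _ (hprod hs hgr) e
    show ι (σ' g) / ι (σ g) * g • ι r = ι r
    have h2 : ι s ≠ 0 := fun h => hs ((hι0 _).1 h)
    have h3 : ι ((g : P) • r) ≠ 0 := fun h => hgr ((hι0 _).1 h)
    rw [h1, hιg, map_mul, map_mul, div_mul_eq_mul_div, div_eq_iff (mul_ne_zero h2 h3)]
    ring)
  refine ⟨C'.map D1.subtype, ?_, ?_, ?_⟩
  · rintro _ ⟨g, hg, rfl⟩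
    exact hC' hg
  · have h1 : C = (C.subgroupOf D1).map D1.subtype := by
      rw [map_subgroupOf_eq_of_le hCD]
    rw [h1, relIndex_map_map_of_injective _ _ D1.subtype_injective]
    exact hidx
  · rintro _ ⟨g, hg, rfl⟩ a
    have h1 := hfix g hg _ ⟨a, rfl⟩
    rw [hval, hιg] at h1
    rw [← hι0, map_sub, sub_eq_zero]
    exact h1

end setup

end Pool.Agent.D5
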