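import Pool.Agent.Lib.MP_d5e6ed_al.B.SemiTF

/-!
# The semilinear field theorem, reduction to the torsion free case (MP_d5e6ed_al, module SF0)
-/

set_option autoImplicit false

namespace Pool.Agent.D5

universe u

open Subgroup

namespace SF0

theorem torsion_finite {U : Type*} [CommGroup U] (A : Subgroup U) (hA : A.FG) :
    {a : U | a ∈ A ∧ IsOfFinOrder a}.Finite := by
  have h1 : Group.FG A := (Group.fg_iff_subgroup_fg A).2 hA
  have h2 : Module.Finite ℤ (Additive A) :=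
    Module.Finite.iff_addGroup_fg.2 (GroupFG.iff_add_fg.1 h1)
  have h3 : Finite (Submodule.torsion ℤ (Additive A)) :=
    Module.finite_of_fg_torsion _ (Submodule.torsion_isTorsion)
  have h4 : {a : U | a ∈ A ∧ IsOfFinOrder a} ⊆
      Set.range (fun x : Submodule.torsion ℤ (Additive A) => ((Additive.toMul x.1 : A) : U)) := by
    rintro a ⟨ha, hfin⟩
    refine ⟨⟨Additive.ofMul ⟨a, ha⟩, ?_⟩, rfl⟩
    obtain ⟨n, hn, hn'⟩ := isOfFinOrder_iff_pow_eq_one.1 hfin
    rw [Submodule.mem_torsion_iff]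
    refine ⟨⟨(n : ℤ), mem_nonZeroDivisors_of_ne_zero (by exact_mod_cast hn.ne')⟩, ?_⟩
    show (n : ℤ) • Additive.ofMul (⟨a, ha⟩ : A) = 0
    rw [natCast_zsmul, ← ofMul_pow]
    have : (⟨a, ha⟩ : A) ^ n = 1 := Subtype.ext (by simpa using hn')
    rw [this]; rfl
  exact (Set.finite_range _).subset h4

theorem exists_exp {U : Type*} [CommGroup U] (A : Subgroup U) (hA : A.FG) :
    ∃ n : ℕ, 0 < n ∧ ∀ a ∈ A, IsOfFinOrder a → a ^ n = 1 := by
  have hf := torsion_finite A hA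
  refine ⟨∏ a ∈ hf.toFinset, orderOf a, Finset.prod_pos fun a ha => ?_, fun a ha hfin => ?_⟩
  · have := (hf.mem_toFinset.1 ha).2
    exact orderOf_pos_iff.2 this
  · apply orderOf_dvd_iff_pow_eq_one.1
    exact Finset.dvd_prod_of_mem _ (hf.mem_toFinset.2 ⟨ha, hfin⟩)

/-- a group fixing all `n`-th powers has a subgroup of finite index fixing `A` -/
theorem lift_pow {D K : Type*} [Group D] [Field K] [MulSemiringAction D K] (A : Subgroup Kˣ)
    (hA : A.FG) (hinv : ∀ g : D, ∀ a ∈ A, ∃ b ∈ A, (b : K) = g • (a : K)) {n : ℕ} (hn : 0 < n)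
    (C : Subgroup D) (hC : ∀ g ∈ C, ∀ a ∈ A, g • ((a : K) ^ n) = (a : K) ^ n) :
    ∃ C' ≤ C, C'.relIndex C ≠ 0 ∧ ∀ g ∈ C', ∀ a ∈ A, g • (a : K) = a := by
  obtain ⟨S, hS⟩ := hA
  have hSA : ∀ s ∈ S, s ∈ A := fun s hs => by rw [← hS]; exact subset_closure hs
  have hfix : ∀ s : S, (MulAction.stabilizer D ((s : Kˣ) : K)).relIndex C ≠ 0 := by
    rintro ⟨s, hs⟩
    have h1 : MulAction.stabilizer C ((s : Kˣ) : K) =
        (MulAction.stabilizer D ((s : Kˣ) : K)).subgroupOf C := rfl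
    unfold relIndex
    rw [← h1, MulAction.index_stabilizer]
    have hsub : MulAction.orbit C ((s : Kˣ) : K) ⊆
        (fun z : Kˣ => (s : K) * (z : K)) '' {z : Kˣ | z ∈ A ∧ IsOfFinOrder z} := by
      rintro _ ⟨g, rfl⟩
      obtain ⟨b, hb, hb'⟩ := hinv g s (hSA s hs)
      refine ⟨s⁻¹ * b, ⟨A.mul_mem (A.inv_mem (hSA s hs)) hb, ?_⟩, ?_⟩
      · apply isOfFinOrder_iff_pow_eq_one.2 ⟨n, hn, ?_⟩
        have h2 := hC g g.2 s (hSA s hs)
        rw [smul_pow', ← hb'] at h2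
        have h3 : b ^ n = s ^ n := by
          apply Units.ext
          push_cast
          exact h2
        rw [mul_pow, inv_pow, h3, inv_mul_cancel]
      · show (s : K) * ((s⁻¹ * b : Kˣ) : K) = (g : D) • (s : K)
        rw [← hb', ← Units.val_mul, mul_inv_cancel_left]
    have hfin : (MulAction.orbit C ((s : Kˣ) : K)).Finite :=
      ((torsion_finite A ⟨S, hS⟩).image _).subset hsub
    exact ((Set.ncard_pos hfin).2 ⟨_, MulAction.mem_orbit_self _⟩).ne'
  refine ⟨(⨅ s : S, MulAction.stabilizer D ((s : Kˣ) : K)) ⊓ C, inf_le_right, ?_, ?_⟩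
  · rw [inf_relIndex_right]
    exact relIndex_iInf_ne_zero hfix
  · rintro g ⟨hg, -⟩ a ha
    rw [← hS] at ha
    induction ha using closure_induction with
    | mem x hx => exact (mem_iInf.1 hg) ⟨x, hx⟩
    | one => simp
    | mul x y _ _ hx hy => simp [smul_mul', hx, hy]
    | inv x _ hx => simp [hx]

/-- the setting over a subfield -/
theorem main_step {D K : Type u} [Group D] [Field K] [MulSemiringAction D K]
    (hD : ∀ H : Subgroup D, H.FG) (A : Subgroup Kˣ) (hA : A.FG)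
    (htf : ∀ a ∈ A, IsOfFinOrder a → a = 1)
    (hinv : ∀ g : D, ∀ a ∈ A, ∃ b ∈ A, (b : K) = g • (a : K)) (c : D → K)
    (hc0 : ∀ g, c g ≠ 0) (hc : ∀ g h, c (g * h) = c g * g • c h) :
    ∃ r ∈ Subring.closure ((fun a : Kˣ => (a : K)) '' (A : Set Kˣ)), r ≠ 0 ∧
      ∀ C : Subgroup D, (∀ g ∈ C, c g * g • r = r) →
        ∃ C' ≤ C, C'.relIndex C ≠ 0 ∧ ∀ g ∈ C', ∀ a ∈ A, g • (a : K) = a := by
  set k : Subfield K := Subfield.closure ((fun a : Kˣ => (a : K)) '' (A : Set Kˣ)) with hk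
  have hkinv : ∀ (g : D) (x : K), x ∈ k → g • x ∈ k := by
    intro g x hx
    have h1 : (k.map (MulSemiringAction.toRingHom D K g)) ≤ k := by
      rw [hk, RingHom.map_field_closure]
      refine Subfield.closure_le.2 ?_
      rintro _ ⟨_, ⟨a, ha, rfl⟩, rfl⟩
      obtain ⟨b, hb, hb'⟩ := hinv g a ha
      rw [MulSemiringAction.toRingHom_apply, ← hb']
      exact Subfield.subset_closure ⟨b, hb, rfl⟩
    exact h1 ⟨x, hx, rfl⟩
  have hc1 : c 1 = 1 := by
    have h1 := hc 1 1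
    rw [one_smul, mul_one] at h1
    have := hc0 1
    field_simp at h1
    exact h1.symm
  let D2 : Subgroup D :=
    { carrier := {g | c g ∈ k}
      mul_mem' := fun {g h} hg hh => by
        show c (g * h) ∈ k
        rw [hc]
        exact k.mul_mem hg (hkinv _ _ hh)
      one_mem' := by show c 1 ∈ k; rw [hc1]; exact k.one_mem
      inv_mem' := fun {g} hg => by
        show c g⁻¹ ∈ k
        have h1 := hc g⁻¹ g
        rw [inv_mul_cancel, hc1] at h1
        have h2 : c g⁻¹ = (g⁻¹ • c g)⁻¹ := eq_inv_of_mul_eq_one_left h1.symm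
        rw [h2]
        exact k.inv_mem (hkinv _ _ hg) }
  have : IsInvariantSubfield D2 k := ⟨fun g {x} hx => hkinv g x hx⟩
  let ι : (↥k)ˣ →* Kˣ := Units.map (k.subtype : k →* K)
  have hιinj : Function.Injective ι := by
    intro u v huv
    apply Units.ext
    apply Subtype.ext
    exact congrArg (fun z : Kˣ => (z : K)) huv
  let A2 : Subgroup (↥k)ˣ := A.comap ι
  have hAk : ∀ a ∈ A, (a : K) ∈ k := fun a ha => Subfield.subset_closure ⟨a, ha, rfl⟩
  have hlift : ∀ a ∈ A, ∃ u ∈ A2, ι u = a := by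
    intro a ha
    have h1 : (⟨(a : K), hAk a ha⟩ : k) ≠ 0 := by
      intro h0
      exact a.ne_zero (congrArg Subtype.val h0)
    refine ⟨Units.mk0 _ h1, ?_, ?_⟩
    · show ι _ ∈ A
      have : ι (Units.mk0 _ h1) = a := Units.ext rfl
      rw [this]; exact ha
    · exact Units.ext rfl
  have hA2map : A2.map ι = A := by
    apply le_antisymm
    · exact map_comap_le _ _
    · intro a ha
      obtain ⟨u, hu, rfl⟩ := hlift a ha
      exact ⟨u, hu, rfl⟩
  have hA2fg : A2.FG := by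
    obtain ⟨S, hS⟩ := hA
    classical
    have hSA : ∀ s ∈ S, s ∈ A := fun s hs => by rw [← hS]; exact subset_closure hs
    choose! φ hφ1 hφ2 using hlift
    refine ⟨S.image φ, ?_⟩
    apply map_injective hιinj
    rw [hA2map, MonoidHom.map_closure, ← hS]
    congr 1
    ext x
    constructor
    · rintro ⟨_, hy, rfl⟩
      obtain ⟨s, hs, rfl⟩ := Finset.mem_image.1 (Finset.mem_coe.1 hy)
      rw [hφ2 s (hSA s hs)]; exact hs
    · intro hx
      exact ⟨φ x, Finset.mem_coe.2 (Finset.mem_image_of_mem _ hx), hφ2 x (hSA x hx)⟩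
  have hA2tf : ∀ a ∈ A2, IsOfFinOrder a → a = 1 := by
    intro a ha hfin
    apply hιinj
    rw [map_one]
    exact htf _ ha (MonoidHom.isOfFinOrder ι hfin)
  have himg : (k.subtype : k → K) '' ((fun a : (↥k)ˣ => (a : k)) '' (A2 : Set (↥k)ˣ)) =
      (fun a : Kˣ => (a : K)) '' (A : Set Kˣ) := by
    ext x
    constructor
    · rintro ⟨_, ⟨u, hu, rfl⟩, rfl⟩
      exact ⟨ι u, hu, rfl⟩
    · rintro ⟨a, ha, rfl⟩
      obtain ⟨u, hu, hu'⟩ := hlift a ha
      exact ⟨_, ⟨u, hu, rfl⟩, congrArg (fun z : Kˣ => (z : K)) hu'⟩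
  have hgen : Subfield.closure ((fun a : (↥k)ˣ => (a : k)) '' (A2 : Set (↥k)ˣ)) = ⊤ := by
    rw [eq_top_iff]
    rintro ⟨x, hx⟩ -
    have h1 : (Subfield.closure ((fun a : (↥k)ˣ => (a : k)) '' (A2 : Set (↥k)ˣ))).map k.subtype
        = k := by
      rw [RingHom.map_field_closure, himg]
    have h2 : x ∈ (Subfield.closure
        ((fun a : (↥k)ˣ => (a : k)) '' (A2 : Set (↥k)ˣ))).map k.subtype := by
      rw [h1]; exact hx
    obtain ⟨y, hy, hy'⟩ := h2
    have : y = ⟨x, hx⟩ := Subtype.ext hy'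
    rw [← this]; exact hy
  have hD2 : ∀ H : Subgroup D2, H.FG := by
    intro H
    have h1 := hD (H.map D2.subtype)
    rw [← Group.fg_iff_subgroup_fg] at h1 ⊢
    exact Group.fg_of_surjective
      (f := ((H.equivMapOfInjective D2.subtype D2.subtype_injective).symm :
        (H.map D2.subtype) →* H)) (MulEquiv.surjective _)
  have hinv2 : ∀ g : D2, ∀ a ∈ A2, ∃ b ∈ A2, (b : k) = g • (a : k) := by
    intro g a ha
    obtain ⟨b, hb, hb'⟩ := hinv g (ι a) ha
    obtain ⟨u, hu, hu'⟩ := hlift b hb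
    refine ⟨u, hu, Subtype.ext ?_⟩
    have h1 : ((u : k) : K) = (b : K) := congrArg (fun z : Kˣ => (z : K)) hu'
    rw [h1, hb']
    rfl
  obtain ⟨r, hr, hr0, hrC⟩ := semi_tf hD2 A2 hA2fg hA2tf hgen hinv2
    (fun g => ⟨c g, g.2⟩) (fun g h0 => hc0 g (congrArg Subtype.val h0))
    (fun g h => Subtype.ext (hc g h))
  refine ⟨(r : K), ?_, fun h0 => hr0 (Subtype.ext h0), ?_⟩
  · have h1 : (Subring.closure ((fun a : (↥k)ˣ => (a : k)) '' (A2 : Set (↥k)ˣ))).map k.subtype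
        = Subring.closure ((fun a : Kˣ => (a : K)) '' (A : Set Kˣ)) := by
      rw [RingHom.map_closure, himg]
    rw [← h1]
    exact ⟨r, hr, rfl⟩
  · intro C hC
    have hCD : C ≤ D2 := by
      intro g hg
      show c g ∈ k
      have h1 := hC g hg
      have h2 : g • (r : K) ≠ 0 := by
        intro h0
        exact hr0 (Subtype.ext ((smul_eq_zero_iff_eq g).1 h0))
      have h3 : c g = (r : K) / (g • (r : K)) := by
        field_simp
        exact h1
      rw [h3]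
      exact k.div_mem r.2 (hkinv _ _ r.2)
    obtain ⟨C', hC', hidx, hfix⟩ := hrC (C.subgroupOf D2) (by
      rintro g hg
      exact Subtype.ext (hC g hg))
    refine ⟨C'.map D2.subtype, ?_, ?_, ?_⟩
    · rintro _ ⟨g, hg, rfl⟩
      exact hC' hg
    · have h1 : C = (C.subgroupOf D2).map D2.subtype := by
        rw [map_subgroupOf_eq_of_le hCD]
      rw [h1, relIndex_map_map_of_injective _ _ D2.subtype_injective]
      exact hidx
    · rintro _ ⟨g, hg, rfl⟩ a ha
      obtain ⟨u, hu, rfl⟩ := hlift a ha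
      exact congrArg Subtype.val (hfix g hg u hu)

end SF0

theorem semi_field {D K : Type u} [Group D] [Field K] [MulSemiringAction D K]
    (hD : ∀ H : Subgroup D, H.FG) (A : Subgroup Kˣ) (hA : A.FG)
    (hinv : ∀ g : D, ∀ a ∈ A, ∃ b ∈ A, (b : K) = g • (a : K)) (c : D → K)
    (hc0 : ∀ g, c g ≠ 0) (hc : ∀ g h, c (g * h) = c g * g • c h) :
    ∃ r ∈ Subring.closure ((fun a : Kˣ => (a : K)) '' (A : Set Kˣ)), r ≠ 0 ∧
      ∀ C : Subgroup D, (∀ g ∈ C, c g * g • r = r) →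
        ∃ C' ≤ C, C'.relIndex C ≠ 0 ∧ ∀ g ∈ C', ∀ a ∈ A, g • (a : K) = a := by
  obtain ⟨n, hn, hexp⟩ := SF0.exists_exp A hA
  have hAfg : (A.map (powMonoidHom n : Kˣ →* Kˣ)).FG := by
    obtain ⟨S, hS⟩ := hA
    classical
    refine ⟨S.image (powMonoidHom n : Kˣ →* Kˣ), ?_⟩
    rw [Finset.coe_image, ← MonoidHom.map_closure, hS]
  obtain ⟨r, hr, hr0, hrC⟩ := SF0.main_step hD (A.map (powMonoidHom n : Kˣ →* Kˣ)) hAfg
    (by
      rintro _ ⟨a, ha, rfl⟩ hfin
      show a ^ n = 1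
      apply hexp a ha
      exact (isOfFinOrder_pow.1 hfin).resolve_right hn.ne')
    (by
      rintro g _ ⟨a, ha, rfl⟩
      obtain ⟨b, hb, hb'⟩ := hinv g a ha
      refine ⟨b ^ n, ⟨b, hb, rfl⟩, ?_⟩
      show ((b ^ n : Kˣ) : K) = g • ((a ^ n : Kˣ) : K)
      push_cast
      rw [hb', smul_pow']) c hc0 hc
  refine ⟨r, ?_, hr0, fun C hC => ?_⟩
  · refine Subring.closure_mono ?_ hr
    rintro _ ⟨_, ⟨a, ha, rfl⟩, rfl⟩
    exact ⟨a ^ n, A.pow_mem ha n, rfl⟩
  · obtain ⟨C₁, h1, h2, h3⟩ := hrC C hC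
    obtain ⟨C', h4, h5, h6⟩ := SF0.lift_pow A hA hinv hn C₁ (by
      intro g hg a ha
      have := h3 g hg (a ^ n) ⟨a, ha, rfl⟩
      push_cast at this
      exact this)
    exact ⟨C', h4.trans h1, relIndex_ne_zero_trans h5 h2, h6⟩

end Pool.Agent.D5
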