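import Pool.Agent.Lib.MP_d5e6ed_al.B.SemiTFd
import Pool.Agent.Lib.MP_d5e6ed_al.B.Roseblade

/-!
# Module SFT : semilinear characters, the torsion free case
-/

set_option autoImplicit false

namespace Pool.Agent.D5

universe u

namespace SFTaux

section

variable {D K : Type u} [Group D] [Field K] [MulSemiringAction D K]

/-- the elements of `A` with finite orbit -/
def Fo (D : Type u) [Group D] [MulSemiringAction D K] (A : Subgroup Kˣ) : Subgroup Kˣ where
  carrier := {a | a ∈ A ∧ (MulAction.orbit D (a : K)).Finite}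
  one_mem' := by
    refine ⟨A.one_mem, (Set.finite_singleton (1 : K)).subset ?_⟩
    rintro _ ⟨g, rfl⟩
    simp
  mul_mem' := by
    rintro a b ⟨ha, ha'⟩ ⟨hb, hb'⟩
    refine ⟨A.mul_mem ha hb, (ha'.mul hb').subset ?_⟩
    rintro _ ⟨g, rfl⟩
    refine Set.mem_mul.2 ⟨g • (a : K), ⟨g, rfl⟩, g • (b : K), ⟨g, rfl⟩, ?_⟩
    show _ = g • (((a * b : Kˣ)) : K)
    rw [Units.val_mul, smul_mul']
  inv_mem' := by
    rintro a ⟨ha, ha'⟩
    refine ⟨A.inv_mem ha, ha'.inv.subset ?_⟩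
    rintro _ ⟨g, rfl⟩
    rw [Set.mem_inv]
    refine ⟨g, ?_⟩
    show g • (a : K) = (g • ((a⁻¹ : Kˣ) : K))⁻¹
    rw [Units.val_inv_eq_inv_val, smul_inv'', inv_inv]

theorem mem_Fo {A : Subgroup Kˣ} {a : Kˣ} :
    a ∈ Fo D A ↔ a ∈ A ∧ (MulAction.orbit D (a : K)).Finite := Iff.rfl

theorem Fo_le (A : Subgroup Kˣ) : Fo D A ≤ A := fun _ h => h.1

theorem Fo_pure {A : Subgroup Kˣ} (htf : ∀ a ∈ A, IsOfFinOrder a → a = 1)
    (hinv : ∀ g : D, ∀ a ∈ A, ∃ b ∈ A, (b : K) = g • (a : K)) :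
    ∀ a ∈ A, ∀ n : ℕ, 0 < n → a ^ n ∈ Fo D A → a ∈ Fo D A := by
  intro a ha n hn han
  refine ⟨ha, ?_⟩
  refine Set.Finite.of_injOn (f := fun x : K => x ^ n) ?_ ?_ han.2
  · rintro _ ⟨g, rfl⟩
    refine ⟨g, ?_⟩
    show g • ((a ^ n : Kˣ) : K) = (g • (a : K)) ^ n
    rw [Units.val_pow_eq_pow_val, smul_pow']
  · rintro _ ⟨g, rfl⟩ _ ⟨h, rfl⟩ hgh
    obtain ⟨x, hxA, hx⟩ := hinv g a ha
    obtain ⟨y, hyA, hy⟩ := hinv h a ha
    have h1 : (x : K) ^ n = (y : K) ^ n := by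
      rw [hx, hy]; exact hgh
    have h2 : (x * y⁻¹) ^ n = 1 := by
      apply Units.ext
      push_cast
      rw [mul_pow, h1, ← mul_pow, mul_inv_cancel₀ y.ne_zero, one_pow]
    have h3 := htf _ (A.mul_mem hxA (A.inv_mem hyA))
      (isOfFinOrder_iff_pow_eq_one.2 ⟨n, hn, h2⟩)
    have h4 : x = y := mul_inv_eq_one.1 h3
    show g • (a : K) = h • (a : K)
    rw [← hx, ← hy, h4]

theorem orbit_finite_of_finiteIndex (D' : Subgroup D) (hD' : D'.FiniteIndex) {x : K}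
    (h : (MulAction.orbit D' x).Finite) : (MulAction.orbit D x).Finite := by
  have hfin : Finite (D ⧸ D') := Subgroup.finite_quotient_of_finiteIndex
  have h1 : (⋃ q : D ⧸ D', (fun y : K => (q.out : D) • y) '' (MulAction.orbit D' x)).Finite :=
    Set.finite_iUnion fun q => h.image _
  refine h1.subset ?_
  rintro _ ⟨g, rfl⟩
  rw [Set.mem_iUnion]
  refine ⟨(QuotientGroup.mk g : D ⧸ D'), ?_⟩
  have h2 : ((QuotientGroup.mk g : D ⧸ D').out)⁻¹ * g ∈ D' := by
    rw [← QuotientGroup.eq, QuotientGroup.out_eq']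
  refine ⟨((QuotientGroup.mk g : D ⧸ D').out⁻¹ * g) • x, ⟨⟨_, h2⟩, rfl⟩, ?_⟩
  show (QuotientGroup.mk g : D ⧸ D').out • (((QuotientGroup.mk g : D ⧸ D').out⁻¹ * g) • x) = g • x
  rw [← mul_smul, mul_inv_cancel_left]

/-- pointwise stabiliser -/
def Ps (D : Type u) [Group D] [MulSemiringAction D K] (Δ : Subgroup Kˣ) : Subgroup D where
  carrier := {g | ∀ a ∈ Δ, g • (a : K) = a}
  one_mem' := fun a _ => one_smul _ _
  mul_mem' := by
    intro g h hg hh a ha
    rw [mul_smul, hh a ha, hg a ha]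
  inv_mem' := by
    intro g hg a ha
    rw [inv_smul_eq_iff, hg a ha]

theorem Ps_finiteIndex {Δ : Subgroup Kˣ} (hΔ : Δ.FG)
    (h : ∀ a ∈ Δ, (MulAction.orbit D (a : K)).Finite) : (Ps D Δ).FiniteIndex := by
  classical
  obtain ⟨T, hT⟩ := hΔ
  have hst : ∀ a ∈ T, (MulAction.stabilizer D (a : K)).FiniteIndex := by
    intro a ha
    have haΔ : a ∈ Δ := by rw [← hT]; exact Subgroup.subset_closure ha
    have hfin : Finite (MulAction.orbit D (a : K)) := h a haΔ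
    have : Finite (D ⧸ MulAction.stabilizer D (a : K)) :=
      Finite.of_equiv _ (MulAction.orbitEquivQuotientStabilizer D (a : K))
    exact Subgroup.finiteIndex_of_finite_quotient
  have h1 : (⨅ a : T, MulAction.stabilizer D ((a : Kˣ) : K)).FiniteIndex :=
    Subgroup.finiteIndex_iInf fun a => hst a a.2
  have hle : (⨅ a : T, MulAction.stabilizer D ((a : Kˣ) : K)) ≤ Ps D Δ := by
    intro g hg a ha
    rw [← hT] at ha
    rw [Subgroup.mem_iInf] at hg
    induction ha using Subgroup.closure_induction with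
    | mem a ha => exact hg ⟨a, ha⟩
    | one => simp
    | mul x y _ _ hx hy => rw [Units.val_mul, smul_mul', hx, hy]
    | inv x _ hx => rw [Units.val_inv_eq_inv_val, smul_inv'', hx]
  exact Subgroup.finiteIndex_of_le hle

end

end SFTaux

open SFTaux in
theorem semi_tf {D K : Type u} [Group D] [Field K] [MulSemiringAction D K]
    (hD : ∀ H : Subgroup D, H.FG) (A : Subgroup Kˣ) (hA : A.FG)
    (htf : ∀ a ∈ A, IsOfFinOrder a → a = 1)
    (hgen : Subfield.closure ((fun a : Kˣ => (a : K)) '' (A : Set Kˣ)) = ⊤)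
    (hinv : ∀ g : D, ∀ a ∈ A, ∃ b ∈ A, (b : K) = g • (a : K)) (c : D → K)
    (hc0 : ∀ g, c g ≠ 0) (hc : ∀ g h, c (g * h) = c g * g • c h) :
    ∃ r ∈ Subring.closure ((fun a : Kˣ => (a : K)) '' (A : Set Kˣ)), r ≠ 0 ∧
      ∀ C : Subgroup D, (∀ g ∈ C, c g * g • r = r) →
        ∃ C' ≤ C, C'.relIndex C ≠ 0 ∧ ∀ g ∈ C', ∀ a ∈ A, g • (a : K) = a := by
  classical
  have hΔ : (Fo D A).FG := fg_of_le_comm hA (Fo_le A)
  have hD'fi : (Ps D (Fo D A)).FiniteIndex := Ps_finiteIndex hΔ fun a ha => ha.2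
  obtain ⟨D', hD'⟩ : ∃ D' : Subgroup D, D' = Ps D (Fo D A) := ⟨_, rfl⟩
  rw [← hD'] at hD'fi
  obtain ⟨s, b, hb, hbgen, hbind⟩ := exists_basis_mod A (Fo D A) hA (Fo_pure htf hinv)
  obtain ⟨k, hk⟩ : ∃ k : Subfield K,
    k = Subfield.closure ((fun a : Kˣ => (a : K)) '' (Fo D A : Set Kˣ)) := ⟨_, rfl⟩
  have hkfix : ∀ g : D', ∀ x ∈ k, g • x = x := by
    intro g x hx
    have hle : k ≤ FixedPoints.subfield D' K := by
      rw [hk, Subfield.closure_le]
      rintro _ ⟨a, ha, rfl⟩ g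
      have hg : (g : D) ∈ Ps D (Fo D A) := by rw [← hD']; exact g.2
      exact hg a ha
    exact hle hx g
  have hΔk : ∀ a ∈ Fo D A, (a : K) ∈ k := by
    intro a ha
    rw [hk]
    exact Subfield.subset_closure ⟨a, ha, rfl⟩
  have horb : ∀ a ∈ A, (MulAction.orbit D' (a : K)).Finite → (a : K) ∈ k := by
    intro a ha h
    exact hΔk a ⟨ha, orbit_finite_of_finiteIndex D' hD'fi h⟩
  have hinv' : ∀ g : D', ∀ a ∈ A, ∃ b ∈ A, (b : K) = g • (a : K) := fun g a ha => hinv g a ha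
  have hind : ∀ e : Fin s → ℤ, ((∏ i, b i ^ e i : Kˣ) : K) ∈ k → e = 0 := by
    intro e he
    apply hbind e
    refine ⟨Subgroup.prod_mem _ fun i _ => Subgroup.zpow_mem _ (hb i) _, ?_⟩
    refine orbit_finite_of_finiteIndex D' hD'fi ?_
    refine (Set.finite_singleton (((∏ i, b i ^ e i : Kˣ) : K))).subset ?_
    rintro _ ⟨g, rfl⟩
    exact hkfix g _ he
  have halg := roseblade A hA htf hinv' k hkfix horb b hb hind
  have hcore : Core (D := D') A k b :=
    { hinv := hinv'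
      hk := hkfix
      hb := hb
      hbgen := fun a ha => by
        obtain ⟨e, he⟩ := hbgen a ha
        exact ⟨e, hΔk _ he⟩
      halg := halg
      horb := horb }
  have hkcl : ∀ x ∈ k,
      x ∈ Subfield.closure ((fun a : Kˣ => (a : K)) '' {a | a ∈ A ∧ (a : K) ∈ k}) := by
    intro x hx
    rw [hk] at hx
    refine Subfield.closure_mono ?_ hx
    rintro _ ⟨a, ha, rfl⟩
    exact ⟨a, ⟨ha.1, hΔk a ha⟩, rfl⟩
  have hD'fg : Group.FG D' := (Group.fg_iff_subgroup_fg D').2 (hD D')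
  obtain ⟨r, hr, hr0, hrC⟩ := core_thm hcore hD'fg hA hgen hkcl (fun g : D' => c g)
    (fun g => hc0 g) (fun g h => hc g h)
  refine ⟨r, hr, hr0, fun C hC => ?_⟩
  obtain ⟨C'', hle, hrel, hfix⟩ := hrC (C.subgroupOf D') (fun g hg => hC g hg)
  refine ⟨C''.map D'.subtype, ?_, ?_, ?_⟩
  · rintro _ ⟨g, hg, rfl⟩
    exact hle hg
  · have h1 : (C''.map D'.subtype).relIndex ((C.subgroupOf D').map D'.subtype)
        = C''.relIndex (C.subgroupOf D') :=
      Subgroup.relIndex_map_map_of_injective _ _ D'.subtype_injective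
    have h2 : (C.subgroupOf D').map D'.subtype = C ⊓ D' := Subgroup.subgroupOf_map_subtype _ _
    rw [h2] at h1
    have h3 : (C ⊓ D').relIndex C ≠ 0 := by
      rw [Subgroup.inf_relIndex_left]
      have : D'.IsFiniteRelIndex C := Subgroup.isFiniteRelIndex_of_finiteIndex
      exact Subgroup.relIndex_ne_zero
    exact Subgroup.relIndex_ne_zero_trans (by rw [h1]; exact hrel) h3
  · rintro _ ⟨g, hg, rfl⟩ a ha
    exact hfix g hg a ha

end Pool.Agent.D5
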