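import Mathlib

/-!
# Auxiliary results for the module SFT (bases modulo pure subgroups, monomials)
-/

set_option autoImplicit false

namespace Pool.Agent.D5

universe u

namespace SFTaux

theorem toMul_sum' {Q : Type*} [CommGroup Q] {s : ℕ} (f : Fin s → Additive Q) :
    Additive.toMul (∑ i, f i) = ∏ i, Additive.toMul (f i) := by
  simp [toMul_sum]

/-- basis of `A` modulo a pure subgroup -/
theorem exists_basis_mod {G : Type*} [CommGroup G] (A Δ : Subgroup G) (hA : A.FG)
    (hpure : ∀ a ∈ A, ∀ n : ℕ, 0 < n → a ^ n ∈ Δ → a ∈ Δ) :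
    ∃ (s : ℕ) (b : Fin s → G), (∀ i, b i ∈ A) ∧
      (∀ a ∈ A, ∃ e : Fin s → ℤ, a * (∏ i, b i ^ e i)⁻¹ ∈ Δ) ∧
      (∀ e : Fin s → ℤ, (∏ i, b i ^ e i) ∈ Δ → e = 0) := by
  classical
  let N : Subgroup A := Δ.subgroupOf A
  let Q := Additive (A ⧸ N)
  have : Group.FG A := (Group.fg_iff_subgroup_fg A).2 hA
  have : Group.FG (A ⧸ N) := QuotientGroup.fg N
  have : AddGroup.FG Q := by infer_instance
  have : Module.Finite ℤ Q := Module.Finite.iff_addGroup_fg.2 inferInstance
  have key : ∀ a : A, (Additive.ofMul (QuotientGroup.mk a : A ⧸ N) : Q) = 0 ↔ (a : G) ∈ Δ := by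
    intro a
    rw [ofMul_eq_zero, QuotientGroup.eq_one_iff]
    exact Subgroup.mem_subgroupOf
  have : IsAddTorsionFree Q := by
    refine ⟨fun n hn x y hxy => ?_⟩
    simp only at hxy
    have h1 : n • (x - y) = 0 := by rw [nsmul_sub, hxy, sub_self]
    obtain ⟨a, ha⟩ := QuotientGroup.mk_surjective (Additive.toMul (x - y))
    have h2 : (x - y) = Additive.ofMul (QuotientGroup.mk a : A ⧸ N) := by
      rw [ha]; rfl
    have h3 : n • (x - y) = Additive.ofMul (QuotientGroup.mk (a ^ n) : A ⧸ N) := by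
      rw [h2, QuotientGroup.mk_pow, ofMul_pow]
    rw [h3, key] at h1
    have h4 := hpure a a.2 n (Nat.pos_of_ne_zero hn) (by simpa using h1)
    have h5 : x - y = 0 := by rw [h2, key]; exact h4
    exact sub_eq_zero.1 h5
  let B := Module.finBasis ℤ Q
  have hlift : ∀ i, ∃ a : A, (Additive.ofMul (QuotientGroup.mk a : A ⧸ N) : Q) = B i := by
    intro i
    obtain ⟨a, ha⟩ := QuotientGroup.mk_surjective (Additive.toMul (B i))
    exact ⟨a, by rw [ha]; rfl⟩
  choose b hb using hlift
  have hprod : ∀ e : Fin (Module.finrank ℤ Q) → ℤ,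
      (Additive.ofMul (QuotientGroup.mk (∏ i, b i ^ e i) : A ⧸ N) : Q) = ∑ i, e i • B i := by
    intro e
    have h1 : (QuotientGroup.mk (∏ i, b i ^ e i) : A ⧸ N)
        = ∏ i, (QuotientGroup.mk (b i) : A ⧸ N) ^ e i := by
      have := map_prod (QuotientGroup.mk' N) (fun i => b i ^ e i) Finset.univ
      simp
    rw [h1, ofMul_prod]
    refine Finset.sum_congr rfl fun i _ => ?_
    rw [ofMul_zpow, hb]
  refine ⟨Module.finrank ℤ Q, fun i => (b i : G), fun i => (b i).2, ?_, ?_⟩
  · intro a ha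
    let x : Q := Additive.ofMul (QuotientGroup.mk (⟨a, ha⟩ : A) : A ⧸ N)
    refine ⟨fun i => B.repr x i, ?_⟩
    have h1 : (Additive.ofMul (QuotientGroup.mk (∏ i, b i ^ (B.repr x i)) : A ⧸ N) : Q) = x := by
      rw [hprod]; exact B.sum_repr x
    have h2 := (key ((⟨a, ha⟩ : A) * (∏ i, b i ^ (B.repr x i))⁻¹)).1 (by
      rw [QuotientGroup.mk_mul, QuotientGroup.mk_inv, ofMul_mul, ofMul_inv, h1]
      exact add_neg_cancel x)
    simpa using h2
  · intro e he
    have h1 := (key (∏ i, b i ^ e i)).2 (by simpa using he)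
    rw [hprod] at h1
    funext i
    have := congrArg (fun y => B.repr y i) h1
    simpa [Finsupp.single_apply] using this

section mono

variable {K : Type u} [Field K] {s : ℕ} (b : Fin s → Kˣ)

/-- the monomial with exponent `e` -/
def mo (e : Fin s → ℤ) : Kˣ := ∏ i, b i ^ e i

theorem mo_add (e e' : Fin s → ℤ) : mo b (e + e') = mo b e * mo b e' := by
  simp [mo, zpow_add, Finset.prod_mul_distrib]

theorem mo_zero : mo b 0 = 1 := by simp [mo]

theorem mo_single (j : Fin s) (n : ℤ) : mo b (Pi.single j n) = b j ^ n := by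
  classical
  unfold mo
  rw [Finset.prod_eq_single j]
  · simp
  · intro i _ hij
    simp [Pi.single_eq_of_ne hij]
  · simp

/-- monomials as a monoid homomorphism -/
def moHom : Multiplicative (Fin s → ℤ) →* K where
  toFun e := ((mo b (Multiplicative.toAdd e) : Kˣ) : K)
  map_one' := by simp [mo_zero]
  map_mul' x y := by simp [mo_add]

theorem mono_linearIndependent (k : Subfield K)
    (halg : AlgebraicIndependent k (fun i => ((b i : Kˣ) : K))) :
    LinearIndependent k (fun e : Fin s → ℤ => ((mo b e : Kˣ) : K)) := by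
  classical
  rw [linearIndependent_iff']
  intro S g hg e he
  -- a common shift
  obtain ⟨N, hN⟩ : ∃ N : Fin s → ℤ, ∀ e ∈ S, ∀ i, 0 ≤ e i + N i := by
    refine ⟨fun i => ∑ e ∈ S, |e i|, fun e he i => ?_⟩
    have h1 : |e i| ≤ ∑ e ∈ S, |e i| :=
      Finset.single_le_sum (f := fun e : Fin s → ℤ => |e i|) (fun _ _ => abs_nonneg _) he
    have h2 := neg_abs_le (e i)
    show 0 ≤ e i + ∑ e ∈ S, |e i|
    omega
  let ν : (Fin s → ℤ) → (Fin s →₀ ℕ) := fun e => Finsupp.equivFunOnFinite.symm
    (fun i => (e i + N i).toNat)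
  have hν : ∀ e ∈ S, ∀ i, ((ν e i : ℕ) : ℤ) = e i + N i := by
    intro e he i
    simp [ν, Int.toNat_of_nonneg (hN e he i)]
  have hinj : ∀ e ∈ S, ∀ e' ∈ S, ν e = ν e' → e = e' := by
    intro e he e' he' h
    funext i
    have h1 := hν e he i
    have h2 := hν e' he' i
    rw [h] at h1
    omega
  have hev : ∀ e ∈ S, (MvPolynomial.aeval (fun i => ((b i : Kˣ) : K))
      (MvPolynomial.monomial (ν e) (g e)) : K) = (g e) • ((mo b (e + N) : Kˣ) : K) := by
    intro e he
    rw [MvPolynomial.aeval_monomial, Algebra.smul_def]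
    congr 1
    rw [Finsupp.prod_fintype _ _ (by simp)]
    unfold mo
    push_cast
    refine Finset.prod_congr rfl fun i _ => ?_
    rw [Pi.add_apply, ← hν e he i, zpow_natCast]
  have hsum : MvPolynomial.aeval (fun i => ((b i : Kˣ) : K))
      (∑ e ∈ S, MvPolynomial.monomial (ν e) (g e)) = (0 : K) := by
    rw [map_sum, Finset.sum_congr rfl hev]
    have h1 : ∀ e ∈ S, (g e) • ((mo b (e + N) : Kˣ) : K)
        = ((g e) • ((mo b e : Kˣ) : K)) * ((mo b N : Kˣ) : K) := by
      intro e _
      rw [mo_add, Units.val_mul, smul_mul_assoc]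
    rw [Finset.sum_congr rfl h1, ← Finset.sum_mul, hg, zero_mul]
  have hz : ∑ e ∈ S, MvPolynomial.monomial (ν e) (g e) = 0 := by
    have hinj2 := (algebraicIndependent_iff_injective_aeval).1 halg
    apply hinj2
    rw [hsum, map_zero]
  have hc := congrArg (MvPolynomial.coeff (ν e)) hz
  rw [MvPolynomial.coeff_sum, MvPolynomial.coeff_zero, Finset.sum_eq_single e] at hc
  · simpa using hc
  · intro e' he' hne
    rw [MvPolynomial.coeff_monomial, if_neg]
    intro h
    exact hne (hinj e' he' e he h)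
  · intro h; exact absurd he h

/-- the evaluation map of the Laurent polynomial ring -/
noncomputable def phi (k : Subfield K) : AddMonoidAlgebra k (Fin s → ℤ) →ₐ[k] K :=
  AddMonoidAlgebra.lift k K (Fin s → ℤ) (moHom b)

theorem phi_single (k : Subfield K) (e : Fin s → ℤ) (c : k) :
    phi b k (AddMonoidAlgebra.single e c) = (c : K) * ((mo b e : Kˣ) : K) := by
  unfold phi
  rw [AddMonoidAlgebra.lift_single, Algebra.smul_def]
  rfl

theorem phi_injective (k : Subfield K)
    (halg : AlgebraicIndependent k (fun i => ((b i : Kˣ) : K))) :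
    Function.Injective (phi b k) := by
  have hli := mono_linearIndependent b k halg
  rw [injective_iff_map_eq_zero]
  intro x hx
  have h1 : phi b k x = Finsupp.linearCombination k
      (fun e : Fin s → ℤ => ((mo b e : Kˣ) : K)) x.coeff := by
    unfold phi
    rw [AddMonoidAlgebra.lift_apply, Finsupp.linearCombination_apply]
    rfl
  rw [h1] at hx
  have h2 := hli
  rw [linearIndependent_iff] at h2
  have h3 := h2 x.coeff hx
  exact AddMonoidAlgebra.coeff_eq_zero.1 h3

end mono

end SFTaux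

end Pool.Agent.D5
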