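import Pool.Agent.Lib.MP_d5e6ed_al.B.SemiTFa

/-!
# Auxiliary results for the module SFT (the action on Laurent polynomials)
-/

set_option autoImplicit false

namespace Pool.Agent.D5

universe u

namespace SFTaux

/-- the situation of the proof of `semi_tf` -/
structure Core {D K : Type u} [Group D] [Field K] [MulSemiringAction D K] (A : Subgroup Kˣ)
    (k : Subfield K) {s : ℕ} (b : Fin s → Kˣ) : Prop where
  hinv : ∀ g : D, ∀ a ∈ A, ∃ b ∈ A, (b : K) = g • (a : K)
  hk : ∀ g : D, ∀ x ∈ k, g • x = x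
  hb : ∀ i, b i ∈ A
  hbgen : ∀ a ∈ A, ∃ e : Fin s → ℤ, ((a * (mo b e)⁻¹ : Kˣ) : K) ∈ k
  halg : AlgebraicIndependent k (fun i => ((b i : Kˣ) : K))
  horb : ∀ a ∈ A, (MulAction.orbit D (a : K)).Finite → (a : K) ∈ k

section core

variable {D K : Type u} [Group D] [Field K] [MulSemiringAction D K] {A : Subgroup Kˣ}
  {k : Subfield K} {s : ℕ} {b : Fin s → Kˣ}

theorem mo_mem (hc : Core (D := D) A k b) (e : Fin s → ℤ) : mo b e ∈ A := by
  unfold mo
  exact Subgroup.prod_mem _ fun i _ => Subgroup.zpow_mem _ (hc.hb i) _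

theorem exists_gamma (hc : Core (D := D) A k b) (h : D) (e : Fin s → ℤ) :
    ∃ e' : Fin s → ℤ, ∃ c : k, c ≠ 0 ∧ h • ((mo b e : Kˣ) : K) = (c : K) * ((mo b e' : Kˣ) : K) := by
  obtain ⟨a, haA, ha⟩ := hc.hinv h _ (mo_mem hc e)
  obtain ⟨e', he'⟩ := hc.hbgen a haA
  refine ⟨e', ⟨_, he'⟩, ?_, ?_⟩
  · intro h0
    exact Units.ne_zero (a * (mo b e')⁻¹) (congrArg (fun x : k => (x : K)) h0)
  · rw [← ha]
    simp

theorem mono_unique (hc : Core (D := D) A k b) {e e' : Fin s → ℤ} {c c' : k} (h0 : c ≠ 0)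
    (h : (c : K) * ((mo b e : Kˣ) : K) = (c' : K) * ((mo b e' : Kˣ) : K)) : e = e' ∧ c = c' := by
  rw [← phi_single b k, ← phi_single b k] at h
  have h1 := phi_injective b k hc.halg h
  rw [AddMonoidAlgebra.single_inj] at h1
  rcases h1 with h1 | h1
  · exact h1
  · exact absurd h1.1 h0

/-- the action on exponents -/
noncomputable def ga (hc : Core (D := D) A k b) (h : D) (e : Fin s → ℤ) : Fin s → ℤ :=
  (exists_gamma hc h e).choose

/-- the coefficient of the action on monomials -/
noncomputable def ka (hc : Core (D := D) A k b) (h : D) (e : Fin s → ℤ) : k :=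
  (exists_gamma hc h e).choose_spec.choose

theorem ka_ne (hc : Core (D := D) A k b) (h : D) (e : Fin s → ℤ) : ka hc h e ≠ 0 :=
  (exists_gamma hc h e).choose_spec.choose_spec.1

theorem ga_spec (hc : Core (D := D) A k b) (h : D) (e : Fin s → ℤ) :
    h • ((mo b e : Kˣ) : K) = (ka hc h e : K) * ((mo b (ga hc h e) : Kˣ) : K) :=
  (exists_gamma hc h e).choose_spec.choose_spec.2

theorem ga_unique (hc : Core (D := D) A k b) {h : D} {e e' : Fin s → ℤ} {c : k}
    (hh : h • ((mo b e : Kˣ) : K) = (c : K) * ((mo b e' : Kˣ) : K)) :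
    ga hc h e = e' ∧ ka hc h e = c := by
  rw [ga_spec hc] at hh
  exact mono_unique hc (ka_ne hc h e) hh

theorem ga_zero (hc : Core (D := D) A k b) (h : D) : ga hc h 0 = 0 ∧ ka hc h 0 = 1 := by
  apply ga_unique
  rw [mo_zero]
  simp

theorem ga_add (hc : Core (D := D) A k b) (h : D) (e e' : Fin s → ℤ) :
    ga hc h (e + e') = ga hc h e + ga hc h e' ∧ ka hc h (e + e') = ka hc h e * ka hc h e' := by
  apply ga_unique
  rw [mo_add, Units.val_mul, smul_mul', ga_spec hc, ga_spec hc h e', mo_add]
  push_cast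
  ring

theorem ga_mul (hc : Core (D := D) A k b) (h h' : D) (e : Fin s → ℤ) :
    ga hc (h * h') e = ga hc h (ga hc h' e) := by
  have : ga hc (h * h') e = ga hc h (ga hc h' e) ∧
      ka hc (h * h') e = ka hc h' e * ka hc h (ga hc h' e) := by
    apply ga_unique
    rw [mul_smul, ga_spec hc h', smul_mul', hc.hk h _ (ka hc h' e).2, ga_spec hc h]
    push_cast
    ring
  exact this.1

theorem ga_one (hc : Core (D := D) A k b) (e : Fin s → ℤ) : ga hc 1 e = e := by
  have : ga hc 1 e = e ∧ ka hc 1 e = 1 := by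
    apply ga_unique
    simp
  exact this.1

theorem ga_injective (hc : Core (D := D) A k b) (h : D) : Function.Injective (ga hc h) := by
  intro e e' hee
  have := congrArg (ga hc h⁻¹) hee
  rwa [← ga_mul, ← ga_mul, inv_mul_cancel, ga_one, ga_one] at this

/-- invariance of the image of the Laurent polynomial ring -/
theorem exists_sig (hc : Core (D := D) A k b) (h : D) (x : AddMonoidAlgebra k (Fin s → ℤ)) :
    ∃ y : AddMonoidAlgebra k (Fin s → ℤ), phi b k y = h • phi b k x := by
  induction x using AddMonoidAlgebra.induction_linear with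
  | zero => exact ⟨0, by simp⟩
  | add x y hx hy =>
    obtain ⟨x', hx'⟩ := hx
    obtain ⟨y', hy'⟩ := hy
    exact ⟨x' + y', by rw [map_add, map_add, smul_add, hx', hy']⟩
  | single e c =>
    refine ⟨AddMonoidAlgebra.single (ga hc h e) (c * ka hc h e), ?_⟩
    rw [phi_single, phi_single, smul_mul', hc.hk h _ c.2, ga_spec hc]
    push_cast
    ring

/-- the action on Laurent polynomials -/
noncomputable def sg (hc : Core (D := D) A k b) (h : D) (x : AddMonoidAlgebra k (Fin s → ℤ)) :
    AddMonoidAlgebra k (Fin s → ℤ) := (exists_sig hc h x).choose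

theorem phi_sg (hc : Core (D := D) A k b) (h : D) (x : AddMonoidAlgebra k (Fin s → ℤ)) :
    phi b k (sg hc h x) = h • phi b k x := (exists_sig hc h x).choose_spec

theorem sg_unique (hc : Core (D := D) A k b) {h : D} {x y : AddMonoidAlgebra k (Fin s → ℤ)}
    (hy : phi b k y = h • phi b k x) : sg hc h x = y := by
  apply phi_injective b k hc.halg
  rw [phi_sg, hy]

theorem sg_single (hc : Core (D := D) A k b) (h : D) (e : Fin s → ℤ) (c : k) :
    sg hc h (AddMonoidAlgebra.single e c)
      = AddMonoidAlgebra.single (ga hc h e) (c * ka hc h e) := by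
  apply sg_unique
  rw [phi_single, phi_single, smul_mul', hc.hk h _ c.2, ga_spec hc]
  push_cast
  ring

theorem sg_add (hc : Core (D := D) A k b) (h : D) (x y : AddMonoidAlgebra k (Fin s → ℤ)) :
    sg hc h (x + y) = sg hc h x + sg hc h y := by
  apply sg_unique
  rw [map_add, map_add, smul_add, phi_sg, phi_sg]

theorem sg_mul (hc : Core (D := D) A k b) (h : D) (x y : AddMonoidAlgebra k (Fin s → ℤ)) :
    sg hc h (x * y) = sg hc h x * sg hc h y := by
  apply sg_unique
  rw [map_mul, map_mul, smul_mul', phi_sg, phi_sg]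

theorem sg_comp (hc : Core (D := D) A k b) (h h' : D) (x : AddMonoidAlgebra k (Fin s → ℤ)) :
    sg hc (h * h') x = sg hc h (sg hc h' x) := by
  apply sg_unique
  rw [phi_sg, phi_sg, mul_smul]

theorem sg_one (hc : Core (D := D) A k b) (x : AddMonoidAlgebra k (Fin s → ℤ)) :
    sg hc 1 x = x := by
  apply sg_unique
  rw [one_smul]

/-- the action as ring automorphisms -/
noncomputable def sig (hc : Core (D := D) A k b) (h : D) :
    AddMonoidAlgebra k (Fin s → ℤ) ≃+* AddMonoidAlgebra k (Fin s → ℤ) where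
  toFun := sg hc h
  invFun := sg hc h⁻¹
  left_inv x := by rw [← sg_comp, inv_mul_cancel, sg_one]
  right_inv x := by rw [← sg_comp, mul_inv_cancel, sg_one]
  map_mul' := sg_mul hc h
  map_add' := sg_add hc h

theorem sg_dvd (hc : Core (D := D) A k b) (h : D) (x y : AddMonoidAlgebra k (Fin s → ℤ)) :
    sg hc h x ∣ sg hc h y ↔ x ∣ y := map_dvd_iff (sig hc h)

theorem sg_prime (hc : Core (D := D) A k b) (h : D) {x : AddMonoidAlgebra k (Fin s → ℤ)}
    (hx : Prime x) : Prime (sg hc h x) := (MulEquiv.prime_iff (sig hc h).toMulEquiv).2 hx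

theorem sg_coeff (hc : Core (D := D) A k b) (h : D) (x : AddMonoidAlgebra k (Fin s → ℤ))
    (e : Fin s → ℤ) : (sg hc h x).coeff (ga hc h e) = x.coeff e * ka hc h e := by
  classical
  induction x using AddMonoidAlgebra.induction_linear with
  | zero =>
    have : sg hc h 0 = 0 := by apply sg_unique; simp
    rw [this]; simp
  | add x y hx hy =>
    rw [sg_add, AddMonoidAlgebra.coeff_add, AddMonoidAlgebra.coeff_add, Finsupp.add_apply,
      Finsupp.add_apply, hx, hy, add_mul]
  | single e' c =>
    rw [sg_single, AddMonoidAlgebra.coeff_single, AddMonoidAlgebra.coeff_single,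
      Finsupp.single_apply, Finsupp.single_apply]
    by_cases h1 : e' = e
    · subst h1; simp
    · rw [if_neg h1, if_neg (fun h2 => h1 (ga_injective hc h h2)), zero_mul]

theorem sg_card (hc : Core (D := D) A k b) (h : D) (x : AddMonoidAlgebra k (Fin s → ℤ)) :
    x.coeff.support.card ≤ (sg hc h x).coeff.support.card := by
  classical
  refine Finset.card_le_card_of_injOn (ga hc h) ?_ (ga_injective hc h).injOn
  intro e he
  simp only [Finset.mem_coe, Finsupp.mem_support_iff] at he ⊢
  rw [sg_coeff]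
  exact mul_ne_zero he (ka_ne hc h e)

end core

end SFTaux

end Pool.Agent.D5
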