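import Pool.Agent.Lib.MP_d5e6ed_al.B.SemiTFb
import Pool.Agent.Lib.MP_d5e6ed_al.B.LPR

/-!
# Auxiliary results for the module SFT (units at a prime, the final step)
-/

set_option autoImplicit false

namespace Pool.Agent.D5

universe u

namespace SFTaux

section core

variable {D K : Type u} [Group D] [Field K] [MulSemiringAction D K] {A : Subgroup Kˣ}
  {k : Subfield K} {s : ℕ} {b : Fin s → Kˣ}

/-- `x` is a unit at `r` -/
def PU (k : Subfield K) {s : ℕ} (b : Fin s → Kˣ) (r : AddMonoidAlgebra k (Fin s → ℤ)) (x : K) :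
    Prop :=
  ∃ n d : AddMonoidAlgebra k (Fin s → ℤ), ¬ r ∣ n ∧ ¬ r ∣ d ∧ x * phi b k d = phi b k n

theorem PU.mul {r : AddMonoidAlgebra k (Fin s → ℤ)} (hr : Prime r) {x y : K}
    (hx : PU k b r x) (hy : PU k b r y) : PU k b r (x * y) := by
  obtain ⟨n, d, h1, h2, h3⟩ := hx
  obtain ⟨n', d', h1', h2', h3'⟩ := hy
  refine ⟨n * n', d * d', fun h => (hr.dvd_or_dvd h).elim h1 h1',
    fun h => (hr.dvd_or_dvd h).elim h2 h2', ?_⟩
  rw [map_mul, map_mul, ← h3, ← h3']
  ring

theorem PU.inv {r : AddMonoidAlgebra k (Fin s → ℤ)} {x : K} (hx0 : x ≠ 0)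
    (hx : PU k b r x) : PU k b r x⁻¹ := by
  obtain ⟨n, d, h1, h2, h3⟩ := hx
  refine ⟨d, n, h2, h1, ?_⟩
  rw [← h3]
  field_simp

theorem PU.smul (hc : Core (D := D) A k b) {r : AddMonoidAlgebra k (Fin s → ℤ)} {x : K} (h : D)
    (hx : PU k b r x) : PU k b (sg hc h r) (h • x) := by
  obtain ⟨n, d, h1, h2, h3⟩ := hx
  refine ⟨sg hc h n, sg hc h d, fun h' => h1 ((sg_dvd hc h _ _).1 h'),
    fun h' => h2 ((sg_dvd hc h _ _).1 h'), ?_⟩
  rw [phi_sg, phi_sg, ← smul_mul', h3]

theorem units_all (hc : Core (D := D) A k b) (c : D → K) (hc0 : ∀ g, c g ≠ 0)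
    (hcc : ∀ g h, c (g * h) = c g * g • c h) (S : Set D) (hS : Subgroup.closure S = ⊤)
    (m r : AddMonoidAlgebra k (Fin s → ℤ)) (hr : Prime r)
    (hm : ∀ g ∈ S, ∃ n d : AddMonoidAlgebra k (Fin s → ℤ), n ∣ m ∧ d ∣ m ∧
      c g * phi b k d = phi b k n)
    (hrm : ∀ h : D, ¬ sg hc h r ∣ m) (g : D) : ∀ h : D, PU k b (sg hc h r) (c g) := by
  have hone : c 1 = 1 := by
    have := hcc 1 1
    rw [one_mul, one_smul] at this
    exact (mul_eq_left₀ (hc0 1)).1 this.symm
  have hg : g ∈ Subgroup.closure S := by rw [hS]; exact Subgroup.mem_top g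
  induction hg using Subgroup.closure_induction with
  | mem g hg =>
    intro h
    obtain ⟨n, d, h1, h2, h3⟩ := hm g hg
    exact ⟨n, d, fun h' => hrm h (h'.trans h1), fun h' => hrm h (h'.trans h2), h3⟩
  | one =>
    intro h
    have hp := (sg_prime hc h hr).not_isUnit
    exact ⟨1, 1, fun h' => hp (isUnit_of_dvd_one h'), fun h' => hp (isUnit_of_dvd_one h'), by
      rw [hone, one_mul]⟩
  | mul g g' _ _ ih ih' =>
    intro h
    rw [hcc]
    refine PU.mul (sg_prime hc h hr) (ih h) ?_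
    have := PU.smul hc g (ih' (g⁻¹ * h))
    rwa [← sg_comp, mul_inv_cancel_left] at this
  | inv g _ ih =>
    intro h
    have h1 : c g⁻¹ = (g⁻¹ • c g)⁻¹ := by
      have h2 := hcc g⁻¹ g
      rw [inv_mul_cancel, hone] at h2
      exact eq_inv_of_mul_eq_one_left h2.symm
    rw [h1]
    refine PU.inv ?_ ?_
    · rw [smul_ne_zero_iff_ne]; exact hc0 g
    · have := PU.smul hc g⁻¹ (ih (g * h))
      rwa [← sg_comp, inv_mul_cancel_left] at this

theorem exists_unit (hc : Core (D := D) A k b) {r : AddMonoidAlgebra k (Fin s → ℤ)}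
    (hr : Prime r) {g : D} {x : K} (hx : PU k b r x)
    (hg : x * g • phi b k r = phi b k r) :
    ∃ u : AddMonoidAlgebra k (Fin s → ℤ), IsUnit u ∧ sg hc g r = u * r := by
  obtain ⟨n, d, h1, h2, h3⟩ := hx
  have h4 : n * sg hc g r = d * r := by
    apply phi_injective b k hc.halg
    rw [map_mul, map_mul, ← h3, phi_sg]
    rw [mul_comm x, mul_assoc, hg]
  have h5 : r ∣ n * sg hc g r := by rw [h4]; exact dvd_mul_left _ _
  have h6 := (hr.dvd_or_dvd h5).resolve_left h1
  obtain ⟨u, hu⟩ := hr.associated_of_dvd (sg_prime hc g hr) h6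
  exact ⟨u, u.isUnit, by rw [← hu, mul_comm]⟩

theorem ga_ext (hc : Core (D := D) A k b) {g h : D}
    (hh : ∀ j, ga hc g (Pi.single j 1) = ga hc h (Pi.single j 1)) (e : Fin s → ℤ) :
    ga hc g e = ga hc h e := by
  classical
  let f : D → ((Fin s → ℤ) →+ (Fin s → ℤ)) := fun g =>
    { toFun := ga hc g
      map_zero' := (ga_zero hc g).1
      map_add' := fun x y => (ga_add hc g x y).1 }
  have h1 : (f g).toIntLinearMap = (f h).toIntLinearMap := by
    refine LinearMap.pi_ext' fun j => ?_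
    ext1
    exact hh j
  exact congrArg (fun F : (Fin s → ℤ) →ₗ[ℤ] (Fin s → ℤ) => F e) h1

theorem smul_mo_eq {g : D} (h : ∀ i, g • ((b i : Kˣ) : K) = b i) (e : Fin s → ℤ) :
    g • ((mo b e : Kˣ) : K) = ((mo b e : Kˣ) : K) := by
  have h1 : ((mo b e : Kˣ) : K) = ∏ i, ((b i : Kˣ) : K) ^ e i := by
    unfold mo
    push_cast
    rfl
  have h2 : g • ((mo b e : Kˣ) : K) = MulSemiringAction.toRingHom D K g ((mo b e : Kˣ) : K) := rfl
  rw [h2, h1, map_prod]
  refine Finset.prod_congr rfl fun i _ => ?_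
  rw [map_zpow₀]
  congr 1
  exact h i

theorem final (hc : Core (D := D) A k b) (r : AddMonoidAlgebra k (Fin s → ℤ))
    (h0 : r.coeff 0 ≠ 0) (h1 : ∀ j, r.coeff (Pi.single j 1) ≠ 0) (C : Subgroup D)
    (hC : ∀ g ∈ C, ∃ u : AddMonoidAlgebra k (Fin s → ℤ), IsUnit u ∧ sg hc g r = u * r) :
    ∃ C' ≤ C, C'.relIndex C ≠ 0 ∧ ∀ g ∈ C', ∀ a ∈ A, g • (a : K) = a := by
  classical
  let C' : Subgroup D :=
    { carrier := {g | g ∈ C ∧ ∀ e, ga hc g e = e}
      one_mem' := ⟨C.one_mem, ga_one hc⟩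
      mul_mem' := fun {x y} hx hy => ⟨C.mul_mem hx.1 hy.1, fun e => by
        rw [ga_mul, hy.2, hx.2]⟩
      inv_mem' := fun {x} hx => ⟨C.inv_mem hx.1, fun e => by
        conv_lhs => rw [← hx.2 e]
        rw [← ga_mul, inv_mul_cancel, ga_one]⟩ }
  have hC' : ∀ g, g ∈ C' ↔ g ∈ C ∧ ∀ e, ga hc g e = e := fun g => Iff.rfl
  have hcoef : ∀ g ∈ C, ∃ (e0 : Fin s → ℤ) (c0 : k), c0 ≠ 0 ∧
      ∀ e, r.coeff e * ka hc g e = c0 * r.coeff (-e0 + ga hc g e) := by
    intro g hg
    obtain ⟨u, hu, hur⟩ := hC g hg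
    obtain ⟨e0, c0, hc0, rfl⟩ := lp_unit hu
    refine ⟨e0, c0, hc0, fun e => ?_⟩
    rw [← sg_coeff hc, hur, AddMonoidAlgebra.coeff_single_mul_apply]
  let T : Finset (Fin s → ℤ) := (r.coeff.support ×ˢ r.coeff.support).image fun x => x.1 - x.2
  have hT : ∀ g ∈ C, ∀ j, ga hc g (Pi.single j 1) ∈ T := by
    intro g hg j
    obtain ⟨e0, c0, hc0, hco⟩ := hcoef g hg
    have h2 := hco 0
    rw [(ga_zero hc g).1, (ga_zero hc g).2, mul_one, add_zero] at h2
    have h3 := hco (Pi.single j 1)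
    have h4 : r.coeff (-e0) ≠ 0 := by
      intro h; rw [h, mul_zero] at h2; exact h0 h2
    have h5 : r.coeff (-e0 + ga hc g (Pi.single j 1)) ≠ 0 := by
      intro h; rw [h, mul_zero] at h3
      exact mul_ne_zero (h1 j) (ka_ne hc g _) h3
    refine Finset.mem_image.2 ⟨(-e0 + ga hc g (Pi.single j 1), -e0), ?_, by simp⟩
    exact Finset.mem_product.2 ⟨Finsupp.mem_support_iff.2 h5, Finsupp.mem_support_iff.2 h4⟩
  refine ⟨C', fun g hg => hg.1, ?_, ?_⟩
  · have hfin : Finite (C ⧸ C'.subgroupOf C) := by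
      let f : (C ⧸ C'.subgroupOf C) → (Fin s → T) := fun q j =>
        ⟨ga hc (q.out : C) (Pi.single j 1), hT _ (q.out : C).2 j⟩
      refine Finite.of_injective f ?_
      intro q q' hqq
      have h2 : ∀ j, ga hc (q.out : C) (Pi.single j 1) = ga hc (q'.out : C) (Pi.single j 1) := by
        intro j
        exact congrArg Subtype.val (congrFun hqq j)
      have h3 := ga_ext hc h2
      rw [← QuotientGroup.out_eq' q, ← QuotientGroup.out_eq' q', QuotientGroup.eq,
        Subgroup.mem_subgroupOf, hC']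
      refine ⟨(q.out⁻¹ * q'.out : C).2, fun e => ?_⟩
      push_cast
      rw [ga_mul, ← h3, ← ga_mul, inv_mul_cancel, ga_one]
    rw [Subgroup.relIndex]
    exact Subgroup.index_ne_zero_of_finite
  · intro g hg a ha
    obtain ⟨hgC, hgid⟩ := (hC' g).1 hg
    obtain ⟨e0, c0, hc0, hco⟩ := hcoef g hgC
    have hshift : ∀ e, r.coeff e ≠ 0 → r.coeff (-e0 + e) ≠ 0 := by
      intro e he h
      have h2 := hco e
      rw [hgid, h, mul_zero] at h2
      exact mul_ne_zero he (ka_ne hc g _) h2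
    have hall : ∀ n : ℕ, r.coeff (n • (-e0)) ≠ 0 := by
      intro n
      induction n with
      | zero => simpa using h0
      | succ n ih =>
        have := hshift _ ih
        rwa [add_comm, ← succ_nsmul] at this
    have he0 : e0 = 0 := by
      by_contra hne
      have hinj : Function.Injective (fun n : ℕ => n • (-e0)) := by
        intro n m hnm
        obtain ⟨i, hi⟩ := Function.ne_iff.1 hne
        have h2 := congrFun hnm i
        simp only [Pi.smul_apply, Pi.neg_apply, nsmul_eq_mul, Pi.zero_apply] at h2 hi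
        have h3 : ((n : ℤ) - m) * e0 i = 0 := by linarith
        rcases mul_eq_zero.1 h3 with h4 | h4
        · omega
        · exact absurd h4 hi
      refine Set.infinite_univ (α := ℕ) ?_
      have hfin : ((r.coeff.support : Set (Fin s → ℤ))).Finite := Finset.finite_toSet _
      refine Set.Finite.of_finite_image (f := fun n : ℕ => n • (-e0)) (hfin.subset ?_)
        hinj.injOn
      rintro _ ⟨n, _, rfl⟩
      exact Finsupp.mem_support_iff.2 (hall n)
    subst he0
    simp only [neg_zero, zero_add, hgid] at hco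
    have hc1 : c0 = 1 := by
      have h2 := hco 0
      rw [(ga_zero hc g).2, mul_comm] at h2
      exact (mul_right_cancel₀ h0 h2).symm
    have hka : ∀ j, ka hc g (Pi.single j 1) = 1 := by
      intro j
      have h2 := hco (Pi.single j 1)
      rw [hc1, mul_comm] at h2
      exact mul_right_cancel₀ (h1 j) h2
    have hbj : ∀ j, g • ((b j : Kˣ) : K) = b j := by
      intro j
      have h2 := ga_spec hc g (Pi.single j 1)
      rw [hgid, hka, mo_single, zpow_one] at h2
      simpa using h2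
    obtain ⟨e, he⟩ := hc.hbgen a ha
    have h2 : (a : K) = ((a * (mo b e)⁻¹ : Kˣ) : K) * ((mo b e : Kˣ) : K) := by simp
    rw [h2, smul_mul', hc.hk g _ he, smul_mo_eq hbj]

end core

end SFTaux

end Pool.Agent.D5
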