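import Pool.Agent.Lib.MP_d5e6ed_al.B.SemiTFc
import Pool.Agent.Lib.MP_d5e6ed_al.B.LPR
import Pool.Agent.Lib.MP_d5e6ed_al.B.LPP

/-!
# Auxiliary results for the module SFT (choice of the prime)
-/

set_option autoImplicit false

namespace Pool.Agent.D5

universe u

namespace SFTaux

open AddMonoidAlgebra

theorem fg_of_le_comm {G : Type*} [CommGroup G] {A B : Subgroup G} (hA : A.FG) (h : B ≤ A) :
    B.FG := by
  rw [Subgroup.fg_iff_add_fg] at hA ⊢
  have hA' : (AddSubgroup.toIntSubmodule A.toAddSubgroup).FG := by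
    rw [Submodule.fg_iff_addSubgroup_fg]; exact hA
  have hB' : (AddSubgroup.toIntSubmodule B.toAddSubgroup).FG := by
    refine Submodule.FG.of_le hA' ?_
    intro x hx
    exact h hx
  rw [Submodule.fg_iff_addSubgroup_fg] at hB'
  exact hB'

theorem fg_comap {G H : Type*} [CommGroup G] [CommGroup H] (f : G →* H)
    (hf : Function.Injective f) {A : Subgroup H} (hA : A.FG) : (A.comap f).FG := by
  have h1 : ((A.comap f).map f).FG := by
    refine fg_of_le_comm hA ?_
    exact Subgroup.map_comap_le _ _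
  rw [Subgroup.fg_iff_submonoid_fg] at h1 ⊢
  exact Submonoid.FG.map_injective f hf h1

section core

variable {D K : Type u} [Group D] [Field K] [MulSemiringAction D K] {A : Subgroup Kˣ}
  {k : Subfield K} {s : ℕ} {b : Fin s → Kˣ}

theorem mem_range_phi (hc : Core (D := D) A k b) {x : K}
    (hx : x ∈ Subring.closure ((fun a : Kˣ => (a : K)) '' (A : Set Kˣ))) :
    ∃ y, phi b k y = x := by
  have h1 : Subring.closure ((fun a : Kˣ => (a : K)) '' (A : Set Kˣ))
      ≤ (phi b k).toRingHom.range := by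
    rw [Subring.closure_le]
    rintro _ ⟨a, ha, rfl⟩
    obtain ⟨e, he⟩ := hc.hbgen a ha
    refine ⟨AddMonoidAlgebra.single e ⟨_, he⟩, ?_⟩
    have := phi_single b k e ⟨_, he⟩
    refine this.trans ?_
    simp
  obtain ⟨y, hy⟩ := h1 hx
  exact ⟨y, hy⟩

theorem exists_frac (hc : Core (D := D) A k b)
    (hgen : Subfield.closure ((fun a : Kˣ => (a : K)) '' (A : Set Kˣ)) = ⊤) {x : K}
    (hx0 : x ≠ 0) : ∃ n d : AddMonoidAlgebra k (Fin s → ℤ), n ≠ 0 ∧ d ≠ 0 ∧
      x * phi b k d = phi b k n := by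
  have hx : x ∈ Subfield.closure ((fun a : Kˣ => (a : K)) '' (A : Set Kˣ)) := by
    rw [hgen]; trivial
  rw [Subfield.mem_closure_iff] at hx
  obtain ⟨y, hy, z, hz, rfl⟩ := hx
  obtain ⟨n, rfl⟩ := mem_range_phi hc hy
  obtain ⟨d, rfl⟩ := mem_range_phi hc hz
  have hd : phi b k d ≠ 0 := by
    intro h; rw [h, div_zero] at hx0; exact hx0 rfl
  have hn : phi b k n ≠ 0 := by
    intro h; rw [h, zero_div] at hx0; exact hx0 rfl
  refine ⟨n, d, ?_, ?_, ?_⟩
  · rintro rfl; exact hn (map_zero _)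
  · rintro rfl; exact hd (map_zero _)
  · field_simp

theorem card_associated {q q' : AddMonoidAlgebra k (Fin s → ℤ)} (h : Associated q q') :
    q.coeff.support.card ≤ q'.coeff.support.card := by
  classical
  obtain ⟨u, rfl⟩ := h
  obtain ⟨e, c, hc, hu⟩ := lp_unit u.isUnit
  rw [hu]
  refine Finset.card_le_card_of_injOn (fun x => x + e) ?_ (fun x _ y _ hxy => by
    simpa using hxy)
  intro x hx
  simp only [Finset.mem_coe, Finsupp.mem_support_iff] at hx ⊢
  rw [AddMonoidAlgebra.coeff_mul_single_apply]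
  rw [add_neg_cancel_right]
  exact mul_ne_zero hx hc

theorem card_bound {m : AddMonoidAlgebra k (Fin s → ℤ)} (hm : m ≠ 0) :
    ∃ N : ℕ, ∀ q, Prime q → q ∣ m → q.coeff.support.card ≤ N := by
  classical
  refine ⟨((UniqueFactorizationMonoid.factors m).map fun q => q.coeff.support.card).sum,
    fun q hq hqm => ?_⟩
  obtain ⟨q', hq', hass⟩ := UniqueFactorizationMonoid.exists_mem_factors_of_dvd hm
    hq.irreducible hqm
  refine (card_associated hass).trans ?_
  exact Multiset.single_le_sum (fun _ _ => Nat.zero_le _) _ (Multiset.mem_map_of_mem _ hq')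

/-- the prime for rank at least two -/
noncomputable def rbig (k : Subfield K) (s : ℕ) (n : ℕ) : AddMonoidAlgebra k (Fin (s + 2) → ℤ) :=
  (∑ i ∈ Finset.range (n + 1), AddMonoidAlgebra.single (Pi.single 0 (i : ℤ)) 1) +
      ∑ j : Fin (s + 1), AddMonoidAlgebra.single (Pi.single j.succ 1) 1

theorem rbig_coeff_zero (k : Subfield K) (s n i : ℕ) (hi : i ≤ n) :
    (rbig k s n).coeff (Pi.single 0 (i : ℤ)) = 1 := by
  classical
  unfold rbig
  rw [AddMonoidAlgebra.coeff_add, AddMonoidAlgebra.coeff_sum, AddMonoidAlgebra.coeff_sum,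
    Finsupp.add_apply, Finsupp.finsetSum_apply, Finsupp.finsetSum_apply,
    Finset.sum_eq_single i, Finset.sum_eq_zero]
  · simp [AddMonoidAlgebra.coeff_single]
  · intro j _
    rw [AddMonoidAlgebra.coeff_single, Finsupp.single_apply, if_neg]
    intro h
    have := congrFun h j.succ
    simp [Pi.single_apply] at this
  · intro i' _ hne
    rw [AddMonoidAlgebra.coeff_single, Finsupp.single_apply, if_neg]
    intro h
    have := congrFun h 0
    simp at this
    exact hne this
  · intro h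
    exact absurd (Finset.mem_range.2 (by omega)) h

theorem rbig_coeff_succ (k : Subfield K) (s n : ℕ) (j : Fin (s + 1)) :
    (rbig k s n).coeff (Pi.single j.succ 1) = 1 := by
  classical
  unfold rbig
  rw [AddMonoidAlgebra.coeff_add, AddMonoidAlgebra.coeff_sum, AddMonoidAlgebra.coeff_sum,
    Finsupp.add_apply, Finsupp.finsetSum_apply, Finsupp.finsetSum_apply,
    Finset.sum_eq_zero, Finset.sum_eq_single j]
  · simp [AddMonoidAlgebra.coeff_single]
  · intro j' _ hne
    rw [AddMonoidAlgebra.coeff_single, Finsupp.single_apply, if_neg]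
    intro h
    have := congrFun h j'.succ
    simp [Pi.single_apply] at this
    exact hne this
  · intro h
    exact absurd (Finset.mem_univ _) h
  · intro i _
    rw [AddMonoidAlgebra.coeff_single, Finsupp.single_apply, if_neg]
    intro h
    have := congrFun h j.succ
    simp [Pi.single_apply] at this

theorem rbig_card (k : Subfield K) (s n : ℕ) : n + 1 ≤ (rbig k s n).coeff.support.card := by
  classical
  rw [← Finset.card_range (n + 1)]
  refine Finset.card_le_card_of_injOn (fun i : ℕ => Pi.single 0 (i : ℤ)) ?_ ?_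
  · intro i hi
    simp only [Finset.coe_range, Set.mem_Iio, Finset.mem_coe, Finsupp.mem_support_iff] at hi ⊢
    rw [rbig_coeff_zero k s n i (by omega)]
    exact one_ne_zero
  · intro i _ i' _ h
    have := congrFun h 0
    simpa using this

theorem exists_prime_big {b : Fin (s + 2) → Kˣ} (hc : Core (D := D) A k b)
    {m : AddMonoidAlgebra k (Fin (s + 2) → ℤ)} (hm : m ≠ 0) :
    ∃ r : AddMonoidAlgebra k (Fin (s + 2) → ℤ), Prime r ∧
      phi b k r ∈ Subring.closure ((fun a : Kˣ => (a : K)) '' (A : Set Kˣ)) ∧ r.coeff 0 ≠ 0 ∧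
      (∀ j, r.coeff (Pi.single j 1) ≠ 0) ∧ ∀ h : D, ¬ sg hc h r ∣ m := by
  classical
  obtain ⟨N, hN⟩ := card_bound hm
  have hpr : Prime (rbig k s (N + 1)) := lp_prime_big (N + 1)
  refine ⟨rbig k s (N + 1), hpr, ?_, ?_, ?_, ?_⟩
  · unfold rbig
    rw [map_add, map_sum, map_sum]
    refine Subring.add_mem _ (Subring.sum_mem _ fun i _ => ?_) (Subring.sum_mem _ fun i _ => ?_)
    · rw [phi_single, mo_single]
      refine Subring.subset_closure ⟨b 0 ^ (i : ℤ), A.zpow_mem (hc.hb 0) _, ?_⟩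
      simp
    · rw [phi_single, mo_single]
      refine Subring.subset_closure ⟨b i.succ ^ (1 : ℤ), A.zpow_mem (hc.hb _) _, ?_⟩
      simp
  · have := rbig_coeff_zero k s (N + 1) 0 (by omega)
    simp only [Nat.cast_zero, Pi.single_zero] at this
    rw [this]
    exact one_ne_zero
  · intro j
    refine Fin.cases ?_ (fun j => ?_) j
    · have := rbig_coeff_zero k s (N + 1) 1 (by omega)
      rw [Nat.cast_one] at this
      rw [this]
      exact one_ne_zero
    · rw [rbig_coeff_succ]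
      exact one_ne_zero
  · intro h hdvd
    have h1 := hN _ (sg_prime hc h hpr) hdvd
    have h2 := sg_card hc h (rbig k s (N + 1))
    have h3 := rbig_card k s (N + 1)
    omega

/-- evaluation of Laurent polynomials in one variable -/
noncomputable def evl (k : Subfield K) (u : kˣ) : AddMonoidAlgebra k (Fin 1 → ℤ) →ₐ[k] k :=
  AddMonoidAlgebra.lift k k (Fin 1 → ℤ)
    { toFun := fun e => ((u ^ (Multiplicative.toAdd e 0) : kˣ) : k)
      map_one' := by simp
      map_mul' := fun x y => by simp [zpow_add] }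

/-- the linear polynomial `X - c` -/
noncomputable def lin1 (k : Subfield K) (c : k) : AddMonoidAlgebra k (Fin 1 → ℤ) :=
  AddMonoidAlgebra.single (Pi.single 0 1) 1 - AddMonoidAlgebra.single 0 c

theorem evl_lin1 (u : kˣ) (c : k) : evl k u (lin1 k c) = (u : k) - c := by
  unfold evl lin1
  rw [map_sub, AddMonoidAlgebra.lift_single, AddMonoidAlgebra.lift_single]
  simp

theorem lin1_ne {u : kˣ} {c : k} (h : Associated (lin1 k (u : k)) (lin1 k c)) : (u : k) = c := by
  obtain ⟨v, hv⟩ := h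
  have h1 := congrArg (evl k u) hv
  rw [map_mul, evl_lin1, evl_lin1, sub_self, zero_mul] at h1
  exact (sub_eq_zero.1 h1.symm)

theorem finite_roots {m : AddMonoidAlgebra k (Fin 1 → ℤ)} (hm : m ≠ 0) :
    {u : kˣ | lin1 k (u : k) ∣ m}.Finite := by
  classical
  have h1 : ∀ u : kˣ, lin1 k (u : k) ∣ m → ∃ q ∈ UniqueFactorizationMonoid.factors m,
      Associated (lin1 k (u : k)) q := by
    intro u hu
    exact UniqueFactorizationMonoid.exists_mem_factors_of_dvd hm
      (lp_prime_one (u : k) u.ne_zero).irreducible hu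
  let f : kˣ → AddMonoidAlgebra k (Fin 1 → ℤ) := fun u =>
    if h : lin1 k (u : k) ∣ m then (h1 u h).choose else 0
  have hf : ∀ u : kˣ, lin1 k (u : k) ∣ m → f u ∈ UniqueFactorizationMonoid.factors m ∧
      Associated (lin1 k (u : k)) (f u) := by
    intro u hu
    simp only [f, dif_pos hu]
    exact (h1 u hu).choose_spec
  refine Set.Finite.of_injOn (f := f)
    (t := ((UniqueFactorizationMonoid.factors m).toFinset : Set _)) ?_ ?_
    (Finset.finite_toSet _)
  · intro u hu
    simp only [Finset.mem_coe, Multiset.mem_toFinset]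
    exact (hf u hu).1
  · intro u hu v hv huv
    have h2 := (hf u hu).2
    rw [huv] at h2
    exact Units.ext (lin1_ne (h2.trans (hf v hv).2.symm))

theorem ga_pm {b : Fin 1 → Kˣ} (hc : Core (D := D) A k b) (h : D) :
    ga hc h (Pi.single 0 1) = Pi.single 0 1 ∨ ga hc h (Pi.single 0 1) = Pi.single 0 (-1) := by
  have hrep : ∀ e : Fin 1 → ℤ, e = e 0 • Pi.single 0 (1 : ℤ) := by
    intro e
    funext i
    have : i = 0 := Subsingleton.elim _ _
    subst this
    simp
  let f : D → ((Fin 1 → ℤ) →+ (Fin 1 → ℤ)) := fun g =>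
    { toFun := ga hc g
      map_zero' := (ga_zero hc g).1
      map_add' := fun x y => (ga_add hc g x y).1 }
  set n := ga hc h (Pi.single 0 1) 0 with hn
  set n' := ga hc h⁻¹ (Pi.single 0 1) 0 with hn'
  have h1 : ga hc h⁻¹ (ga hc h (Pi.single 0 1)) = Pi.single 0 1 := by
    rw [← ga_mul, inv_mul_cancel, ga_one]
  have h2 : ga hc h⁻¹ (n • Pi.single 0 (1 : ℤ)) = n • ga hc h⁻¹ (Pi.single 0 1) :=
    map_zsmul (f h⁻¹) n _
  rw [hrep (ga hc h (Pi.single 0 1)), ← hn, h2, hrep (ga hc h⁻¹ (Pi.single 0 1)), ← hn'] at h1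
  have h3 := congrFun h1 0
  simp only [Pi.smul_apply, Pi.single_eq_same, smul_eq_mul, mul_one] at h3
  rcases Int.eq_one_or_neg_one_of_mul_eq_one h3 with h4 | h4
  · left
    rw [hrep (ga hc h (Pi.single 0 1)), ← hn, h4, one_smul]
  · right
    rw [hrep (ga hc h (Pi.single 0 1)), ← hn, h4]
    funext i
    have : i = 0 := Subsingleton.elim _ _
    subst this
    simp

theorem ka_mem (hc : Core (D := D) A k b) (h : D) (e : Fin s → ℤ) :
    ∃ a ∈ A, (a : K) = (ka hc h e : K) := by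
  obtain ⟨a, haA, ha⟩ := hc.hinv h _ (mo_mem hc e)
  refine ⟨a * (mo b (ga hc h e))⁻¹, A.mul_mem haA (A.inv_mem (mo_mem hc _)), ?_⟩
  rw [ga_spec hc] at ha
  push_cast
  rw [ha]
  field_simp

theorem k_infinite {b : Fin 1 → Kˣ} (hc : Core (D := D) A k b) : Infinite k := by
  by_contra hfin
  rw [not_infinite_iff_finite] at hfin
  have hmem : ((mo b (Pi.single 0 1) : Kˣ) : K) ∈ k := by
    apply hc.horb _ (mo_mem hc _)
    refine ((Set.finite_range (fun c : k => (c : K) * ((mo b (Pi.single 0 1) : Kˣ) : K))).union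
      (Set.finite_range (fun c : k => (c : K) * ((mo b (Pi.single 0 (-1)) : Kˣ) : K)))).subset ?_
    rintro _ ⟨h, rfl⟩
    show h • ((mo b (Pi.single 0 1) : Kˣ) : K) ∈ _
    rw [ga_spec hc]
    rcases ga_pm hc h with h1 | h1
    · left; rw [h1]; exact ⟨_, rfl⟩
    · right; rw [h1]; exact ⟨_, rfl⟩
  have h1 : ((1 : k) : K) * ((mo b (Pi.single 0 1) : Kˣ) : K)
      = ((⟨_, hmem⟩ : k) : K) * ((mo b 0 : Kˣ) : K) := by
    rw [mo_zero]; simp
  have h2 := (mono_unique hc one_ne_zero h1).1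
  have h3 := congrFun h2 0
  simp at h3

theorem exists_prime_one {b : Fin 1 → Kˣ} (hc : Core (D := D) A k b) (hA : A.FG)
    (hkcl : ∀ x ∈ k, x ∈ Subfield.closure ((fun a : Kˣ => (a : K)) '' {a | a ∈ A ∧ (a : K) ∈ k}))
    {m : AddMonoidAlgebra k (Fin 1 → ℤ)} (hm : m ≠ 0) :
    ∃ r : AddMonoidAlgebra k (Fin 1 → ℤ), Prime r ∧
      phi b k r ∈ Subring.closure ((fun a : Kˣ => (a : K)) '' (A : Set Kˣ)) ∧ r.coeff 0 ≠ 0 ∧
      (∀ j, r.coeff (Pi.single j 1) ≠ 0) ∧ ∀ h : D, ¬ sg hc h r ∣ m := by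
  classical
  have hinf := k_infinite hc
  let j : kˣ →* Kˣ := Units.map (k.subtype : k →+* K).toMonoidHom
  have hj : ∀ u : kˣ, ((j u : Kˣ) : K) = ((u : k) : K) := fun u => rfl
  have hjinj : Function.Injective j := by
    intro u v huv
    apply Units.ext
    apply Subtype.ext
    rw [← hj, ← hj, huv]
  let Δ : Subgroup kˣ := A.comap j
  have hΔ : Δ.FG := fg_comap j hjinj hA
  have hinf2 : Infinite (kˣ ⧸ Δ) := units_not_fg k Δ hΔ
  have hfin := finite_roots hm
  have hfin2 : {u : kˣ | lin1 k (u : k) ∣ m ∨ lin1 k ((u⁻¹ : kˣ) : k) ∣ m}.Finite := by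
    have h1 : {u : kˣ | lin1 k ((u⁻¹ : kˣ) : k) ∣ m}.Finite :=
      Set.Finite.of_injOn (f := fun u : kˣ => u⁻¹) (fun u hu => hu)
        (fun u _ v _ h => inv_injective h) hfin
    exact hfin.union h1
  obtain ⟨q, hq⟩ := (hfin2.image (fun u : kˣ => (QuotientGroup.mk u : kˣ ⧸ Δ))).exists_notMem
  obtain ⟨κ, rfl⟩ := QuotientGroup.mk_surjective q
  have hκ : ∀ δ ∈ Δ, ¬ lin1 k ((κ * δ⁻¹ : kˣ) : k) ∣ m ∧ ¬ lin1 k ((δ * κ⁻¹ : kˣ) : k) ∣ m := by
    intro δ hδ
    constructor
    · intro h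
      apply hq
      refine ⟨κ * δ⁻¹, Or.inl h, ?_⟩
      rw [QuotientGroup.eq]
      simpa using hδ
    · intro h
      apply hq
      refine ⟨κ * δ⁻¹, Or.inr ?_, ?_⟩
      · rwa [mul_inv_rev, inv_inv]
      · rw [QuotientGroup.eq]
        simpa using hδ
  -- the linear prime
  have hlin : ∀ h : D, ¬ sg hc h (lin1 k (κ : k)) ∣ m := by
    intro h hdvd
    obtain ⟨a, haA, ha⟩ := ka_mem hc h (Pi.single 0 1)
    let δ : kˣ := Units.mk0 (ka hc h (Pi.single 0 1)) (ka_ne hc h _)
    have hδ : δ ∈ Δ := by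
      show j δ ∈ A
      have : j δ = a := by
        apply Units.ext
        rw [hj, ha]
        rfl
      rw [this]; exact haA
    have hδc : ka hc h (Pi.single 0 1) = (δ : k) := rfl
    have hsg : sg hc h (lin1 k (κ : k)) =
        AddMonoidAlgebra.single (ga hc h (Pi.single 0 1)) (δ : k)
          - AddMonoidAlgebra.single 0 (κ : k) := by
      have h1 : lin1 k (κ : k) + AddMonoidAlgebra.single 0 (κ : k)
          = AddMonoidAlgebra.single (Pi.single 0 1) 1 := by
        unfold lin1; exact sub_add_cancel _ _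
      have h2 := congrArg (sg hc h) h1
      rw [sg_add, sg_single, sg_single, (ga_zero hc h).1, (ga_zero hc h).2, mul_one, one_mul,
        hδc] at h2
      exact eq_sub_of_add_eq h2
    rw [hsg] at hdvd
    rcases ga_pm hc h with h1 | h1
    · rw [h1] at hdvd
      apply (hκ δ hδ).1
      refine dvd_trans ?_ hdvd
      refine ⟨AddMonoidAlgebra.single 0 (δ : k), ?_⟩
      unfold lin1
      rw [sub_mul, AddMonoidAlgebra.single_mul_single, AddMonoidAlgebra.single_mul_single]
      simp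
    · rw [h1] at hdvd
      apply (hκ δ hδ).2
      refine dvd_trans ?_ hdvd
      refine ⟨AddMonoidAlgebra.single (Pi.single 0 (-1)) (-(κ : k)), ?_⟩
      unfold lin1
      rw [sub_mul, AddMonoidAlgebra.single_mul_single, AddMonoidAlgebra.single_mul_single,
        ← Pi.single_add]
      simp [AddMonoidAlgebra.single_neg]
      abel
  -- the numerator and denominator of κ
  have h1 := hkcl ((κ : k) : K) (κ : k).2
  rw [Subfield.mem_closure_iff] at h1
  obtain ⟨y, hy, z, hz, hyz⟩ := h1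
  have hle1 : Subring.closure ((fun a : Kˣ => (a : K)) '' {a | a ∈ A ∧ (a : K) ∈ k})
      ≤ Subring.closure ((fun a : Kˣ => (a : K)) '' (A : Set Kˣ)) := by
    apply Subring.closure_mono
    rintro _ ⟨a, ha, rfl⟩
    exact ⟨a, ha.1, rfl⟩
  have hle2 : Subring.closure ((fun a : Kˣ => (a : K)) '' {a | a ∈ A ∧ (a : K) ∈ k})
      ≤ k.toSubring := by
    rw [Subring.closure_le]
    rintro _ ⟨a, ha, rfl⟩
    exact ha.2
  let y' : k := ⟨y, hle2 hy⟩
  let z' : k := ⟨z, hle2 hz⟩
  have hκ0 : ((κ : k) : K) ≠ 0 := fun h => κ.ne_zero (Subtype.ext h)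
  have hz0 : z ≠ 0 := by
    intro h; rw [h, div_zero] at hyz; exact hκ0 hyz.symm
  have hy0 : y ≠ 0 := by
    intro h; rw [h, zero_div] at hyz; exact hκ0 hyz.symm
  have hz0' : z' ≠ 0 := fun h => hz0 (congrArg (fun x : k => (x : K)) h)
  have hy0' : y' ≠ 0 := fun h => hy0 (congrArg (fun x : k => (x : K)) h)
  have hyz' : z' * (κ : k) = y' := by
    apply Subtype.ext
    show z * ((κ : k) : K) = y
    rw [← hyz]; field_simp
  let r : AddMonoidAlgebra k (Fin 1 → ℤ) :=
    AddMonoidAlgebra.single (Pi.single 0 1) z' - AddMonoidAlgebra.single 0 y'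
  have hr : r = AddMonoidAlgebra.single 0 z' * lin1 k (κ : k) := by
    show AddMonoidAlgebra.single (Pi.single 0 1) z' - AddMonoidAlgebra.single 0 y' = _
    unfold lin1
    rw [mul_sub, AddMonoidAlgebra.single_mul_single, AddMonoidAlgebra.single_mul_single,
      zero_add, mul_one, zero_add, hyz']
  have hunit : IsUnit (AddMonoidAlgebra.single (0 : Fin 1 → ℤ) z') := by
    refine IsUnit.of_mul_eq_one (AddMonoidAlgebra.single 0 z'⁻¹) ?_
    rw [AddMonoidAlgebra.single_mul_single, add_zero, mul_inv_cancel₀ hz0']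
    rfl
  have hpr : Prime r := by
    have h2 : Prime (lin1 k (κ : k)) := lp_prime_one (κ : k) κ.ne_zero
    rw [hr]
    obtain ⟨v, hv⟩ := hunit
    refine Associated.prime ⟨v, ?_⟩ h2
    rw [hv, mul_comm]
  have hcoef0 : r.coeff 0 = -y' := by
    show (AddMonoidAlgebra.single (Pi.single 0 1) z' - AddMonoidAlgebra.single 0 y' :
      AddMonoidAlgebra k (Fin 1 → ℤ)).coeff 0 = _
    rw [AddMonoidAlgebra.coeff_sub, Finsupp.sub_apply, AddMonoidAlgebra.coeff_single,
      AddMonoidAlgebra.coeff_single, Finsupp.single_apply, Finsupp.single_apply, if_neg,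
      if_pos rfl, zero_sub]
    intro h
    have := congrFun h 0
    simp at this
  have hcoef1 : r.coeff (Pi.single 0 1) = z' := by
    show (AddMonoidAlgebra.single (Pi.single 0 1) z' - AddMonoidAlgebra.single 0 y' :
      AddMonoidAlgebra k (Fin 1 → ℤ)).coeff (Pi.single 0 1) = _
    rw [AddMonoidAlgebra.coeff_sub, Finsupp.sub_apply, AddMonoidAlgebra.coeff_single,
      AddMonoidAlgebra.coeff_single, Finsupp.single_apply, Finsupp.single_apply, if_pos rfl,
      if_neg, sub_zero]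
    intro h
    have := congrFun h 0
    simp at this
  refine ⟨r, hpr, ?_, ?_, ?_, ?_⟩
  · show phi b k (AddMonoidAlgebra.single (Pi.single 0 1) z' - AddMonoidAlgebra.single 0 y') ∈ _
    rw [map_sub, phi_single, phi_single, mo_single, mo_zero]
    refine Subring.sub_mem _ (Subring.mul_mem _ (hle1 hz) (Subring.subset_closure ?_))
      (Subring.mul_mem _ (hle1 hy) ?_)
    · exact ⟨b 0 ^ (1 : ℤ), A.zpow_mem (hc.hb 0) _, rfl⟩
    · simp
  · rw [hcoef0]; exact neg_ne_zero.2 hy0'
  · intro j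
    have : j = 0 := Subsingleton.elim _ _
    subst this
    rw [hcoef1]; exact hz0'
  · intro h hdvd
    rw [hr, sg_mul] at hdvd
    exact hlin h (dvd_of_mul_left_dvd hdvd)

theorem core_thm (hc : Core (D := D) A k b) (hD : Group.FG D) (hA : A.FG)
    (hgen : Subfield.closure ((fun a : Kˣ => (a : K)) '' (A : Set Kˣ)) = ⊤)
    (hkcl : ∀ x ∈ k, x ∈ Subfield.closure ((fun a : Kˣ => (a : K)) '' {a | a ∈ A ∧ (a : K) ∈ k}))
    (c : D → K) (hc0 : ∀ g, c g ≠ 0) (hcc : ∀ g h, c (g * h) = c g * g • c h) :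
    ∃ r ∈ Subring.closure ((fun a : Kˣ => (a : K)) '' (A : Set Kˣ)), r ≠ 0 ∧
      ∀ C : Subgroup D, (∀ g ∈ C, c g * g • r = r) →
        ∃ C' ≤ C, C'.relIndex C ≠ 0 ∧ ∀ g ∈ C', ∀ a ∈ A, g • (a : K) = a := by
  classical
  obtain ⟨S, hS⟩ := hD.out
  choose n d hn hd hnd using fun g : D => exists_frac hc hgen (hc0 g)
  let m : AddMonoidAlgebra k (Fin s → ℤ) := ∏ g ∈ S, (n g * d g)
  have hm0 : m ≠ 0 := Finset.prod_ne_zero_iff.2 fun g _ => mul_ne_zero (hn g) (hd g)
  have hm : ∀ g ∈ (S : Set D), ∃ n d : AddMonoidAlgebra k (Fin s → ℤ), n ∣ m ∧ d ∣ m ∧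
      c g * phi b k d = phi b k n := by
    intro g hg
    have h1 : n g * d g ∣ m := Finset.dvd_prod_of_mem _ hg
    exact ⟨n g, d g, dvd_of_mul_right_dvd h1, dvd_of_mul_left_dvd h1, hnd g⟩
  have hmain : ∀ r : AddMonoidAlgebra k (Fin s → ℤ), Prime r →
      phi b k r ∈ Subring.closure ((fun a : Kˣ => (a : K)) '' (A : Set Kˣ)) → r.coeff 0 ≠ 0 →
      (∀ j, r.coeff (Pi.single j 1) ≠ 0) → (∀ h : D, ¬ sg hc h r ∣ m) →
      ∃ r ∈ Subring.closure ((fun a : Kˣ => (a : K)) '' (A : Set Kˣ)), r ≠ 0 ∧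
      ∀ C : Subgroup D, (∀ g ∈ C, c g * g • r = r) →
        ∃ C' ≤ C, C'.relIndex C ≠ 0 ∧ ∀ g ∈ C', ∀ a ∈ A, g • (a : K) = a := by
    intro r hr hrA h0 h1 hrm
    refine ⟨phi b k r, hrA, ?_, fun C hC => ?_⟩
    · intro h
      exact hr.ne_zero (phi_injective b k hc.halg (by rw [h, map_zero]))
    · refine final hc r h0 h1 C fun g hg => ?_
      have h2 := units_all hc c hc0 hcc S hS m r hr hm hrm g 1
      rw [sg_one] at h2
      exact exists_unit hc hr h2 (hC g hg)
  match s, b, hc, n, d, hn, hd, hnd, m, hm0, hm, hmain with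
  | 0, b, hc, n, d, hn, hd, hnd, m, hm0, hm, hmain =>
    refine ⟨1, Subring.one_mem _, one_ne_zero, fun C hC => ?_⟩
    refine final hc 1 (by
      rw [AddMonoidAlgebra.one_def, AddMonoidAlgebra.coeff_single, Finsupp.single_eq_same]
      exact one_ne_zero) (fun j => j.elim0) C fun g hg => ?_
    refine ⟨1, isUnit_one, ?_⟩
    rw [one_mul]
    apply sg_unique
    simp
  | 1, b, hc, n, d, hn, hd, hnd, m, hm0, hm, hmain =>
    obtain ⟨r, h1, h2, h3, h4, h5⟩ := exists_prime_one hc hA hkcl hm0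
    exact hmain r h1 h2 h3 h4 h5
  | s + 2, b, hc, n, d, hn, hd, hnd, m, hm0, hm, hmain =>
    obtain ⟨r, h1, h2, h3, h4, h5⟩ := exists_prime_big hc hm0
    exact hmain r h1 h2 h3 h4 h5

end core

end SFTaux

end Pool.Agent.D5
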