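import Pool.Agent.Lib.MP_d5e6ed_al.B.Basic

/-!
# Separation of the components of an element

(helper37, module PR2 of helper50's project MP_d5e6ed_al)
-/

set_option autoImplicit false
set_option linter.unusedSectionVars false

namespace Pool.Agent.D5

universe u

open Subgroup

section setup

variable {P M : Type u} [Group P] [AddCommGroup M] [DistribMulAction P M] {A : Subgroup P}
  {R : Type u} [CommRing R] [Module R M] [MulSemiringAction P R]

namespace PR2aux

theorem minAss_prime {p : Ideal R} (hp : p ∈ MinAss R M) : p.IsPrime :=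
  (AssociatedPrimes.mem_iff.1 hp.1).1

theorem exists_mem_not_mem {p q : Ideal R} (hp : p ∈ MinAss R M) (hq : q ∈ MinAss R M)
    (hne : q ≠ p) : ∃ r ∈ q, r ∉ p := by
  by_contra h
  push Not at h
  have hle : q ≤ p := h
  exact hne (le_antisymm hle (hp.2 hq.1 hle))

/-- an element outside `p` in all the other primes of a finite set -/
theorem exists_avoid {p : Ideal R} (hp : p ∈ MinAss R M) (F : Finset (Ideal R))
    (hF : ∀ q ∈ F, q ∈ MinAss R M) : ∃ r : R, r ∉ p ∧ ∀ q ∈ F, q ≠ p → r ∈ q := by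
  classical
  have hpp : p.IsPrime := minAss_prime hp
  have h : ∀ q : Ideal R, ∃ r : R, r ∉ p ∧ (q ∈ F → q ≠ p → r ∈ q) := by
    intro q
    by_cases hq : q ∈ F ∧ q ≠ p
    · obtain ⟨r, h1, h2⟩ := exists_mem_not_mem hp (hF q hq.1) hq.2
      exact ⟨r, h2, fun _ _ => h1⟩
    · refine ⟨1, fun h1 => hpp.ne_top ((Ideal.eq_top_iff_one p).2 h1), fun h1 h2 => ?_⟩
      exact absurd ⟨h1, h2⟩ hq
  choose r hr hr' using h
  refine ⟨∏ q ∈ F, r q, ?_, ?_⟩
  · intro hmem
    obtain ⟨q, _, hq⟩ := (Ideal.IsPrime.prod_mem_iff (hp := hpp)).1 hmem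
    exact hr q hq
  · intro q hq hne
    exact Ideal.mem_of_dvd _ (Finset.dvd_prod_of_mem r hq) (hr' q hq hne)

end PR2aux

open PR2aux in
theorem separation [Algebra.FiniteType ℤ R] (S : Setup (M := M) A R)
    (F : Finset (Ideal R)) (hF : (F : Set (Ideal R)) ⊆ MinAss R M) (x : Ideal R → M)
    (hx : ∀ p ∈ F, (∀ r ∈ p, r • x p = 0) ∧ ∀ r, r ∉ p → r • x p ≠ 0) :
    ∃ C : Subgroup P, C ≤ MulAction.stabilizer P (∑ p ∈ F, x p) ∧
      C.relIndex (MulAction.stabilizer P (∑ p ∈ F, x p)) ≠ 0 ∧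
      ∀ g ∈ C, ∀ p ∈ F, (∀ r, r ∈ p ↔ g • r ∈ p) ∧ ∃ s : R, s ∉ p ∧ s • (g • x p - x p) = 0 := by
  classical
  have hnoeth : IsNoetherianRing R := Algebra.FiniteType.isNoetherianRing ℤ R
  set z : M := ∑ p ∈ F, x p with hz
  -- the product with an element of the other primes
  have hrz : ∀ p ∈ F, ∀ r : R, (∀ q ∈ F, q ≠ p → r ∈ q) → r • z = r • x p := by
    intro p hp r hr
    rw [hz, Finset.smul_sum]
    exact Finset.sum_eq_single_of_mem p hp fun q hq hne => (hx q hq).1 r (hr q hq hne)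
  have htr0 : ∀ (g : P) (q : Ideal R), q ∈ F → ∀ r ∈ tr g q, r • (g • x q) = 0 := by
    intro g q hq r hr
    rw [smul_eq_zero_iff_tr S.comp]
    exact (hx q hq).1 _ hr
  have hsurj : ∀ g ∈ MulAction.stabilizer P z, ∀ p ∈ F, ∃ q ∈ F, tr g q = p := by
    intro g hg p hp
    by_contra hcon
    push Not at hcon
    obtain ⟨r, hr, hr'⟩ := exists_avoid (M := M) (hF hp) (F ∪ F.image (tr g)) (by
      intro q hq
      rcases Finset.mem_union.1 hq with h | h
      · exact hF h
      · obtain ⟨q', hq', rfl⟩ := Finset.mem_image.1 h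
        exact tr_mem_minAss S.comp g (hF hq'))
    have h1 : r • z = r • x p := hrz p hp r fun q hq hne => hr' q (Finset.mem_union_left _ hq) hne
    have h2 : r • (g • z) = 0 := by
      rw [hz, Finset.smul_sum, Finset.smul_sum]
      refine Finset.sum_eq_zero fun q hq => htr0 g q hq r ?_
      exact hr' _ (Finset.mem_union_right _ (Finset.mem_image_of_mem _ hq)) (hcon q hq)
    rw [MulAction.mem_stabilizer_iff.1 hg, h1] at h2
    exact (hx p hp).2 r hr h2
  have himg : ∀ g ∈ MulAction.stabilizer P z, ∀ p ∈ F, tr g p ∈ F := by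
    intro g hg p hp
    have h1 : F ⊆ F.image (tr g) := by
      intro p hp
      obtain ⟨q, hq, h⟩ := hsurj g hg p hp
      exact Finset.mem_image.2 ⟨q, hq, h⟩
    have h2 : F = F.image (tr g) := Finset.eq_of_subset_of_card_le h1 Finset.card_image_le
    rw [h2]
    exact Finset.mem_image_of_mem _ hp
  let C : Subgroup P :=
    { carrier := {g | g ∈ MulAction.stabilizer P z ∧ ∀ p ∈ F, tr g p = p}
      mul_mem' := by
        rintro a b ⟨ha, ha'⟩ ⟨hb, hb'⟩
        refine ⟨mul_mem ha hb, fun p hp => ?_⟩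
        rw [tr_mul, hb' p hp, ha' p hp]
      one_mem' := ⟨one_mem _, fun p _ => tr_one p⟩
      inv_mem' := by
        rintro a ⟨ha, ha'⟩
        refine ⟨inv_mem ha, fun p hp => ?_⟩
        have : tr a⁻¹ (tr a p) = p := by rw [← tr_mul, inv_mul_cancel, tr_one]
        rwa [ha' p hp] at this }
  have hCmem : ∀ g, g ∈ C ↔ g ∈ MulAction.stabilizer P z ∧ ∀ p ∈ F, tr g p = p := fun g => Iff.rfl
  refine ⟨C, fun g hg => hg.1, ?_, ?_⟩
  · rw [relIndex, index_ne_zero_iff_finite]
    let f : (MulAction.stabilizer P z) ⧸ C.subgroupOf (MulAction.stabilizer P z) → (F → F) :=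
      Quotient.lift (fun g p => ⟨tr (g : P) p, himg g g.2 p p.2⟩) (by
        intro a b hab
        have h1 : a⁻¹ * b ∈ C.subgroupOf (MulAction.stabilizer P z) :=
          QuotientGroup.leftRel_apply.1 hab
        rw [mem_subgroupOf] at h1
        funext p
        refine Subtype.ext ?_
        have h2 : tr ((a : P)⁻¹ * (b : P)) (p : Ideal R) = p := h1.2 p p.2
        have h3 : tr (a : P) (tr ((a : P)⁻¹ * (b : P)) (p : Ideal R)) = tr (b : P) p := by
          rw [← tr_mul, mul_inv_cancel_left]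
        rw [h2] at h3
        exact h3)
    refine Finite.of_injective f ?_
    intro a b hab
    obtain ⟨a, rfl⟩ := QuotientGroup.mk_surjective a
    obtain ⟨b, rfl⟩ := QuotientGroup.mk_surjective b
    rw [QuotientGroup.eq, mem_subgroupOf]
    refine ⟨mul_mem (inv_mem a.2) b.2, fun p hp => ?_⟩
    have h1 : tr (a : P) p = tr (b : P) p := Subtype.ext_iff.1 (congrFun hab ⟨p, hp⟩)
    have h2 : tr ((a : P)⁻¹ * (b : P)) p = p := by
      rw [tr_mul, ← h1, ← tr_mul, inv_mul_cancel, tr_one]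
    exact h2
  · intro g hg p hp
    have hgp := hg.2
    refine ⟨fun r => ?_, ?_⟩
    · have h1 : g • r ∈ tr g p ↔ r ∈ p := smul_mem_tr
      rw [hgp p hp] at h1
      exact h1.symm
    · obtain ⟨s, hs, hs'⟩ := exists_avoid (M := M) (hF hp) F (fun q hq => hF hq)
      refine ⟨s, hs, ?_⟩
      have h1 : s • z = s • x p := hrz p hp s hs'
      have h2 : s • (g • z) = s • (g • x p) := by
        rw [hz, Finset.smul_sum, Finset.smul_sum]
        refine Finset.sum_eq_single_of_mem p hp fun q hq hne => htr0 g q hq s ?_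
        rw [hgp q hq]
        exact hs' q hq hne
      have h3 : g • z = z := hg.1
      rw [h3, h1] at h2
      rw [smul_sub, h2, sub_self]

end setup

end Pool.Agent.D5
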