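import Pool.Agent.Lib.MP_d5e6ed_al.B.Defs

/-!
# The commutative ring `ℤ[A]` with its actions (module SETUP of MP_d5e6ed_al)

(helper52)
-/

set_option autoImplicit false

namespace Pool.Agent.D5

universe u

open MonoidAlgebra

theorem exists_setup {P M : Type u} [Group P] [AddCommGroup M] [DistribMulAction P M]
    (A : Subgroup P) [A.Normal] (hab : ∀ x ∈ A, ∀ y ∈ A, x * y = y * x) (hfg : A.FG) :
    ∃ (R : Type u) (_ : CommRing R) (_ : Module R M) (_ : MulSemiringAction P R),
      Nonempty (Setup (M := M) A R) ∧ Algebra.FiniteType ℤ R := by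
  classical
  let : CommGroup A :=
    { (inferInstance : Group A) with
      mul_comm := fun a b => Subtype.ext (hab a a.2 b b.2) }
  let R : Type u := MonoidAlgebra ℤ A
  -- the action on `M`
  let ρ : A →* Module.End ℤ M :=
    { toFun := fun a => (DistribSMul.toAddMonoidHom M (a : P)).toIntLinearMap
      map_one' := by ext m; exact one_smul P m
      map_mul' := fun a b => by ext m; exact mul_smul (a : P) (b : P) m }
  let φ : R →+* Module.End ℤ M := (MonoidAlgebra.lift ℤ (Module.End ℤ M) A ρ).toRingHom
  have hφ : ∀ (a : A) (n : ℤ) (m : M), φ (single a n) m = n • ((a : P) • m) := by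
    intro a n m
    show MonoidAlgebra.lift ℤ (Module.End ℤ M) A ρ (single a n) m = _
    rw [MonoidAlgebra.lift_single]
    rfl
  let iM : Module R M := Module.compHom M φ
  have hsm : ∀ (r : R) (m : M), r • m = φ r m := fun r m => rfl
  -- the action on `R`
  let ψ : P →* (R ≃ₐ[ℤ] R) := (MonoidAlgebra.domCongrAut (R := ℤ) (A := ℤ) (M := A)).comp MulAut.conjNormal
  let iR : MulSemiringAction P R := MulSemiringAction.compHom R ψ
  have hψ : ∀ (g : P) (a : A) (n : ℤ),
      g • (single a n : R) = (single (MulAut.conjNormal g a) n : R) := by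
    intro g a n
    show MonoidAlgebra.domCongr ℤ ℤ (MulAut.conjNormal g) (single a n) = _
    simp
  refine ⟨R, inferInstance, iM, iR, ⟨?_⟩, ?_⟩
  · refine ⟨MonoidAlgebra.of ℤ A, ?_, ?_, ?_, ?_⟩
    · intro g r m
      induction r using MonoidAlgebra.induction_linear with
      | zero => simp
      | add x y hx hy => rw [add_smul, smul_add, hx, hy, smul_add, add_smul]
      | single a n =>
        rw [hψ, hsm, hsm, hφ, hφ]
        show g • (n • ((a : P) • m)) = n • ((g * (a : P) * g⁻¹) • (g • m))
        rw [smul_comm g n, smul_smul, smul_smul]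
        congr 2
        group
    · intro a m
      rw [hsm]
      show φ (single a 1) m = _
      rw [hφ, one_smul]
    · intro g a h
      show g • (single a 1 : R) = (single _ 1 : R)
      rw [hψ]
      congr 1
    · rw [eq_top_iff]
      rintro x -
      induction x using MonoidAlgebra.induction_linear with
      | zero => exact Subalgebra.zero_mem _
      | add x y hx hy => exact Subalgebra.add_mem _ hx hy
      | single a n =>
        have : (single a n : R) = n • (MonoidAlgebra.of ℤ A a) := by
          simp
        rw [this]
        exact zsmul_mem (Algebra.subset_adjoin (Set.mem_range_self a)) n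
  · have : Group.FG A := (Group.fg_iff_subgroup_fg A).2 hfg
    have h : Algebra.FiniteType ℤ (MonoidAlgebra ℤ A) := inferInstance
    exact h

end Pool.Agent.D5
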