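import Pool.Agent.Lib.MP_d5e6ed_al.B.Comb
import Pool.Agent.Lib.MP_d5e6ed_al.B.Semi
import Pool.Agent.Lib.MP_d5e6ed_al.B.Separation
import Pool.Agent.Lib.MP_d5e6ed_al.B.Choice
import Pool.Agent.Lib.MP_d5e6ed_al.B.Setup

/-!
# Theorem A
-/

set_option autoImplicit false

namespace Pool.Agent.D5

universe u

open Subgroup

theorem thmA_step {P M : Type u} [Group P] [AddCommGroup M] [DistribMulAction P M]
    (hP : PC P) (ih : ThmA.{u} (hl P)) (hM : FGAct P M) (hH : HC P M) :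
    ∃ m : M, Finite (MulAction.stabilizer P m) := by
  classical
  rcases finite_or_infinite P with hfin | hinf
  · exact ⟨0, inferInstance⟩
  obtain ⟨A, hAn, hA0, hab, htf, hmax⟩ := exists_max_abelian hP
  haveI := hAn
  obtain ⟨R, iR, iM, iP, ⟨S⟩, hft⟩ := exists_setup (M := M) A hab (hP.fg A)
  obtain ⟨F, y, N, hF, hfaith, hN, hfin⟩ := comb S hP le_rfl ih hM hH hab htf hA0 hmax
  have hprime : ∀ p ∈ F, p.IsPrime := fun p hp => (hF hp).prop.isPrime
  have hy : ∀ p ∈ F, (∀ r ∈ p, r • y p = 0) ∧ ∀ r : R, r ∉ p → r • y p ≠ 0 := by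
    intro p hp
    obtain ⟨hT, _, hyN, hy0⟩ := hN p hp
    exact ⟨fun r hr => hT.1 r hr _ hyN, fun r hr h0 => hy0 (hT.2 r hr _ hyN h0)⟩
  -- the elements `r_p`
  have hr : ∀ p : Ideal R, ∃ r : R, p ∈ F → r ∉ p ∧ ∀ C : Subgroup P,
      (∀ g ∈ C, (∀ r, r ∈ p ↔ g • r ∈ p) ∧
        ∃ s : R, s ∉ p ∧ s • (g • (r • y p) - r • y p) = 0) →
      ∃ C' ≤ C, C'.relIndex C ≠ 0 ∧ ∀ g ∈ C', ∀ a : A, g • S.α a - S.α a ∈ p := by
    intro p
    by_cases hp : p ∈ F
    · haveI := hprime p hp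
      obtain ⟨r, hr, h⟩ := semi S hP p (y p) (hy p hp).1 (hy p hp).2
      exact ⟨r, fun _ => ⟨hr, h⟩⟩
    · exact ⟨0, fun h => absurd h hp⟩
  choose r hr using hr
  have hx : ∀ p ∈ F, (∀ s ∈ p, s • (r p • y p) = 0) ∧ ∀ s, s ∉ p → s • (r p • y p) ≠ 0 := by
    intro p hp
    haveI := hprime p hp
    refine ⟨fun s hs => ?_, fun s hs h0 => ?_⟩
    · rw [smul_comm, (hy p hp).1 s hs, smul_zero]
    · rw [smul_smul] at h0
      refine (hy p hp).2 (s * r p) ?_ h0
      intro hmem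
      rcases (hprime p hp).mem_or_mem hmem with h | h
      · exact hs h
      · exact (hr p hp).1 h
  obtain ⟨C, hC, hCi, hCp⟩ := separation S F hF (fun p => r p • y p) hx
  set m : M := ∑ p ∈ F, r p • y p with hm
  have hC' : ∀ p ∈ F, ∃ C' ≤ C, C'.relIndex C ≠ 0 ∧ ∀ g ∈ C', ∀ a : A, g • S.α a - S.α a ∈ p :=
    fun p hp => (hr p hp).2 C fun g hg => hCp g hg p hp
  -- intersection
  have key : ∀ F' : Finset (Ideal R), F' ⊆ F → ∃ C' ≤ C, C'.relIndex C ≠ 0 ∧
      ∀ g ∈ C', ∀ p ∈ F', ∀ a : A, g • S.α a - S.α a ∈ p := by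
    intro F'
    induction F' using Finset.induction_on with
    | empty => exact fun _ => ⟨C, le_rfl, by simp, by simp⟩
    | insert p F' hp IH =>
      intro hsub
      obtain ⟨C₁, h1, h1i, h1p⟩ := IH fun q hq => hsub (Finset.mem_insert_of_mem hq)
      obtain ⟨C₂, h2, h2i, h2p⟩ := hC' p (hsub (Finset.mem_insert_self _ _))
      refine ⟨C₁ ⊓ C₂, inf_le_left.trans h1, ?_, ?_⟩
      · exact Subgroup.relIndex_inf_ne_zero h1i h2i
      · intro g hg q hq a
        rcases Finset.mem_insert.1 hq with h | h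
        · subst h
          exact h2p g hg.2 a
        · exact h1p g hg.1 q h a
  obtain ⟨C', hC'C, hC'i, hC'p⟩ := key F (Finset.Subset.refl _)
  -- `C'` centralises `A`
  have hcent : C' ≤ centralizer (A : Set P) := by
    intro g hg
    rw [Subgroup.mem_centralizer_iff]
    intro a ha
    have hga : g * a * g⁻¹ ∈ A := hAn.conj_mem a ha g
    have h1 : ∀ p ∈ F, S.α (⟨g * a * g⁻¹, hga⟩ * (⟨a, ha⟩ : A)⁻¹) - 1 ∈ p := by
      intro p hp
      have h2 := hC'p g hg p hp ⟨a, ha⟩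
      rw [S.conj g ⟨a, ha⟩ hga] at h2
      have h3 := p.mul_mem_right (S.α (⟨a, ha⟩ : A)⁻¹) h2
      rw [sub_mul, ← map_mul, ← map_mul, mul_inv_cancel, map_one] at h3
      exact h3
    have h4 := hfaith _ h1
    have h5 : g * a * g⁻¹ * a⁻¹ = 1 := by
      have := congrArg (Subtype.val) h4
      simpa using this
    have h6 : g * a * g⁻¹ = a := mul_inv_eq_one.1 h5
    calc a * g = g * a * g⁻¹ * g := by rw [h6]
      _ = g * a := by group
  -- `C'` fixes the `y p`
  have hfix : ∀ g ∈ C', ∀ p ∈ F, g • y p = y p := by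
    intro g hg p hp
    haveI := hprime p hp
    obtain ⟨hT, hInv, hyN, hy0⟩ := hN p hp
    obtain ⟨_, s, hs, h0⟩ := hCp g (hC'C hg) p hp
    have hlin := (lin_of_cent S (hcent hg)).2
    rw [hlin, ← smul_sub, smul_smul] at h0
    have hsr : s * r p ∉ p := by
      intro hmem
      rcases (hprime p hp).mem_or_mem hmem with h | h
      · exact hs h
      · exact (hr p hp).1 h
    have hmemN : g • y p - y p ∈ N p := (N p).sub_mem (hInv g (hcent hg) _ hyN) hyN
    exact sub_eq_zero.1 (hT.2 _ hsr _ hmemN h0)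
  have hC'fin : (C' : Set P).Finite := hfin.subset fun g hg => ⟨hcent hg, hfix g hg⟩
  haveI : Finite C' := hC'fin.to_subtype
  -- so the stabiliser is finite
  refine ⟨m, ?_⟩
  have h1 : C'.relIndex (MulAction.stabilizer P m) ≠ 0 :=
    Subgroup.relIndex_ne_zero_trans hC'i hCi
  have h2 : (⊥ : Subgroup P).relIndex C' ≠ 0 := by
    rw [Subgroup.relIndex_bot_left]
    exact Nat.card_pos.ne'
  have h3 := Subgroup.relIndex_ne_zero_trans h2 h1
  rw [Subgroup.relIndex_bot_left] at h3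
  exact Nat.finite_of_card_ne_zero h3

theorem thmA (n : ℕ∞) : ThmA.{u} n := by
  induction n using WellFoundedLT.induction with
  | ind n IH =>
    intro P M _ _ _ hP hlt hM hH
    exact thmA_step hP (IH (hl P) hlt) hM hH

end Pool.Agent.D5
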